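import Mathlib

open Set Topology Filter

namespace Pool.Agent.Helper754

/-- `f` restricted to `E` is a homeomorphism onto its image (elementary form). -/
def EmbOn (f : ℝ → ℝ) (E : Set ℝ) : Prop :=
  ∀ x ∈ E, (∀ V ∈ 𝓝 (f x), ∃ U ∈ 𝓝 x, ∀ y ∈ E, y ∈ U → f y ∈ V) ∧
           (∀ U ∈ 𝓝 x, ∃ V ∈ 𝓝 (f x), ∀ y ∈ E, f y ∈ V → y ∈ U)

def Le (E F : Set ℝ) : Prop := ∃ f : ℝ → ℝ, EmbOn f E ∧ MapsTo f E F

theorem EmbOn.mono {f : ℝ → ℝ} {E E' : Set ℝ} (h : EmbOn f E) (hs : E' ⊆ E) : EmbOn f E' := by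
  intro x hx
  obtain ⟨h1, h2⟩ := h x (hs hx)
  refine ⟨fun V hV => ?_, fun U hU => ?_⟩
  · obtain ⟨U, hU, h3⟩ := h1 V hV
    exact ⟨U, hU, fun y hy hyU => h3 y (hs hy) hyU⟩
  · obtain ⟨V, hV, h3⟩ := h2 U hU
    exact ⟨V, hV, fun y hy hyU => h3 y (hs hy) hyU⟩

theorem EmbOn.injOn {f : ℝ → ℝ} {E : Set ℝ} (h : EmbOn f E) : InjOn f E := by
  intro x hx y hy hxy
  by_contra hne
  obtain ⟨-, h2⟩ := h x hx
  obtain ⟨V, hV, h3⟩ := h2 {y}ᶜ (isOpen_compl_singleton.mem_nhds hne)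
  have := h3 y hy (by rw [← hxy]; exact mem_of_mem_nhds hV)
  exact this rfl

theorem EmbOn.congr {f g : ℝ → ℝ} {E : Set ℝ} (h : EmbOn f E) (hfg : ∀ x ∈ E, g x = f x) :
    EmbOn g E := by
  intro x hx
  obtain ⟨h1, h2⟩ := h x hx
  rw [hfg x hx]
  refine ⟨fun V hV => ?_, fun U hU => ?_⟩
  · obtain ⟨U, hU, h3⟩ := h1 V hV
    exact ⟨U, hU, fun y hy hyU => by rw [hfg y hy]; exact h3 y hy hyU⟩
  · obtain ⟨V, hV, h3⟩ := h2 U hU
    exact ⟨V, hV, fun y hy hyU => h3 y hy (by rw [← hfg y hy]; exact hyU)⟩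

theorem EmbOn.comp {f g : ℝ → ℝ} {E F : Set ℝ} (hg : EmbOn g F) (hf : EmbOn f E)
    (hm : MapsTo f E F) : EmbOn (fun x => g (f x)) E := by
  intro x hx
  obtain ⟨h1, h2⟩ := hf x hx
  obtain ⟨h3, h4⟩ := hg (f x) (hm hx)
  refine ⟨fun V hV => ?_, fun U hU => ?_⟩
  · obtain ⟨U, hU, h5⟩ := h3 V hV
    obtain ⟨U', hU', h6⟩ := h1 U hU
    exact ⟨U', hU', fun y hy hyU => h5 _ (hm hy) (h6 y hy hyU)⟩
  · obtain ⟨V, hV, h5⟩ := h2 U hU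
    obtain ⟨V', hV', h6⟩ := h4 V hV
    exact ⟨V', hV', fun y hy hyV => h5 y hy (h6 _ (hm hy) hyV)⟩

theorem EmbOn.id (E : Set ℝ) : EmbOn (fun x => x) E :=
  fun _ _ => ⟨fun V hV => ⟨V, hV, fun _ _ h => h⟩, fun U hU => ⟨U, hU, fun _ _ h => h⟩⟩

theorem EmbOn.empty (f : ℝ → ℝ) : EmbOn f ∅ := fun _ hx => absurd hx (by simp)

theorem Le.refl (E : Set ℝ) : Le E E := ⟨fun x => x, EmbOn.id E, fun _ h => h⟩

theorem Le.of_subset {E F : Set ℝ} (h : E ⊆ F) : Le E F := ⟨fun x => x, EmbOn.id E, h⟩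

theorem Le.trans {E F G : Set ℝ} (h1 : Le E F) (h2 : Le F G) : Le E G := by
  obtain ⟨f, hf, hfm⟩ := h1
  obtain ⟨g, hg, hgm⟩ := h2
  exact ⟨_, hg.comp hf hfm, hgm.comp hfm⟩

theorem Le.empty (F : Set ℝ) : Le ∅ F := Le.of_subset (empty_subset _)

/-- left-inverse criterion -/
theorem EmbOn.of_leftInv {f g : ℝ → ℝ} {E : Set ℝ} (hf : ContinuousOn f E)
    (hg : ContinuousOn g (f '' E)) (hgf : ∀ x ∈ E, g (f x) = x) : EmbOn f E := by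
  intro x hx
  refine ⟨fun V hV => ?_, fun U hU => ?_⟩
  · have := hf x hx hV
    rw [mem_map, mem_nhdsWithin_iff_exists_mem_nhds_inter] at this
    obtain ⟨U, hU, h⟩ := this
    exact ⟨U, hU, fun y hy hyU => h ⟨hyU, hy⟩⟩
  · have h1 := hg (f x) (mem_image_of_mem f hx)
    have h2 : U ∈ 𝓝 (g (f x)) := by rw [hgf x hx]; exact hU
    have := h1 h2
    rw [mem_map, mem_nhdsWithin_iff_exists_mem_nhds_inter] at this
    obtain ⟨V, hV, h⟩ := this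
    refine ⟨V, hV, fun y hy hyV => ?_⟩
    have := h ⟨hyV, mem_image_of_mem f hy⟩
    rw [mem_preimage, hgf y hy] at this
    exact this

theorem EmbOn.continuousOn {f : ℝ → ℝ} {E : Set ℝ} (h : EmbOn f E) : ContinuousOn f E := by
  intro x hx V hV
  obtain ⟨U, hU, h3⟩ := (h x hx).1 V hV
  rw [mem_map, mem_nhdsWithin_iff_exists_mem_nhds_inter]
  exact ⟨U, hU, fun y hy => h3 y hy.2 hy.1⟩

theorem EmbOn.inv {f : ℝ → ℝ} {E : Set ℝ} (h : EmbOn f E) :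
    ∃ g : ℝ → ℝ, EmbOn g (f '' E) ∧ (∀ x ∈ E, g (f x) = x) ∧ MapsTo g (f '' E) E := by
  classical
  have hinj := h.injOn
  refine ⟨Function.invFunOn f E, ?_, fun x hx => hinj.leftInvOn_invFunOn hx, ?_⟩
  · rintro _ ⟨x, hx, rfl⟩
    rw [hinj.leftInvOn_invFunOn hx]
    obtain ⟨h1, h2⟩ := h x hx
    refine ⟨fun V hV => ?_, fun U hU => ?_⟩
    · obtain ⟨U, hU, h3⟩ := h2 V hV
      refine ⟨U, hU, ?_⟩
      rintro _ ⟨y, hy, rfl⟩ hyU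
      rw [hinj.leftInvOn_invFunOn hy]
      exact h3 y hy hyU
    · obtain ⟨U', hU', h3⟩ := h1 U hU
      refine ⟨U', hU', ?_⟩
      rintro _ ⟨y, hy, rfl⟩ hyU
      rw [hinj.leftInvOn_invFunOn hy] at hyU
      exact h3 y hy hyU
  · rintro _ ⟨x, hx, rfl⟩
    rw [hinj.leftInvOn_invFunOn hx]
    exact hx

theorem EmbOn.le_image {f : ℝ → ℝ} {E : Set ℝ} (h : EmbOn f E) : Le (f '' E) E := by
  obtain ⟨g, hg, -, hm⟩ := h.inv
  exact ⟨g, hg, hm⟩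

theorem EmbOn.isEmbedding {f : ℝ → ℝ} {E F : Set ℝ} (h : EmbOn f E) (hm : MapsTo f E F) :
    Topology.IsEmbedding (fun x : E => (⟨f x, hm x.2⟩ : F)) := by
  have hinj : Function.Injective (fun x : E => (⟨f x, hm x.2⟩ : F)) := by
    intro x y hxy
    simp only [Subtype.mk.injEq] at hxy
    exact Subtype.ext (h.injOn x.2 y.2 hxy)
  refine ⟨Topology.isInducing_iff_nhds.2 fun x => ?_, hinj⟩
  obtain ⟨h1, h2⟩ := h x.1 x.2
  ext s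
  rw [mem_nhds_subtype, mem_comap]
  constructor
  · rintro ⟨U, hU, hUs⟩
    obtain ⟨V, hV, hVU⟩ := h2 U hU
    refine ⟨Subtype.val ⁻¹' V, ?_, ?_⟩
    · rw [mem_nhds_subtype]
      exact ⟨V, hV, subset_rfl⟩
    · intro y hy
      exact hUs (hVU y.1 y.2 hy)
  · rintro ⟨t, ht, hts⟩
    rw [mem_nhds_subtype] at ht
    obtain ⟨V, hV, hVt⟩ := ht
    obtain ⟨U, hU, hUV⟩ := h1 V hV
    refine ⟨U, hU, fun y hy => ?_⟩
    apply hts
    apply hVt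
    exact hUV y.1 y.2 hy

theorem Le_iff (E F : Set ℝ) : Le E F ↔ ∃ f : E → F, Topology.IsEmbedding f := by
  classical
  constructor
  · rintro ⟨f, hf, hm⟩
    exact ⟨_, hf.isEmbedding hm⟩
  · rintro ⟨f, hf⟩
    set g : ℝ → ℝ := fun x => if hx : x ∈ E then (f ⟨x, hx⟩ : ℝ) else 0 with hgdef
    have hg : ∀ (x : ℝ) (hx : x ∈ E), g x = (f ⟨x, hx⟩ : ℝ) := fun x hx => by
      simp [hgdef, hx]
    refine ⟨g, ?_, fun x hx => by rw [hg x hx]; exact (f ⟨x, hx⟩).2⟩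
    intro x hx
    have hn := (Topology.isInducing_iff_nhds.1 hf.1) ⟨x, hx⟩
    rw [hg x hx]
    refine ⟨fun V hV => ?_, fun U hU => ?_⟩
    · have h1 : (Subtype.val ⁻¹' V : Set F) ∈ 𝓝 (f ⟨x, hx⟩) := by
        rw [mem_nhds_subtype]; exact ⟨V, hV, subset_rfl⟩
      have h2 : f ⁻¹' (Subtype.val ⁻¹' V : Set F) ∈ 𝓝 (⟨x, hx⟩ : E) := by
        rw [hn]; exact preimage_mem_comap h1
      rw [mem_nhds_subtype] at h2
      obtain ⟨U, hU, h3⟩ := h2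
      refine ⟨U, hU, fun y hy hyU => ?_⟩
      rw [hg y hy]
      exact h3 (show (⟨y, hy⟩ : E) ∈ Subtype.val ⁻¹' U from hyU)
    · have h1 : (Subtype.val ⁻¹' U : Set E) ∈ 𝓝 (⟨x, hx⟩ : E) := by
        rw [mem_nhds_subtype]; exact ⟨U, hU, subset_rfl⟩
      rw [hn, mem_comap] at h1
      obtain ⟨t, ht, h2⟩ := h1
      rw [mem_nhds_subtype] at ht
      obtain ⟨V, hV, h3⟩ := ht
      refine ⟨V, hV, fun y hy hyV => ?_⟩
      rw [hg y hy] at hyV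
      exact h2 (h3 hyV : f ⟨y, hy⟩ ∈ t)

end Pool.Agent.Helper754
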