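import Pool.Agent.Helper754.Setup

open Set Topology Filter

namespace Pool.Agent.Helper754

def Lt (E F : Set ℝ) : Prop := Le E F ∧ ¬ Le F E
def Pr (E F : Set ℝ) : Prop := Lt E F ∧ ¬ ∃ G, Lt E G ∧ Lt G F

theorem pr_of {E F : Set ℝ} (h1 : Le E F) (h2 : ¬ Le F E)
    (h3 : ∀ Z ⊆ F, Le E Z → Le Z E ∨ Le F Z) : Pr E F := by
  refine ⟨⟨h1, h2⟩, ?_⟩
  rintro ⟨G, ⟨hEG, hGE⟩, ⟨g, hg, hgm⟩, hFG⟩
  have h4 : Le G (g '' G) := Le.image_right hg
  have h5 : Le (g '' G) G := Le.image_left hg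
  rcases h3 (g '' G) (by rintro _ ⟨x, hx, rfl⟩; exact hgm hx) (hEG.trans h4) with h | h
  · exact hGE (h4.trans h)
  · exact hFG (h.trans h5)

theorem EmbOn.two {f1 f2 : ℝ → ℝ} {E1 E2 O1 O2 G1 G2 : Set ℝ} (hO1 : IsOpen O1) (hO2 : IsOpen O2)
    (hO : Disjoint O1 O2) (hG1 : IsOpen G1) (hG2 : IsOpen G2) (hG : Disjoint G1 G2)
    (h1 : EmbOn f1 E1) (h2 : EmbOn f2 E2) (s1 : E1 ⊆ O1) (s2 : E2 ⊆ O2)
    (m1 : MapsTo f1 E1 G1) (m2 : MapsTo f2 E2 G2) :
    ∃ f : ℝ → ℝ, EmbOn f (E1 ∪ E2) ∧ (∀ x ∈ E1, f x = f1 x) ∧ ∀ x ∈ E2, f x = f2 x := by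
  classical
  let P : Bool → Set ℝ := fun b => if b then E1 else E2
  let g : Bool → ℝ → ℝ := fun b => if b then f1 else f2
  have hd : ∀ i j x, x ∈ P i → x ∈ P j → i = j := by
    rintro (_ | _) (_ | _) x hx hy
    · rfl
    · exact absurd (s2 (by simpa [P] using hx)) (disjoint_left.1 hO (s1 (by simpa [P] using hy)))
    · exact absurd (s2 (by simpa [P] using hy)) (disjoint_left.1 hO (s1 (by simpa [P] using hx)))
    · rfl
  have e1 : ∀ x ∈ E1, pieceFn P g (fun x => x) x = f1 x := by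
    intro x hx
    have := pieceFn_eq (P := P) (g := g) (b := fun x => x) hd (i := true) (x := x)
      (by simpa [P] using hx)
    simpa [g] using this
  have e2 : ∀ x ∈ E2, pieceFn P g (fun x => x) x = f2 x := by
    intro x hx
    have := pieceFn_eq (P := P) (g := g) (b := fun x => x) hd (i := false) (x := x)
      (by simpa [P] using hx)
    simpa [g] using this
  refine ⟨pieceFn P g (fun x => x), ?_, e1, e2⟩
  apply EmbOn.glue (L := ∅) (P := P)
  · rintro x (hx | hx)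
    · exact Or.inr ⟨true, by simpa [P] using hx⟩
    · exact Or.inr ⟨false, by simpa [P] using hx⟩
  · rintro (_ | _)
    · have : P false = E2 := by simp [P]
      rw [this]
      exact h2.congr e2
    · have : P true = E1 := by simp [P]
      rw [this]
      exact h1.congr e1
  · rintro (_ | _) x hx
    · have hx' : x ∈ E2 := by simpa [P] using hx
      refine ⟨O2, hO2.mem_nhds (s2 hx'), ?_⟩
      rintro y (hy | hy) hyU
      · exact absurd hyU (disjoint_left.1 hO (s1 hy))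
      · simpa [P] using hy
    · have hx' : x ∈ E1 := by simpa [P] using hx
      refine ⟨O1, hO1.mem_nhds (s1 hx'), ?_⟩
      rintro y (hy | hy) hyU
      · simpa [P] using hy
      · exact absurd (s2 hy) (disjoint_left.1 hO hyU)
  · rintro (_ | _) x hx
    · have hx' : x ∈ E2 := by simpa [P] using hx
      refine ⟨G2, hG2.mem_nhds (by rw [e2 x hx']; exact m2 hx'), ?_⟩
      rintro y (hy | hy) hyU
      · rw [e1 y hy] at hyU
        exact absurd hyU (disjoint_left.1 hG (m1 hy))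
      · simpa [P] using hy
    · have hx' : x ∈ E1 := by simpa [P] using hx
      refine ⟨G1, hG1.mem_nhds (by rw [e1 x hx']; exact m1 hx'), ?_⟩
      rintro y (hy | hy) hyU
      · simpa [P] using hy
      · rw [e2 y hy] at hyU
        exact absurd (m2 hy) (disjoint_left.1 hG hyU)
  · intro x _ hx
    exact absurd hx (by simp)

/-- one-sided union -/
theorem ev_union {x : ℝ} {S Q O1 O2 V : Set ℝ} (hO1 : IsOpen O1) (hO2 : IsOpen O2)
    (hd : Disjoint O1 O2) (hQ : Q ⊆ O1 ∪ O2) (h1 : Q ∩ O1 ∈ Idl x S) (hV : V ∈ 𝓝 x)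
    (h2 : ∃ V' ∈ 𝓝 x, Le (Q ∩ O2) ((S ∩ V) \ V')) :
    ∃ V' ∈ 𝓝 x, Le Q ((S ∩ V) \ V') := by
  obtain ⟨U1, hU1, hle1⟩ := h2
  obtain ⟨ε, hε, hb⟩ := Metric.nhds_basis_closedBall.mem_iff.1 (inter_mem hU1 hV)
  obtain ⟨U2, hU2, hle2⟩ := h1 (Metric.ball x ε) (Metric.ball_mem_nhds x hε)
  refine ⟨U2 ∩ Metric.ball x ε, inter_mem hU2 (Metric.ball_mem_nhds x hε), ?_⟩
  apply Le.iUnion (O := fun b : Bool => if b then O2 else O1)
    (G := fun b : Bool => if b then (Metric.closedBall x ε)ᶜ else Metric.ball x ε)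
  · rintro (_ | _) <;> simp [hO1, hO2]
  · rintro (_ | _) (_ | _) y hy1 hy2
    · rfl
    · exact absurd hy2 (disjoint_left.1 hd hy1)
    · exact absurd hy1 (disjoint_left.1 hd hy2)
    · rfl
  · rintro (_ | _)
    · simp
    · simpa using Metric.isClosed_closedBall
  · rintro (_ | _) (_ | _) y hy1 hy2
    · rfl
    · exact absurd (Metric.ball_subset_closedBall (by simpa using hy1)) (by simpa using hy2)
    · exact absurd (Metric.ball_subset_closedBall (by simpa using hy2)) (by simpa using hy1)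
    · rfl
  · intro y hy
    rcases hQ hy with h | h
    · exact ⟨false, by simpa using h⟩
    · exact ⟨true, by simpa using h⟩
  · rintro (_ | _)
    · refine Le.trans (by simpa using hle2) (Le.of_subset ?_)
      rintro y ⟨⟨hy1, hy2⟩, hy3⟩
      refine ⟨⟨⟨hy1, (hb (Metric.ball_subset_closedBall hy2)).2⟩, fun h => hy3 h.1⟩,
        by simpa using hy2⟩
    · refine Le.trans (by simpa using hle1) (Le.of_subset ?_)
      rintro y ⟨⟨hy1, hy2⟩, hy3⟩
      have h4 : y ∉ Metric.closedBall x ε := fun h => hy3 (hb h).1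
      refine ⟨⟨⟨hy1, hy2⟩, fun h => h4 (Metric.ball_subset_closedBall h.2)⟩, ?_⟩
      simpa using h4

theorem gaps_mem {T S : Set ℝ} {x : ℝ} (hT : ∀ z ∈ T, ∃ j, z ∈ gap j)
    (h : ∀ j, T ∩ gap j ∈ Idl x S) {U : Set ℝ} (hU : U ∈ 𝓝 (0 : ℝ)) (hTU : ∀ z ∈ T, z ∉ U) :
    T ∈ Idl x S := by
  have hgs : ∀ k z, z ∈ gap k → -sc k < z ∧ z < -(3/4) * sc k := fun k z hz => hz
  have key : ∀ n : ℕ, T ∩ Iio (-(3/4) * sc n) ∈ Idl x S := by
    intro n
    induction n with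
    | zero =>
      apply Idl.of_subset (h 0)
      rintro z ⟨hz, hz2⟩
      refine ⟨hz, ?_⟩
      obtain ⟨j, hj⟩ := hT z hz
      rw [mem_Iio, sc_zero] at hz2
      rcases Nat.eq_zero_or_pos j with h0 | h0
      · rw [h0] at hj; exact hj
      · have h1 := (hgs j z hj).1
        have h2 : sc j ≤ sc 1 := sc_anti.antitone h0
        have h3 : sc 1 = 1 / 2 := by simp [sc]
        linarith
    | succ n ih =>
      apply Idl.union (O1 := Iio (-(3/4) * sc n)) (O2 := Ioi (-(3/4) * sc n)) isOpen_Iio isOpen_Ioi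
      · rw [disjoint_left]
        intro z h1 h2
        exact lt_asymm (mem_Iio.1 h1) (mem_Ioi.1 h2)
      · rintro z ⟨hz, hz2⟩
        obtain ⟨j, hj⟩ := hT z hz
        obtain ⟨h4, h5⟩ := hgs j z hj
        rcases lt_trichotomy z (-(3/4) * sc n) with h1 | h1 | h1
        · exact Or.inl h1
        · exfalso
          rw [h1] at h4 h5
          have h6 : n < j := by
            by_contra hcon
            have := sc_anti.antitone (not_lt.1 hcon)
            linarith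
          have h7 : sc j ≤ sc (n + 1) := sc_anti.antitone h6
          rw [sc_succ] at h7
          have := sc_pos n
          linarith
        · exact Or.inr h1
      · apply Idl.of_subset ih
        rintro z ⟨hz, hz2⟩
        exact ⟨hz.1, hz2⟩
      · apply Idl.of_subset (h (n + 1))
        rintro z ⟨⟨hz, hz3⟩, hz2⟩
        refine ⟨hz, ?_⟩
        obtain ⟨j, hj⟩ := hT z hz
        obtain ⟨h4, h5⟩ := hgs j z hj
        rw [mem_Iio, sc_succ] at hz3
        rw [mem_Ioi] at hz2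
        have hn := sc_pos n
        have h6 : n < j := by
          by_contra hcon
          have := sc_anti.antitone (not_lt.1 hcon)
          linarith
        have h7 : j < n + 2 := by
          by_contra hcon
          have h8 : sc j ≤ sc (n + 2) := sc_anti.antitone (not_lt.1 hcon)
          rw [sc_succ, sc_succ] at h8
          linarith
        have h8 : j = n + 1 := by omega
        rw [h8] at hj
        exact hj
  obtain ⟨ε, hε, hb⟩ := Metric.nhds_basis_ball.mem_iff.1 hU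
  obtain ⟨n, hn⟩ := sc_small hε
  apply Idl.of_subset (key n)
  intro z hz
  refine ⟨hz, ?_⟩
  by_contra hcon
  apply hTU z hz
  apply hb
  obtain ⟨j, hj⟩ := hT z hz
  have h1 := gap_neg hj
  rw [mem_Iio, not_lt] at hcon
  rw [Metric.mem_ball, Real.dist_eq, sub_zero, abs_lt]
  constructor <;> linarith [sc_pos n]

namespace Data

variable {D : Data} {R : Set ℝ}

theorem fam_diff {j : ℕ} {U : Set ℝ} (hU : U ∈ 𝓝 (yy j)) :
    (psi j '' D.Fam j) \ U ∈ Idl 0 (D.Fam j) := by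
  have h1 : psi j ⁻¹' U ∈ 𝓝 (0 : ℝ) := by
    apply ContinuousAt.preimage_mem_nhds
    · unfold psi; fun_prop
    · rw [psi_zero]; exact hU
  apply Idl.of_le (D.Fam_good j _ h1)
  refine Le.trans (Le.of_subset ?_) (Le.image_left (psi_emb j (D.Fam j \ psi j ⁻¹' U)))
  rintro _ ⟨⟨x, hx, rfl⟩, hxU⟩
  exact ⟨x, ⟨hx, hxU⟩, rfl⟩

def Full (D : Data) (X' : Set ℝ) : Prop := ∀ j, Idl 0 (D.Fam j) ⊆ Idl (yy j) (X' ∩ gap j)

theorem full_of (hR : D.Rig R) {X : Set ℝ} (h1 : D.FF ⊆ X) (h2 : X ⊆ D.CC R) : Full D X := by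
  intro j
  rw [hR.gap_eq h1 h2 j, Idl_psi]

theorem Full.of_emb (hR : D.Rig R) {X Z : Set ℝ} {f : ℝ → ℝ} (hRX : R ⊆ X) (hYX : YY ⊆ X)
    (hZ : Z ⊆ D.CC R) (hf : EmbOn f X) (hm : MapsTo f X Z) (h : Full D X) : Full D Z :=
  fun j => (h j).trans (full_of_emb hR hRX hYX hZ hf hm j)

theorem cmp (hR : D.Rig R) {X X' : Set ℝ} (hX : X ⊆ D.CC R) (hR' : R ⊆ X') (hY' : YY ⊆ X')
    (h0 : (0 : ℝ) ∈ X → (0 : ℝ) ∈ X') (hfull : Full D X') {P : ℕ → Set ℝ}
    (hpos : ∀ x ∈ X, 0 < x → ∃ i, x ∈ P i)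
    (hDsub : ∀ i, ∀ x ∈ P i, x ∈ X ∧ 0 < x)
    (hDopen : ∀ i, ∀ x ∈ P i, ∃ U ∈ 𝓝 x, ∀ y ∈ X, y ∈ U → y ∈ P i)
    (hDdisj : ∀ i j x, x ∈ P i → x ∈ P j → i = j)
    (away : (0 : ℝ) ∈ X → ∀ i, ∃ δ > 0, ∀ x ∈ P (i + 1), δ ≤ x)
    (lim : (0 : ℝ) ∈ X → ∀ ε > 0, ∃ j0, ∀ j ≥ j0, ∀ x ∈ P (j + 2), x < ε)
    (hDm : ∀ j, P (j + 2) ∈ Idl 0 (D.Fam j))
    (hb : ∃ b : ℝ → ℝ, EmbOn b (P 0 ∪ (X ∩ {0})) ∧ ((0 : ℝ) ∈ X → b 0 = 0) ∧
      MapsTo b (P 0) (X' ∩ Ioo 0 1))
    (he : Le (P 1) (X' ∩ Ioi 2)) : Le X X' := by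
  have hcX : ∀ j, (X ∩ gap j).Countable := fun j =>
    (D.FF_countable.mono (by
      rintro z ⟨hz, hj⟩
      exact mem_iUnion.2 ⟨j, hR.gap_mem (hX hz) hj⟩))
  refine master hR.sub (fun x hx h => hR.neg_cases (hX hx) h) hR' hY' h0 hpos hDsub hDopen hDdisj
    away lim hcX ?_ ?_ (fun j => hfull j (hDm j)) hb he
  · intro j
    apply (D.ST_countable.union D.W_countable).mono
    intro z hz
    exact hR.pos_cases (hX (hDsub _ z hz).1) (hDsub _ z hz).2
  · intro j U hU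
    apply hfull j
    apply Idl.of_subset (fam_diff hU)
    rintro z ⟨⟨hz, hj⟩, hzU⟩
    exact ⟨hR.gap_mem (hX hz) hj, hzU⟩

/-- simple comparison with two positive pieces -/
theorem cmp2 (hR : D.Rig R) {X X' : Set ℝ} (hX : X ⊆ D.CC R) (hR' : R ⊆ X') (hY' : YY ⊆ X')
    (h0 : (0 : ℝ) ∈ X → (0 : ℝ) ∈ X') (hfull : Full D X') {Ob Oe : Set ℝ}
    (hOb : IsOpen Ob) (hOe : IsOpen Oe) (hd : Disjoint Ob Oe)
    (hpos : ∀ x ∈ X, 0 < x → x ∈ Ob ∨ x ∈ Oe)
    (away : (0 : ℝ) ∈ X → ∃ δ > 0, ∀ x ∈ X ∩ (Oe ∩ Ioi 0), δ ≤ x)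
    (hb : ∃ b : ℝ → ℝ, EmbOn b ((X ∩ (Ob ∩ Ioi 0)) ∪ (X ∩ {0})) ∧ ((0 : ℝ) ∈ X → b 0 = 0) ∧
      MapsTo b (X ∩ (Ob ∩ Ioi 0)) (X' ∩ Ioo 0 1))
    (he : Le (X ∩ (Oe ∩ Ioi 0)) (X' ∩ Ioi 2)) : Le X X' := by
  let P : ℕ → Set ℝ := fun i => match i with
    | 0 => X ∩ (Ob ∩ Ioi 0)
    | 1 => X ∩ (Oe ∩ Ioi 0)
    | _ + 2 => ∅
  refine cmp hR hX hR' hY' h0 hfull (P := P) ?_ ?_ ?_ ?_ ?_ ?_ ?_ hb he
  · intro x hx h
    rcases hpos x hx h with h1 | h1
    · exact ⟨0, hx, h1, h⟩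
    · exact ⟨1, hx, h1, h⟩
  · intro i x hx
    match i with
    | 0 => exact ⟨hx.1, hx.2.2⟩
    | 1 => exact ⟨hx.1, hx.2.2⟩
    | j + 2 => exact absurd hx (by simp [P])
  · intro i x hx
    match i with
    | 0 => exact ⟨_, (hOb.inter isOpen_Ioi).mem_nhds hx.2, fun y hy hyU => ⟨hy, hyU⟩⟩
    | 1 => exact ⟨_, (hOe.inter isOpen_Ioi).mem_nhds hx.2, fun y hy hyU => ⟨hy, hyU⟩⟩
    | j + 2 => exact absurd hx (by simp [P])
  · intro i j x hx hy
    match i, j with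
    | 0, 0 => rfl
    | 0, 1 => exact absurd hy.2.1 (disjoint_left.1 hd hx.2.1)
    | 0, j + 2 => exact absurd hy (by simp [P])
    | 1, 0 => exact absurd hx.2.1 (disjoint_left.1 hd hy.2.1)
    | 1, 1 => rfl
    | 1, j + 2 => exact absurd hy (by simp [P])
    | i + 2, _ => exact absurd hx (by simp [P])
  · intro h i
    match i with
    | 0 => exact away h
    | j + 1 => exact ⟨1, one_pos, fun x hx => absurd hx (by simp [P])⟩
  · intro h ε hε
    exact ⟨0, fun j _ x hx => absurd hx (by simp [P])⟩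
  · intro j
    exact Idl.empty_mem _ _

theorem sc_not_room {n k : ℕ} (h : sc n ∈ room k) : False := by
  have h1 := sc_anti.lt_iff_gt.1 h.1
  have h2 := sc_anti.lt_iff_gt.1 h.2
  omega

theorem ST_ne_sc {x : ℝ} (hx : x ∈ D.ST) (n : ℕ) : x ≠ sc n := by
  rintro rfl
  obtain ⟨k, hk⟩ := mem_fan_room hx
  exact sc_not_room hk

theorem ST_scale {x : ℝ} (hx : x ∈ D.ST) (n : ℕ) : sc n * x ∈ D.ST := by
  obtain ⟨k, y, hy, rfl⟩ := mem_iUnion.1 hx
  refine mem_iUnion.2 ⟨k + n, y, hy, ?_⟩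
  unfold rho
  rw [sc_add]
  ring

/-- spreading near the point 0 -/
theorem le_of_v (hR : D.Rig R) {X Z : Set ℝ} (hX : X ⊆ D.CC R) (hZ : Z ⊆ D.CC R) (hRZ : R ⊆ Z)
    (hYZ : YY ⊆ Z) (h0 : (0 : ℝ) ∈ Z) (hfull : Full D Z)
    (hinf : {n | ¬ D.Sg (Z ∩ room n)}.Infinite) (he : Le (X ∩ Ioi 1) (Z ∩ Ioi 2)) : Le X Z := by
  have hT : Z ∩ Ioo 0 1 ⊆ D.ST := fun z hz => hR.ST_mem (hZ hz.1) hz.2
  have hinf' : {n | ¬ D.Sg ((Z ∩ Ioo 0 1) ∩ room n)}.Infinite := by
    apply hinf.mono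
    intro n hn hs
    apply hn
    apply D.sg_sub hs
    rintro z ⟨hz1, hz2⟩
    exact ⟨⟨hz1, room_sub n hz2⟩, hz2⟩
  obtain ⟨b, hb, hb0, hbm⟩ := ST_emb hT hinf'
  refine cmp2 hR hX hRZ hYZ (fun _ => h0) hfull (Ob := Iio 1) (Oe := Ioi 1) isOpen_Iio isOpen_Ioi
    ?_ ?_ ?_ ?_ ?_
  · rw [disjoint_left]
    intro z h1 h2
    exact lt_asymm (mem_Iio.1 h1) (mem_Ioi.1 h2)
  · intro x hx h
    rcases hR.pos_cases (hX hx) h with h1 | h1
    · exact Or.inl (D.ST_sub h1).2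
    · right
      have := D.W_gt h1
      rw [mem_Ioi]
      linarith
  · intro _
    exact ⟨1, one_pos, fun x hx => (mem_Ioi.1 hx.2.1).le⟩
  · refine ⟨b, hb.mono ?_, fun _ => hb0, ?_⟩
    · rintro z (⟨h1, h2, h3⟩ | ⟨-, h⟩)
      · exact Or.inr (hR.ST_mem (hX h1) ⟨h3, h2⟩)
      · exact Or.inl h
    · rintro z ⟨h1, h2, h3⟩
      exact hbm (hR.ST_mem (hX h1) ⟨h3, h2⟩)
  · refine Le.trans (Le.of_subset ?_) he
    exact fun z hz => ⟨hz.1, hz.2.1⟩

theorem zero_not_FF : (0 : ℝ) ∉ D.FF := by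
  intro h
  obtain ⟨j, hj, -⟩ := D.FF_gap h
  exact lt_irrefl _ (gap_neg hj)

theorem zero_not_AA (hR : D.Rig R) : (0 : ℝ) ∉ D.AA R := by
  rintro ((h | ⟨j, h⟩) | (h | h))
  · obtain ⟨j, hj⟩ := mem_iUnion.1 (hR.sub h)
    exact lt_irrefl _ (JJ_neg hj)
  · have := yy_neg j
    linarith
  · exact zero_not_FF h
  · have := D.W_gt h
    linarith

theorem A_le_B (hR : D.Rig R) : Le (D.AA R) (D.BB R) := by
  have hpW : ∀ x ∈ D.AA R, 0 < x → x ∈ D.W := by
    rintro x ((h | ⟨j, rfl⟩) | (h | h)) hx0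
    · obtain ⟨j, hj⟩ := mem_iUnion.1 (hR.sub h)
      exact absurd hx0 (not_lt.2 (JJ_neg hj).le)
    · exact absurd hx0 (not_lt.2 (yy_neg j).le)
    · obtain ⟨j, hj, -⟩ := D.FF_gap h
      exact absurd hx0 (not_lt.2 (gap_neg hj).le)
    · exact h
  refine cmp2 hR AA_sub (fun x hx => Or.inl (Or.inl (Or.inl hx)))
    (fun x hx => Or.inl (Or.inl (Or.inr hx))) (fun h => absurd h (zero_not_AA hR))
    (full_of hR (fun x hx => Or.inr (Or.inl hx)) BB_sub)
    (Ob := univ) (Oe := ∅) isOpen_univ isOpen_empty (disjoint_empty _) ?_ ?_ ?_ ?_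
  · exact fun x _ _ => Or.inl (mem_univ x)
  · exact fun h => absurd h (zero_not_AA hR)
  · refine ⟨thi, thi_emb ?_, fun h => absurd h (zero_not_AA hR), ?_⟩
    · rintro x (⟨h1, -, h3⟩ | ⟨h1, h2⟩)
      · have := D.W_gt (hpW x h1 h3)
        rw [mem_Ioi]
        linarith
      · rw [mem_singleton_iff] at h2
        rw [h2] at h1
        exact absurd h1 (zero_not_AA hR)
    · rintro x ⟨h1, -, h3⟩
      obtain ⟨t, ht, rfl⟩ := hpW x h1 h3
      rw [thi_th (D.ST_sub ht).1]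
      exact ⟨Or.inr (Or.inr ht), D.ST_sub ht⟩
  · have : D.AA R ∩ (∅ ∩ Ioi 0) = ∅ := by simp
    rw [this]
    exact Le.empty _

theorem le_A (hR : D.Rig R) {Z : Set ℝ} (hZ : Z ⊆ D.BB R) (h0 : (0 : ℝ) ∉ Z) :
    Le Z (D.AA R) := by
  refine cmp2 hR (hZ.trans BB_sub) (fun x hx => Or.inl (Or.inl hx))
    (fun x hx => Or.inl (Or.inr hx)) (fun h => absurd h h0)
    (full_of hR (fun x hx => Or.inr (Or.inl hx)) AA_sub)
    (Ob := ∅) (Oe := univ) isOpen_empty isOpen_univ (empty_disjoint _) ?_ ?_ ?_ ?_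
  · exact fun x _ _ => Or.inr (mem_univ x)
  · exact fun h => absurd h h0
  · refine ⟨fun x => x, EmbOn.id _, fun h => absurd h h0, ?_⟩
    rintro x ⟨-, h, -⟩
    exact absurd h (by simp)
  · refine ⟨th, th_emb (fun x hx => hx.2.2), ?_⟩
    rintro x ⟨h1, -, h3⟩
    have hx : x ∈ D.ST := by
      rcases hZ h1 with h | (h | h)
      · exact absurd h3 (not_lt.2 (LL_le hR.sub h))
      · obtain ⟨j, hj, -⟩ := D.FF_gap h
        exact absurd h3 (not_lt.2 (gap_neg hj).le)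
      · exact h
    exact ⟨Or.inr (Or.inr ⟨x, hx, rfl⟩), th_gt (D.ST_sub hx)⟩

theorem infinite_of_maps {X : Set ℝ} {f : ℝ → ℝ} (hf : EmbOn f X) {t : ℕ → ℝ}
    (ht : Function.Injective t) (htX : ∀ n, t n ∈ X) {I : Set ℕ} (hI : I.Infinite) {u : ℕ → ℝ}
    {K : Set ℕ} (h : ∀ n ∈ I, ∃ m ∈ K, f (t n) = u m) : K.Infinite := by
  intro hK
  apply hI
  have h1 : ((fun n => f (t n)) '' I).Finite := by
    apply (hK.image u).subset
    rintro _ ⟨n, hn, rfl⟩
    obtain ⟨m, hm, h2⟩ := h n hn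
    exact ⟨m, hm, h2.symm⟩
  apply Set.Finite.of_finite_image h1
  intro a _ b _ hab
  exact ht (hf.injOn (htX a) (htX b) hab)

theorem wt_pos (n : ℕ) : 2 < D.wt n := th_gt (room_sub n (rho_mem_room n D.v))
theorem vt_room (n : ℕ) : D.vt n ∈ room n := rho_mem_room n D.v
theorem vt_Ioo (n : ℕ) : D.vt n ∈ Ioo (0 : ℝ) 1 := room_sub n (vt_room n)

theorem BB_lt {z : ℝ} (hR : D.Rig R) (hz : z ∈ D.BB R) : z < 1 := by
  rcases hz with h | (h | h)
  · have := LL_le hR.sub h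
    linarith
  · obtain ⟨j, hj, -⟩ := D.FF_gap h
    have := gap_neg hj
    linarith
  · exact (D.ST_sub h).2

theorem Pr_AB (hR : D.Rig R) : Pr (D.AA R) (D.BB R) := by
  have hRA : R ⊆ D.AA R := fun x hx => Or.inl (Or.inl hx)
  have hYA : YY ⊆ D.AA R := fun x hx => Or.inl (Or.inr hx)
  have hWA : D.W ⊆ D.AA R := fun x hx => Or.inr (Or.inr hx)
  apply pr_of (A_le_B hR)
  · rintro ⟨f, hf, hm⟩
    apply zero_not_AA hR
    exact zero_mem_of_emb hR (X := D.BB R) (fun x hx => Or.inl (Or.inl (Or.inl hx)))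
      (Or.inl (Or.inr rfl)) AA_sub hf hm
  · rintro Z hZ ⟨f, hf, hm⟩
    by_cases h0 : (0 : ℝ) ∈ Z
    · right
      have hZC := hZ.trans BB_sub
      refine le_of_v hR BB_sub hZC (R_sub_of_emb hR hRA hZC hf hm)
        (YY_sub_of_emb hR hRA hYA hZC hf hm) h0
        (Full.of_emb hR hRA hYA hZC hf hm (full_of hR (fun x hx => Or.inr (Or.inl hx)) AA_sub))
        ?_ ?_
      · apply infinite_of_maps hf (t := D.wt) wt_inj (fun n => hWA (wt_nS subset_rfl n).1)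
          (I := univ) infinite_univ (u := D.vt)
        intro n _
        have h1 := nS_map hf hm (wt_nS hWA n)
        have h2 := f_out hR hRA hZC hf hm (hWA (wt_nS subset_rfl n).1)
          (hR.pos_not_closure (by linarith [wt_pos (D := D) n]))
        rcases nS_cases hR hZC h1 h2 with ⟨m, h3, h4⟩ | ⟨m, h3, h4⟩
        · exact ⟨m, h4, h3⟩
        · exfalso
          have h5 := BB_lt hR (hZ h1.1)
          rw [h3] at h5
          linarith [wt_pos (D := D) m]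
      · have : D.BB R ∩ Ioi 1 = ∅ := by
          apply eq_empty_of_forall_notMem
          rintro x ⟨h1, h2⟩
          exact lt_asymm (BB_lt hR h1) h2
        rw [this]
        exact Le.empty _
    · left
      exact le_A hR hZ h0

theorem sc_ball {n : ℕ} {x : ℝ} (h0 : 0 ≤ x) (h1 : x < sc n) : x ∈ Metric.ball (0 : ℝ) (sc n) := by
  rw [Metric.mem_ball, Real.dist_eq, sub_zero, abs_of_nonneg h0]
  exact h1

theorem not_C_le_B (hR : D.Rig R) : ¬ Le (D.CC R) (D.BB R) := by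
  rintro ⟨f, hf, hm⟩
  have hRC : R ⊆ D.CC R := fun x hx => Or.inl (Or.inl (Or.inl hx))
  have h0C : (0 : ℝ) ∈ D.CC R := Or.inl (Or.inr rfl)
  have hWC : D.W ⊆ D.CC R := fun x hx => Or.inr (Or.inr (Or.inr hx))
  have hf0 := f_id hR hRC BB_sub hf hm h0C hR.zero_mem_closure
  obtain ⟨V, hV, h1⟩ := (hf 0 h0C).2 (Iio 1) (isOpen_Iio.mem_nhds (by simp))
  rw [hf0] at hV
  obtain ⟨ε, hε, hb⟩ := Metric.nhds_basis_ball.mem_iff.1 hV
  obtain ⟨K, hK⟩ := sc_small hε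
  have h2 : (Iio K).Infinite := by
    apply infinite_of_maps hf (t := D.wt) wt_inj (fun n => hWC (wt_nS subset_rfl n).1)
      (I := univ) infinite_univ (u := D.vt)
    intro n _
    have h3 := nS_map hf hm (wt_nS hWC n)
    have h4 := f_out hR hRC BB_sub hf hm (hWC (wt_nS subset_rfl n).1)
      (hR.pos_not_closure (by linarith [wt_pos (D := D) n]))
    rcases nS_cases hR BB_sub h3 h4 with ⟨m, h5, h6⟩ | ⟨m, h5, h6⟩
    · refine ⟨m, ?_, h5⟩
      by_contra hcon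
      have h7 : f (D.wt n) ∈ V := by
        rw [h5]
        apply hb
        have h8 := vt_room (D := D) m
        have h9 : sc m ≤ sc K := sc_anti.antitone (not_lt.1 hcon)
        have h10 := vt_Ioo (D := D) m
        rw [Metric.mem_ball, Real.dist_eq, sub_zero, abs_of_pos h10.1]
        linarith [h8.2]
      have h11 := h1 _ (hWC (wt_nS subset_rfl n).1) h7
      rw [mem_Iio] at h11
      linarith [wt_pos (D := D) n]
    · exfalso
      have h7 := BB_lt hR (hm (hWC (wt_nS subset_rfl n).1))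
      rw [h5] at h7
      linarith [wt_pos (D := D) m]
  exact h2 (finite_Iio K)

theorem th_sc_lt {n : ℕ} {x : ℝ} (h : sc n < x) : th x < th (sc n) := by
  unfold th
  have := one_div_lt_one_div_of_lt (sc_pos n) h
  linarith

/-- if only finitely many rooms on the right are singular, then the set embeds in `B` -/
theorem le_B (hR : D.Rig R) {Z : Set ℝ} (hZ : Z ⊆ D.CC R)
    (hfin : ¬ {n | ¬ D.Sg (Z ∩ wroom n)}.Infinite) : Le Z (D.BB R) := by
  rw [Set.not_infinite] at hfin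
  obtain ⟨n0, hn0⟩ := hfin.bddAbove
  have hsg : ∀ n, n0 < n → D.Sg (Z ∩ wroom n) := by
    intro n hn
    by_contra hcon
    have := hn0 hcon
    omega
  set N := n0 + 1 with hN
  have hW : ∀ x ∈ Z, 1 < x → ∃ t ∈ D.ST, x = th t := by
    intro x hx h1
    obtain ⟨t, ht, rfl⟩ := hR.W_mem (hZ hx) h1
    exact ⟨t, ht, rfl⟩
  have hcN : 1 < th (sc N) := th_gt_one (sc_pos N)
  -- the far part is small
  have hfar : D.Sg (Z ∩ Ioi (th (sc N))) := by
    apply D.sg_loc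
    · apply (D.W_countable).mono
      rintro x ⟨h1, h2⟩
      exact hR.W_mem (hZ h1) (lt_trans hcN h2)
    · rintro x ⟨h1, h2⟩
      obtain ⟨t, ht, rfl⟩ := hW x h1 (lt_trans hcN h2)
      obtain ⟨k, hk⟩ := mem_fan_room ht
      refine ⟨wroom k, (isOpen_wroom k).mem_nhds (th_mem_wroom hk), ?_⟩
      have hk2 : n0 < k := by
        by_contra hcon
        have h3 : sc N ≤ sc (k + 1) := sc_anti.antitone (by omega)
        have h4 := th_sc_lt (lt_of_le_of_lt h3 hk.1)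
        exact lt_asymm h2 h4
      exact D.sg_sub (hsg k hk2) (fun y hy => ⟨hy.1.1, hy.2⟩)
  have hmid : ∀ x ∈ Z, 1 < x → x < th (sc N) ∨ th (sc N) < x := by
    intro x hx h1
    obtain ⟨t, ht, rfl⟩ := hW x hx h1
    rcases lt_trichotomy (th t) (th (sc N)) with h | h | h
    · exact Or.inl h
    · exfalso
      have h3 := congrArg thi h
      rw [thi_th (D.ST_sub ht).1, thi_th (sc_pos N)] at h3
      exact ST_ne_sc ht N h3
    · exact Or.inr h
  -- the map b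
  obtain ⟨b, hb, hb1, hb2⟩ := EmbOn.two (f1 := fun x => 0 + sc N * x) (f2 := thi)
    (E1 := Z ∩ Ico 0 1) (E2 := Z ∩ Ioo 1 (th (sc N))) (O1 := Iio 1) (O2 := Ioi 1)
    (G1 := Iio (sc N)) (G2 := Ioi (sc N)) isOpen_Iio isOpen_Ioi
    (by rw [disjoint_left]; intro z h1 h2; exact lt_asymm (mem_Iio.1 h1) (mem_Ioi.1 h2))
    isOpen_Iio isOpen_Ioi
    (by rw [disjoint_left]; intro z h1 h2; exact lt_asymm (mem_Iio.1 h1) (mem_Ioi.1 h2))
    (EmbOn.affine (sc_pos N) _) (thi_emb (fun x hx => hx.2.1))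
    (fun x hx => hx.2.2) (fun x hx => hx.2.1)
    (by
      rintro x ⟨h1, h2, h3⟩
      rw [mem_Iio]
      have := sc_pos N
      nlinarith)
    (by
      rintro x ⟨h1, h2, h3⟩
      obtain ⟨t, ht, rfl⟩ := hW x h1 h2
      rw [mem_Ioi, thi_th (D.ST_sub ht).1]
      by_contra hcon
      rcases lt_or_eq_of_le (not_lt.1 hcon) with h | h
      · unfold th at h3
        have := one_div_lt_one_div_of_lt (D.ST_sub ht).1 h
        linarith
      · exact ST_ne_sc ht N h)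
  let P : ℕ → Set ℝ := fun i => match i with
    | 0 => Z ∩ (Ioo 0 1 ∪ Ioo 1 (th (sc N)))
    | 1 => ∅
    | 2 => Z ∩ Ioi (th (sc N))
    | _ + 3 => ∅
  refine cmp hR hZ (fun x hx => Or.inl (Or.inl (Or.inl hx)))
    (fun x hx => Or.inl (Or.inl (Or.inr hx))) (fun _ => Or.inl (Or.inr rfl))
    (full_of hR (fun x hx => Or.inr (Or.inl hx)) BB_sub) (P := P) ?_ ?_ ?_ ?_ ?_ ?_ ?_ ?_ ?_
  · intro x hx h0
    rcases hR.pos_cases (hZ hx) h0 with h1 | h1
    · exact ⟨0, hx, Or.inl (D.ST_sub h1)⟩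
    · have h2 : 1 < x := by linarith [D.W_gt h1]
      rcases hmid x hx h2 with h3 | h3
      · exact ⟨0, hx, Or.inr ⟨h2, h3⟩⟩
      · exact ⟨2, hx, h3⟩
  · intro i x hx
    match i with
    | 0 =>
      rcases hx with ⟨h1, h2 | h2⟩
      · exact ⟨h1, h2.1⟩
      · exact ⟨h1, by linarith [h2.1]⟩
    | 1 => exact absurd hx (by simp [P])
    | 2 => exact ⟨hx.1, by have h2 : th (sc N) < x := hx.2; linarith⟩
    | _ + 3 => exact absurd hx (by simp [P])
  · intro i x hx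
    match i with
    | 0 => exact ⟨_, (isOpen_Ioo.union isOpen_Ioo).mem_nhds hx.2, fun y hy hyU => ⟨hy, hyU⟩⟩
    | 1 => exact absurd hx (by simp [P])
    | 2 => exact ⟨_, isOpen_Ioi.mem_nhds hx.2, fun y hy hyU => ⟨hy, hyU⟩⟩
    | _ + 3 => exact absurd hx (by simp [P])
  · have h02 : ∀ x, x ∈ P 0 → x ∈ P 2 → False := by
      rintro x ⟨h1, h2 | h2⟩ ⟨h3, h4⟩
      · rw [mem_Ioi] at h4
        linarith [h2.2]
      · exact lt_asymm h2.2 h4
    intro i j x hx hy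
    match i, j with
    | 0, 0 => rfl
    | 0, 2 => exact (h02 x hx hy).elim
    | 2, 0 => exact (h02 x hy hx).elim
    | 2, 2 => rfl
    | 1, _ => exact absurd hx (by simp [P])
    | _, 1 => exact absurd hy (by simp [P])
    | _ + 3, _ => exact absurd hx (by simp [P])
    | _, _ + 3 => exact absurd hy (by simp [P])
  · intro _ i
    match i with
    | 0 => exact ⟨1, one_pos, fun x hx => absurd hx (by simp [P])⟩
    | 1 => exact ⟨1, one_pos, fun x hx => by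
        have h2 : th (sc N) < x := hx.2
        linarith⟩
    | _ + 2 => exact ⟨1, one_pos, fun x hx => absurd hx (by simp [P])⟩
  · intro _ ε hε
    refine ⟨1, fun j hj x hx => ?_⟩
    obtain ⟨j', rfl⟩ : ∃ j', j = j' + 1 := ⟨j - 1, by omega⟩
    exact absurd hx (by simp [P])
  · intro j
    match j with
    | 0 => exact D.F0_univ hfar
    | _ + 1 => exact Idl.empty_mem _ _
  · refine ⟨b, hb.mono ?_, ?_, ?_⟩
    · rintro x (⟨h1, h2 | h2⟩ | ⟨h1, h2⟩)
      · exact Or.inl ⟨h1, h2.1.le, h2.2⟩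
      · exact Or.inr ⟨h1, h2⟩
      · rw [mem_singleton_iff] at h2
        subst h2
        exact Or.inl ⟨h1, le_rfl, one_pos⟩
    · intro h0
      rw [hb1 0 ⟨h0, le_rfl, one_pos⟩]
      simp
    · rintro x ⟨h1, h2 | h2⟩
      · rw [hb1 x ⟨h1, h2.1.le, h2.2⟩, zero_add]
        have h3 := ST_scale (hR.ST_mem (hZ h1) h2) N
        exact ⟨Or.inr (Or.inr h3), D.ST_sub h3⟩
      · rw [hb2 x ⟨h1, h2⟩]
        obtain ⟨t, ht, rfl⟩ := hW x h1 h2.1
        rw [thi_th (D.ST_sub ht).1]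
        exact ⟨Or.inr (Or.inr ht), D.ST_sub ht⟩
  · exact Le.empty _

theorem Pr_BC (hR : D.Rig R) : Pr (D.BB R) (D.CC R) := by
  have hRB : R ⊆ D.BB R := fun x hx => Or.inl (Or.inl (Or.inl hx))
  have hYB : YY ⊆ D.BB R := fun x hx => Or.inl (Or.inl (Or.inr hx))
  have h0B : (0 : ℝ) ∈ D.BB R := Or.inl (Or.inr rfl)
  have hSB : D.ST ⊆ D.BB R := fun x hx => Or.inr (Or.inr hx)
  apply pr_of (Le.of_subset BB_sub) (not_C_le_B hR)
  rintro Z hZ ⟨f, hf, hm⟩
  by_cases hinf : {n | ¬ D.Sg (Z ∩ wroom n)}.Infinite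
  · right
    refine le_of_v hR subset_rfl hZ (R_sub_of_emb hR hRB hZ hf hm)
      (YY_sub_of_emb hR hRB hYB hZ hf hm) (zero_mem_of_emb hR hRB h0B hZ hf hm)
      (Full.of_emb hR hRB hYB hZ hf hm (full_of hR (fun x hx => Or.inr (Or.inl hx)) BB_sub))
      ?_ ?_
    · have hf0 := f_id hR hRB hZ hf hm h0B hR.zero_mem_closure
      obtain ⟨U, hU, h1⟩ := (hf 0 h0B).1 (Iio 1) (isOpen_Iio.mem_nhds (by rw [hf0]; simp))
      obtain ⟨ε, hε, hb⟩ := Metric.nhds_basis_ball.mem_iff.1 hU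
      obtain ⟨K, hK⟩ := sc_small hε
      apply infinite_of_maps hf (t := D.vt) vt_inj (fun n => hSB (vt_nS subset_rfl n).1)
        (I := Ici K) (Set.Ici_infinite K) (u := D.vt)
      intro n hn
      have h3 := nS_map hf hm (vt_nS hSB n)
      have h4 := f_out hR hRB hZ hf hm (hSB (vt_nS subset_rfl n).1)
        (hR.pos_not_closure (vt_Ioo (D := D) n).1)
      rcases nS_cases hR hZ h3 h4 with ⟨m, h5, h6⟩ | ⟨m, h5, h6⟩
      · exact ⟨m, h6, h5⟩
      · exfalso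
        have h7 : D.vt n ∈ U := by
          apply hb
          have h8 := vt_room (D := D) n
          have h9 : sc n ≤ sc K := sc_anti.antitone hn
          have h10 := vt_Ioo (D := D) n
          rw [Metric.mem_ball, Real.dist_eq, sub_zero, abs_of_pos h10.1]
          linarith [h8.2]
        have h8 := h1 _ (hSB (vt_nS subset_rfl n).1) h7
        rw [h5, mem_Iio] at h8
        linarith [wt_pos (D := D) m]
    · refine Le.trans (Le.of_subset ?_) (W_le hR hZ hinf)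
      rintro x ⟨h1, h2⟩
      exact hR.W_mem h1 h2
  · left
    exact le_B hR hZ hinf

end Data

end Pool.Agent.Helper754
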