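import Pool.Agent.Helper754.Fin

open Set Topology Filter

namespace Pool.Agent.Helper754

theorem EmbOn.of_strictMono {f : ℝ → ℝ} (hf : StrictMono f) (hc : Continuous f) (E : Set ℝ) :
    EmbOn f E := by
  intro x _
  refine ⟨fun V hV => ⟨f ⁻¹' V, hc.continuousAt.preimage_mem_nhds hV, fun y _ h => h⟩,
    fun U hU => ?_⟩
  obtain ⟨ε, hε, hb⟩ := Metric.nhds_basis_ball.mem_iff.1 hU
  refine ⟨Ioo (f (x - ε)) (f (x + ε)), Ioo_mem_nhds (hf (by linarith)) (hf (by linarith)),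
    fun y _ hy => hb ?_⟩
  have h1 := hf.lt_iff_lt.1 hy.1
  have h2 := hf.lt_iff_lt.1 hy.2
  rw [Metric.mem_ball, Real.dist_eq, abs_lt]
  constructor <;> linarith

theorem EmbOn.neg (E : Set ℝ) : EmbOn (fun x => -x) E :=
  EmbOn.of_leftInv (g := fun x => -x) (by fun_prop) (by fun_prop) (by simp)

theorem EmbOn.affine {a b : ℝ} (ha : 0 < a) (E : Set ℝ) : EmbOn (fun x => b + a * x) E :=
  EmbOn.of_strictMono (fun x y h => by nlinarith) (by fun_prop) E

/-- transport of ideals -/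
theorem Idl.image {g : ℝ → ℝ} {x : ℝ} {S : Set ℝ} (hg : EmbOn g (insert x S)) :
    Idl (g x) (g '' S) = Idl x S := by
  apply Subset.antisymm
  · obtain ⟨h, hh, hinv, hm⟩ := hg.inv
    rw [image_insert_eq] at hh hm
    apply Idl.of_emb (f := h) (U0 := univ) univ_mem
    · exact hh.mono (by rw [inter_univ])
    · exact hinv x (mem_insert _ _)
    · rintro y ⟨⟨⟨z, hz, rfl⟩, -⟩, hy⟩
      rw [hinv z (Or.inr hz)]
      exact hz
  · apply Idl.of_emb (f := g) (U0 := univ) univ_mem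
    · exact hg.mono (by rw [inter_univ])
    · rfl
    · rintro y ⟨⟨hy, -⟩, -⟩
      exact ⟨y, hy, rfl⟩

theorem Le.image_left {g : ℝ → ℝ} {S : Set ℝ} (hg : EmbOn g S) : Le (g '' S) S := hg.le_image

theorem Le.image_right {g : ℝ → ℝ} {S : Set ℝ} (hg : EmbOn g S) : Le S (g '' S) :=
  ⟨g, hg, mapsTo_image g S⟩

/-- a homeomorphism from the line onto (1/2,1) -/
noncomputable def sig (x : ℝ) : ℝ := 3 / 4 + Real.arctan x / (2 * Real.pi)

theorem sig_strictMono : StrictMono sig := by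
  intro x y h
  unfold sig
  have := Real.arctan_strictMono h
  have hpi := Real.pi_pos
  have : Real.arctan x / (2 * Real.pi) < Real.arctan y / (2 * Real.pi) :=
    div_lt_div_of_pos_right this (by linarith)
  linarith

theorem sig_continuous : Continuous sig := by
  unfold sig
  exact continuous_const.add (Real.continuous_arctan.div_const _)

theorem sig_gt (x : ℝ) : 1 / 2 < sig x := by
  unfold sig
  have h1 := Real.neg_pi_div_two_lt_arctan x
  have hpi := Real.pi_pos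
  have : -(1 / 4) < Real.arctan x / (2 * Real.pi) := by
    rw [lt_div_iff₀ (by linarith)]
    linarith
  linarith

theorem sig_lt (x : ℝ) : sig x < 1 := by
  unfold sig
  have h1 := Real.arctan_lt_pi_div_two x
  have hpi := Real.pi_pos
  have : Real.arctan x / (2 * Real.pi) < 1 / 4 := by
    rw [div_lt_iff₀ (by linarith)]
    linarith
  linarith

noncomputable def sc (j : ℕ) : ℝ := (1 / 2 : ℝ) ^ j

theorem sc_pos (j : ℕ) : 0 < sc j := by unfold sc; positivity

theorem sc_succ (j : ℕ) : sc (j + 1) = sc j / 2 := by unfold sc; rw [pow_succ]; ring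

theorem sc_zero : sc 0 = 1 := by simp [sc]

theorem sc_add (i j : ℕ) : sc (i + j) = sc i * sc j := by unfold sc; rw [pow_add]

theorem sc_anti : StrictAnti sc := by
  apply strictAnti_nat_of_succ_lt
  intro n
  rw [sc_succ]
  linarith [sc_pos n]

theorem sc_le_one (j : ℕ) : sc j ≤ 1 := by
  rw [← sc_zero]; exact sc_anti.antitone (Nat.zero_le j)

theorem sc_small {ε : ℝ} (hε : 0 < ε) : ∃ k, sc k < ε :=
  exists_pow_lt_of_lt_one hε (by norm_num)

/-- room maps -/
noncomputable def rho (k : ℕ) (x : ℝ) : ℝ := sc k * sig x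

theorem rho_strictMono (k : ℕ) : StrictMono (rho k) := fun x y h => by
  unfold rho
  exact mul_lt_mul_of_pos_left (sig_strictMono h) (sc_pos k)

theorem rho_continuous (k : ℕ) : Continuous (rho k) := continuous_const.mul sig_continuous

theorem rho_gt (k : ℕ) (x : ℝ) : sc (k + 1) < rho k x := by
  unfold rho
  rw [sc_succ]
  have := sig_gt x
  have := sc_pos k
  nlinarith

theorem rho_lt (k : ℕ) (x : ℝ) : rho k x < sc k := by
  unfold rho
  have := sig_lt x
  have := sc_pos k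
  nlinarith

theorem rho_emb (k : ℕ) (E : Set ℝ) : EmbOn (rho k) E :=
  EmbOn.of_strictMono (rho_strictMono k) (rho_continuous k) E

def room (k : ℕ) : Set ℝ := Ioo (sc (k + 1)) (sc k)

theorem rho_mem_room (k : ℕ) (x : ℝ) : rho k x ∈ room k := ⟨rho_gt k x, rho_lt k x⟩

theorem isOpen_room (k : ℕ) : IsOpen (room k) := isOpen_Ioo

theorem room_disj {i j : ℕ} {z : ℝ} (hi : z ∈ room i) (hj : z ∈ room j) : i = j := by
  have key : ∀ i j, i < j → z ∈ room i → z ∈ room j → False := by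
    intro i j hij hi hj
    have h1 : sc j ≤ sc (i + 1) := sc_anti.antitone (by omega)
    have h2 := hi.1
    have h3 := hj.2
    linarith
  rcases lt_trichotomy i j with h | h | h
  · exact (key i j h hi hj).elim
  · exact h
  · exact (key j i h hj hi).elim

theorem room_sub (k : ℕ) : room k ⊆ Ioo 0 1 := by
  intro z hz
  exact ⟨lt_trans (sc_pos _) hz.1, lt_of_lt_of_le hz.2 (sc_le_one k)⟩

/-- fan with content `Q k` in room `k` -/
def fan (Q : ℕ → Set ℝ) : Set ℝ := ⋃ k, rho k '' Q k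

theorem fan_sub (Q : ℕ → Set ℝ) : fan Q ⊆ Ioo 0 1 := by
  intro z hz
  obtain ⟨k, x, hx, rfl⟩ := mem_iUnion.1 hz
  exact room_sub k (rho_mem_room k x)

theorem fan_countable {Q : ℕ → Set ℝ} (h : ∀ k, (Q k).Countable) : (fan Q).Countable :=
  countable_iUnion (fun k => (h k).image _)

theorem mem_fan_room {Q : ℕ → Set ℝ} {z : ℝ} (hz : z ∈ fan Q) : ∃ k, z ∈ room k := by
  obtain ⟨k, x, hx, rfl⟩ := mem_iUnion.1 hz
  exact ⟨k, rho_mem_room k x⟩

theorem fan_inter_room (Q : ℕ → Set ℝ) (k : ℕ) : fan Q ∩ room k = rho k '' Q k := by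
  apply Subset.antisymm
  · rintro z ⟨hz, hzr⟩
    obtain ⟨j, x, hx, rfl⟩ := mem_iUnion.1 hz
    have := room_disj (rho_mem_room j x) hzr
    subst this
    exact ⟨x, hx, rfl⟩
  · rintro _ ⟨x, hx, rfl⟩
    exact ⟨mem_iUnion.2 ⟨k, x, hx, rfl⟩, rho_mem_room k x⟩

theorem zero_not_mem_fan (Q : ℕ → Set ℝ) : (0 : ℝ) ∉ fan Q := fun h => lt_irrefl _ (fan_sub Q h).1

/-- something that embeds in infinitely many rooms is in the ideal -/
theorem mem_idl_rooms {T S : Set ℝ} (h : ∀ K : ℕ, ∃ k ≥ K, Le T (S ∩ room k)) : T ∈ Idl 0 S := by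
  intro U hU
  obtain ⟨ε, hε, hb⟩ := Metric.nhds_basis_ball.mem_iff.1 hU
  obtain ⟨K, hK⟩ := sc_small hε
  obtain ⟨k, hk, hle⟩ := h K
  refine ⟨Metric.ball 0 (sc (k + 1)), Metric.ball_mem_nhds 0 (sc_pos _),
    hle.trans (Le.of_subset ?_)⟩
  rintro y ⟨hy, hyr⟩
  refine ⟨⟨hy, hb ?_⟩, ?_⟩
  · rw [Metric.mem_ball, Real.dist_eq, sub_zero, abs_of_pos (room_sub k hyr).1]
    exact lt_of_lt_of_le hyr.2 (le_trans (sc_anti.antitone hk) hK.le)
  · intro h
    rw [Metric.mem_ball, Real.dist_eq, sub_zero, abs_of_pos (room_sub k hyr).1] at h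
    linarith [hyr.1]

theorem mem_idl_fan {T : Set ℝ} {Q : ℕ → Set ℝ} (h : ∀ K : ℕ, ∃ k ≥ K, Le T (Q k)) :
    T ∈ Idl 0 (fan Q) := by
  apply mem_idl_rooms
  intro K
  obtain ⟨k, hk, hle⟩ := h K
  refine ⟨k, hk, hle.trans ?_⟩
  rw [fan_inter_room]
  exact Le.image_right (rho_emb k _)

/-- if the content of every room is in an ideal, then so is a fan away from 0 -/
theorem rooms_diff_mem {T S : Set ℝ} {x : ℝ} (hT : ∀ z ∈ T, ∃ k, z ∈ room k)
    (h : ∀ k, T ∩ room k ∈ Idl x S) : ∀ U ∈ 𝓝 (0 : ℝ), T \ U ∈ Idl x S := by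
  have key : ∀ n : ℕ, T ∩ Ioi (sc n) ∈ Idl x S := by
    intro n
    induction n with
    | zero =>
      apply Idl.of_subset (Idl.empty_mem x S)
      rintro z ⟨hz, hz2⟩
      obtain ⟨k, hk⟩ := hT z hz
      have := (room_sub k hk).2
      rw [mem_Ioi, sc_zero] at hz2
      linarith
    | succ n ih =>
      apply Idl.union (O1 := Ioi (sc n)) (O2 := Iio (sc n)) isOpen_Ioi isOpen_Iio
      · rw [disjoint_left]
        intro z h1 h2
        exact lt_asymm (mem_Ioi.1 h1) (mem_Iio.1 h2)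
      · rintro z ⟨hz, hz2⟩
        obtain ⟨k, hk⟩ := hT z hz
        rcases lt_trichotomy z (sc n) with h1 | h1 | h1
        · exact Or.inr h1
        · exfalso
          rw [h1] at hk
          have h3 := sc_anti.lt_iff_gt.1 hk.1
          have h4 := sc_anti.lt_iff_gt.1 hk.2
          omega
        · exact Or.inl h1
      · apply Idl.of_subset ih
        rintro z ⟨hz, hz2⟩
        exact ⟨hz.1, hz2⟩
      · apply Idl.of_subset (h n)
        rintro z ⟨hz, hz2⟩
        exact ⟨hz.1, hz.2, hz2⟩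
  intro U hU
  obtain ⟨ε, hε, hb⟩ := Metric.nhds_basis_ball.mem_iff.1 hU
  obtain ⟨n, hn⟩ := sc_small hε
  apply Idl.of_subset (key n)
  rintro z ⟨hz, hzU⟩
  refine ⟨hz, ?_⟩
  by_contra hcon
  apply hzU
  apply hb
  obtain ⟨k, hk⟩ := hT z hz
  rw [Metric.mem_ball, Real.dist_eq, sub_zero, abs_of_pos (room_sub k hk).1]
  rw [mem_Ioi] at hcon
  linarith

theorem fan_diff_mem {Q : ℕ → Set ℝ} {S : Set ℝ} {x : ℝ} (h : ∀ k, Q k ∈ Idl x S) :
    ∀ U ∈ 𝓝 (0 : ℝ), fan Q \ U ∈ Idl x S := by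
  apply rooms_diff_mem (fun z hz => mem_fan_room hz)
  intro k
  rw [fan_inter_room]
  exact Idl.of_le (h k) (Le.image_left (rho_emb k _))

theorem Rk.fan {n : ℕ} {Q : ℕ → Set ℝ} (h : ∀ k, Rk n (Q k)) : Rk n (fan Q) := by
  apply Rk.loc
  intro x hx
  obtain ⟨k, hk⟩ := mem_fan_room hx
  refine ⟨room k, (isOpen_room k).mem_nhds hk, ?_⟩
  rw [fan_inter_room]
  exact (h k).of_le (Le.image_left (rho_emb k _))

/-- universal sets -/
noncomputable def UU : ℕ → Set ℝ
  | 0 => ∅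
  | n + 1 => fan (fun _ => insert 0 (fan (fun _ => UU n)))

theorem UU_countable (n : ℕ) : (UU n).Countable := by
  induction n with
  | zero => exact countable_empty
  | succ n ih => exact fan_countable (fun _ => (fan_countable (fun _ => ih)).insert 0)

theorem Rk_insert_zero {n : ℕ} {S : Set ℝ} (h : Rk n S) : Rk (n + 1) (insert 0 S) := by
  by_cases h0 : (0 : ℝ) ∈ S
  · rw [insert_eq_of_mem h0]; exact h.succ
  intro x hx
  by_cases hx0 : x = 0
  · subst hx0
    exact ⟨univ, univ_mem, h.mono_set (fun y hy => hy.1.1.resolve_left hy.2)⟩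
  · have h1 := (hx.resolve_left hx0)
    refine ⟨{0}ᶜ, isOpen_compl_singleton.mem_nhds hx0, h.mono_set ?_⟩
    rintro y ⟨⟨hy1, hy2⟩, hy3⟩
    exact hy1.resolve_left hy2

theorem UU_rk (n : ℕ) : Rk n (UU n) := by
  induction n with
  | zero => rfl
  | succ n ih => exact Rk.fan (fun _ => Rk_insert_zero (Rk.fan (fun _ => ih)))

theorem UU_univ (n : ℕ) : ∀ {D : Set ℝ}, D.Countable → Rk n D → Le D (UU n) := by
  induction n with
  | zero =>
    intro D _ h
    rw [Rk] at h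
    rw [h]
    exact Le.empty _
  | succ n ih =>
    intro D hD h
    have hN : ∀ t, ∃ N, t ∈ D ∩ univ → N ∈ 𝓝 t ∧ Rk n ((D ∩ N) \ {t}) := by
      intro t
      by_cases ht : t ∈ D
      · obtain ⟨U, hU, hr⟩ := h t ht
        exact ⟨U, fun _ => ⟨hU, hr⟩⟩
      · exact ⟨univ, fun h => absurd h.1 ht⟩
    choose N hN using hN
    obtain ⟨P, hP1, hP2, hP3⟩ := partition hD isOpen_univ (fun y hy => (hN y hy).1)
    obtain ⟨enc, henc⟩ := Set.countable_iff_exists_injOn.1 hD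
    apply Le.iUnion (ι := {y // y ∈ D ∩ univ}) (O := fun y => P y.1) (G := fun y => room (enc y.1))
    · exact fun y => (hP1 y.1 y.2).1
    · exact fun y y' z hz hz' => Subtype.ext (hP2 y.1 y.2 y'.1 y'.2 z hz hz')
    · exact fun y => isOpen_room _
    · exact fun y y' z hz hz' => Subtype.ext (henc y.2.1 y'.2.1 (room_disj hz hz'))
    · intro s hs
      obtain ⟨y, hy, hsy⟩ := hP3 s ⟨hs, mem_univ _⟩
      exact ⟨⟨y, hy⟩, hsy⟩
    · rintro ⟨y, hy⟩
      obtain ⟨hNy, hr⟩ := hN y hy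
      have h1 : ∀ U ∈ 𝓝 y, (D ∩ N y) \ U ∈ Idl 0 (fan (fun _ => UU n)) := by
        intro V hV
        apply mem_idl_fan
        intro K
        refine ⟨K, le_rfl, ih (hD.mono (fun z hz => hz.1.1)) (hr.mono_set ?_)⟩
        rintro z ⟨hz1, hz2⟩
        exact ⟨hz1, fun h => hz2 (h ▸ mem_of_mem_nhds hV)⟩
      obtain ⟨f, hf, hfy, hfm⟩ := shell_emb (hD.mono (inter_subset_left : D ∩ N y ⊆ D)) h1
        univ_mem
      rw [UU, fan_inter_room]
      refine Le.trans ?_ (Le.image_right (rho_emb _ _))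
      refine ⟨f, hf.mono ?_, ?_⟩
      · rintro z ⟨hz, hzP⟩
        exact Or.inr ⟨hz, (hP1 y hy).2.1 hzP⟩
      · rintro z ⟨hz, hzP⟩
        by_cases hzy : z = y
        · rw [hzy, hfy]; exact mem_insert _ _
        · exact Or.inr (hfm ⟨⟨hz, (hP1 y hy).2.1 hzP⟩, hzy⟩).1.1

theorem TT_not_rk (n : ℕ) : ¬ Rk n (insert 0 (fan (fun _ => UU n))) := by
  induction n with
  | zero =>
    intro h
    rw [Rk] at h
    exact (insert_nonempty _ _).ne_empty h
  | succ n ih =>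
    intro h
    obtain ⟨U, hU, hr⟩ := h 0 (mem_insert _ _)
    obtain ⟨ε, hε, hb⟩ := Metric.nhds_basis_ball.mem_iff.1 hU
    obtain ⟨K, hK⟩ := sc_small hε
    apply ih
    have h2 : Rk n (UU (n + 1)) := by
      refine hr.of_le ((Le.image_right (rho_emb K (UU (n + 1)))).trans (Le.of_subset ?_))
      rintro _ ⟨x, hx, rfl⟩
      have hroom := rho_mem_room K x
      have hpos := (room_sub K hroom).1
      refine ⟨⟨Or.inr (mem_iUnion.2 ⟨K, x, hx, rfl⟩), hb ?_⟩, fun h => ?_⟩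
      · rw [Metric.mem_ball, Real.dist_eq, sub_zero, abs_of_pos hpos]
        exact lt_trans hroom.2 hK
      · rw [mem_singleton_iff] at h
        rw [h] at hpos
        exact lt_irrefl _ hpos
    have h3 : Le (insert 0 (fan (fun _ => UU n))) (UU (n + 1)) := by
      refine (Le.image_right (rho_emb 0 _)).trans (Le.of_subset ?_)
      rintro _ ⟨x, hx, rfl⟩
      exact mem_iUnion.2 ⟨0, x, hx, rfl⟩
    exact h2.of_le h3

theorem UU_not_rk (n : ℕ) : ¬ Rk n (UU (n + 1)) := by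
  intro h
  apply TT_not_rk n
  apply h.of_le
  refine (Le.image_right (rho_emb 0 _)).trans (Le.of_subset ?_)
  rintro _ ⟨x, hx, rfl⟩
  exact mem_iUnion.2 ⟨0, x, hx, rfl⟩

/-- a set of large rank contains all countable sets of small rank -/
theorem big (n : ℕ) : ∀ {S : Set ℝ}, ¬ Rk (2 * n) S → ∀ {T : Set ℝ}, T.Countable → Rk n T →
    Le T S := by
  induction n with
  | zero =>
    intro S _ T _ h
    rw [Rk] at h
    rw [h]
    exact Le.empty _
  | succ n ih =>
    intro S hS T hT hTr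
    have h2 : 2 * (n + 1) = (2 * n + 1) + 1 := by ring
    rw [h2, Rk] at hS
    push Not at hS
    obtain ⟨x, hx, hxS⟩ := hS
    set Y : Set ℝ := {y | y ∈ S ∧ ∀ O ∈ 𝓝 y, ¬ Rk (2 * n) ((S ∩ O) \ {y})} with hY
    have hYx : ∀ U ∈ 𝓝 x, ∃ y ∈ Y, y ∈ U ∧ y ≠ x := by
      intro U hU
      have := hxS U hU
      rw [Rk] at this
      push Not at this
      obtain ⟨y, hy, hyO⟩ := this
      refine ⟨y, ⟨hy.1.1, fun O hO hr => hyO O hO (hr.mono_set ?_)⟩, hy.1.2, hy.2⟩
      rintro z ⟨⟨hz1, hz2⟩, hz3⟩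
      exact ⟨⟨hz1.1.1, hz2⟩, hz3⟩
    have hYinf : Y.Infinite := by
      intro hfin
      have h3 : (Y \ {x})ᶜ ∈ 𝓝 x := (hfin.subset diff_subset).isClosed.isOpen_compl.mem_nhds
        (fun h => h.2 rfl)
      obtain ⟨y, hy, hyU, hyx⟩ := hYx _ h3
      exact hyU ⟨hy, hyx⟩
    obtain ⟨t, G, htG, hGd⟩ := infinite_disjoint_nhds hYinf
    have hN : ∀ t, ∃ N, t ∈ T ∩ univ → N ∈ 𝓝 t ∧ Rk n ((T ∩ N) \ {t}) := by
      intro t
      by_cases ht : t ∈ T
      · obtain ⟨U, hU, hr⟩ := hTr t ht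
        exact ⟨U, fun _ => ⟨hU, hr⟩⟩
      · exact ⟨univ, fun h => absurd h.1 ht⟩
    choose N hN using hN
    obtain ⟨P, hP1, hP2, hP3⟩ := partition hT isOpen_univ (fun y hy => (hN y hy).1)
    obtain ⟨enc, henc⟩ := Set.countable_iff_exists_injOn.1 hT
    apply Le.iUnion (ι := {y // y ∈ T ∩ univ}) (O := fun y => P y.1) (G := fun y => G (enc y.1))
    · exact fun y => (hP1 y.1 y.2).1
    · exact fun y y' z hz hz' => Subtype.ext (hP2 y.1 y.2 y'.1 y'.2 z hz hz')
    · exact fun y => (htG _).2.2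
    · exact fun y y' z hz hz' => Subtype.ext (henc y.2.1 y'.2.1 (hGd _ _ z hz hz'))
    · intro s hs
      obtain ⟨y, hy, hsy⟩ := hP3 s ⟨hs, mem_univ _⟩
      exact ⟨⟨y, hy⟩, hsy⟩
    · rintro ⟨y, hy⟩
      obtain ⟨hNy, hr⟩ := hN y hy
      obtain ⟨htY, htGk, hGo⟩ := htG (enc y)
      have h1 : ∀ U ∈ 𝓝 y, (T ∩ N y) \ U ∈ Idl (t (enc y)) S := by
        intro V hV W hW
        have h5 := htY.2 W hW
        have h6 : ∃ W' ∈ 𝓝 (t (enc y)), ¬ Rk (2 * n) ((S ∩ W) \ W') := by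
          by_contra hcon
          push Not at hcon
          exact h5 (Rk.diff_nhds hcon)
        obtain ⟨W', hW', h7⟩ := h6
        refine ⟨W', hW', ih h7 (hT.mono (fun z hz => hz.1.1)) (hr.mono_set ?_)⟩
        rintro z ⟨hz1, hz2⟩
        exact ⟨hz1, fun h => hz2 (h ▸ mem_of_mem_nhds hV)⟩
      obtain ⟨f, hf, hfy, hfm⟩ := shell_emb (hT.mono (inter_subset_left : T ∩ N y ⊆ T)) h1
        (hGo.mem_nhds htGk)
      refine ⟨f, hf.mono ?_, ?_⟩
      · rintro z ⟨hz, hzP⟩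
        exact Or.inr ⟨hz, (hP1 y hy).2.1 hzP⟩
      · rintro z ⟨hz, hzP⟩
        by_cases hzy : z = y
        · rw [hzy, hfy]; exact ⟨htY.1, htGk⟩
        · exact (hfm ⟨⟨hz, (hP1 y hy).2.1 hzP⟩, hzy⟩).1

end Pool.Agent.Helper754
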