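import Pool.Agent.Helper754.Rank

open Set Topology Filter

namespace Pool.Agent.Helper754

/-- the set of ideals of points of rank at most `n` -/
def Cls (n : ℕ) : Set (Set (Set ℝ)) :=
  {I | ∃ (x : ℝ) (S : Set ℝ), S.Countable ∧ PRk n x S ∧ I = Idl x S}

def HasGood (n : ℕ) : Prop :=
  ∀ (x : ℝ) (S : Set ℝ), S.Countable → PRk n x S → ∃ U0 ∈ 𝓝 x, Good x (S ∩ U0)

theorem claimA {n : ℕ} (hfin : (Cls n).Finite) (hgood : HasGood n) {x' : ℝ} {S' : Set ℝ}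
    {S O : Set ℝ} (hS : S.Countable) (hO : IsOpen O)
    (hrk : ∀ y ∈ S ∩ O, PRk n y S)
    (hp1 : ∀ y ∈ S ∩ O, ∀ U ∈ 𝓝 x', ∃ z ∈ U, z ≠ x' ∧ (z ∈ S' ∧ Idl z S' = Idl y S))
    (hp2 : ∀ k, {y | y ∈ S ∩ O ∧ Idl y S = k}.Infinite → ∀ U ∈ 𝓝 x', ∃ U' ∈ 𝓝 x',
      {z | z ∈ U ∧ z ∉ U' ∧ (z ∈ S' ∧ Idl z S' = k)}.Infinite) :
    S ∩ O ∈ Idl x' S' := by
  intro U hU
  obtain ⟨ε, hε, hbU⟩ := Metric.nhds_basis_ball.mem_iff.1 hU
  obtain ⟨ε', hε', -, q, G, hq, hd⟩ := multi_class (x' := x') (K := S ∩ O)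
    (hS.mono inter_subset_left) (fun y => Idl y S) (fun k z => z ∈ S' ∧ Idl z S' = k)
    hfin hp1 hp2 ε hε
  have hcls : ∀ y ∈ S ∩ O, Idl y S ∈ Cls n := fun y hy => ⟨y, S, hS, hrk y hy, rfl⟩
  have hg : ∀ y, ∃ U0, y ∈ S ∩ O → U0 ∈ 𝓝 y ∧ Good y (S ∩ U0) := by
    intro y
    by_cases hy : y ∈ S ∩ O
    · obtain ⟨U0, h1, h2⟩ := hgood y S hS (hrk y hy)
      exact ⟨U0, fun _ => ⟨h1, h2⟩⟩
    · exact ⟨univ, fun h => absurd h hy⟩
  choose N hN using hg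
  obtain ⟨P, hP1, hP2, hP3⟩ := partition hS hO (fun y hy => (hN y hy).1)
  refine ⟨Metric.closedBall x' ε', Metric.closedBall_mem_nhds x' hε', ?_⟩
  apply Le.iUnion (ι := {y // y ∈ S ∩ O}) (O := fun y => P y.1) (G := fun y => G y.1)
  · exact fun y => (hP1 y.1 y.2).1
  · exact fun y y' z hz hz' => Subtype.ext (hP2 y.1 y.2 y'.1 y'.2 z hz hz')
  · exact fun y => (hq y.1 y.2 (hcls y.1 y.2)).2.2.1
  · exact fun y y' z hz hz' => Subtype.ext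
      (hd y.1 y.2 y'.1 y'.2 (hcls y.1 y.2) (hcls y'.1 y'.2) z hz hz')
  · intro s hs
    obtain ⟨y, hy, hsy⟩ := hP3 s hs
    exact ⟨⟨y, hy⟩, hsy⟩
  · rintro ⟨y, hy⟩
    obtain ⟨⟨hqS, hqI⟩, hqG, hGo, hGsub⟩ := hq y hy (hcls y hy)
    obtain ⟨hNy, hgd⟩ := hN y hy
    have h1 : ∀ U ∈ 𝓝 y, (S ∩ N y) \ U ∈ Idl (q y) S' := by
      intro V hV
      have := hgd V hV
      rwa [Idl.inter_nhds hNy, ← hqI] at this
    obtain ⟨f, hf, hfy, hfm⟩ := shell_emb (hS.mono (inter_subset_left : S ∩ N y ⊆ S)) h1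
      (hGo.mem_nhds hqG)
    refine ⟨f, hf.mono ?_, ?_⟩
    · rintro z ⟨hz, hzP⟩
      exact Or.inr ⟨hz.1, (hP1 y hy).2.1 hzP⟩
    · rintro z ⟨hz, hzP⟩
      have h2 : f z ∈ S' ∧ f z ∈ G y := by
        by_cases hzy : z = y
        · rw [hzy, hfy]; exact ⟨hqS, hqG⟩
        · have := hfm ⟨⟨hz.1, (hP1 y hy).2.1 hzP⟩, hzy⟩
          exact this.1
      have h3 := hGsub h2.2
      exact ⟨⟨⟨h2.1, hbU h3.1⟩, h3.2⟩, h2.2⟩

def p1 (x : ℝ) (S : Set ℝ) (k : Set (Set ℝ)) : Prop :=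
  ∀ U ∈ 𝓝 x, ∃ z ∈ U, z ≠ x ∧ (z ∈ S ∧ Idl z S = k)

def p2 (x : ℝ) (S : Set ℝ) (k : Set (Set ℝ)) : Prop :=
  ∀ U ∈ 𝓝 x, ∃ U' ∈ 𝓝 x, {z | z ∈ U ∧ z ∉ U' ∧ (z ∈ S ∧ Idl z S = k)}.Infinite

theorem step_key {n : ℕ} (hfin : (Cls n).Finite) (hgood : HasGood n) {x : ℝ} {S : Set ℝ}
    (hS : S.Countable) (hx : PRk (n + 1) x S) :
    ∃ U0 ∈ 𝓝 x, ∀ (x' : ℝ) (S' : Set ℝ),
      (∀ k ∈ Cls n, p1 x S k → p1 x' S' k) → (∀ k ∈ Cls n, p2 x S k → p2 x' S' k) →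
      ∀ U ∈ 𝓝 x, (S ∩ U0) \ U ∈ Idl x' S' := by
  classical
  obtain ⟨U1, hU1, hr⟩ := hx
  have ha : ∀ k : Set (Set ℝ), ∃ W ∈ 𝓝 x, (¬ p1 x S k → ∀ z ∈ W, z ≠ x → z ∈ S → Idl z S ≠ k) ∧
      (¬ p2 x S k → ∀ U' ∈ 𝓝 x, {z | z ∈ W ∧ z ∉ U' ∧ (z ∈ S ∧ Idl z S = k)}.Finite) := by
    intro k
    have h1 : ∃ W ∈ 𝓝 x, (¬ p1 x S k → ∀ z ∈ W, z ≠ x → z ∈ S → Idl z S ≠ k) := by
      by_cases h : p1 x S k
      · exact ⟨univ, univ_mem, fun h' => absurd h h'⟩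
      · unfold p1 at h
        push Not at h
        obtain ⟨U, hU, h2⟩ := h
        exact ⟨U, hU, fun _ z hz hzx hzS => h2 z hz hzx hzS⟩
    have h2 : ∃ W ∈ 𝓝 x, (¬ p2 x S k → ∀ U' ∈ 𝓝 x,
        {z | z ∈ W ∧ z ∉ U' ∧ (z ∈ S ∧ Idl z S = k)}.Finite) := by
      by_cases h : p2 x S k
      · exact ⟨univ, univ_mem, fun h' => absurd h h'⟩
      · unfold p2 at h
        push Not at h
        obtain ⟨U, hU, h2⟩ := h
        exact ⟨U, hU, fun _ U' hU' => by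
          have := h2 U' hU'
          simpa using this⟩
    obtain ⟨W1, hW1, h1⟩ := h1
    obtain ⟨W2, hW2, h2⟩ := h2
    refine ⟨W1 ∩ W2, inter_mem hW1 hW2, fun h z hz => h1 h z hz.1, fun h U' hU' => ?_⟩
    exact (h2 h U' hU').subset (fun z hz => ⟨hz.1.2, hz.2⟩)
  choose W hW hW1 hW2 using ha
  have hU0 : interior (U1 ∩ ⋂ k ∈ Cls n, W k) ∈ 𝓝 x := by
    apply interior_mem_nhds.2
    exact inter_mem hU1 ((Filter.biInter_mem hfin).2 (fun k _ => hW k))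
  refine ⟨_, hU0, fun x' S' hq1 hq2 U hU => ?_⟩
  obtain ⟨δ, hδ, hbU⟩ := Metric.nhds_basis_closedBall.mem_iff.1 hU
  set O : Set ℝ := interior (U1 ∩ ⋂ k ∈ Cls n, W k) \ Metric.closedBall x δ with hOdef
  have hO : IsOpen O := isOpen_interior.sdiff Metric.isClosed_closedBall
  have hOsub : O ⊆ U1 ∩ ⋂ k ∈ Cls n, W k := fun z hz => interior_subset hz.1
  have hOx : ∀ z ∈ O, z ≠ x := fun z hz h => hz.2 (by
    rw [h]; exact Metric.mem_closedBall_self hδ.le)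
  have hrk : ∀ y ∈ S ∩ O, PRk n y S := by
    intro y hy
    have h1 : PRk n y ((S ∩ U1) \ {x}) := hr y ⟨⟨hy.1, (hOsub hy.2).1⟩, hOx y hy.2⟩
    refine h1.mono_nhds (hO.mem_nhds hy.2) ?_
    rintro z ⟨hz1, hz2⟩
    exact ⟨⟨hz1, (hOsub hz2).1⟩, hOx z hz2⟩
  have hcls : ∀ y ∈ S ∩ O, Idl y S ∈ Cls n := fun y hy => ⟨y, S, hS, hrk y hy, rfl⟩
  have hWk : ∀ k ∈ Cls n, ∀ z ∈ O, z ∈ W k := fun k hk z hz => by
    have := (hOsub hz).2
    rw [mem_iInter₂] at this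
    exact this k hk
  have key : S ∩ O ∈ Idl x' S' := by
    apply claimA hfin hgood hS hO hrk
    · intro y hy
      apply hq1 _ (hcls y hy)
      by_contra hcon
      exact hW1 _ hcon y (hWk _ (hcls y hy) y hy.2) (hOx y hy.2) hy.1 rfl
    · intro k hinf
      obtain ⟨y, hy⟩ := hinf.nonempty
      have hk : k ∈ Cls n := hy.2 ▸ hcls y hy.1
      apply hq2 _ hk
      by_contra hcon
      have := hW2 _ hcon (Metric.closedBall x δ) (Metric.closedBall_mem_nhds x hδ)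
      apply hinf
      apply this.subset
      rintro z ⟨hz, hzk⟩
      exact ⟨hWk k hk z hz.2, hz.2.2, hz.1, hzk⟩
  apply Idl.of_subset key
  rintro y ⟨⟨hy1, hy2⟩, hy3⟩
  exact ⟨hy1, hy2, fun h => hy3 (hbU h)⟩

theorem step_le {n : ℕ} (hfin : (Cls n).Finite) (hgood : HasGood n) {x : ℝ} {S : Set ℝ}
    (hS : S.Countable) (hx : PRk (n + 1) x S) {x' : ℝ} {S' : Set ℝ}
    (h1 : ∀ k ∈ Cls n, p1 x S k → p1 x' S' k) (h2 : ∀ k ∈ Cls n, p2 x S k → p2 x' S' k) :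
    Idl x S ⊆ Idl x' S' := by
  obtain ⟨U0, hU0, h⟩ := step_key hfin hgood hS hx
  intro Q hQ
  obtain ⟨U', hU', hle⟩ := hQ U0 hU0
  exact Idl.of_le (h x' S' h1 h2 U' hU') hle

theorem finiteness : ∀ n : ℕ, (Cls n).Finite ∧ HasGood n := by
  classical
  intro n
  induction n with
  | zero =>
    constructor
    · apply (Set.finite_singleton ({∅} : Set (Set ℝ))).subset
      rintro I ⟨x, S, hS, ⟨U, hU, hr⟩, rfl⟩
      rw [mem_singleton_iff]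
      ext Q
      rw [mem_singleton_iff]
      constructor
      · intro hQ
        exact PRk.idl (n := 0) ⟨U, hU, hr⟩ hQ
      · rintro rfl
        exact Idl.empty_mem x S
    · rintro x S hS ⟨U, hU, hr⟩
      rw [Rk] at hr
      refine ⟨U, hU, fun V hV => ?_⟩
      have : (S ∩ U) \ V = ∅ := by
        apply eq_empty_of_forall_notMem
        rintro y ⟨hy1, hy2⟩
        have : y ∈ (S ∩ U) \ {x} := ⟨hy1, fun h => hy2 (h ▸ mem_of_mem_nhds hV)⟩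
        rw [hr] at this
        exact this
      rw [this]
      exact Idl.empty_mem _ _
  | succ n ih =>
    obtain ⟨hfin, hgood⟩ := ih
    constructor
    · let valid : Set (Set (Set ℝ)) × Set (Set (Set ℝ)) → ℝ × Set ℝ → Prop := fun p xS =>
        xS.2.Countable ∧ PRk (n + 1) xS.1 xS.2 ∧
          p.1 = {k | k ∈ Cls n ∧ p1 xS.1 xS.2 k} ∧ p.2 = {k | k ∈ Cls n ∧ p2 xS.1 xS.2 k}
      let Φ : Set (Set (Set ℝ)) × Set (Set (Set ℝ)) → Set (Set ℝ) := fun p =>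
        if h : ∃ xS, valid p xS then Idl h.choose.1 h.choose.2 else ∅
      have hF : ((𝒫 (Cls n)) ×ˢ (𝒫 (Cls n))).Finite := by
        apply Set.Finite.prod
        · exact hfin.finite_subsets
        · exact hfin.finite_subsets
      apply (hF.image Φ).subset
      rintro I ⟨x, S, hS, hx, rfl⟩
      refine ⟨({k | k ∈ Cls n ∧ p1 x S k}, {k | k ∈ Cls n ∧ p2 x S k}),
        ⟨fun k hk => hk.1, fun k hk => hk.1⟩, ?_⟩
      have hex : ∃ xS, valid ({k | k ∈ Cls n ∧ p1 x S k}, {k | k ∈ Cls n ∧ p2 x S k}) xS :=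
        ⟨(x, S), hS, hx, rfl, rfl⟩
      have hspec := hex.choose_spec
      simp only [Φ]
      rw [dif_pos hex]
      obtain ⟨hc, hr, he1, he2⟩ := hspec
      simp only at he1 he2
      have e1 : ∀ k ∈ Cls n, p1 x S k ↔ p1 hex.choose.1 hex.choose.2 k := by
        intro k hk
        have := congrArg (fun s => k ∈ s) he1
        simp only [mem_setOf_eq, hk, true_and, eq_iff_iff] at this
        exact this
      have e2 : ∀ k ∈ Cls n, p2 x S k ↔ p2 hex.choose.1 hex.choose.2 k := by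
        intro k hk
        have := congrArg (fun s => k ∈ s) he2
        simp only [mem_setOf_eq, hk, true_and, eq_iff_iff] at this
        exact this
      apply Subset.antisymm
      · exact step_le hfin hgood hc hr (fun k hk => (e1 k hk).2) (fun k hk => (e2 k hk).2)
      · exact step_le hfin hgood hS hx (fun k hk => (e1 k hk).1) (fun k hk => (e2 k hk).1)
    · intro x S hS hx
      obtain ⟨U0, hU0, h⟩ := step_key hfin hgood hS hx
      refine ⟨U0, hU0, fun V hV => ?_⟩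
      rw [Idl.inter_nhds hU0]
      exact h x S (fun _ _ h => h) (fun _ _ h => h) V hV

end Pool.Agent.Helper754
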