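import Pool.Agent.Helper754.Inf

open Set Topology Filter

namespace Pool.Agent.Helper754

theorem not_self_mem {S : Set ℝ} {y : ℝ} (hy : y ∈ S) {W : Set ℝ} (hW : W ∈ 𝓝 y) :
    ∀ m, PRk m y S → S ∩ W ∉ Idl y S := by
  intro m
  induction m with
  | zero =>
    intro h hmem
    have h1 : Rk 0 (S ∩ W) := h.idl hmem
    rw [Rk] at h1
    have : y ∈ S ∩ W := ⟨hy, mem_of_mem_nhds hW⟩
    rw [h1] at this
    exact this
  | succ m ih =>
    intro h hmem
    by_cases h2 : PRk m y S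
    · exact ih h2 hmem
    · have h1 : Rk (m + 1) (S ∩ W) := h.idl hmem
      have h3 := h1 y ⟨hy, mem_of_mem_nhds hW⟩
      exact h2 (PRk.mono_nhds h3 hW subset_rfl)

def BigI (n : ℕ) (I : Set (Set ℝ)) : Prop := ∃ Q ∈ I, ¬ Rk n Q

def Cov (C : Set (Set (Set ℝ))) (I J : Set (Set ℝ)) : Prop :=
  I ⊆ J ∧ ¬ J ⊆ I ∧ ∀ K ∈ C, I ⊆ K → K ⊆ J → K ⊆ I ∨ J ⊆ K

theorem down {m n : ℕ} {I : Set (Set ℝ)} (hI : I ∈ Cls m) (hb : BigI (n + 1) I) :
    ∃ J ∈ Cls m, BigI n J ∧ Cov (Cls m) J I := by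
  obtain ⟨x, S, hS, hxS, hr, hg, rfl⟩ := good_rep hI
  have h1 : ¬ PRk (n + 1) x S := by
    intro h
    obtain ⟨Q, hQ, hQn⟩ := hb
    exact hQn (h.idl hQ)
  have h2 : ¬ Rk (n + 1) S := fun h => h1 ⟨univ, univ_mem, h.mono_set (fun y hy => hy.1.1)⟩
  rw [Rk_succ_iff] at h2
  push Not at h2
  obtain ⟨y, hy, hyn⟩ := h2
  obtain ⟨m', rfl⟩ : ∃ m', m = m' + 1 := by
    cases m with
    | zero =>
      rw [Rk] at hr
      rw [hr] at hy
      exact absurd hy (by simp)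
    | succ m' => exact ⟨m', rfl⟩
  have hym : PRk m' y S := hr y hy
  have hyx : y ≠ x := fun h => hxS (h ▸ hy)
  obtain ⟨U1, hU1, hg1⟩ := (finiteness m').2 y S hS hym
  -- Idl y S is large
  have hbig : BigI n (Idl y S) := by
    by_contra hcon
    unfold BigI at hcon
    push Not at hcon
    apply hyn
    refine ⟨U1, hU1, Rk.diff_nhds (fun U hU => hcon _ ?_)⟩
    have := hg1 U hU
    rwa [Idl.inter_nhds hU1] at this
  obtain ⟨W, U, hW, hU, hyW, hxU, hd⟩ := t2_separation hyx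
  have hSW : ∀ W' ⊆ W, S ∩ W' ∈ Idl x S := by
    intro W' hW'
    apply Idl.of_subset (hg U (hU.mem_nhds hxU))
    rintro z ⟨hz1, hz2⟩
    exact ⟨hz1, disjoint_left.1 hd (hW' hz2)⟩
  have hsub : Idl y S ⊆ Idl x S := by
    intro Q hQ
    obtain ⟨W', hW', hle⟩ := hQ W (hW.mem_nhds hyW)
    refine Idl.of_le (hSW W subset_rfl) (hle.trans (Le.of_subset (fun z hz => hz.1)))
  have hnsub : ¬ Idl x S ⊆ Idl y S := by
    intro h
    exact not_self_mem hy (hW.mem_nhds hyW) m' hym (h (hSW W subset_rfl))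
  set C : Set (Set (Set ℝ)) := {K | K ∈ Cls (m' + 1) ∧ Idl y S ⊆ K ∧ K ⊆ Idl x S ∧ ¬ Idl x S ⊆ K}
    with hC
  have hCfin : C.Finite := (finiteness (m' + 1)).1.subset (fun K hK => hK.1)
  have hCne : C.Nonempty :=
    ⟨Idl y S, ⟨y, S, hS, hym.mono_nat (Nat.le_succ _), rfl⟩, subset_rfl, hsub, hnsub⟩
  obtain ⟨J, ⟨hJ1, hJ2, hJ3, hJ4⟩, hmax⟩ := hCfin.exists_maximal hCne
  refine ⟨J, hJ1, ?_, hJ3, hJ4, ?_⟩
  · obtain ⟨Q, hQ, hQn⟩ := hbig
    exact ⟨Q, hJ2 hQ, hQn⟩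
  · intro K hK hJK hKI
    by_cases h3 : Idl x S ⊆ K
    · exact Or.inr h3
    · exact Or.inl (hmax ⟨hK, hJ2.trans hJK, hKI, h3⟩ hJK)

theorem descend {m n : ℕ} : ∀ (k : ℕ) (I : Set (Set ℝ)), I ∈ Cls m → BigI (n + k) I →
    ∃ J : ℕ → Set (Set ℝ), J k = I ∧ (∀ i ≤ k, J i ∈ Cls m) ∧
      ∀ i < k, Cov (Cls m) (J i) (J (i + 1)) := by
  intro k
  induction k with
  | zero =>
    intro I hI _
    exact ⟨fun _ => I, rfl, fun _ _ => hI, fun i hi => absurd hi (by omega)⟩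
  | succ k ih =>
    intro I hI hb
    obtain ⟨J', hJ', hb', hc⟩ := down hI (n := n + k) hb
    obtain ⟨J, h1, h2, h3⟩ := ih J' hJ' hb'
    refine ⟨fun i => if i ≤ k then J i else I, ?_, ?_, ?_⟩
    · simp
    · intro i _
      by_cases hi : i ≤ k
      · simp only [hi, if_true]; exact h2 i hi
      · simp only [hi, if_false]; exact hI
    · intro i hi
      have hi' : i ≤ k := by omega
      by_cases hik : i = k
      · subst hik
        have : ¬ (i + 1 ≤ i) := by omega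
        simp only [le_refl, if_true, this, if_false]
        rw [h1]
        exact hc
      · have : i + 1 ≤ k := by omega
        simp only [hi', if_true, this]
        exact h3 i (by omega)

/-- sets of rank at most `r` -/
def SgR (r : ℕ) (S : Set ℝ) : Prop := S.Countable ∧ Rk r S

theorem SgR.of_le {r : ℕ} {S S' : Set ℝ} (h : SgR r S') (hle : Le S S') : SgR r S :=
  ⟨countable_of_le hle h.1, h.2.of_le hle⟩

theorem exists_V (r : ℕ) : ∃ (v : ℝ) (V : Set ℝ), V.Countable ∧ v ∈ V ∧ Rk r (V \ {v}) ∧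
    ¬ Rk r V ∧ ∀ Z ⊆ V, ¬ SgR r Z → ∀ U ∈ 𝓝 v, V \ U ∈ Idl v Z := by
  set C : Set (Set (Set ℝ)) := {I | ∃ (v : ℝ) (S : Set ℝ), S.Countable ∧ Rk r (S \ {v}) ∧
    ¬ Rk r S ∧ I = Idl v S} with hC
  have hCfin : C.Finite := by
    apply (finiteness r).1.subset
    rintro I ⟨v, S, hS, h1, h2, rfl⟩
    exact ⟨v, S, hS, ⟨univ, univ_mem, h1.mono_set (fun y hy => ⟨hy.1.1, hy.2⟩)⟩, rfl⟩
  have hCne : C.Nonempty := by
    refine ⟨_, 0, insert 0 (fan (fun _ => UU r)), (fan_countable (fun _ => UU_countable r)).insert 0,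
      ?_, TT_not_rk r, rfl⟩
    exact (Rk.fan (fun _ => UU_rk r)).mono_set (fun y hy => hy.1.resolve_left hy.2)
  obtain ⟨I, ⟨v, S, hS, h1, h2, rfl⟩, hmin⟩ := hCfin.exists_minimal hCne
  obtain ⟨U0, hU0, hg⟩ := (finiteness r).2 v S hS
    ⟨univ, univ_mem, h1.mono_set (fun y hy => ⟨hy.1.1, hy.2⟩)⟩
  have hvS : ∀ Z ⊆ S, ¬ Rk r Z → v ∈ Z := by
    intro Z hZ hZr
    by_contra hv
    exact hZr (h1.mono_set (fun z hz => ⟨hZ hz, fun h => hv (by
      rw [mem_singleton_iff] at h; rw [← h]; exact hz)⟩))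
  have hnV : ¬ Rk r (S ∩ U0) := by
    intro h
    apply h2
    apply Rk.loc
    intro x hx
    by_cases hxv : x = v
    · rw [hxv]; exact ⟨U0, hU0, h⟩
    · exact ⟨{v}ᶜ, isOpen_compl_singleton.mem_nhds hxv, h1⟩
  refine ⟨v, S ∩ U0, hS.mono inter_subset_left, hvS _ inter_subset_left hnV,
    h1.mono_set (fun y hy => ⟨hy.1.1, hy.2⟩), hnV, ?_⟩
  intro Z hZ hZs U hU
  have hZr : ¬ Rk r Z := fun h => hZs ⟨(hS.mono inter_subset_left).mono hZ, h⟩
  have hZI : Idl v Z ∈ C := by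
    refine ⟨v, Z, (hS.mono inter_subset_left).mono hZ, h1.mono_set ?_, hZr, rfl⟩
    exact fun y hy => ⟨(hZ hy.1).1, hy.2⟩
  have hsub : Idl v Z ⊆ Idl v S := Idl.mono (fun z hz => (hZ hz).1)
  have h3 := hmin hZI hsub
  apply h3
  have := hg U hU
  rwa [Idl.inter_nhds hU0] at this

/-- base data for the first problem -/
noncomputable def D1 (r : ℕ) (v : ℝ) (V : Set ℝ) (hVc : V.Countable) (hv : v ∈ V)
    (hV : Rk r (V \ {v})) (hVn : ¬ Rk r V)
    (hVm : ∀ Z ⊆ V, ¬ SgR r Z → ∀ U ∈ 𝓝 v, V \ U ∈ Idl v Z) (F1 : Set ℝ)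
    (hF1 : F1 ⊆ Ioo 0 1) (hF1s : SgR r F1) (hF1g : Good 0 F1) : Data where
  Sg := SgR r
  V := V
  v := v
  F0 := fan (fun _ => UU r)
  F1 := F1
  sg_countable := fun h => h.1
  sg_le := fun h hle => h.of_le hle
  sg_loc := fun hc h => ⟨hc, Rk.loc (fun x hx => by
    obtain ⟨U, hU, h1⟩ := h x hx
    exact ⟨U, hU, h1.2⟩)⟩
  v_mem := hv
  V_countable := hVc
  V_sg := ⟨hVc.mono sdiff_subset, hV⟩
  V_not := fun h => hVn h.2
  V_min := hVm
  F0_sub := fan_sub _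
  F0_sg := ⟨fan_countable (fun _ => UU_countable r), Rk.fan (fun _ => UU_rk r)⟩
  F0_univ := fun h => mem_idl_fan (fun K => ⟨K, le_rfl, UU_univ r h.1 h.2⟩)
  F1_sub := hF1
  F1_sg := hF1s
  F1_good := hF1g

theorem neg_union_rk {m : ℕ} {F T : Set ℝ} (hF : F ⊆ Ioo 0 1) (hT : T ⊆ Ioo 0 1) (h1 : Rk m F)
    (h2 : Rk m T) : Rk m (((fun x : ℝ => -x) '' F) ∪ T) := by
  apply Rk.loc
  rintro x (⟨y, hy, rfl⟩ | hx)
  · refine ⟨Iio 0, isOpen_Iio.mem_nhds (by have := (hF hy).1; simpa using this), ?_⟩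
    apply h1.of_le
    refine Le.trans (Le.of_subset ?_) (Le.image_left (EmbOn.neg F))
    rintro z ⟨hz | hz, hz0⟩
    · exact hz
    · exact absurd (hT hz).1 (not_lt.2 (mem_Iio.1 hz0).le)
  · refine ⟨Ioi 0, isOpen_Ioi.mem_nhds (hT hx).1, h2.mono_set ?_⟩
    rintro z ⟨⟨y, hy, rfl⟩ | hz, hz0⟩
    · have := (hF hy).1
      rw [mem_Ioi] at hz0
      simp only at hz0
      linarith
    · exact hz

theorem KK_eq {D : Data} {S : Set ℝ} (hS : S ⊆ Ioo 0 1) (hc : S.Countable) (hg : Good 0 S)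
    (hle : Idl 0 D.F1 ⊆ Idl 0 S) : Data.KK D S = Idl 0 S := by
  apply Subset.antisymm
  · have h1 : ∀ U ∈ 𝓝 (0 : ℝ), (((fun x : ℝ => -x) '' D.F1) ∪ S) \ U ∈ Idl 0 S := by
      intro U hU
      apply Idl.union (O1 := Iio 0) (O2 := Ioi 0) isOpen_Iio isOpen_Ioi
      · rw [disjoint_left]
        intro z h1 h2
        exact lt_asymm (mem_Iio.1 h1) (mem_Ioi.1 h2)
      · rintro z ⟨⟨y, hy, rfl⟩ | h1, -⟩
        · left
          have := (D.F1_sub hy).1
          simp only [mem_Iio]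
          linarith
        · exact Or.inr (hS h1).1
      · apply hle
        apply Idl.of_subset (Data.neg_F1_diff hU)
        rintro z ⟨⟨h1 | h1, h2⟩, h3⟩
        · exact ⟨h1, h2⟩
        · exact absurd (hS h1).1 (not_lt.2 (mem_Iio.1 h3).le)
      · apply Idl.of_subset (hg U hU)
        rintro z ⟨⟨⟨y, hy, rfl⟩ | h1, h2⟩, h3⟩
        · have := (D.F1_sub hy).1
          rw [mem_Ioi] at h3
          simp only at h3
          linarith
        · exact ⟨h1, h2⟩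
    obtain ⟨f, hf, hfx, hfm⟩ := shell_emb (((D.sg_countable D.F1_sg).image _).union hc) h1 univ_mem
    apply Idl.of_emb (f := f) (U0 := univ) univ_mem
    · exact hf.mono (by rw [inter_univ])
    · exact hfx
    · rintro y ⟨⟨hy, -⟩, hy0⟩
      exact (hfm ⟨hy, hy0⟩).1.1
  · exact Idl.mono subset_union_right

theorem main1 (N : ℕ) (hN : 1 < N) : ∃ (A B C : Set ℝ) (X : ℕ → Set ℝ),
    Pr A B ∧ Pr B C ∧ Pr A (X 1) ∧ (∀ i : ℕ, 1 ≤ i → i < N → Pr (X i) (X (i + 1))) ∧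
      Pr (X N) C := by
  obtain ⟨v, V, hVc, hv, hV, hVn, hVm⟩ := exists_V N
  have hempty : Rk N (∅ : Set ℝ) := (show Rk 0 (∅ : Set ℝ) from rfl).mono_nat (Nat.zero_le _)
  let D0 : Data := D1 N v V hVc hv hV hVn hVm ∅ (empty_subset _)
    ⟨countable_empty, hempty⟩ (fun U _ => Idl.of_subset (Idl.empty_mem _ _) sdiff_subset)
  set T : Set ℝ := D0.ST with hT
  have hTdef : T = fan (fun _ => V) := rfl
  have hTsub : T ⊆ Ioo 0 1 := D0.ST_sub
  have hTc : T.Countable := D0.ST_countable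
  have h0T : (0 : ℝ) ∉ T := fun h => lt_irrefl _ (hTsub h).1
  have hTrk : Rk (N + 1) T := by
    apply Rk.fan
    intro _ x hx
    by_cases hxv : x = v
    · rw [hxv]
      exact ⟨univ, univ_mem, hV.mono_set (fun y hy => ⟨hy.1.1, hy.2⟩)⟩
    · refine ⟨{v}ᶜ, isOpen_compl_singleton.mem_nhds hxv, hV.mono_set ?_⟩
      rintro z ⟨⟨hz1, hz2⟩, -⟩
      exact ⟨hz1, hz2⟩
  have hVT : V ∈ Idl 0 T := mem_idl_fan (fun K => ⟨K, le_rfl, Le.refl _⟩)
  have hTgood : Good 0 T := fan_diff_mem (fun _ => hVT)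
  have htop : Idl 0 T ∈ Cls (N + 1) :=
    ⟨0, T, hTc, ⟨univ, univ_mem, hTrk.mono_set (fun y hy => hy.1.1)⟩, rfl⟩
  have hbig : BigI (0 + N) (Idl 0 T) := ⟨V, hVT, by rw [zero_add]; exact hVn⟩
  obtain ⟨J, hJN, hJc, hJcov⟩ := descend N (Idl 0 T) htop hbig
  have hJtop : ∀ i ≤ N, J i ⊆ Idl 0 T := by
    intro i hi
    have aux : ∀ k, ∀ i, i + k = N → J i ⊆ Idl 0 T := by
      intro k
      induction k with
      | zero =>
        intro i hik
        have : i = N := by omega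
        rw [this, hJN]
      | succ k ih =>
        intro i hik
        exact (hJcov i (by omega)).1.trans (ih (i + 1) (by omega))
    exact aux (N - i) i (by omega)
  -- members of J 0 are small
  have hVJ : V ∉ J 0 := by
    intro hVJ
    have h1 : J 0 ∈ Cls (N + 1) := hJc 0 (Nat.zero_le _)
    obtain ⟨x, S, -, -, -, -, hS⟩ := good_rep h1
    have h2 : ∀ U ∈ 𝓝 (0 : ℝ), T \ U ∈ Idl x S := fan_diff_mem (fun _ => hS ▸ hVJ)
    have h3 : Idl 0 T ⊆ J 0 := by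
      intro Q hQ
      obtain ⟨U', hU', hle⟩ := hQ univ univ_mem
      rw [hS]
      exact Idl.of_le (h2 U' hU') (hle.trans (Le.of_subset (fun y hy => ⟨hy.1.1, hy.2⟩)))
    exact (hJcov 0 (by omega)).2.1 ((hJtop 1 (by omega)).trans h3)
  have hsmall : ∀ Q ∈ J 0, Rk N Q := by
    intro Q hQ
    by_contra hcon
    apply hVJ
    obtain ⟨x, S, -, -, -, -, hS⟩ := good_rep (hJc 0 (Nat.zero_le _))
    obtain ⟨U', hU', g, hg, hgm⟩ := hJtop 0 (Nat.zero_le _) hQ univ univ_mem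
    have hQ' : ¬ Rk N (g '' Q) := fun h => hcon (h.of_le (Le.image_right hg))
    have hgT : g '' Q ⊆ T := by
      rintro _ ⟨y, hy, rfl⟩
      exact (hgm hy).1.1
    have hQr : ∃ k, ¬ Rk N (g '' Q ∩ room k) := by
      by_contra hcon2
      push Not at hcon2
      apply hQ'
      apply Rk.loc
      intro y hy
      obtain ⟨k, hk⟩ := mem_fan_room (hgT hy)
      exact ⟨room k, (isOpen_room k).mem_nhds hk, hcon2 k⟩
    obtain ⟨k, hk⟩ := hQr
    have h1 : Le V (g '' Q ∩ room k) := Data.V_le_room (D := D0) hgT (fun h => hk h.2)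
    rw [hS] at hQ ⊢
    exact Idl.of_le hQ (h1.trans ((Le.of_subset inter_subset_left).trans (Le.image_left hg)))
  obtain ⟨F1, hF1T, hF1c, hF1r, hF1g, hF1J⟩ := rep_in (hJc 0 (Nat.zero_le _))
    (hJtop 0 (Nat.zero_le _))
  have hF1s : SgR N F1 := by
    refine ⟨hF1c, ?_⟩
    have h1 : Rk N (F1 \ {0}) := Rk.diff_nhds (fun U hU => hsmall _ (hF1J ▸ hF1g U hU))
    apply h1.mono_set
    intro y hy
    exact ⟨hy, fun h => h0T (h ▸ hF1T hy)⟩
  let D : Data := D1 N v V hVc hv hV hVn hVm F1 (hF1T.trans hTsub) hF1s hF1g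
  have hDT : D.ST = T := rfl
  have hDF : D.F1 = F1 := rfl
  obtain ⟨R, hR⟩ := D.exists_rig
  -- representatives
  have hrep : ∀ i, ∃ S, i ≤ N → (S ⊆ T ∧ Data.KK D S = J i) ∧ (i = 0 → S = ∅) ∧ (i = N → S = T) := by
    intro i
    by_cases hi0 : i = 0
    · refine ⟨∅, fun _ => ⟨⟨empty_subset _, ?_⟩, fun _ => rfl, fun h => by omega⟩⟩
      rw [Data.KK_empty, hDF, hF1J, hi0]
    by_cases hiN : i = N
    · refine ⟨T, fun _ => ⟨⟨subset_rfl, ?_⟩, fun h => absurd h hi0, fun _ => rfl⟩⟩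
      rw [KK_eq hTsub hTc hTgood, hiN, hJN]
      rw [hDF, hF1J]
      exact hJtop 0 (Nat.zero_le _)
    by_cases hiN' : i ≤ N
    · obtain ⟨S, h1, h2, -, h4, h5⟩ := rep_in (hJc i hiN') (hJtop i hiN')
      refine ⟨S, fun _ => ⟨⟨h1, ?_⟩, fun h => absurd h hi0, fun h => absurd h hiN⟩⟩
      rw [KK_eq (h1.trans hTsub) h2 h4, h5]
      rw [hDF, hF1J, h5]
      have aux : ∀ k ≤ N, J 0 ⊆ J k := by
        intro k
        induction k with
        | zero => intro _; exact subset_rfl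
        | succ k ih => intro hk; exact (ih (by omega)).trans (hJcov k (by omega)).1
      exact aux i hiN'
    · exact ⟨∅, fun h => absurd h hiN'⟩
  choose S hS using hrep
  have hcls : ∀ Q ⊆ T, PRk (N + 1) 0 (((fun x : ℝ => -x) '' D.F1) ∪ Q) := by
    intro Q hQ
    refine ⟨univ, univ_mem, (neg_union_rk (hF1T.trans hTsub) (hQ.trans hTsub) hF1s.2.succ
      (hTrk.mono_set hQ)).mono_set (fun y hy => hy.1.1)⟩
  have hcnt : ∀ Q ⊆ T, (((fun x : ℝ => -x) '' D.F1) ∪ Q).Countable := fun Q hQ =>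
    (hF1c.image _).union (hTc.mono hQ)
  have hgood : ∀ Q ⊆ T, Data.GoodK D Q := by
    intro Q hQ
    obtain ⟨U0, hU0, h1⟩ := (finiteness (N + 1)).2 0 _ (hcnt Q hQ) (hcls Q hQ)
    refine ⟨U0, hU0, fun U hU => ?_⟩
    have h2 := h1 U hU
    rw [Idl.inter_nhds hU0] at h2
    exact Idl.of_subset h2 (fun y hy => ⟨⟨Or.inr hy.1.1, hy.1.2⟩, hy.2⟩)
  have hstep : ∀ i < N, Pr (D.XX R (S i)) (D.XX R (S (i + 1))) := by
    intro i hi
    have hSi := (hS i (by omega)).1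
    have hSi' := (hS (i + 1) (by omega)).1
    obtain ⟨c1, c2, c3⟩ := hJcov i hi
    apply Data.Pr_step hR (hDT ▸ hSi.1) (hDT ▸ hSi'.1)
    · rw [hSi.2, hSi'.2]; exact c1
    · rw [hSi.2, hSi'.2]; exact c2
    · intro Q hQ h1
      rw [hSi.2] at h1 ⊢
      rw [hSi'.2]
      have hQT : Q ⊆ T := hQ.trans hSi'.1
      apply c3 _ ⟨0, _, hcnt Q hQT, hcls Q hQT, rfl⟩ h1
      rw [← hSi'.2]
      exact Idl.mono (union_subset_union_right _ hQ)
    · exact hgood _ hSi.1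
    · exact fun Q hQ => hgood Q (hQ.trans hSi'.1)
  refine ⟨D.AA R, D.BB R, D.CC R, fun i => D.XX R (S (i - 1)), Data.Pr_AB hR, Data.Pr_BC hR,
    ?_, ?_, ?_⟩
  · show Pr _ (D.XX R (S 0))
    rw [(hS 0 (Nat.zero_le _)).2.1 rfl]
    exact Data.Pr_AX hR
  · intro i h1 h2
    have := hstep (i - 1) (by omega)
    have h3 : i - 1 + 1 = i := by omega
    rw [h3] at this
    simpa using this
  · have := hstep (N - 1) (by omega)
    have h3 : N - 1 + 1 = N := by omega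
    rw [h3, (hS N le_rfl).2.2 rfl] at this
    exact this

end Pool.Agent.Helper754
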