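import Pool.Agent.Helper754.Rigid

open Set Topology Filter

namespace Pool.Agent.Helper754

noncomputable def yy (j : ℕ) : ℝ := - sc j
def JJ (j : ℕ) : Set ℝ := Ioo (-(3/2) * sc j) (- sc j)
def gap (j : ℕ) : Set ℝ := Ioo (- sc j) (-(3/4) * sc j)
def nn (j : ℕ) : Set ℝ := Ioo (-(3/2) * sc j) (-(3/4) * sc j)
def YY : Set ℝ := range yy

theorem isOpen_JJ (j : ℕ) : IsOpen (JJ j) := isOpen_Ioo
theorem isOpen_gap (j : ℕ) : IsOpen (gap j) := isOpen_Ioo
theorem isOpen_nn (j : ℕ) : IsOpen (nn j) := isOpen_Ioo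

theorem JJ_sub_nn (j : ℕ) : JJ j ⊆ nn j := by
  intro z hz
  have := sc_pos j
  exact ⟨hz.1, by linarith [hz.2]⟩

theorem gap_sub_nn (j : ℕ) : gap j ⊆ nn j := by
  intro z hz
  have := sc_pos j
  exact ⟨by linarith [hz.1], hz.2⟩

theorem yy_mem_nn (j : ℕ) : yy j ∈ nn j := by
  have := sc_pos j
  unfold yy nn
  constructor <;> linarith

theorem nn_cases {j : ℕ} {z : ℝ} (hz : z ∈ nn j) : z ∈ JJ j ∨ z = yy j ∨ z ∈ gap j := by
  rcases lt_trichotomy z (-sc j) with h | h | h
  · exact Or.inl ⟨hz.1, h⟩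
  · exact Or.inr (Or.inl h)
  · exact Or.inr (Or.inr ⟨h, hz.2⟩)

theorem nn_neg {j : ℕ} {z : ℝ} (hz : z ∈ nn j) : z < 0 := by
  have := sc_pos j
  linarith [hz.2]

theorem nn_disj {i j : ℕ} {z : ℝ} (hi : z ∈ nn i) (hj : z ∈ nn j) : i = j := by
  have key : ∀ i j, i < j → z ∈ nn i → z ∈ nn j → False := by
    intro i j hij hi hj
    have h1 : sc j ≤ sc (i + 1) := sc_anti.antitone (by omega)
    rw [sc_succ] at h1
    have h2 := hi.2
    have h3 := hj.1
    linarith
  rcases lt_trichotomy i j with h | h | h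
  · exact (key i j h hi hj).elim
  · exact h
  · exact (key j i h hj hi).elim

theorem gap_neg {j : ℕ} {z : ℝ} (hz : z ∈ gap j) : z < 0 := nn_neg (gap_sub_nn j hz)
theorem JJ_neg {j : ℕ} {z : ℝ} (hz : z ∈ JJ j) : z < 0 := nn_neg (JJ_sub_nn j hz)
theorem yy_neg (j : ℕ) : yy j < 0 := nn_neg (yy_mem_nn j)

theorem JJ_not_gap {i j : ℕ} {z : ℝ} (hi : z ∈ JJ i) (hj : z ∈ gap j) : False := by
  have := nn_disj (JJ_sub_nn i hi) (gap_sub_nn j hj)
  subst this
  linarith [hi.2, hj.1]

theorem yy_not_gap {i j : ℕ} (hj : yy i ∈ gap j) : False := by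
  have := nn_disj (yy_mem_nn i) (gap_sub_nn j hj)
  subst this
  unfold yy at hj
  linarith [hj.1]

theorem yy_not_JJ {i j : ℕ} (hj : yy i ∈ JJ j) : False := by
  have := nn_disj (yy_mem_nn i) (JJ_sub_nn j hj)
  subst this
  unfold yy at hj
  linarith [hj.2]

/-- the skeleton -/
def LL (R : Set ℝ) : Set ℝ := (R ∪ YY) ∪ {0}

theorem LL_le {R : Set ℝ} (hR : R ⊆ ⋃ j, JJ j) {x : ℝ} (hx : x ∈ LL R) : x ≤ 0 := by
  rcases hx with (h | ⟨j, rfl⟩) | h
  · obtain ⟨j, hj⟩ := mem_iUnion.1 (hR h)
    exact (JJ_neg hj).le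
  · exact (yy_neg j).le
  · exact le_of_eq h

theorem LL_not_gap {R : Set ℝ} (hR : R ⊆ ⋃ j, JJ j) {x : ℝ} (hx : x ∈ LL R) {j : ℕ} :
    x ∉ gap j := by
  intro hg
  rcases hx with (h | ⟨i, rfl⟩) | h
  · obtain ⟨i, hi⟩ := mem_iUnion.1 (hR h)
    exact JJ_not_gap hi hg
  · exact yy_not_gap hg
  · rw [mem_singleton_iff] at h
    rw [h] at hg
    exact lt_irrefl _ (gap_neg hg)

/-- targets of the pieces -/
def tgt : ℕ → Set ℝ
  | 0 => Ioo 0 1
  | 1 => Ioi 2
  | j + 2 => gap j

theorem isOpen_tgt (i : ℕ) : IsOpen (tgt i) := by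
  match i with
  | 0 => exact isOpen_Ioo
  | 1 => exact isOpen_Ioi
  | j + 2 => exact isOpen_gap j

theorem tgt_disj {i j : ℕ} {z : ℝ} (hi : z ∈ tgt i) (hj : z ∈ tgt j) : i = j := by
  match i, j with
  | 0, 0 => rfl
  | 0, 1 =>
    have h1 : z < 1 := hi.2
    have h2 : 2 < z := hj
    linarith
  | 0, j + 2 =>
    have h1 : 0 < z := hi.1
    have h2 : z < 0 := gap_neg (j := j) hj
    linarith
  | 1, 0 =>
    have h1 : z < 1 := hj.2
    have h2 : 2 < z := hi
    linarith
  | 1, 1 => rfl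
  | 1, j + 2 =>
    have h1 : 2 < z := hi
    have h2 : z < 0 := gap_neg (j := j) hj
    linarith
  | i + 2, 0 =>
    have h1 : 0 < z := hj.1
    have h2 : z < 0 := gap_neg (j := i) hi
    linarith
  | i + 2, 1 =>
    have h1 : 2 < z := hj
    have h2 : z < 0 := gap_neg (j := i) hi
    linarith
  | i + 2, j + 2 =>
    have : i = j := nn_disj (gap_sub_nn i hi) (gap_sub_nn j hj)
    omega

theorem LL_not_tgt {R : Set ℝ} (hR : R ⊆ ⋃ j, JJ j) {x : ℝ} (hx : x ∈ LL R) {i : ℕ} :
    x ∉ tgt i := by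
  have h0 := LL_le hR hx
  intro h
  match i with
  | 0 => exact absurd h.1 (not_lt.2 h0)
  | 1 =>
    have : 2 < x := h
    linarith
  | j + 2 => exact LL_not_gap hR hx h

theorem master {X X' R : Set ℝ} {D : ℕ → Set ℝ}
    (hR : R ⊆ ⋃ j, JJ j)
    (hneg : ∀ x ∈ X, x < 0 → x ∈ R ∨ x ∈ YY ∨ ∃ j, x ∈ gap j)
    (hR' : R ⊆ X') (hY' : YY ⊆ X') (h0 : (0 : ℝ) ∈ X → (0 : ℝ) ∈ X')
    (hpos : ∀ x ∈ X, 0 < x → ∃ i, x ∈ D i)
    (hDsub : ∀ i, ∀ x ∈ D i, x ∈ X ∧ 0 < x)
    (hDopen : ∀ i, ∀ x ∈ D i, ∃ U ∈ 𝓝 x, ∀ y ∈ X, y ∈ U → y ∈ D i)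
    (hDdisj : ∀ i j x, x ∈ D i → x ∈ D j → i = j)
    (away : (0 : ℝ) ∈ X → ∀ i, ∃ δ > 0, ∀ x ∈ D (i + 1), δ ≤ x)
    (lim : (0 : ℝ) ∈ X → ∀ ε > 0, ∃ j0, ∀ j ≥ j0, ∀ x ∈ D (j + 2), x < ε)
    (hcX : ∀ j, (X ∩ gap j).Countable) (hcD : ∀ j, (D (j + 2)).Countable)
    (hgap : ∀ j, ∀ U ∈ 𝓝 (yy j), (X ∩ gap j) \ U ∈ Idl (yy j) (X' ∩ gap j))
    (hDm : ∀ j, D (j + 2) ∈ Idl (yy j) (X' ∩ gap j))
    (hb : ∃ b : ℝ → ℝ, EmbOn b (D 0 ∪ (X ∩ {0})) ∧ ((0 : ℝ) ∈ X → b 0 = 0) ∧
      MapsTo b (D 0) (X' ∩ Ioo 0 1))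
    (he : Le (D 1) (X' ∩ Ioi 2)) : Le X X' := by
  classical
  obtain ⟨b, hbE, hb0, hbm⟩ := hb
  obtain ⟨e, heE, hem⟩ := he
  -- the maps near the points yy j
  have ha : ∀ j, ∃ a : ℝ → ℝ, EmbOn a (insert (yy j) ((X ∩ gap j) ∪ D (j + 2))) ∧ a (yy j) = yy j ∧
      MapsTo a ((X ∩ gap j) ∪ D (j + 2)) (X' ∩ gap j) := by
    intro j
    have hsep : ∀ U ∈ 𝓝 (yy j), ((X ∩ gap j) ∪ D (j + 2)) \ U ∈ Idl (yy j) (X' ∩ gap j) := by
      intro U hU
      apply Idl.union (O1 := Iio 0) (O2 := Ioi 0) isOpen_Iio isOpen_Ioi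
      · rw [disjoint_left]
        intro z h1 h2
        exact lt_asymm (mem_Iio.1 h1) (mem_Ioi.1 h2)
      · rintro z ⟨h1 | h1, -⟩
        · exact Or.inl (gap_neg h1.2)
        · exact Or.inr (hDsub _ z h1).2
      · apply Idl.of_subset (hgap j U hU)
        rintro z ⟨⟨h1 | h1, h2⟩, h3⟩
        · exact ⟨h1, h2⟩
        · exact absurd (hDsub _ z h1).2 (not_lt.2 (mem_Iio.1 h3).le)
      · apply Idl.of_subset (hDm j)
        rintro z ⟨⟨h1 | h1, h2⟩, h3⟩
        · exact absurd (gap_neg h1.2) (not_lt.2 (mem_Ioi.1 h3).le)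
        · exact h1
    obtain ⟨a, ha1, ha2, ha3⟩ := shell_emb ((hcX j).union (hcD j)) hsep univ_mem
    refine ⟨a, ha1, ha2, fun z hz => ?_⟩
    have hzy : z ≠ yy j := by
      rintro rfl
      rcases hz with h | h
      · exact yy_not_gap h.2
      · exact absurd (hDsub _ _ h).2 (not_lt.2 (yy_neg j).le)
    exact (ha3 ⟨hz, hzy⟩).1.1
  choose a ha1 ha2 ha3 using ha
  -- pieces
  let P : ℕ → Set ℝ := fun i => match i with
    | 0 => D 0
    | 1 => D 1
    | j + 2 => (X ∩ gap j) ∪ D (j + 2)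
  let g : ℕ → ℝ → ℝ := fun i => match i with
    | 0 => b
    | 1 => e
    | j + 2 => a j
  have hPc : ∀ i x, x ∈ P i → (0 < x ∧ x ∈ D i) ∨ (x < 0 ∧ ∃ j, i = j + 2 ∧ x ∈ X ∩ gap j) := by
    intro i x hx
    match i with
    | 0 => exact Or.inl ⟨(hDsub 0 x hx).2, hx⟩
    | 1 => exact Or.inl ⟨(hDsub 1 x hx).2, hx⟩
    | j + 2 =>
      rcases hx with h | h
      · exact Or.inr ⟨gap_neg h.2, j, rfl, h⟩
      · exact Or.inl ⟨(hDsub _ x h).2, h⟩
  have hDP : ∀ i x, x ∈ D i → x ∈ P i := by
    intro i x hx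
    match i with
    | 0 => exact hx
    | 1 => exact hx
    | j + 2 => exact Or.inr hx
  have hPX : ∀ i x, x ∈ P i → x ∈ X := by
    intro i x hx
    rcases hPc i x hx with ⟨-, h⟩ | ⟨-, j, -, h⟩
    · exact (hDsub i x h).1
    · exact h.1
  have hPd : ∀ i j x, x ∈ P i → x ∈ P j → i = j := by
    intro i j x hi hj
    rcases hPc i x hi with ⟨h1, h2⟩ | ⟨h1, i', rfl, h2⟩
    · rcases hPc j x hj with ⟨h3, h4⟩ | ⟨h3, j', rfl, h4⟩
      · exact hDdisj i j x h2 h4
      · linarith
    · rcases hPc j x hj with ⟨h3, h4⟩ | ⟨h3, j', rfl, h4⟩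
      · linarith
      · rw [nn_disj (gap_sub_nn _ h2.2) (gap_sub_nn _ h4.2)]
  have hPL : ∀ x ∈ LL R, ∀ i, x ∉ P i := by
    intro x hx i hi
    rcases hPc i x hi with ⟨h1, h2⟩ | ⟨h1, i', rfl, h2⟩
    · exact absurd h1 (not_lt.2 (LL_le hR hx))
    · exact LL_not_gap hR hx h2.2
  set f := pieceFn P g (fun x => x) with hf
  have hfe : ∀ i x, x ∈ P i → f x = g i x := fun i x hx => pieceFn_eq hPd hx
  have hfL : ∀ x ∈ LL R, f x = x := fun x hx => pieceFn_base (hPL x hx)
  have hcov : ∀ x ∈ X, x ∈ LL R ∨ ∃ i, x ∈ P i := by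
    intro x hx
    rcases lt_trichotomy x 0 with h | h | h
    · rcases hneg x hx h with h1 | h1 | ⟨j, hj⟩
      · exact Or.inl (Or.inl (Or.inl h1))
      · exact Or.inl (Or.inl (Or.inr h1))
      · exact Or.inr ⟨j + 2, Or.inl ⟨hx, hj⟩⟩
    · exact Or.inl (Or.inr h)
    · obtain ⟨i, hi⟩ := hpos x hx h
      exact Or.inr ⟨i, hDP i x hi⟩
  have hft : ∀ i x, x ∈ P i → f x ∈ X' ∩ tgt i := by
    intro i x hx
    rw [hfe i x hx]
    match i with
    | 0 => exact hbm hx
    | 1 => exact hem hx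
    | j + 2 => exact ha3 j hx
  have hfs : ∀ i, ∀ x ∈ X, f x ∈ tgt i → x ∈ P i := by
    intro i x hx hfx
    rcases hcov x hx with h | ⟨j, hj⟩
    · rw [hfL x h] at hfx
      exact absurd hfx (LL_not_tgt hR h)
    · rw [tgt_disj hfx (hft j x hj).2]
      exact hj
  have hXJ : ∀ j, ∀ x ∈ X, x ∈ JJ j → x ∈ LL R := by
    intro j x hx hxj
    rcases hneg x hx (JJ_neg hxj) with h1 | h1 | ⟨i, hi⟩
    · exact Or.inl (Or.inl h1)
    · exact Or.inl (Or.inr h1)
    · exact (JJ_not_gap hxj hi).elim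
  refine ⟨f, ?_, ?_⟩
  · apply EmbOn.glue (L := LL R) (P := P) hcov
    · intro i
      refine EmbOn.congr ?_ (hfe i)
      match i with
      | 0 => exact hbE.mono subset_union_left
      | 1 => exact heE
      | j + 2 => exact (ha1 j).mono (subset_insert _ _)
    · intro i x hx
      rcases hPc i x hx with ⟨-, h⟩ | ⟨-, j, rfl, h⟩
      · obtain ⟨U, hU, h1⟩ := hDopen i x h
        exact ⟨U, hU, fun y hy hyU => hDP i y (h1 y hy hyU)⟩
      · exact ⟨gap j, (isOpen_gap j).mem_nhds h.2, fun y hy hyU => Or.inl ⟨hy, hyU⟩⟩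
    · intro i x hx
      exact ⟨tgt i, (isOpen_tgt i).mem_nhds (hft i x hx).2, hfs i⟩
    · intro x hx hxL
      rw [hfL x hxL]
      rcases hxL with (h | ⟨j, rfl⟩) | h
      · obtain ⟨j, hj⟩ := mem_iUnion.1 (hR h)
        have hJn := (isOpen_JJ j).mem_nhds hj
        refine ⟨fun V hV => ⟨V ∩ JJ j, inter_mem hV hJn, fun y hy hyU => ?_⟩,
          fun U hU => ⟨U ∩ JJ j, inter_mem hU hJn, fun y hy hyU => ?_⟩⟩
        · rw [hfL y (hXJ j y hy hyU.2)]
          exact hyU.1
        · rcases hcov y hy with h1 | ⟨i, hi⟩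
          · rw [hfL y h1] at hyU
            exact hyU.1
          · exfalso
            have h1 := (hft i y hi).2
            have h2 := hyU.2
            match i with
            | 0 => exact absurd h1.1 (not_lt.2 (JJ_neg h2).le)
            | 1 =>
              have h3 : 2 < f y := h1
              have := JJ_neg h2
              linarith
            | k + 2 => exact JJ_not_gap h2 h1
      · have hnn := (isOpen_nn j).mem_nhds (yy_mem_nn j)
        obtain ⟨h1, h2⟩ := ha1 j (yy j) (mem_insert _ _)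
        rw [ha2 j] at h1 h2
        have hXn : ∀ y ∈ X, y ∈ nn j → y ∈ LL R ∨ y ∈ X ∩ gap j := by
          intro y hy hyn
          rcases nn_cases hyn with h3 | h3 | h3
          · exact Or.inl (hXJ j y hy h3)
          · exact Or.inl (Or.inl (Or.inr ⟨j, h3.symm⟩))
          · exact Or.inr ⟨hy, h3⟩
        constructor
        · intro V hV
          obtain ⟨U, hU, h3⟩ := h1 V hV
          refine ⟨(U ∩ V) ∩ nn j, inter_mem (inter_mem hU hV) hnn, fun y hy hyU => ?_⟩
          rcases hXn y hy hyU.2 with h4 | h4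
          · rw [hfL y h4]
            exact hyU.1.2
          · rw [hfe (j + 2) y (Or.inl h4)]
            exact h3 y (Or.inr (Or.inl h4)) hyU.1.1
        · intro U hU
          obtain ⟨V, hV, h3⟩ := h2 U hU
          refine ⟨(V ∩ U) ∩ nn j, inter_mem (inter_mem hV hU) hnn, fun y hy hyV => ?_⟩
          rcases hcov y hy with h4 | ⟨i, hi⟩
          · rw [hfL y h4] at hyV
            exact hyV.1.2
          · have h5 := (hft i y hi).2
            have h6 := hyV.2
            match i with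
            | 0 => exact absurd h5.1 (not_lt.2 (nn_neg h6).le)
            | 1 =>
              have h7 : 2 < f y := h5
              have := nn_neg h6
              linarith
            | k + 2 =>
              have : k = j := nn_disj (gap_sub_nn k h5) h6
              subst this
              have h8 := hyV.1.1
              rw [hfe (k + 2) y hi] at h8
              exact h3 y (Or.inr hi) h8
      · rw [mem_singleton_iff] at h
        subst h
        obtain ⟨h1, h2⟩ := hbE 0 (Or.inr ⟨hx, rfl⟩)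
        rw [hb0 hx] at h1 h2
        have hgs : ∀ k z, z ∈ gap k → -sc k < z ∧ z < -(3/4) * sc k := fun k z hz => hz
        constructor
        · intro V hV
          obtain ⟨ε, hε, hbV⟩ := Metric.nhds_basis_ball.mem_iff.1 hV
          obtain ⟨K, hK⟩ := sc_small hε
          obtain ⟨U, hU, h3⟩ := h1 V hV
          -- bounds
          have hδ : ∃ δ > 0, ∀ i < K + 1, ∀ x ∈ D (i + 1), δ ≤ x := by
            have aux : ∀ n, ∃ δ > 0, ∀ i < n, ∀ x ∈ D (i + 1), δ ≤ x := by
              intro n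
              induction n with
              | zero => exact ⟨1, one_pos, fun i hi => absurd hi (by omega)⟩
              | succ n ih =>
                obtain ⟨δ, hδ, h4⟩ := ih
                obtain ⟨δ', hδ', h5⟩ := away hx n
                refine ⟨min δ δ', lt_min hδ hδ', fun i hi x hxi => ?_⟩
                rcases Nat.lt_succ_iff_lt_or_eq.1 hi with h6 | h6
                · exact le_trans (min_le_left _ _) (h4 i h6 x hxi)
                · subst h6
                  exact le_trans (min_le_right _ _) (h5 x hxi)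
            exact aux _
          obtain ⟨δ, hδ, h4⟩ := hδ
          refine ⟨(U ∩ V) ∩ (Metric.ball 0 δ ∩ Metric.ball 0 ((3/4) * sc K)),
            inter_mem (inter_mem hU hV) (inter_mem (Metric.ball_mem_nhds _ hδ)
              (Metric.ball_mem_nhds _ (by have := sc_pos K; positivity))), fun y hy hyU => ?_⟩
          obtain ⟨⟨hyU1, hyV1⟩, hyδ, hyK⟩ := hyU
          rw [Metric.mem_ball, Real.dist_eq, sub_zero, abs_lt] at hyδ hyK
          rcases hcov y hy with h5 | ⟨i, hi⟩
          · rw [hfL y h5]; exact hyV1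
          · have hfy := (hft i y hi).2
            match i with
            | 0 =>
              rw [hfe 0 y hi]
              exact h3 y (Or.inl hi) hyU1
            | 1 =>
              exfalso
              have := h4 0 (by omega) y hi
              linarith
            | j + 2 =>
              have hjK : K ≤ j := by
                rcases hi with h6 | h6
                · by_contra hcon
                  have h7 := (hgs _ _ h6.2).2
                  have h8 : sc K ≤ sc j := sc_anti.antitone (by omega)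
                  linarith
                · by_contra hcon
                  have := h4 (j + 1) (by omega) y h6
                  linarith
              apply hbV
              have h7 := hgs _ _ hfy
              have h8 : sc j ≤ sc K := sc_anti.antitone hjK
              have h9 := sc_pos j
              rw [Metric.mem_ball, Real.dist_eq, sub_zero, abs_lt]
              constructor <;> linarith
        · intro U hU
          obtain ⟨ε, hε, hbU⟩ := Metric.nhds_basis_ball.mem_iff.1 hU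
          obtain ⟨K, hK⟩ := sc_small hε
          obtain ⟨j0, hj0⟩ := lim hx ε hε
          obtain ⟨V, hV, h3⟩ := h2 U hU
          refine ⟨(V ∩ U) ∩ (Metric.ball 0 ((3/4) * sc (max K j0)) ∩ Metric.ball 0 1),
            inter_mem (inter_mem hV hU) (inter_mem
              (Metric.ball_mem_nhds _ (by have := sc_pos (max K j0); positivity))
              (Metric.ball_mem_nhds _ one_pos)), fun y hy hyV => ?_⟩
          obtain ⟨⟨hyV1, hyU1⟩, hyK, hy1⟩ := hyV
          rw [Metric.mem_ball, Real.dist_eq, sub_zero, abs_lt] at hyK hy1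
          rcases hcov y hy with h5 | ⟨i, hi⟩
          · rw [hfL y h5] at hyU1; exact hyU1
          · have hfy := (hft i y hi).2
            match i with
            | 0 =>
              rw [hfe 0 y hi] at hyV1
              exact h3 y (Or.inl hi) hyV1
            | 1 =>
              exfalso
              have h6 : 2 < f y := hfy
              linarith
            | j + 2 =>
              have h7 := hgs _ _ hfy
              have hjK : max K j0 ≤ j := by
                by_contra hcon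
                have h8 : sc (max K j0) ≤ sc j := sc_anti.antitone (by omega)
                linarith
              have hjK1 : K ≤ j := le_trans (le_max_left _ _) hjK
              have hjK2 : j0 ≤ j := le_trans (le_max_right _ _) hjK
              apply hbU
              rw [Metric.mem_ball, Real.dist_eq, sub_zero, abs_lt]
              rcases hi with h6 | h6
              · have h8 := hgs _ _ h6.2
                have h9 : sc j ≤ sc K := sc_anti.antitone hjK1
                have h10 := sc_pos j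
                constructor <;> linarith
              · have h8 := hj0 j hjK2 y h6
                have h9 := (hDsub _ y h6).2
                constructor <;> linarith
  · intro x hx
    rcases hcov x hx with h | ⟨i, hi⟩
    · rw [hfL x h]
      rcases h with (h | h) | h
      · exact hR' h
      · exact hY' h
      · rw [mem_singleton_iff] at h
        subst h
        exact h0 hx
    · exact (hft i x hi).1

end Pool.Agent.Helper754
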