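import Pool.Agent.Helper754.Basic

open Set Topology Filter

namespace Pool.Agent.Helper754

theorem EmbOn.glue {ι : Type*} {E L : Set ℝ} {f : ℝ → ℝ} {P : ι → Set ℝ}
    (hcov : ∀ x ∈ E, x ∈ L ∨ ∃ i, x ∈ P i)
    (hP : ∀ i, EmbOn f (P i))
    (hopen : ∀ i, ∀ x ∈ P i, ∃ U ∈ 𝓝 x, ∀ y ∈ E, y ∈ U → y ∈ P i)
    (hsep : ∀ i, ∀ x ∈ P i, ∃ V ∈ 𝓝 (f x), ∀ y ∈ E, f y ∈ V → y ∈ P i)
    (hL : ∀ x ∈ E, x ∈ L → (∀ V ∈ 𝓝 (f x), ∃ U ∈ 𝓝 x, ∀ y ∈ E, y ∈ U → f y ∈ V) ∧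
           (∀ U ∈ 𝓝 x, ∃ V ∈ 𝓝 (f x), ∀ y ∈ E, f y ∈ V → y ∈ U)) : EmbOn f E := by
  intro x hx
  rcases hcov x hx with h | ⟨i, hi⟩
  · exact hL x hx h
  · obtain ⟨h1, h2⟩ := hP i x hi
    obtain ⟨U0, hU0, h3⟩ := hopen i x hi
    obtain ⟨V0, hV0, h4⟩ := hsep i x hi
    refine ⟨fun V hV => ?_, fun U hU => ?_⟩
    · obtain ⟨U, hU, h5⟩ := h1 V hV
      exact ⟨U ∩ U0, inter_mem hU hU0, fun y hy hyU => h5 y (h3 y hy hyU.2) hyU.1⟩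
    · obtain ⟨V, hV, h5⟩ := h2 U hU
      exact ⟨V ∩ V0, inter_mem hV hV0, fun y hy hyU => h5 y (h4 y hy hyU.2) hyU.1⟩

open Classical in
/-- piecewise function -/
noncomputable def pieceFn {ι : Type*} (P : ι → Set ℝ) (g : ι → ℝ → ℝ) (b : ℝ → ℝ) : ℝ → ℝ :=
  fun x => if h : ∃ i, x ∈ P i then g h.choose x else b x

theorem pieceFn_eq {ι : Type*} {P : ι → Set ℝ} {g : ι → ℝ → ℝ} {b : ℝ → ℝ}
    (hd : ∀ i j x, x ∈ P i → x ∈ P j → i = j) {i : ι} {x : ℝ} (hx : x ∈ P i) :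
    pieceFn P g b x = g i x := by
  have h : ∃ i, x ∈ P i := ⟨i, hx⟩
  unfold pieceFn
  rw [dif_pos h]
  rw [hd _ _ x h.choose_spec hx]

theorem pieceFn_base {ι : Type*} {P : ι → Set ℝ} {g : ι → ℝ → ℝ} {b : ℝ → ℝ}
    {x : ℝ} (hx : ∀ i, x ∉ P i) : pieceFn P g b x = b x := by
  unfold pieceFn
  rw [dif_neg]
  push Not
  exact hx

/-- disjoint union of embeddings -/
theorem Le.iUnion {ι : Type*} {E T : Set ℝ} {O G : ι → Set ℝ}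
    (hO : ∀ i, IsOpen (O i)) (hOd : ∀ i j x, x ∈ O i → x ∈ O j → i = j)
    (hG : ∀ i, IsOpen (G i)) (hGd : ∀ i j x, x ∈ G i → x ∈ G j → i = j)
    (hcov : ∀ x ∈ E, ∃ i, x ∈ O i)
    (h : ∀ i, Le (E ∩ O i) (T ∩ G i)) : Le E T := by
  choose f hf hfm using h
  set F := pieceFn (fun i => E ∩ O i) f (fun x => x) with hF
  have hFe : ∀ i x, x ∈ E ∩ O i → F x = f i x := fun i x hx =>
    pieceFn_eq (fun i j x h1 h2 => hOd i j x h1.2 h2.2) hx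
  refine ⟨F, ?_, ?_⟩
  · apply EmbOn.glue (L := ∅) (P := fun i => E ∩ O i)
    · intro x hx
      obtain ⟨i, hi⟩ := hcov x hx
      exact Or.inr ⟨i, hx, hi⟩
    · intro i
      exact (hf i).congr (fun x hx => hFe i x hx)
    · intro i x hx
      exact ⟨O i, (hO i).mem_nhds hx.2, fun y hy hyO => ⟨hy, hyO⟩⟩
    · intro i x hx
      refine ⟨G i, (hG i).mem_nhds ?_, fun y hy hyO => ?_⟩
      · rw [hFe i x hx]; exact (hfm i hx).2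
      · obtain ⟨j, hj⟩ := hcov y hy
        have h1 : F y ∈ G j := by rw [hFe j y ⟨hy, hj⟩]; exact (hfm j ⟨hy, hj⟩).2
        rw [hGd i j _ hyO h1]
        exact ⟨hy, hj⟩
    · intro x _ hx
      exact absurd hx (by simp)
  · intro x hx
    obtain ⟨i, hi⟩ := hcov x hx
    rw [hFe i x ⟨hx, hi⟩]
    exact (hfm i ⟨hx, hi⟩).1

/-- The ideal of a germ. -/
def Idl (x : ℝ) (S : Set ℝ) : Set (Set ℝ) :=
  {Q | ∀ U ∈ 𝓝 x, ∃ U' ∈ 𝓝 x, Le Q ((S ∩ U) \ U')}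

def Good (x : ℝ) (S : Set ℝ) : Prop := ∀ U ∈ 𝓝 x, S \ U ∈ Idl x S

theorem Idl.of_le {x : ℝ} {S Q Q' : Set ℝ} (hQ : Q ∈ Idl x S) (h : Le Q' Q) : Q' ∈ Idl x S := by
  intro U hU
  obtain ⟨U', hU', h'⟩ := hQ U hU
  exact ⟨U', hU', h.trans h'⟩

theorem Idl.of_subset {x : ℝ} {S Q Q' : Set ℝ} (hQ : Q ∈ Idl x S) (h : Q' ⊆ Q) : Q' ∈ Idl x S :=
  Idl.of_le hQ (Le.of_subset h)

theorem Idl.mono {x : ℝ} {S S' : Set ℝ} (h : S ⊆ S') : Idl x S ⊆ Idl x S' := by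
  intro Q hQ U hU
  obtain ⟨U', hU', h'⟩ := hQ U hU
  exact ⟨U', hU', h'.trans (Le.of_subset (fun y hy => ⟨⟨h hy.1.1, hy.1.2⟩, hy.2⟩))⟩

theorem Idl.mono_nhds {x : ℝ} {S S' U0 : Set ℝ} (hU0 : U0 ∈ 𝓝 x) (h : S ∩ U0 ⊆ S') :
    Idl x S ⊆ Idl x S' := by
  intro Q hQ U hU
  obtain ⟨U', hU', h'⟩ := hQ (U ∩ U0) (inter_mem hU hU0)
  exact ⟨U', hU', h'.trans (Le.of_subset (fun y hy => ⟨⟨h ⟨hy.1.1, hy.1.2.2⟩, hy.1.2.1⟩, hy.2⟩))⟩

theorem Idl.inter_nhds {x : ℝ} {S U0 : Set ℝ} (hU0 : U0 ∈ 𝓝 x) :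
    Idl x (S ∩ U0) = Idl x S :=
  Subset.antisymm (Idl.mono inter_subset_left) (Idl.mono_nhds hU0 subset_rfl)

theorem Idl.empty_mem (x : ℝ) (S : Set ℝ) : ∅ ∈ Idl x S := fun U hU => ⟨U, hU, Le.empty _⟩

theorem Idl.congr_nhds {x : ℝ} {S S' U0 : Set ℝ} (hU0 : U0 ∈ 𝓝 x) (h : S ∩ U0 = S' ∩ U0) :
    Idl x S = Idl x S' := by
  rw [← Idl.inter_nhds (S := S) hU0, h, Idl.inter_nhds hU0]

theorem Idl.insert_self {x : ℝ} {S : Set ℝ} : Idl x (insert x S) = Idl x S := by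
  apply Subset.antisymm
  · intro Q hQ U hU
    obtain ⟨U', hU', h'⟩ := hQ U hU
    refine ⟨U', hU', h'.trans (Le.of_subset (fun y hy => ?_))⟩
    obtain ⟨⟨h1, h2⟩, h3⟩ := hy
    rcases h1 with rfl | h1
    · exact absurd (mem_of_mem_nhds hU') h3
    · exact ⟨⟨h1, h2⟩, h3⟩
  · exact Idl.mono (subset_insert _ _)

/-- union of two separated members -/
theorem Idl.union {x : ℝ} {S Q O1 O2 : Set ℝ} (hO1 : IsOpen O1) (hO2 : IsOpen O2)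
    (hd : Disjoint O1 O2) (hQ : Q ⊆ O1 ∪ O2) (h1 : Q ∩ O1 ∈ Idl x S) (h2 : Q ∩ O2 ∈ Idl x S) :
    Q ∈ Idl x S := by
  intro U hU
  obtain ⟨U1, hU1, hle1⟩ := h1 U hU
  obtain ⟨ε, hε, hb⟩ := Metric.nhds_basis_closedBall.mem_iff.1 (inter_mem hU1 hU)
  obtain ⟨U2, hU2, hle2⟩ := h2 (Metric.ball x ε) (Metric.ball_mem_nhds x hε)
  refine ⟨U2 ∩ Metric.ball x ε, inter_mem hU2 (Metric.ball_mem_nhds x hε), ?_⟩
  apply Le.iUnion (O := fun b : Bool => if b then O1 else O2)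
    (G := fun b : Bool => if b then (Metric.closedBall x ε)ᶜ else Metric.ball x ε)
  · rintro (_ | _) <;> simp [hO1, hO2]
  · rintro (_ | _) (_ | _) y hy1 hy2
    · rfl
    · exact absurd hy1 (disjoint_left.1 hd hy2)
    · exact absurd hy2 (disjoint_left.1 hd hy1)
    · rfl
  · rintro (_ | _)
    · simp
    · simpa using Metric.isClosed_closedBall
  · rintro (_ | _) (_ | _) y hy1 hy2
    · rfl
    · exact absurd (Metric.ball_subset_closedBall (by simpa using hy1)) (by simpa using hy2)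
    · exact absurd (Metric.ball_subset_closedBall (by simpa using hy2)) (by simpa using hy1)
    · rfl
  · intro y hy
    rcases hQ hy with h | h
    · exact ⟨true, by simpa using h⟩
    · exact ⟨false, by simpa using h⟩
  · rintro (_ | _)
    · refine Le.trans (by simpa using hle2) (Le.of_subset ?_)
      rintro y ⟨⟨hy1, hy2⟩, hy3⟩
      refine ⟨⟨⟨hy1, (hb (Metric.ball_subset_closedBall hy2)).2⟩, fun h => hy3 h.1⟩, by simpa using hy2⟩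
    · refine Le.trans (by simpa using hle1) (Le.of_subset ?_)
      rintro y ⟨⟨hy1, hy2⟩, hy3⟩
      have h4 : y ∉ Metric.closedBall x ε := fun h => hy3 (hb h).1
      refine ⟨⟨⟨hy1, hy2⟩, fun h => h4 (Metric.ball_subset_closedBall h.2)⟩, ?_⟩
      simpa using h4

end Pool.Agent.Helper754
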