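import Pool.Agent.Helper754.Rep

open Set Topology Filter

namespace Pool.Agent.Helper754

/-- countable sets all of whose points have finite rank -/
def SgF (S : Set ℝ) : Prop := S.Countable ∧ ∀ x ∈ S, ∃ n, PRk n x S

theorem SgF.of_le {S S' : Set ℝ} (h : SgF S') (hle : Le S S') : SgF S := by
  refine ⟨countable_of_le hle h.1, ?_⟩
  obtain ⟨f, hf, hm⟩ := hle
  intro x hx
  obtain ⟨n, V, hV, hr⟩ := h.2 (f x) (hm hx)
  obtain ⟨U, hU, h1⟩ := (hf x hx).1 V hV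
  refine ⟨n, U, hU, hr.of_le ⟨f, hf.mono (fun y hy => hy.1.1), ?_⟩⟩
  rintro y ⟨⟨hy1, hy2⟩, hy3⟩
  exact ⟨⟨hm hy1, h1 y hy1 hy2⟩, fun h => hy3 (hf.injOn hy1 hx h)⟩

theorem SgF.loc {S : Set ℝ} (hc : S.Countable) (h : ∀ x ∈ S, ∃ U ∈ 𝓝 x, SgF (S ∩ U)) :
    SgF S := by
  refine ⟨hc, fun x hx => ?_⟩
  obtain ⟨U, hU, h1⟩ := h x hx
  obtain ⟨n, hn⟩ := h1.2 x ⟨hx, mem_of_mem_nhds hU⟩
  exact ⟨n, hn.mono_nhds hU subset_rfl⟩

theorem SgF.of_rk {n : ℕ} {S : Set ℝ} (hc : S.Countable) (h : Rk n S) : SgF S :=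
  ⟨hc, fun _ _ => ⟨n, univ, univ_mem, h.mono_set (fun _ hy => hy.1.1)⟩⟩

theorem SgF.of_fan {Q : ℕ → Set ℝ} (h : ∀ k, SgF (Q k)) : SgF (fan Q) := by
  apply SgF.loc (fan_countable (fun k => (h k).1))
  intro x hx
  obtain ⟨k, hk⟩ := mem_fan_room hx
  refine ⟨room k, (isOpen_room k).mem_nhds hk, ?_⟩
  rw [fan_inter_room]
  exact (h k).of_le (Le.image_left (rho_emb k _))

theorem fanUU_sg : SgF (fan UU) := SgF.of_fan (fun k => SgF.of_rk (UU_countable k) (UU_rk k))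

theorem SgF.le_fanUU {Q : Set ℝ} (h : SgF Q) : Le Q (fan UU) := by
  have hN : ∀ y, ∃ (n : ℕ) (N : Set ℝ), y ∈ Q ∩ univ → N ∈ 𝓝 y ∧ Rk n ((Q ∩ N) \ {y}) := by
    intro y
    by_cases hy : y ∈ Q
    · obtain ⟨n, U, hU, hr⟩ := h.2 y hy
      exact ⟨n, U, fun _ => ⟨hU, hr⟩⟩
    · exact ⟨0, univ, fun h => absurd h.1 hy⟩
  choose n N hN using hN
  obtain ⟨P, hP1, hP2, hP3⟩ := partition h.1 isOpen_univ (fun y hy => (hN y hy).1)
  obtain ⟨enc, henc⟩ := Set.countable_iff_exists_injOn.1 h.1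
  apply Le.iUnion (ι := {y // y ∈ Q ∩ univ}) (O := fun y => P y.1)
    (G := fun y => room (Nat.pair (enc y.1) (n y.1 + 1)))
  · exact fun y => (hP1 y.1 y.2).1
  · exact fun y y' z hz hz' => Subtype.ext (hP2 y.1 y.2 y'.1 y'.2 z hz hz')
  · exact fun y => isOpen_room _
  · intro y y' z hz hz'
    have h1 := room_disj hz hz'
    rw [Nat.pair_eq_pair] at h1
    exact Subtype.ext (henc y.2.1 y'.2.1 h1.1)
  · intro s hs
    obtain ⟨y, hy, hsy⟩ := hP3 s ⟨hs, mem_univ _⟩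
    exact ⟨⟨y, hy⟩, hsy⟩
  · rintro ⟨y, hy⟩
    obtain ⟨hNy, hr⟩ := hN y hy
    have h1 : Rk (n y + 1) (Q ∩ N y) := by
      intro x hx
      by_cases hxy : x = y
      · rw [hxy]
        exact ⟨univ, univ_mem, hr.mono_set (fun z hz => ⟨hz.1.1, hz.2⟩)⟩
      · refine ⟨{y}ᶜ, isOpen_compl_singleton.mem_nhds hxy, hr.mono_set ?_⟩
        rintro z ⟨⟨hz1, hz2⟩, -⟩
        exact ⟨hz1, hz2⟩
    rw [fan_inter_room]
    refine Le.trans (F := Q ∩ N y) (Le.of_subset (fun z hz => ⟨hz.1, (hP1 y hy).2.1 hz.2⟩)) ?_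
    refine Le.trans (UU_univ (Nat.pair (enc y) (n y + 1)) (h.1.mono inter_subset_left)
      (h1.mono_nat (Nat.right_le_pair _ _))) (Le.image_right (rho_emb _ _))

noncomputable def V2 : Set ℝ := insert 0 (fan UU)

theorem V2_prk {Z : Set ℝ} (hZ : Z ⊆ V2) {n : ℕ} (h : PRk n 0 Z) : SgF Z := by
  refine ⟨(fanUU_sg.1.insert 0).mono hZ, fun x hx => ?_⟩
  rcases hZ hx with h1 | h1
  · rw [h1]; exact ⟨n, h⟩
  · obtain ⟨k, hk⟩ := fanUU_sg.2 x h1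
    refine ⟨k, hk.mono_nhds (U0 := Ioi 0) (isOpen_Ioi.mem_nhds (fan_sub _ h1).1) ?_⟩
    rintro z ⟨hz1, hz2⟩
    rcases hZ hz1 with h2 | h2
    · rw [h2] at hz2
      exact absurd hz2 (by simp)
    · exact h2

theorem V2_not : ¬ SgF V2 := by
  intro h
  obtain ⟨n, U, hU, hr⟩ := h.2 0 (mem_insert _ _)
  obtain ⟨ε, hε, hb⟩ := Metric.nhds_basis_ball.mem_iff.1 hU
  obtain ⟨K, hK⟩ := sc_small hε
  apply UU_not_rk n
  have h1 : Le (UU (n + 1)) (UU (max K (n + 1))) :=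
    UU_univ _ (UU_countable _) ((UU_rk (n + 1)).mono_nat (le_max_right _ _))
  refine hr.of_le (h1.trans ((Le.image_right (rho_emb (max K (n + 1)) _)).trans (Le.of_subset ?_)))
  rintro _ ⟨x, hx, rfl⟩
  have hroom := rho_mem_room (max K (n + 1)) x
  have hpos := (room_sub _ hroom).1
  refine ⟨⟨Or.inr (mem_iUnion.2 ⟨_, x, hx, rfl⟩), hb ?_⟩, fun h => ?_⟩
  · rw [Metric.mem_ball, Real.dist_eq, sub_zero, abs_of_pos hpos]
    have : sc (max K (n + 1)) ≤ sc K := sc_anti.antitone (le_max_left _ _)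
    linarith [hroom.2]
  · rw [mem_singleton_iff] at h
    rw [h] at hpos
    exact lt_irrefl _ hpos

theorem V2_min (Z : Set ℝ) (hZ : Z ⊆ V2) (hs : ¬ SgF Z) : ∀ U ∈ 𝓝 (0 : ℝ), V2 \ U ∈ Idl 0 Z := by
  intro U hU W hW
  obtain ⟨ε, hε, hb⟩ := Metric.nhds_basis_ball.mem_iff.1 hU
  obtain ⟨K, hK⟩ := sc_small hε
  have h1 : Rk K (V2 \ U) := by
    apply (Rk.fan (Q := fun k => if k < K then UU k else ∅) (n := K) ?_).mono_set
    · rintro z ⟨h1 | h1, h2⟩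
      · rw [h1] at h2
        exact absurd (mem_of_mem_nhds hU) h2
      · obtain ⟨k, x, hx, rfl⟩ := mem_iUnion.1 h1
        refine mem_iUnion.2 ⟨k, x, ?_, rfl⟩
        have hkK : k < K := by
          by_contra hcon
          apply h2
          apply hb
          rw [Metric.mem_ball, Real.dist_eq, sub_zero, abs_of_pos (room_sub k (rho_mem_room k x)).1]
          have h3 : sc k ≤ sc K := sc_anti.antitone (not_lt.1 hcon)
          linarith [rho_lt k x]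
        simpa [hkK] using hx
    · intro k
      by_cases hk : k < K
      · simp only [hk, if_true]
        exact (UU_rk k).mono_nat hk.le
      · simp only [hk, if_false]
        have : Rk 0 (∅ : Set ℝ) := rfl
        exact this.mono_nat (Nat.zero_le _)
  have h2 : ¬ Rk (2 * K) ((Z ∩ W) \ {0}) := fun h => hs (V2_prk hZ ⟨W, hW, h⟩)
  have h3 : ∃ W' ∈ 𝓝 (0 : ℝ), ¬ Rk (2 * K) ((Z ∩ W) \ W') := by
    by_contra hcon
    push Not at hcon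
    exact h2 (Rk.diff_nhds hcon)
  obtain ⟨W', hW', h4⟩ := h3
  exact ⟨W', hW', big K h4 ((fanUU_sg.1.insert 0).mono sdiff_subset) h1⟩

/-- the data for the second problem -/
noncomputable def D2 : Data where
  Sg := SgF
  V := V2
  v := 0
  F0 := fan (fun _ => fan UU)
  F1 := ∅
  sg_countable := fun h => h.1
  sg_le := fun h hle => h.of_le hle
  sg_loc := fun hc h => SgF.loc hc h
  v_mem := mem_insert _ _
  V_countable := fanUU_sg.1.insert 0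
  V_sg := fanUU_sg.of_le (Le.of_subset (fun _ hy => hy.1.resolve_left hy.2))
  V_not := V2_not
  V_min := V2_min
  F0_sub := fan_sub _
  F0_sg := SgF.of_fan (fun _ => fanUU_sg)
  F0_univ := fun h => mem_idl_fan (fun K => ⟨K, le_rfl, h.le_fanUU⟩)
  F1_sub := empty_subset _
  F1_sg := SgF.of_rk (n := 0) countable_empty rfl
  F1_good := by
    intro U _
    apply Idl.of_subset (Idl.empty_mem _ _)
    exact sdiff_subset

theorem KK_D2 (S : Set ℝ) : Data.KK D2 S = Idl 0 S := by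
  unfold Data.KK
  have : (fun x : ℝ => -x) '' D2.F1 = ∅ := by
    show (fun x : ℝ => -x) '' ∅ = ∅
    simp
  rw [this, empty_union]

theorem mem_top {m : ℕ} {Q : Set ℝ} (hc : Q.Countable) (hr : Rk m Q) : Q ∈ Idl 0 D2.ST := by
  apply mem_idl_fan
  intro K
  refine ⟨K, le_rfl, ?_⟩
  refine (SgF.of_rk hc hr).le_fanUU.trans (Le.of_subset ?_)
  exact subset_insert _ _

theorem good_of_rk {m : ℕ} {T : Set ℝ} (hc : T.Countable) (hr : Rk m T) : Data.GoodK D2 T := by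
  obtain ⟨U0, hU0, h1⟩ := (finiteness m).2 0 T hc ⟨univ, univ_mem, hr.mono_set (fun y hy => hy.1.1)⟩
  refine ⟨U0, hU0, fun U hU => ?_⟩
  rw [KK_D2]
  have := h1 U hU
  rwa [Idl.inter_nhds hU0] at this

theorem ascend (m : ℕ) (S : Set ℝ) (hc : S.Countable) (hr : Rk m S) :
    ∃ S' ⊆ D2.ST, S'.Countable ∧ Rk (m + 1) S' ∧ Idl 0 S ⊆ Idl 0 S' ∧ ¬ Idl 0 S' ⊆ Idl 0 S ∧
      ∀ T ⊆ S', Idl 0 S ⊆ Idl 0 T → Idl 0 T ⊆ Idl 0 S ∨ Idl 0 S' ⊆ Idl 0 T := by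
  have hprk : PRk m 0 S := ⟨univ, univ_mem, hr.mono_set (fun y hy => hy.1.1)⟩
  set PP : Set (Set (Set ℝ)) := {I | I ∈ Cls (m + 1) ∧ Idl 0 S ⊆ I ∧ ¬ I ⊆ Idl 0 S} with hPP
  have hfin : PP.Finite := (finiteness (m + 1)).1.subset (fun I hI => hI.1)
  have hne : PP.Nonempty := by
    refine ⟨Idl 0 (fan (fun _ => UU (m + 1))), ?_, ?_, ?_⟩
    · refine ⟨0, _, fan_countable (fun _ => UU_countable _), ⟨univ, univ_mem, ?_⟩, rfl⟩
      exact (Rk.fan (fun _ => UU_rk (m + 1))).mono_set (fun y hy => hy.1.1)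
    · intro Q hQ
      apply mem_idl_fan
      intro K
      exact ⟨K, le_rfl, UU_univ _ (countable_of_mem hc hQ) (hprk.idl hQ).succ⟩
    · intro h
      apply UU_not_rk m
      apply hprk.idl
      apply h
      apply mem_idl_fan
      intro K
      exact ⟨K, le_rfl, Le.refl _⟩
  obtain ⟨I, hI⟩ := hfin.exists_minimal hne
  obtain ⟨⟨hI1, hI2, hI3⟩, hmin⟩ := hI
  have hIc : I ⊆ Idl 0 D2.ST := by
    obtain ⟨x, S0, hS0, hr0, rfl⟩ := hI1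
    intro Q hQ
    exact mem_top (countable_of_mem hS0 hQ) (hr0.idl hQ)
  obtain ⟨S', hS'1, hS'2, hS'3, -, rfl⟩ := rep_in hI1 hIc
  refine ⟨S', hS'1, hS'2, hS'3, hI2, hI3, fun T hT h1 => ?_⟩
  by_cases h2 : Idl 0 T ⊆ Idl 0 S
  · exact Or.inl h2
  · right
    apply hmin
    · refine ⟨⟨0, T, hS'2.mono hT, ⟨univ, univ_mem, ?_⟩, rfl⟩, h1, h2⟩
      exact hS'3.mono_set (fun y hy => hT hy.1.1)
    · exact Idl.mono hT

theorem exists_chain : ∃ S : ℕ → Set ℝ, S 0 = ∅ ∧ (∀ i, S i ⊆ D2.ST ∧ (S i).Countable ∧ Rk i (S i)) ∧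
    ∀ i, Idl 0 (S i) ⊆ Idl 0 (S (i + 1)) ∧ ¬ Idl 0 (S (i + 1)) ⊆ Idl 0 (S i) ∧
      ∀ T ⊆ S (i + 1), Idl 0 (S i) ⊆ Idl 0 T →
        Idl 0 T ⊆ Idl 0 (S i) ∨ Idl 0 (S (i + 1)) ⊆ Idl 0 T := by
  choose nx h1 h2 h3 h4 h5 h6 using ascend
  let e : (n : ℕ) → {S : Set ℝ // S ⊆ D2.ST ∧ S.Countable ∧ Rk n S} := fun n =>
    Nat.rec ⟨∅, empty_subset _, countable_empty, rfl⟩
      (fun k p => ⟨nx k p.1 p.2.2.1 p.2.2.2, h1 _ _ _ _, h2 _ _ _ _, h3 _ _ _ _⟩) n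
  refine ⟨fun n => (e n).1, rfl, fun i => (e i).2, fun i => ?_⟩
  exact ⟨h4 _ _ _ _, h5 _ _ _ _, h6 i (e i).1 (e i).2.2.1 (e i).2.2.2⟩

theorem main2 : ∃ (A B C : Set ℝ) (S : ℕ → Set ℝ),
    Pr A B ∧ Pr B C ∧ Pr A (S 0) ∧ (∀ n : ℕ, Pr (S n) (S (n + 1))) ∧ ∀ n : ℕ, Lt (S n) C := by
  obtain ⟨R, hR⟩ := D2.exists_rig
  obtain ⟨S, hS0, hS, hc⟩ := exists_chain
  have hstep : ∀ n, Pr (D2.XX R (S n)) (D2.XX R (S (n + 1))) := by
    intro n
    obtain ⟨h1, h2, h3⟩ := hc n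
    apply Data.Pr_step hR (hS n).1 (hS (n + 1)).1
    · rw [KK_D2, KK_D2]; exact h1
    · rw [KK_D2, KK_D2]; exact h2
    · intro T hT
      rw [KK_D2, KK_D2, KK_D2]
      exact h3 T hT
    · exact good_of_rk (hS n).2.1 (hS n).2.2
    · intro T hT
      exact good_of_rk ((hS (n + 1)).2.1.mono hT) ((hS (n + 1)).2.2.mono_set hT)
  refine ⟨D2.AA R, D2.BB R, D2.CC R, fun n => D2.XX R (S n), Data.Pr_AB hR, Data.Pr_BC hR, ?_,
    hstep, ?_⟩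
  · simp only
    rw [hS0]
    exact Data.Pr_AX hR
  · intro n
    have hle : ∀ n, Le (D2.XX R (S n)) (D2.CC R) := fun n => Le.of_subset (Data.XX_sub (hS n).1)
    refine ⟨hle n, fun h => ?_⟩
    exact (hstep n).1.2 ((hle (n + 1)).trans h)

end Pool.Agent.Helper754
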