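import Mathlib

open Set Topology Filter MeasureTheory Metric
open scoped Real

set_option maxHeartbeats 400000

namespace Pool.Agent.Helper754.MV

/-- monomials -/
def mon {n : ℕ} (z : Fin n → ℂ) (β : Fin n → ℕ) : ℂ := ∏ i, z i ^ β i

theorem mon_cons {n : ℕ} (z : Fin (n + 1) → ℂ) (p : ℕ × (Fin n → ℕ)) :
    mon z (Fin.consEquiv (fun _ : Fin (n + 1) => ℕ) p) = z 0 ^ p.1 * mon (fun i => z i.succ) p.2 := by
  unfold mon
  rw [Fin.prod_univ_succ]
  rfl

/-- product of geometric series -/
theorem geom_prod : ∀ (n : ℕ) (z : Fin n → ℂ), (∀ i, ‖z i‖ < 1) →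
    (Summable fun β : Fin n → ℕ => ‖mon z β‖) ∧
    HasSum (fun β : Fin n → ℕ => mon z β) (∏ i, (1 - z i)⁻¹) := by
  intro n
  induction n with
  | zero =>
    intro z _
    constructor
    · exact (hasSum_unique _).summable
    · have := hasSum_unique (fun β : Fin 0 → ℕ => mon z β)
      simp only [mon, Finset.univ_eq_empty, Finset.prod_empty] at this ⊢
      exact this
  | succ n ih =>
    intro z hz
    obtain ⟨h1, h2⟩ := ih (fun i => z i.succ) (fun i => hz i.succ)
    have h3 : Summable fun k : ℕ => ‖z 0 ^ k‖ := by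
      simp only [norm_pow]
      exact summable_geometric_of_lt_one (norm_nonneg _) (hz 0)
    have h4 : HasSum (fun k : ℕ => z 0 ^ k) (1 - z 0)⁻¹ := hasSum_geometric_of_norm_lt_one (hz 0)
    have h5 : Summable fun p : ℕ × (Fin n → ℕ) => ‖z 0 ^ p.1 * mon (fun i => z i.succ) p.2‖ :=
      Summable.mul_norm (f := fun k : ℕ => z 0 ^ k)
        (g := fun β : Fin n → ℕ => mon (fun i => z i.succ) β) h3 h1
    have h6 := h4.mul h2 h5.of_norm
    constructor
    · rw [← (Fin.consEquiv (fun _ : Fin (n + 1) => ℕ)).summable_iff]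
      refine h5.congr (fun p => ?_)
      simp only [Function.comp]
      rw [mon_cons]
    · rw [← (Fin.consEquiv (fun _ : Fin (n + 1) => ℕ)).hasSum_iff, Fin.prod_univ_succ]
      have h7 : ((fun β : Fin (n + 1) → ℕ => mon z β) ∘ (Fin.consEquiv (fun _ : Fin (n + 1) => ℕ)))
          = fun p : ℕ × (Fin n → ℕ) => z 0 ^ p.1 * mon (fun i => z i.succ) p.2 := by
        funext p
        exact mon_cons z p
      rw [h7]
      exact h6


variable {E : Type*} [NormedAddCommGroup E] [NormedSpace ℂ E]

theorem torusMap_mem {n : ℕ} {R : ℝ} (hR : 0 < R) (θ : Fin n → ℝ) :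
    torusMap (0 : Fin n → ℂ) (fun _ => R) θ ∈ closedBall (0 : Fin n → ℂ) R := by
  rw [mem_closedBall, dist_zero_right, pi_norm_le_iff_of_nonneg hR.le]
  intro i
  simp [torusMap, Complex.norm_exp_ofReal_mul_I, abs_of_pos hR]

theorem norm_torusMap {n : ℕ} {R : ℝ} (hR : 0 < R) (θ : Fin n → ℝ) (i : Fin n) :
    ‖torusMap (0 : Fin n → ℂ) (fun _ => R) θ i‖ = R := by
  simp [torusMap, Complex.norm_exp_ofReal_mul_I, abs_of_pos hR]

theorem continuous_torusMap {n : ℕ} {R : ℝ} :
    Continuous (torusMap (0 : Fin n → ℂ) (fun _ => R)) := by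
  unfold torusMap
  fun_prop

theorem cont_f {n : ℕ} {R : ℝ} (hR : 0 < R) {f : (Fin n → ℂ) → E}
    (hf : ∀ z ∈ closedBall (0 : Fin n → ℂ) R, DifferentiableAt ℂ f z) :
    Continuous (fun θ : Fin n → ℝ => f (torusMap 0 (fun _ => R) θ)) := by
  rw [continuous_iff_continuousAt]
  intro θ
  exact ContinuousAt.comp (hf _ (torusMap_mem hR θ)).continuousAt continuous_torusMap.continuousAt

theorem ker_ne {n : ℕ} {R : ℝ} (hR : 0 < R) {y : Fin n → ℂ} (hy : ‖y‖ < R) (θ : Fin n → ℝ)
    (i : Fin n) : torusMap (0 : Fin n → ℂ) (fun _ => R) θ i - y i ≠ 0 := by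
  intro h
  have h1 := norm_torusMap hR θ i
  rw [sub_eq_zero.1 h] at h1
  have h2 := norm_le_pi_norm y i
  linarith

theorem cauchy_poly [CompleteSpace E] {R : ℝ} (hR : 0 < R) : ∀ (n : ℕ) (f : (Fin n → ℂ) → E),
    (∀ z ∈ closedBall (0 : Fin n → ℂ) R, DifferentiableAt ℂ f z) → ∀ y : Fin n → ℂ, ‖y‖ < R →
    torusIntegral (fun ζ => (∏ i, (ζ i - y i)⁻¹) • f ζ) 0 (fun _ => R)
      = (2 * π * Complex.I : ℂ) ^ n • f y := by
  intro n
  induction n with
  | zero =>
    intro f _ y _
    rw [torusIntegral_dim0]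
    have : (0 : Fin 0 → ℂ) = y := Subsingleton.elim _ _
    simp [this]
  | succ n ih =>
    intro f hf y hy
    have hint : TorusIntegrable (fun ζ => (∏ i, (ζ i - y i)⁻¹) • f ζ) 0 (fun _ => R) := by
      unfold TorusIntegrable
      apply Continuous.integrableOn_Icc
      apply Continuous.smul _ (cont_f hR hf)
      apply continuous_finsetProd
      intro i _
      apply Continuous.inv₀
      · exact ((continuous_apply i).comp continuous_torusMap).sub continuous_const
      · intro θ
        exact ker_ne hR hy θ i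
    rw [torusIntegral_succ hint]
    have hy0 : ‖y 0‖ < R := lt_of_le_of_lt (norm_le_pi_norm y 0) hy
    have hy' : ‖fun i : Fin n => y i.succ‖ < R := by
      rw [pi_norm_lt_iff hR]
      intro i
      exact lt_of_le_of_lt (norm_le_pi_norm y i.succ) hy
    have hcons : ∀ x : ℂ, ‖x‖ ≤ R → ∀ z : Fin n → ℂ, ‖z‖ ≤ R →
        (Fin.cons x z : Fin (n + 1) → ℂ) ∈ closedBall (0 : Fin (n + 1) → ℂ) R := by
      intro x hx z hz
      rw [mem_closedBall, dist_zero_right, pi_norm_le_iff_of_nonneg hR.le]
      intro i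
      refine Fin.cases ?_ (fun j => ?_) i
      · simpa using hx
      · simpa using le_trans (norm_le_pi_norm z j) hz
    have hd1 : ∀ x : ℂ, Differentiable ℂ (fun z : Fin n → ℂ => (Fin.cons x z : Fin (n + 1) → ℂ)) := by
      intro x
      rw [differentiable_pi]
      intro i
      refine Fin.cases ?_ (fun j => ?_) i
      · simp
      · simp only [Fin.cons_succ]
        fun_prop
    have hd2 : ∀ z : Fin n → ℂ, Differentiable ℂ (fun x : ℂ => (Fin.cons x z : Fin (n + 1) → ℂ)) := by
      intro z
      rw [differentiable_pi]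
      intro i
      refine Fin.cases ?_ (fun j => ?_) i
      · simp only [Fin.cons_zero]
        fun_prop
      · simp
    have hinner : ∀ x ∈ sphere (0 : ℂ) R,
        torusIntegral (fun z : Fin n → ℂ => (∏ i, ((Fin.cons x z : Fin (n + 1) → ℂ) i - y i)⁻¹) •
          f (Fin.cons x z)) ((0 : Fin (n + 1) → ℂ) ∘ Fin.succ) ((fun _ => R) ∘ Fin.succ)
        = (x - y 0)⁻¹ • ((2 * π * Complex.I : ℂ) ^ n • f (Fin.cons x (fun i => y i.succ))) := by
      intro x hx
      have hx' : ‖x‖ ≤ R := by
        rw [mem_sphere, dist_zero_right] at hx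
        exact hx.le
      have h1 := ih (fun z => f (Fin.cons x z)) (fun z hz => by
        rw [mem_closedBall, dist_zero_right] at hz
        exact (hf _ (hcons x hx' z hz)).comp z (hd1 x z)) (fun i => y i.succ) hy'
      rw [← h1, ← torusIntegral_smul]
      congr 1
      funext z
      rw [Fin.prod_univ_succ, mul_smul]
      simp
    have h2 : (∮ x in C((0 : Fin (n + 1) → ℂ) 0, (fun _ : Fin (n + 1) => R) 0),
        torusIntegral (fun z : Fin n → ℂ => (∏ i, ((Fin.cons x z : Fin (n + 1) → ℂ) i - y i)⁻¹) •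
          f (Fin.cons x z)) ((0 : Fin (n + 1) → ℂ) ∘ Fin.succ) ((fun _ => R) ∘ Fin.succ))
        = ∮ x in C(0, R),
          (x - y 0)⁻¹ • ((2 * π * Complex.I : ℂ) ^ n • f (Fin.cons x (fun i => y i.succ))) := by
      apply circleIntegral.integral_congr hR.le
      exact hinner
    rw [h2]
    have h3 := DifferentiableOn.circleIntegral_sub_inv_smul (c := 0) (R := R) (w := y 0)
      (f := fun x => (2 * π * Complex.I : ℂ) ^ n • f (Fin.cons x (fun i => y i.succ))) ?_ ?_
    · have hyc : (Fin.cons (y 0) (fun i => y i.succ) : Fin (n + 1) → ℂ) = y :=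
        Fin.cons_self_tail y
      rw [h3, smul_smul, hyc, pow_succ, mul_comm]
    · intro x hx
      rw [mem_closedBall, dist_zero_right] at hx
      apply DifferentiableAt.differentiableWithinAt
      apply DifferentiableAt.const_smul
      exact (hf _ (hcons x hx _ hy'.le)).comp x (hd2 _ x)
    · rw [mem_ball, dist_zero_right]
      exact hy0


theorem norm_mon {n : ℕ} (z : Fin n → ℂ) (β : Fin n → ℕ) : ‖mon z β‖ = ∏ i, ‖z i‖ ^ β i := by
  unfold mon
  rw [norm_prod]
  simp

/-- power series expansion of a holomorphic function of several variables -/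
theorem expansion [CompleteSpace E] {R : ℝ} (hR : 0 < R) {n : ℕ} (f : (Fin n → ℂ) → E)
    (hf : ∀ z ∈ closedBall (0 : Fin n → ℂ) R, DifferentiableAt ℂ f z) {M : ℝ}
    (hM : ∀ z ∈ closedBall (0 : Fin n → ℂ) R, ‖f z‖ ≤ M) :
    ∃ a : (Fin n → ℕ) → E, (∀ β, ‖a β‖ * R ^ (∑ i, β i) ≤ M) ∧
      ∀ y : Fin n → ℂ, ‖y‖ < R → HasSum (fun β => mon y β • a β) (f y) := by
  have h2pi : ((2 * π * Complex.I : ℂ) ^ n) ≠ 0 := by
    apply pow_ne_zero
    simp [Real.pi_ne_zero]
  have hM0 : 0 ≤ M := le_trans (norm_nonneg _) (hM 0 (mem_closedBall_self hR.le))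
  set c : ℂ := ((2 * π * Complex.I : ℂ) ^ n)⁻¹ with hc
  have hcn : ‖c‖ = ((2 * π) ^ n)⁻¹ := by
    rw [hc, norm_inv, norm_pow]
    simp [abs_of_pos Real.pi_pos]
  have hne : ∀ (θ : Fin n → ℝ) i, torusMap (0 : Fin n → ℂ) (fun _ => R) θ i ≠ 0 := by
    intro θ i h
    have := norm_torusMap hR θ i
    rw [h, norm_zero] at this
    linarith
  set g : (Fin n → ℕ) → (Fin n → ℂ) → E := fun β ζ => (∏ i, (ζ i)⁻¹ ^ (β i + 1)) • f ζ with hg
  have hgn : ∀ β θ, ‖g β (torusMap 0 (fun _ => R) θ)‖ ≤ (R⁻¹) ^ (∑ i, β i) * (R⁻¹) ^ n * M := by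
    intro β θ
    simp only [hg]
    rw [norm_smul, norm_prod]
    simp only [norm_pow, norm_inv, norm_torusMap hR]
    rw [Finset.prod_pow_eq_pow_sum, Finset.sum_add_distrib]
    simp only [Finset.sum_const, Finset.card_univ, Fintype.card_fin, smul_eq_mul, mul_one, pow_add]
    exact mul_le_mul_of_nonneg_left (hM _ (torusMap_mem hR θ)) (by positivity)
  refine ⟨fun β => c • torusIntegral (g β) 0 (fun _ => R), ?_, ?_⟩
  · intro β
    have h1 := norm_torusIntegral_le_of_norm_le_const (c := (0 : Fin n → ℂ)) (R := fun _ => R)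
      (hgn β)
    rw [norm_smul, hcn]
    have h3 : (∏ _i : Fin n, |R|) = R ^ n := by simp [abs_of_pos hR]
    rw [h3] at h1
    have hRn : 0 < R ^ (∑ i, β i) := by positivity
    calc ((2 * π) ^ n)⁻¹ * ‖torusIntegral (g β) 0 (fun _ => R)‖ * R ^ (∑ i, β i)
        ≤ ((2 * π) ^ n)⁻¹ * (((2 * π) ^ n * R ^ n) * ((R⁻¹) ^ (∑ i, β i) * (R⁻¹) ^ n * M))
          * R ^ (∑ i, β i) := by
          apply mul_le_mul_of_nonneg_right _ hRn.le
          exact mul_le_mul_of_nonneg_left h1 (by positivity)
      _ = M := by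
          rw [inv_pow, inv_pow]
          field_simp
  · intro y hy
    -- swap sum and integral
    have hz : ∀ θ : Fin n → ℝ, ∀ i, ‖y i / torusMap (0 : Fin n → ℂ) (fun _ => R) θ i‖ < 1 := by
      intro θ i
      rw [norm_div, norm_torusMap hR, div_lt_one hR]
      exact lt_of_le_of_lt (norm_le_pi_norm y i) hy
    set F : (Fin n → ℕ) → (Fin n → ℝ) → E := fun β θ =>
      (∏ i, ((fun _ => R) i : ℝ) * Complex.exp (θ i * Complex.I) * Complex.I : ℂ) •
        (mon y β • g β (torusMap 0 (fun _ => R) θ)) with hF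
    have hFc : ∀ β, Continuous (F β) := by
      intro β
      apply Continuous.smul
      · fun_prop
      · apply Continuous.const_smul
        simp only [hg]
        apply Continuous.smul _ (cont_f hR hf)
        apply continuous_finsetProd
        intro i _
        apply Continuous.pow
        apply Continuous.inv₀
        · exact (continuous_apply i).comp continuous_torusMap
        · exact fun θ => hne θ i
    have hFi : ∀ β, Integrable (F β) (volume.restrict (Icc (0 : Fin n → ℝ) fun _ => 2 * π)) :=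
      fun β => (hFc β).integrableOn_Icc
    set y' : Fin n → ℂ := fun i => y i / R with hy'
    have hy'1 : ∀ i, ‖y' i‖ < 1 := by
      intro i
      simp only [hy', norm_div, Complex.norm_real, Real.norm_eq_abs, abs_of_pos hR]
      rw [div_lt_one hR]
      exact lt_of_le_of_lt (norm_le_pi_norm y i) hy
    have hsumm := (geom_prod n y' hy'1).1
    have hmon : ∀ β, ‖mon y β‖ = ‖mon y' β‖ * R ^ (∑ i, β i) := by
      intro β
      rw [norm_mon, norm_mon, ← Finset.prod_pow_eq_pow_sum, ← Finset.prod_mul_distrib]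
      apply Finset.prod_congr rfl
      intro i _
      simp only [hy', norm_div, Complex.norm_real, Real.norm_eq_abs, abs_of_pos hR]
      rw [← mul_pow]
      congr 1
      field_simp
    have hFn : ∀ β θ, ‖F β θ‖ ≤ M * ‖mon y' β‖ := by
      intro β θ
      simp only [hF]
      rw [norm_smul, norm_smul, norm_prod, hmon]
      have h1 : (∏ i : Fin n, ‖(R : ℂ) * Complex.exp (θ i * Complex.I) * Complex.I‖) = R ^ n := by
        simp [Complex.norm_exp_ofReal_mul_I, abs_of_pos hR]
      rw [h1]
      calc R ^ n * (‖mon y' β‖ * R ^ (∑ i, β i) * ‖g β (torusMap 0 (fun _ => R) θ)‖)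
          ≤ R ^ n * (‖mon y' β‖ * R ^ (∑ i, β i) * ((R⁻¹) ^ (∑ i, β i) * (R⁻¹) ^ n * M)) := by
            apply mul_le_mul_of_nonneg_left _ (by positivity)
            exact mul_le_mul_of_nonneg_left (hgn β θ) (by positivity)
        _ = M * ‖mon y' β‖ := by
            rw [inv_pow, inv_pow]
            field_simp
    have hFs : Summable fun β => ∫ θ in (Icc (0 : Fin n → ℝ) fun _ => 2 * π), ‖F β θ‖ := by
      apply Summable.of_nonneg_of_le (g := fun β => ∫ θ in (Icc (0 : Fin n → ℝ) fun _ => 2 * π), ‖F β θ‖)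
        (f := fun β => (M * volume.real (Icc (0 : Fin n → ℝ) fun _ => 2 * π)) * ‖mon y' β‖)
      · intro β
        exact integral_nonneg (fun _ => norm_nonneg _)
      · intro β
        have h1 : ∫ θ in (Icc (0 : Fin n → ℝ) fun _ => 2 * π), ‖F β θ‖
            ≤ ∫ _ in (Icc (0 : Fin n → ℝ) fun _ => 2 * π), M * ‖mon y' β‖ := by
          apply integral_mono (hFi β).norm
          · exact (continuous_const (y := M * ‖mon y' β‖)).integrableOn_Icc
          · intro θ
            exact hFn β θ
        refine h1.trans (le_of_eq ?_)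
        rw [setIntegral_const, smul_eq_mul]
        ring
      · exact hsumm.mul_left _
    have hsum := hasSum_integral_of_summable_integral_norm hFi hFs
    have e1 : ∀ β, ∫ θ in (Icc (0 : Fin n → ℝ) fun _ => 2 * π), F β θ
        = mon y β • torusIntegral (g β) 0 (fun _ => R) := by
      intro β
      rw [← torusIntegral_smul]
      rfl
    have e2 : ∫ θ in (Icc (0 : Fin n → ℝ) fun _ => 2 * π), ∑' β, F β θ
        = (2 * π * Complex.I : ℂ) ^ n • f y := by
      rw [← cauchy_poly hR n f hf y hy]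
      unfold torusIntegral
      congr 1
      funext θ
      have h1 := (geom_prod n _ (hz θ)).2
      have h2 : (∏ i, (torusMap (0 : Fin n → ℂ) (fun _ => R) θ i - y i)⁻¹)
          = (∏ i, (torusMap (0 : Fin n → ℂ) (fun _ => R) θ i)⁻¹) *
            ∏ i, (1 - y i / torusMap (0 : Fin n → ℂ) (fun _ => R) θ i)⁻¹ := by
        rw [← Finset.prod_mul_distrib]
        apply Finset.prod_congr rfl
        intro i _
        have := hne θ i
        rw [← mul_inv]
        congr 1
        field_simp
      have h3 : HasSum (fun β => F β θ)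
          ((∏ i, ((fun _ => R) i : ℝ) * Complex.exp (θ i * Complex.I) * Complex.I : ℂ) •
            ((∏ i, (torusMap (0 : Fin n → ℂ) (fun _ => R) θ i - y i)⁻¹) •
              f (torusMap 0 (fun _ => R) θ))) := by
        rw [h2]
        have h4 := ((h1.mul_left (∏ i, (torusMap (0 : Fin n → ℂ) (fun _ => R) θ i)⁻¹)).smul_const
          (f (torusMap 0 (fun _ => R) θ))).const_smul
          (∏ i, ((fun _ => R) i : ℝ) * Complex.exp (θ i * Complex.I) * Complex.I : ℂ)
        have h5 : (fun β => F β θ) = fun β =>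
            (∏ i, ((fun _ => R) i : ℝ) * Complex.exp (θ i * Complex.I) * Complex.I : ℂ) •
            (((∏ i, (torusMap (0 : Fin n → ℂ) (fun _ => R) θ i)⁻¹) *
              mon (fun i => y i / torusMap (0 : Fin n → ℂ) (fun _ => R) θ i) β) •
              f (torusMap 0 (fun _ => R) θ)) := by
          funext β
          simp only [hF, hg]
          rw [smul_smul (mon y β)]
          congr 2
          unfold mon
          rw [← Finset.prod_mul_distrib, ← Finset.prod_mul_distrib]
          apply Finset.prod_congr rfl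
          intro i _
          simp only []
          rw [pow_succ, div_eq_mul_inv, mul_pow]
          ring
        rw [h5]
        exact h4
      exact h3.tsum_eq
    simp only [e1] at hsum
    rw [e2] at hsum
    have h6 := hsum.const_smul c
    rw [smul_smul, hc, inv_mul_cancel₀ h2pi, one_smul] at h6
    have h7 : (fun β => mon y β • c • torusIntegral (g β) 0 (fun _ => R))
        = fun β => c • mon y β • torusIntegral (g β) 0 (fun _ => R) := by
      funext β
      rw [smul_comm]
    rw [h7]
    exact h6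

end Pool.Agent.Helper754.MV
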