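import Pool.Agent.Helper754.MV1

open Set Topology Filter MeasureTheory Metric
open scoped Real ENNReal

set_option maxHeartbeats 400000
set_option linter.unusedSectionVars false

namespace Pool.Agent.Helper754.MV

/-! ### absolutely summable families -/

abbrev L1 (ι : Type*) (E : Type*) [NormedAddCommGroup E] := lp (fun _ : ι => E) 1

section general

variable {ι : Type*} {E F Y : Type*} [NormedAddCommGroup E] [NormedSpace ℂ E]
  [NormedAddCommGroup F] [NormedSpace ℂ F] [NormedAddCommGroup Y] [NormedSpace ℂ Y]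

theorem smb (f : L1 ι E) : Summable fun i => ‖f i‖ := by
  have := (lp.memℓp f).summable (by simp)
  simpa using this

theorem nrm_eq (f : L1 ι E) : ‖f‖ = ∑' i, ‖f i‖ := by
  have := lp.norm_eq_tsum_rpow (p := 1) (by simp) f
  simpa using this

theorem nrm_apply_le (f : L1 ι E) (i : ι) : ‖f i‖ ≤ ‖f‖ :=
  lp.norm_apply_le_norm (by simp) f i

/-- construct an element -/
def mk (f : ι → E) (h : Summable fun i => ‖f i‖) : L1 ι E :=
  ⟨f, memℓp_gen (by simpa using h)⟩

@[simp] theorem mk_apply (f : ι → E) (h : Summable fun i => ‖f i‖) (i : ι) : mk f h i = f i := rfl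

theorem norm_mk_le (f : ι → E) (h : Summable fun i => ‖f i‖) {g : ι → ℝ} (hg : Summable g)
    (hfg : ∀ i, ‖f i‖ ≤ g i) : ‖mk f h‖ ≤ ∑' i, g i := by
  rw [nrm_eq]
  exact h.tsum_le_tsum hfg hg

variable [CompleteSpace Y]

theorem lift_summable (K : ι → E →L[ℂ] Y) (M : ℝ) (hK : ∀ i, ‖K i‖ ≤ M) (f : L1 ι E) :
    Summable fun i => K i (f i) := by
  apply Summable.of_norm
  apply Summable.of_nonneg_of_le (fun _ => norm_nonneg _) (f := fun i => M * ‖f i‖)
  · intro i
    exact ((K i).le_opNorm _).trans (mul_le_mul_of_nonneg_right (hK i) (norm_nonneg _))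
  · exact (smb f).mul_left M

/-- the operator determined by a bounded family -/
noncomputable def lift (K : ι → E →L[ℂ] Y) (M : ℝ) (hM : 0 ≤ M) (hK : ∀ i, ‖K i‖ ≤ M) :
    L1 ι E →L[ℂ] Y :=
  LinearMap.mkContinuous
    { toFun := fun f => ∑' i, K i (f i)
      map_add' := by
        intro f g
        rw [← (lift_summable K M hK f).tsum_add (lift_summable K M hK g)]
        congr 1
        funext i
        simp
      map_smul' := by
        intro c f
        simp only [RingHom.id_apply]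
        rw [← (lift_summable K M hK f).tsum_const_smul c]
        congr 1
        funext i
        simp } M (by
    intro f
    simp only [LinearMap.coe_mk, AddHom.coe_mk]
    rw [nrm_eq, ← tsum_mul_left]
    have h1 : ∀ i, ‖K i (f i)‖ ≤ M * ‖f i‖ := fun i =>
      ((K i).le_opNorm _).trans (mul_le_mul_of_nonneg_right (hK i) (norm_nonneg _))
    have h2 : Summable fun i => ‖K i (f i)‖ :=
      Summable.of_nonneg_of_le (fun _ => norm_nonneg _) h1 ((smb f).mul_left M)
    exact (norm_tsum_le_tsum_norm h2).trans (h2.tsum_le_tsum h1 ((smb f).mul_left M)))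

theorem lift_apply (K : ι → E →L[ℂ] Y) (M : ℝ) (hM : 0 ≤ M) (hK : ∀ i, ‖K i‖ ≤ M) (f : L1 ι E) :
    lift K M hM hK f = ∑' i, K i (f i) := rfl

theorem norm_lift_le (K : ι → E →L[ℂ] Y) (M : ℝ) (hM : 0 ≤ M) (hK : ∀ i, ‖K i‖ ≤ M) :
    ‖lift K M hM hK‖ ≤ M := LinearMap.mkContinuous_norm_le _ hM _

variable [DecidableEq ι]

theorem lift_single (K : ι → E →L[ℂ] Y) (M : ℝ) (hM : 0 ≤ M) (hK : ∀ i, ‖K i‖ ≤ M) (i : ι)
    (e : E) : lift K M hM hK (lp.single 1 i e) = K i e := by
  rw [lift_apply, tsum_eq_single i]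
  · rw [lp.single_apply_self]
  · intro j hj
    rw [lp.single_apply_ne _ _ _ hj, map_zero]

omit [CompleteSpace Y] in
theorem ext_single {A B : L1 ι E →L[ℂ] Y} (h : ∀ i e, A (lp.single 1 i e) = B (lp.single 1 i e)) :
    A = B := by
  apply lp.ext_continuousLinearMap (by simp)
  intro i
  ext e
  exact h i e

omit [CompleteSpace Y] in
theorem norm_single_L (i : ι) : ‖lp.singleContinuousLinearMap ℂ (fun _ : ι => E) 1 i‖ ≤ 1 := by
  apply ContinuousLinearMap.opNorm_le_bound _ zero_le_one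
  intro e
  rw [one_mul]
  simp

end general

/-! ### evaluation -/

section eval

variable {n : ℕ} {E F Y : Type*} [NormedAddCommGroup E] [NormedSpace ℂ E]
  [NormedAddCommGroup F] [NormedSpace ℂ F]

abbrev Ix (n : ℕ) := Fin n → ℕ

theorem norm_mon_le_one {y : Fin n → ℂ} (hy : ‖y‖ ≤ 1) (β : Ix n) : ‖mon y β‖ ≤ 1 := by
  rw [norm_mon]
  apply Finset.prod_le_one
  · intro i _
    positivity
  · intro i _
    exact pow_le_one₀ (norm_nonneg _) ((norm_le_pi_norm y i).trans hy)

theorem mon_add (y : Fin n → ℂ) (α β : Ix n) : mon y (α + β) = mon y α * mon y β := by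
  unfold mon
  rw [← Finset.prod_mul_distrib]
  apply Finset.prod_congr rfl
  intro i _
  rw [Pi.add_apply, pow_add]

theorem mon_zero (y : Fin n → ℂ) : mon y 0 = 1 := by simp [mon]

/-- evaluation of a power series -/
noncomputable def evf (f : L1 (Ix n) E) (y : Fin n → ℂ) : E := ∑' β, mon y β • f β

theorem smb_ev (f : L1 (Ix n) E) {y : Fin n → ℂ} (hy : ‖y‖ ≤ 1) :
    Summable fun β => ‖mon y β • f β‖ := by
  apply Summable.of_nonneg_of_le (fun _ => norm_nonneg _) _ (smb f)
  intro β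
  rw [norm_smul]
  calc ‖mon y β‖ * ‖f β‖ ≤ 1 * ‖f β‖ :=
        mul_le_mul_of_nonneg_right (norm_mon_le_one hy β) (norm_nonneg _)
    _ = ‖f β‖ := one_mul _

/-- evaluation as an operator -/
noncomputable def evL [CompleteSpace E] (y : Fin n → ℂ) (hy : ‖y‖ ≤ 1) : L1 (Ix n) E →L[ℂ] E :=
  lift (fun β => mon y β • ContinuousLinearMap.id ℂ E) 1 zero_le_one (by
    intro β
    refine (norm_smul_le (mon y β) (ContinuousLinearMap.id ℂ E)).trans ?_
    calc ‖mon y β‖ * ‖ContinuousLinearMap.id ℂ E‖ ≤ 1 * 1 :=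
          mul_le_mul (norm_mon_le_one hy β) ContinuousLinearMap.norm_id_le (norm_nonneg _) zero_le_one
      _ = 1 := one_mul _)

theorem evL_apply [CompleteSpace E] {y : Fin n → ℂ} (hy : ‖y‖ ≤ 1) (f : L1 (Ix n) E) :
    evL y hy f = evf f y := rfl

variable [CompleteSpace E] [CompleteSpace F]

theorem evf_single {y : Fin n → ℂ} (hy : ‖y‖ ≤ 1) (β : Ix n) (e : E) :
    evf (lp.single 1 β e) y = mon y β • e := by
  rw [← evL_apply hy, evL, lift_single]
  simp

theorem evf_add {y : Fin n → ℂ} (hy : ‖y‖ ≤ 1) (f g : L1 (Ix n) E) :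
    evf (f + g) y = evf f y + evf g y := by
  rw [← evL_apply hy, map_add]; rfl

theorem evf_sub {y : Fin n → ℂ} (hy : ‖y‖ ≤ 1) (f g : L1 (Ix n) E) :
    evf (f - g) y = evf f y - evf g y := by
  rw [← evL_apply hy, map_sub]; rfl

theorem evf_smul {y : Fin n → ℂ} (hy : ‖y‖ ≤ 1) (c : ℂ) (f : L1 (Ix n) E) :
    evf (c • f) y = c • evf f y := by
  rw [← evL_apply hy, map_smul]; rfl

/-- evaluation commutes with operators defined by families -/
theorem evf_lift {ι : Type*} [DecidableEq ι] {y : Fin n → ℂ} (hy : ‖y‖ ≤ 1)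
    (K : ι → E →L[ℂ] L1 (Ix n) F) (M : ℝ) (hM : 0 ≤ M) (hK : ∀ i, ‖K i‖ ≤ M) (f : L1 ι E) :
    evf (lift K M hM hK f) y = ∑' i, evf (K i (f i)) y := by
  rw [← evL_apply hy, lift_apply, (evL y hy).map_tsum (lift_summable K M hK f)]
  rfl

/-- multiplication by a monomial -/
noncomputable def sh (α : Ix n) : L1 (Ix n) E →L[ℂ] L1 (Ix n) E :=
  lift (fun γ => lp.singleContinuousLinearMap ℂ (fun _ : Ix n => E) 1 (γ + α)) 1 zero_le_one
    (fun γ => norm_single_L (γ + α))

theorem norm_sh_le (α : Ix n) : ‖(sh α : L1 (Ix n) E →L[ℂ] L1 (Ix n) E)‖ ≤ 1 := norm_lift_le _ _ _ _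

theorem sh_single (α β : Ix n) (e : E) :
    sh α (lp.single 1 β e) = (lp.single 1 (β + α) e : L1 (Ix n) E) := by
  rw [sh, lift_single]
  rfl

theorem evf_sh {y : Fin n → ℂ} (hy : ‖y‖ ≤ 1) (α : Ix n) (f : L1 (Ix n) E) :
    evf (sh α f) y = mon y α • evf f y := by
  have h : (evL y hy).comp (sh α) = mon y α • (evL y hy : L1 (Ix n) E →L[ℂ] E) := by
    apply ext_single
    intro β e
    simp only [ContinuousLinearMap.comp_apply, smul_apply]
    rw [sh_single, evL_apply, evL_apply, evf_single hy, evf_single hy, mon_add, smul_smul, mul_comm]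
  have := congrArg (fun T => T f) h
  exact this

/-- a family of operators applied to a vector -/
noncomputable def app : L1 (Ix n) (E →L[ℂ] F) →L[ℂ] (E →L[ℂ] L1 (Ix n) F) :=
  lift (fun γ => ContinuousLinearMap.compL ℂ E F (L1 (Ix n) F)
    (lp.singleContinuousLinearMap ℂ (fun _ : Ix n => F) 1 γ)) 1 zero_le_one (by
      intro γ
      apply ContinuousLinearMap.opNorm_le_bound _ zero_le_one
      intro T
      rw [ContinuousLinearMap.compL_apply]
      refine (ContinuousLinearMap.opNorm_comp_le _ _).trans ?_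
      exact mul_le_mul_of_nonneg_right (norm_single_L γ) (norm_nonneg _))

theorem norm_app_le (u : L1 (Ix n) (E →L[ℂ] F)) : ‖app u‖ ≤ ‖u‖ := by
  have := (app (n := n) (E := E) (F := F)).le_opNorm u
  refine this.trans ?_
  calc ‖(app : L1 (Ix n) (E →L[ℂ] F) →L[ℂ] _)‖ * ‖u‖ ≤ 1 * ‖u‖ :=
        mul_le_mul_of_nonneg_right (norm_lift_le _ _ _ _) (norm_nonneg _)
    _ = ‖u‖ := one_mul _

theorem app_single (γ : Ix n) (T : E →L[ℂ] F) (e : E) :
    app (lp.single 1 γ T) e = (lp.single 1 γ (T e) : L1 (Ix n) F) := by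
  rw [app, lift_single]
  rfl

theorem evf_app {y : Fin n → ℂ} (hy : ‖y‖ ≤ 1) (u : L1 (Ix n) (E →L[ℂ] F)) (e : E) :
    evf (app u e) y = (evf u y) e := by
  have h : (ContinuousLinearMap.compL ℂ E (L1 (Ix n) F) F (evL y hy)).comp app
      = (evL y hy : L1 (Ix n) (E →L[ℂ] F) →L[ℂ] (E →L[ℂ] F)) := by
    apply ext_single
    intro γ T
    ext e
    simp only [ContinuousLinearMap.comp_apply, ContinuousLinearMap.compL_apply]
    rw [app_single, evL_apply, evL_apply, evf_single hy, evf_single hy]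
    rfl
  have := congrArg (fun T => T u e) h
  exact this

/-- multiplication by a power series of operators -/
noncomputable def mulS (u : L1 (Ix n) (E →L[ℂ] F)) : L1 (Ix n) E →L[ℂ] L1 (Ix n) F :=
  lift (fun β => (sh β).comp (app u)) ‖u‖ (norm_nonneg _) (by
    intro β
    refine (ContinuousLinearMap.opNorm_comp_le _ _).trans ?_
    calc ‖(sh β : L1 (Ix n) F →L[ℂ] L1 (Ix n) F)‖ * ‖app u‖ ≤ 1 * ‖u‖ :=
          mul_le_mul (norm_sh_le β) (norm_app_le u) (norm_nonneg _) zero_le_one
      _ = ‖u‖ := one_mul _)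

theorem norm_mulS_le (u : L1 (Ix n) (E →L[ℂ] F)) : ‖mulS u‖ ≤ ‖u‖ := norm_lift_le _ _ _ _

theorem mulS_single (u : L1 (Ix n) (E →L[ℂ] F)) (β : Ix n) (e : E) :
    mulS u (lp.single 1 β e) = sh β (app u e) := by
  rw [mulS, lift_single]
  rfl

theorem mulS_sub (u v : L1 (Ix n) (E →L[ℂ] F)) : mulS (u - v) = mulS u - mulS v := by
  apply ext_single
  intro β e
  rw [sub_apply, mulS_single, mulS_single, mulS_single, map_sub,
    sub_apply, map_sub]

theorem evf_mulS {y : Fin n → ℂ} (hy : ‖y‖ ≤ 1) (u : L1 (Ix n) (E →L[ℂ] F)) (f : L1 (Ix n) E) :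
    evf (mulS u f) y = (evf u y) (evf f y) := by
  have h : (evL y hy).comp (mulS u) = (evf u y).comp (evL y hy) := by
    apply ext_single
    intro β e
    simp only [ContinuousLinearMap.comp_apply]
    rw [mulS_single, evL_apply, evL_apply, evf_single hy, evf_sh hy, evf_app hy, map_smul]
  have := congrArg (fun T => T f) h
  exact this

/-- multiplication by a constant operator acts on each coefficient -/
theorem mulS_const (T : E →L[ℂ] F) (f : L1 (Ix n) E) (β : Ix n) :
    mulS (lp.single 1 0 T) f β = T (f β) := by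
  have h : (lp.evalCLM ℂ (fun _ : Ix n => F) 1 β).comp (mulS (lp.single 1 0 T))
      = T.comp (lp.evalCLM ℂ (fun _ : Ix n => E) 1 β) := by
    apply ext_single
    intro γ e
    simp only [ContinuousLinearMap.comp_apply]
    rw [mulS_single, app_single, sh_single, zero_add]
    show (lp.single 1 γ (T e) : L1 (Ix n) F) β = T ((lp.single 1 γ e : L1 (Ix n) E) β)
    by_cases hβ : β = γ
    · subst hβ
      rw [lp.single_apply_self, lp.single_apply_self]
    · rw [lp.single_apply_ne _ _ _ hβ, lp.single_apply_ne _ _ _ hβ, map_zero]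
  have := congrArg (fun T => T f) h
  exact this

end eval

end Pool.Agent.Helper754.MV
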