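import Pool.Agent.Helper754.MV2

open Set Topology Filter MeasureTheory Metric
open scoped Real ENNReal

set_option maxHeartbeats 400000
set_option linter.unusedSectionVars false

namespace Pool.Agent.Helper754.MV

/-! ### weights -/

def wtt {n : ℕ} (w : Fin n → ℝ) (β : Ix n) : ℝ := ∑ i, w i * β i

theorem wtt_add {n : ℕ} (w : Fin n → ℝ) (α β : Ix n) : wtt w (α + β) = wtt w α + wtt w β := by
  unfold wtt
  rw [← Finset.sum_add_distrib]
  apply Finset.sum_congr rfl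
  intro i _
  rw [Pi.add_apply]
  push_cast
  ring

theorem wtt_zero {n : ℕ} (w : Fin n → ℝ) : wtt w 0 = 0 := by simp [wtt]

theorem exists_weights0 (n : ℕ) : ∃ w : Fin n → ℝ, (∀ i, 0 < w i) ∧ Function.Injective (wtt w) := by
  set lam : ℝ := liouvilleNumber 2 with hlam
  have htr : Transcendental ℤ lam := by
    have := transcendental_liouvilleNumber (m := 2) le_rfl
    simpa using this
  have hpos : 0 < lam := by
    rw [hlam, ← LiouvilleNumber.partialSum_add_remainder (m := 2) (by norm_num) 0]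
    have h1 : 0 < LiouvilleNumber.remainder (2 : ℝ) 0 :=
      LiouvilleNumber.remainder_pos (by norm_num) 0
    have h2 : 0 ≤ LiouvilleNumber.partialSum (2 : ℝ) 0 := by
      unfold LiouvilleNumber.partialSum
      positivity
    linarith
  refine ⟨fun i => lam ^ (i : ℕ), fun i => by positivity, ?_⟩
  intro β γ h
  rw [transcendental_iff] at htr
  set P : Polynomial ℤ := ∑ i : Fin n, Polynomial.C ((β i : ℤ) - (γ i : ℤ)) * Polynomial.X ^ (i : ℕ)
    with hP
  have h0 : Polynomial.aeval lam P = 0 := by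
    rw [hP, map_sum]
    have h2 : ∀ i : Fin n, Polynomial.aeval lam (Polynomial.C ((β i : ℤ) - (γ i : ℤ)) *
        Polynomial.X ^ (i : ℕ)) = lam ^ (i : ℕ) * (β i) - lam ^ (i : ℕ) * (γ i) := by
      intro i
      rw [map_mul, map_pow, Polynomial.aeval_X, Polynomial.aeval_C, eq_intCast]
      push_cast
      ring
    rw [Finset.sum_congr rfl (fun i _ => h2 i), Finset.sum_sub_distrib]
    have : wtt (fun i : Fin n => lam ^ (i : ℕ)) β = wtt (fun i : Fin n => lam ^ (i : ℕ)) γ := h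
    unfold wtt at this
    rw [this, sub_self]
  have h1 := htr P h0
  funext j
  have h2 : P.coeff (j : ℕ) = (β j : ℤ) - (γ j : ℤ) := by
    rw [hP, Polynomial.finsetSum_coeff, Finset.sum_eq_single j]
    · rw [Polynomial.coeff_C_mul_X_pow]
      simp
    · intro i _ hij
      rw [Polynomial.coeff_C_mul_X_pow, if_neg]
      intro h3
      exact hij (Fin.ext h3.symm)
    · intro h3
      exact absurd (Finset.mem_univ j) h3
  rw [h1, Polynomial.coeff_zero] at h2
  omega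

theorem exists_weights (n : ℕ) : ∃ w : Fin n → ℝ, (∀ i, 1 ≤ w i) ∧ Function.Injective (wtt w) := by
  obtain ⟨w, hw, hinj⟩ := exists_weights0 n
  set c : ℝ := ∑ i, (w i)⁻¹ + 1 with hc
  have hc0 : 0 < c := by
    have : 0 ≤ ∑ i, (w i)⁻¹ := Finset.sum_nonneg (fun i _ => (inv_pos.2 (hw i)).le)
    linarith
  refine ⟨fun i => c * w i, fun i => ?_, fun β γ h => hinj ?_⟩
  · have h1 : (w i)⁻¹ ≤ c := by
      have := Finset.single_le_sum (f := fun i => (w i)⁻¹) (fun i _ => (inv_pos.2 (hw i)).le)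
        (Finset.mem_univ i)
      linarith
    have h2 : (w i)⁻¹ * w i = 1 := inv_mul_cancel₀ (hw i).ne'
    rw [← h2]
    exact mul_le_mul_of_nonneg_right h1 (hw i).le
  · have e : ∀ β, wtt (fun i => c * w i) β = c * wtt w β := by
      intro β
      unfold wtt
      rw [Finset.mul_sum]
      apply Finset.sum_congr rfl
      intro i _
      ring
    have h' : wtt (fun i => c * w i) β = wtt (fun i => c * w i) γ := h
    rw [e, e] at h'
    exact mul_left_cancel₀ hc0.ne' h'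

section

variable {n : ℕ} {w : Fin n → ℝ} (hw : ∀ i, 1 ≤ w i)
include hw

theorem wtt_nonneg (β : Ix n) : 0 ≤ wtt w β := by
  unfold wtt
  apply Finset.sum_nonneg
  intro i _
  have := hw i
  positivity

theorem wtt_ge (β : Ix n) (i : Fin n) : (β i : ℝ) ≤ wtt w β := by
  unfold wtt
  have h1 : w i * β i ≤ ∑ i, w i * β i :=
    Finset.single_le_sum (f := fun i => w i * (β i : ℝ))
      (fun i _ => by have := hw i; positivity) (Finset.mem_univ i)
  have h2 : (β i : ℝ) ≤ w i * β i := by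
    have := hw i
    have h3 : (0 : ℝ) ≤ β i := by positivity
    nlinarith
  linarith

theorem wtt_ge_one {β : Ix n} (hβ : β ≠ 0) : 1 ≤ wtt w β := by
  obtain ⟨i, hi⟩ : ∃ i, β i ≠ 0 := by
    by_contra hcon
    push Not at hcon
    exact hβ (funext hcon)
  have h1 := wtt_ge hw β i
  have h2 : (1 : ℝ) ≤ β i := by
    have : 1 ≤ β i := Nat.one_le_iff_ne_zero.2 hi
    exact_mod_cast this
  linarith

theorem wtt_finite (c : ℝ) : {β : Ix n | wtt w β ≤ c}.Finite := by
  apply (Set.finite_Icc (0 : Ix n) (fun _ => ⌊c⌋₊)).subset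
  intro β hβ
  refine ⟨zero_le, fun i => ?_⟩
  apply Nat.le_floor
  exact (wtt_ge hw β i).trans hβ

theorem exists_min {S : Set (Ix n)} (hS : S.Nonempty) : ∃ α ∈ S, ∀ β ∈ S, wtt w α ≤ wtt w β := by
  obtain ⟨β0, h0⟩ := hS
  have hfin : (S ∩ {β | wtt w β ≤ wtt w β0}).Finite := (wtt_finite hw _).subset inter_subset_right
  obtain ⟨α, hα, hmin⟩ := Set.exists_min_image _ (wtt w) hfin ⟨β0, h0, (le_refl (wtt w β0) : _)⟩
  refine ⟨α, hα.1, fun β hβ => ?_⟩
  by_cases h : wtt w β ≤ wtt w β0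
  · exact hmin β ⟨hβ, h⟩
  · exact hα.2.trans (not_le.1 h).le

end

/-! ### scaling -/

/-- scaled coordinates -/
noncomputable def sca {n : ℕ} (w : Fin n → ℝ) (τ : ℝ) (y : Fin n → ℂ) : Fin n → ℂ :=
  fun i => (Real.exp (-(τ * w i)) : ℂ) * y i

theorem mon_sca {n : ℕ} (w : Fin n → ℝ) (τ : ℝ) (y : Fin n → ℂ) (β : Ix n) :
    mon (sca w τ y) β = (Real.exp (-(τ * wtt w β)) : ℂ) * mon y β := by
  unfold mon sca wtt
  simp only [mul_pow]
  rw [Finset.prod_mul_distrib]
  congr 1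
  rw [Finset.mul_sum, ← Finset.sum_neg_distrib, Real.exp_sum]
  rw [Complex.ofReal_prod]
  apply Finset.prod_congr rfl
  intro i _
  rw [← Complex.ofReal_pow, ← Real.exp_nat_mul]
  congr 2
  ring

theorem sca_add {n : ℕ} (w : Fin n → ℝ) (τ θ : ℝ) (y : Fin n → ℂ) :
    sca w τ (sca w θ y) = sca w (τ + θ) y := by
  funext i
  unfold sca
  rw [← mul_assoc, ← Complex.ofReal_mul, ← Real.exp_add]
  congr 3
  ring

theorem norm_sca_le {n : ℕ} {w : Fin n → ℝ} (hw : ∀ i, 1 ≤ w i) {τ : ℝ} (hτ : 0 ≤ τ)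
    (y : Fin n → ℂ) : ‖sca w τ y‖ ≤ Real.exp (-τ) * ‖y‖ := by
  rw [pi_norm_le_iff_of_nonneg (by positivity)]
  intro i
  unfold sca
  rw [norm_mul, Complex.norm_real, Real.norm_eq_abs, abs_of_pos (Real.exp_pos _)]
  apply mul_le_mul _ (norm_le_pi_norm y i) (norm_nonneg _) (Real.exp_pos _).le
  apply Real.exp_le_exp.2
  have := hw i
  nlinarith

section scale

variable {n : ℕ} {w : Fin n → ℝ} {E F : Type*} [NormedAddCommGroup E] [NormedSpace ℂ E]
  [NormedAddCommGroup F] [NormedSpace ℂ F]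

theorem D_smb (hw : ∀ i, 1 ≤ w i) {θ : ℝ} (hθ : 0 ≤ θ) (f : L1 (Ix n) E) :
    Summable fun β => ‖(Real.exp (-(θ * wtt w β)) : ℂ) • f β‖ := by
  apply Summable.of_nonneg_of_le (fun _ => norm_nonneg _) _ (smb f)
  intro β
  rw [norm_smul, Complex.norm_real, Real.norm_eq_abs, abs_of_pos (Real.exp_pos _)]
  have h1 : Real.exp (-(θ * wtt w β)) ≤ 1 := by
    rw [Real.exp_le_one_iff]
    have := wtt_nonneg hw β
    have := mul_nonneg hθ this
    linarith
  calc Real.exp (-(θ * wtt w β)) * ‖f β‖ ≤ 1 * ‖f β‖ :=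
        mul_le_mul_of_nonneg_right h1 (norm_nonneg _)
    _ = ‖f β‖ := one_mul _

/-- rescaling -/
noncomputable def Dsc (hw : ∀ i, 1 ≤ w i) (θ : ℝ) (hθ : 0 ≤ θ) (f : L1 (Ix n) E) : L1 (Ix n) E :=
  mk (fun β => (Real.exp (-(θ * wtt w β)) : ℂ) • f β) (D_smb hw hθ f)

theorem Dsc_apply (hw : ∀ i, 1 ≤ w i) {θ : ℝ} (hθ : 0 ≤ θ) (f : L1 (Ix n) E) (β : Ix n) :
    Dsc hw θ hθ f β = (Real.exp (-(θ * wtt w β)) : ℂ) • f β := rfl

theorem evf_Dsc (hw : ∀ i, 1 ≤ w i) {θ : ℝ} (hθ : 0 ≤ θ) (f : L1 (Ix n) E) (y : Fin n → ℂ) :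
    evf (Dsc hw θ hθ f) y = evf f (sca w θ y) := by
  unfold evf
  congr 1
  funext β
  rw [Dsc_apply, mon_sca, smul_smul, mul_comm]

theorem norm_Dsc_sub (hw : ∀ i, 1 ≤ w i) {θ : ℝ} (hθ : 0 ≤ θ) (f : L1 (Ix n) E) :
    ‖Dsc hw θ hθ f - lp.single 1 0 (f 0)‖ ≤ Real.exp (-θ) * ‖f‖ := by
  rw [nrm_eq, nrm_eq, ← tsum_mul_left]
  apply (smb _).tsum_le_tsum _ ((smb f).mul_left _)
  intro β
  by_cases hβ : β = 0
  · subst hβ
    rw [lp.coeFn_sub, Pi.sub_apply, lp.single_apply_self, Dsc_apply, wtt_zero]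
    simp
    positivity
  · rw [lp.coeFn_sub, Pi.sub_apply, lp.single_apply_ne _ _ _ hβ, sub_zero, Dsc_apply, norm_smul,
      Complex.norm_real, Real.norm_eq_abs, abs_of_pos (Real.exp_pos _)]
    apply mul_le_mul_of_nonneg_right _ (norm_nonneg _)
    apply Real.exp_le_exp.2
    have := wtt_ge_one hw hβ
    nlinarith

end scale

end Pool.Agent.Helper754.MV
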