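import Pool.Agent.Helper754.MV3

open Set Topology Filter MeasureTheory Metric
open scoped Real ENNReal

set_option maxHeartbeats 400000
set_option linter.unusedSectionVars false
set_option linter.unusedVariables false

namespace Pool.Agent.Helper754.MV

section

variable {n : ℕ} {w : Fin n → ℝ} {E F : Type*} [NormedAddCommGroup E] [NormedSpace ℂ E]
  [NormedAddCommGroup F] [NormedSpace ℂ F]

/-- the scaled series vanishes on the set -/
def Van (w : Fin n → ℝ) (x0 : Fin n → ℂ) (X : Set (Fin n → ℂ)) (τ : ℝ) (f : L1 (Ix n) E) : Prop :=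
  ∀ y : Fin n → ℂ, ‖y‖ ≤ 1 → x0 + sca w τ y ∈ X → evf f y = 0

/-- leading exponents of scalar series vanishing on the set -/
def Lead (w : Fin n → ℝ) (x0 : Fin n → ℂ) (X : Set (Fin n → ℂ)) : Set (Ix n) :=
  {α | ∃ τ : ℝ, 0 ≤ τ ∧ ∃ c : L1 (Ix n) ℂ, Van w x0 X τ c ∧ c α = 1 ∧
    ∀ β, β ≠ α → c β ≠ 0 → wtt w α < wtt w β}

variable {x0 : Fin n → ℂ} {X : Set (Fin n → ℂ)}

theorem norm_sca_le_one (hw : ∀ i, 1 ≤ w i) {θ : ℝ} (hθ : 0 ≤ θ) {y : Fin n → ℂ} (hy : ‖y‖ ≤ 1) :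
    ‖sca w θ y‖ ≤ 1 := by
  refine (norm_sca_le hw hθ y).trans ?_
  have h1 : Real.exp (-θ) ≤ 1 := by
    rw [Real.exp_le_one_iff]
    linarith
  calc Real.exp (-θ) * ‖y‖ ≤ 1 * 1 := mul_le_mul h1 hy (norm_nonneg _) zero_le_one
    _ = 1 := one_mul _

theorem key1 (hw : ∀ i, 1 ≤ w i) {α : Ix n} (hα : α ∈ Lead w x0 X) {ε : ℝ} (hε : 0 < ε) :
    ∃ τ1 : ℝ, 0 ≤ τ1 ∧ ∀ τ ≥ τ1, ∃ k : L1 (Ix n) ℂ, Van w x0 X τ k ∧
      ‖k - lp.single 1 α 1‖ ≤ ε := by
  obtain ⟨τ0, hτ0, c, hc, hcα, hlead⟩ := hα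
  have hgap : ∃ δ > 0, ∀ β, β ≠ α → c β ≠ 0 → wtt w α + δ ≤ wtt w β := by
    by_cases hS : {β | β ≠ α ∧ c β ≠ 0}.Nonempty
    · obtain ⟨β1, hβ1, hmin⟩ := exists_min hw hS
      refine ⟨wtt w β1 - wtt w α, sub_pos.2 (hlead β1 hβ1.1 hβ1.2), fun β h1 h2 => ?_⟩
      have := hmin β ⟨h1, h2⟩
      linarith
    · refine ⟨1, one_pos, fun β h1 h2 => ?_⟩
      exact absurd ⟨β, h1, h2⟩ hS
  obtain ⟨δ, hδ, hgap⟩ := hgap
  set θ0 : ℝ := ‖c‖ / (δ * ε) + 1 with hθ0
  have hθ0p : 1 ≤ θ0 := by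
    have : 0 ≤ ‖c‖ / (δ * ε) := by positivity
    linarith
  refine ⟨τ0 + θ0, by linarith, fun τ hτ => ?_⟩
  have hθ : 0 ≤ τ - τ0 := by linarith
  set θ := τ - τ0 with hθdef
  have hθ1 : θ0 ≤ θ := by linarith
  refine ⟨(Real.exp (θ * wtt w α) : ℂ) • Dsc hw θ hθ c, ?_, ?_⟩
  · intro y hy hyX
    rw [evf_smul hy, evf_Dsc]
    rw [hc (sca w θ y) (norm_sca_le_one hw hθ hy) ?_, smul_zero]
    rw [sca_add]
    have : τ0 + θ = τ := by rw [hθdef]; ring
    rw [this]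
    exact hyX
  · have hbound : ‖(Real.exp (θ * wtt w α) : ℂ) • Dsc hw θ hθ c - lp.single 1 α 1‖
        ≤ Real.exp (-(θ * δ)) * ‖c‖ := by
      rw [nrm_eq, nrm_eq c, ← tsum_mul_left]
      apply (smb _).tsum_le_tsum _ ((smb c).mul_left _)
      intro β
      by_cases hβ : β = α
      · subst hβ
        rw [lp.coeFn_sub, Pi.sub_apply, lp.single_apply_self, lp.coeFn_smul, Pi.smul_apply,
          Dsc_apply, hcα, smul_smul, ← Complex.ofReal_mul, ← Real.exp_add]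
        simp
        positivity
      · rw [lp.coeFn_sub, Pi.sub_apply, lp.single_apply_ne _ _ _ hβ, sub_zero, lp.coeFn_smul,
          Pi.smul_apply, Dsc_apply, smul_smul, ← Complex.ofReal_mul, ← Real.exp_add, norm_smul,
          Complex.norm_real, Real.norm_eq_abs, abs_of_pos (Real.exp_pos _)]
        by_cases hcβ : c β = 0
        · rw [hcβ]; simp
        · apply mul_le_mul_of_nonneg_right _ (norm_nonneg _)
          apply Real.exp_le_exp.2
          have h1 := hgap β hβ hcβ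
          have h2 : θ * (wtt w α + δ) ≤ θ * wtt w β := mul_le_mul_of_nonneg_left h1 hθ
          linarith
    refine hbound.trans ?_
    have hθδ : 0 < θ * δ := by
      have : 0 < θ := by linarith
      positivity
    have h3 : Real.exp (-(θ * δ)) ≤ (θ * δ)⁻¹ := by
      rw [Real.exp_neg]
      apply inv_anti₀ hθδ
      have := Real.add_one_le_exp (θ * δ)
      linarith
    calc Real.exp (-(θ * δ)) * ‖c‖ ≤ (θ * δ)⁻¹ * ‖c‖ :=
          mul_le_mul_of_nonneg_right h3 (norm_nonneg _)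
      _ ≤ ε := by
          rw [inv_mul_le_iff₀ hθδ]
          have h4 : ‖c‖ / (δ * ε) ≤ θ := by linarith
          rw [div_le_iff₀ (by positivity)] at h4
          linarith

theorem key2 (hw : ∀ i, 1 ≤ w i) (hinj : Function.Injective (wtt w)) {τ : ℝ} (hτ : 0 ≤ τ)
    {c : L1 (Ix n) ℂ} (hc : Van w x0 X τ c) {β0 : Ix n} (h0 : c β0 ≠ 0) :
    ∃ α ∈ Lead w x0 X, c α ≠ 0 := by
  obtain ⟨α, hα, hmin⟩ := exists_min hw (S := {β | c β ≠ 0}) ⟨β0, h0⟩
  refine ⟨α, ⟨τ, hτ, (c α)⁻¹ • c, ?_, ?_, ?_⟩, hα⟩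
  · intro y hy hyX
    rw [evf_smul hy, hc y hy hyX, smul_zero]
  · rw [lp.coeFn_smul, Pi.smul_apply, smul_eq_mul]
    exact inv_mul_cancel₀ hα
  · intro β hβ hcβ
    rw [lp.coeFn_smul, Pi.smul_apply, smul_eq_mul] at hcβ
    have h1 : c β ≠ 0 := fun h => hcβ (by rw [h, mul_zero])
    refine lt_of_le_of_ne (hmin β h1) (fun h => hβ (hinj h.symm))

/-- tensor with a scalar series -/
noncomputable def ten (k : L1 (Ix n) ℂ) : E →L[ℂ] L1 (Ix n) E :=
  LinearMap.mkContinuous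
    { toFun := fun e => mk (fun γ => k γ • e) (by
        simp only [norm_smul]
        exact (smb k).mul_right _)
      map_add' := by
        intro e e'
        apply lp.ext
        funext γ
        simp [smul_add]
      map_smul' := by
        intro c e
        apply lp.ext
        funext γ
        simp only [mk_apply, RingHom.id_apply, lp.coeFn_smul, Pi.smul_apply]
        rw [smul_comm] } ‖k‖ (by
      intro e
      simp only [LinearMap.coe_mk, AddHom.coe_mk]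
      rw [nrm_eq, nrm_eq]
      simp only [mk_apply, norm_smul]
      rw [tsum_mul_right])

theorem ten_apply (k : L1 (Ix n) ℂ) (e : E) (γ : Ix n) : (ten k e : L1 (Ix n) E) γ = k γ • e := rfl

theorem norm_ten_le (k : L1 (Ix n) ℂ) : ‖(ten k : E →L[ℂ] L1 (Ix n) E)‖ ≤ ‖k‖ :=
  LinearMap.mkContinuous_norm_le _ (norm_nonneg _) _

theorem ten_single (α : Ix n) (e : E) :
    (ten (lp.single 1 α 1) e : L1 (Ix n) E) = lp.single 1 α e := by
  apply lp.ext
  funext γ
  rw [ten_apply]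
  by_cases h : γ = α
  · subst h
    rw [lp.single_apply_self, lp.single_apply_self, one_smul]
  · rw [lp.single_apply_ne _ _ _ h, lp.single_apply_ne _ _ _ h, zero_smul]

theorem ten_sub (k k' : L1 (Ix n) ℂ) (e : E) :
    (ten (k - k') e : L1 (Ix n) E) = ten k e - ten k' e := by
  apply lp.ext
  funext γ
  rw [ten_apply, lp.coeFn_sub, lp.coeFn_sub, Pi.sub_apply, Pi.sub_apply, ten_apply, ten_apply,
    sub_smul]

theorem evf_ten [CompleteSpace E] {y : Fin n → ℂ} (hy : ‖y‖ ≤ 1) (k : L1 (Ix n) ℂ) (e : E) :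
    evf (ten k e) y = evf k y • e := by
  unfold evf
  have h1 : Summable fun β => mon y β • k β := (smb_ev k hy).of_norm
  rw [← h1.tsum_smul_const]
  congr 1
  funext β
  rw [ten_apply, smul_assoc]

/-- restriction of the support -/
noncomputable def res (S : Set (Ix n)) (f : L1 (Ix n) E) : L1 (Ix n) E := by
  classical
  exact mk (fun β => if β ∈ S then 0 else f β) (by
    apply Summable.of_nonneg_of_le (fun _ => norm_nonneg _) _ (smb f)
    intro β
    by_cases h : β ∈ S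
    · simp [h]
    · simp [h])

theorem res_mem {S : Set (Ix n)} (f : L1 (Ix n) E) {β : Ix n} (h : β ∈ S) : res S f β = 0 := by
  simp [res, h]

theorem res_not_mem {S : Set (Ix n)} (f : L1 (Ix n) E) {β : Ix n} (h : β ∉ S) :
    res S f β = f β := by
  simp [res, h]

theorem norm_res_le (S : Set (Ix n)) (f : L1 (Ix n) E) : ‖res S f‖ ≤ ‖f‖ := by
  rw [nrm_eq, nrm_eq f]
  apply (smb _).tsum_le_tsum _ (smb f)
  intro β
  by_cases h : β ∈ S
  · rw [res_mem f h]; simp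
  · rw [res_not_mem f h]

theorem res_add (S : Set (Ix n)) (f g : L1 (Ix n) E) : res S (f + g) = res S f + res S g := by
  apply lp.ext
  funext β
  rw [lp.coeFn_add, Pi.add_apply]
  by_cases h : β ∈ S
  · rw [res_mem _ h, res_mem _ h, res_mem _ h, add_zero]
  · rw [res_not_mem _ h, res_not_mem _ h, res_not_mem _ h, lp.coeFn_add, Pi.add_apply]

theorem res_smul (S : Set (Ix n)) (c : ℂ) (f : L1 (Ix n) E) : res S (c • f) = c • res S f := by
  apply lp.ext
  funext β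
  rw [lp.coeFn_smul, Pi.smul_apply]
  by_cases h : β ∈ S
  · rw [res_mem _ h, res_mem _ h, smul_zero]
  · rw [res_not_mem _ h, res_not_mem _ h, lp.coeFn_smul, Pi.smul_apply]

noncomputable def resL (S : Set (Ix n)) : L1 (Ix n) E →L[ℂ] L1 (Ix n) E :=
  LinearMap.mkContinuous ⟨⟨res S, res_add S⟩, res_smul S⟩ 1 (by
    intro f
    rw [one_mul]
    exact norm_res_le S f)

theorem resL_apply (S : Set (Ix n)) (f : L1 (Ix n) E) : resL S f = res S f := rfl

theorem dickson (S : Set (Ix n)) : ∃ G : Set (Ix n), G.Finite ∧ G ⊆ S ∧ ∀ β ∈ S, ∃ α ∈ G, α ≤ β := by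
  have hpwo : S.IsPWO := isPWO_of_wellQuasiOrderedLE S
  refine ⟨{a | Minimal (· ∈ S) a}, ?_, fun a ha => ha.1, fun β hβ => ?_⟩
  · have h1 : IsAntichain (· ≤ ·) {a | Minimal (· ∈ S) a} := by
      intro a ha b hb hab hle
      exact hab (le_antisymm hle (hb.2 ha.1 hle))
    exact h1.finite_of_partiallyWellOrderedOn (hpwo.mono (fun a ha => ha.1))
  · obtain ⟨b, hb, hmin⟩ := hpwo.exists_le_minimal hβ
    exact ⟨b, hmin, hb⟩

theorem key3 (hw : ∀ i, 1 ≤ w i) (G : Set (Ix n)) (hG : G.Finite) (hGL : G ⊆ Lead w x0 X)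
    {ε : ℝ} (hε : 0 < ε) : ∃ τ1 : ℝ, 0 ≤ τ1 ∧ ∀ τ ≥ τ1, ∀ α ∈ G, ∃ k : L1 (Ix n) ℂ,
      Van w x0 X τ k ∧ ‖k - lp.single 1 α 1‖ ≤ ε := by
  classical
  induction G, hG using Set.Finite.induction_on with
  | empty => exact ⟨0, le_rfl, fun τ _ α hα => absurd hα (by simp)⟩
  | @insert α G' _ _ ih =>
    obtain ⟨τ1, h1, h2⟩ := ih (fun a ha => hGL (mem_insert_of_mem _ ha))
    obtain ⟨τ2, h3, h4⟩ := key1 hw (hGL (mem_insert α G')) hε
    refine ⟨max τ1 τ2, le_max_of_le_left h1, fun τ hτ β hβ => ?_⟩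
    rcases hβ with rfl | hβ
    · exact h4 τ (le_trans (le_max_right _ _) hτ)
    · exact h2 τ (le_trans (le_max_left _ _) hτ) β hβ

end

end Pool.Agent.Helper754.MV
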