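import Pool.Agent.Helper754.MV4

open Set Topology Filter MeasureTheory Metric
open scoped ENNReal

set_option maxHeartbeats 400000
set_option linter.unusedSectionVars false
set_option linter.unusedVariables false

namespace Pool.Agent.Helper754.MV

section

variable {n : ℕ} {w : Fin n → ℝ} {x0 : Fin n → ℂ} {X : Set (Fin n → ℂ)}

/-- coefficientwise application of a functional -/
theorem dual_eval {E : Type*} [NormedAddCommGroup E] [NormedSpace ℂ E] [CompleteSpace E]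
    (φ : E →L[ℂ] ℂ) (b : L1 (Ix n) E) : ∃ c : L1 (Ix n) ℂ, (∀ β, c β = φ (b β)) ∧
      ∀ y : Fin n → ℂ, ‖y‖ ≤ 1 → evf c y = φ (evf b y) := by
  refine ⟨mk (fun β => φ (b β)) ?_, fun β => rfl, ?_⟩
  · apply Summable.of_nonneg_of_le (fun _ => norm_nonneg _) (fun β => φ.le_opNorm _)
    exact (smb b).mul_left _
  · intro y hy
    unfold evf
    rw [φ.map_tsum (smb_ev b hy).of_norm]
    congr 1
    funext β
    rw [mk_apply, map_smul]

theorem exists_proj (hw : ∀ i, 1 ≤ w i) (hinj : Function.Injective (wtt w))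
    (x0 : Fin n → ℂ) (X : Set (Fin n → ℂ)) :
    ∃ τ1 : ℝ, 0 ≤ τ1 ∧ ∀ τ ≥ τ1, ∀ (E : Type) [NormedAddCommGroup E] [NormedSpace ℂ E]
      [CompleteSpace E], ∃ π : L1 (Ix n) E →L[ℂ] L1 (Ix n) E,
      (∀ b, ‖π b‖ ≤ 2 * ‖b‖) ∧ (∀ b, ∀ β ∈ Lead w x0 X, π b β = 0) ∧
      (∀ b : L1 (Ix n) E, (∀ β ∈ Lead w x0 X, b β = 0) → π b = b) ∧
      (∀ b, Van w x0 X τ (b - π b)) ∧ (∀ b : L1 (Ix n) E, Van w x0 X τ b → π b = 0) := by
  classical
  obtain ⟨G, hG, hGL, hdick⟩ := dickson (Lead w x0 X)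
  obtain ⟨τ1, hτ1, hkey⟩ := key3 hw G hG hGL (ε := 1 / 4) (by norm_num)
  refine ⟨τ1, hτ1, fun τ hτ E _ _ _ => ?_⟩
  have hτ0 : 0 ≤ τ := le_trans hτ1 hτ
  have hch : ∀ β : Ix n, ∃ (α : Ix n) (k : L1 (Ix n) ℂ), α ≤ β ∧ ‖k - lp.single 1 α 1‖ ≤ 1 / 4 ∧
      (β ∈ Lead w x0 X → Van w x0 X τ k) ∧
      (β ∉ Lead w x0 X → α = β ∧ k = lp.single 1 β 1) := by
    intro β
    by_cases hβ : β ∈ Lead w x0 X
    · obtain ⟨α, hα, hαβ⟩ := hdick β hβ
      obtain ⟨k, hk1, hk2⟩ := hkey τ hτ α hα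
      exact ⟨α, k, hαβ, hk2, fun _ => hk1, fun h => absurd hβ h⟩
    · exact ⟨β, lp.single 1 β 1, le_rfl, by simp, fun h => absurd h hβ, fun _ => ⟨rfl, rfl⟩⟩
  choose α k hle hk hvan hstd using hch
  let K : Ix n → E →L[ℂ] L1 (Ix n) E := fun β => (sh (β - α β)).comp (ten (k β))
  have hK : ∀ β, ‖K β‖ ≤ 2 := by
    intro β
    refine (ContinuousLinearMap.opNorm_comp_le _ _).trans ?_
    have h1 : ‖(ten (k β) : E →L[ℂ] L1 (Ix n) E)‖ ≤ 2 := by
      refine (norm_ten_le _).trans ?_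
      have h2 : ‖k β‖ ≤ ‖k β - lp.single 1 (α β) 1‖ + ‖(lp.single 1 (α β) 1 : L1 (Ix n) ℂ)‖ := by
        have := norm_add_le (k β - lp.single 1 (α β) 1) (lp.single 1 (α β) 1 : L1 (Ix n) ℂ)
        rwa [sub_add_cancel] at this
      have h3 : ‖(lp.single 1 (α β) 1 : L1 (Ix n) ℂ)‖ = 1 := by
        rw [lp.norm_single (by simp)]
        simp
      have := hk β
      linarith
    calc ‖(sh (β - α β) : L1 (Ix n) E →L[ℂ] L1 (Ix n) E)‖ * ‖(ten (k β) : E →L[ℂ] L1 (Ix n) E)‖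
        ≤ 1 * 2 := mul_le_mul (norm_sh_le _) h1 (norm_nonneg _) zero_le_one
      _ = 2 := one_mul _
  let Φ : L1 (Ix n) E →L[ℂ] L1 (Ix n) E := lift K 2 zero_le_two hK
  have hsingle : ∀ (β : Ix n) (e : E), (lp.single 1 β e : L1 (Ix n) E)
      = sh (β - α β) (ten (lp.single 1 (α β) 1) e) := by
    intro β e
    rw [ten_single, sh_single, add_tsub_cancel_of_le (hle β)]
  let K' : Ix n → E →L[ℂ] L1 (Ix n) E := fun β =>
    lp.singleContinuousLinearMap ℂ (fun _ : Ix n => E) 1 β - K β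
  have hK' : ∀ β, ‖K' β‖ ≤ 1 / 4 := by
    intro β
    apply ContinuousLinearMap.opNorm_le_bound _ (by norm_num)
    intro e
    have h1 : K' β e = sh (β - α β) (ten (lp.single 1 (α β) 1 - k β) e) := by
      show (lp.single 1 β e : L1 (Ix n) E) - sh (β - α β) (ten (k β) e) = _
      rw [hsingle β e, ← map_sub, ten_sub]
    rw [h1]
    refine ((sh (β - α β) : L1 (Ix n) E →L[ℂ] L1 (Ix n) E).le_opNorm _).trans ?_
    have h2 : ‖(ten (lp.single 1 (α β) 1 - k β) e : L1 (Ix n) E)‖ ≤ 1 / 4 * ‖e‖ := by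
      refine (ContinuousLinearMap.le_opNorm _ _).trans ?_
      apply mul_le_mul_of_nonneg_right _ (norm_nonneg _)
      refine (norm_ten_le _).trans ?_
      rw [norm_sub_rev]
      exact hk β
    calc ‖(sh (β - α β) : L1 (Ix n) E →L[ℂ] L1 (Ix n) E)‖ *
          ‖(ten (lp.single 1 (α β) 1 - k β) e : L1 (Ix n) E)‖
        ≤ 1 * (1 / 4 * ‖e‖) := mul_le_mul (norm_sh_le _) h2 (norm_nonneg _) zero_le_one
      _ = 1 / 4 * ‖e‖ := one_mul _
  let A : L1 (Ix n) E →L[ℂ] L1 (Ix n) E := lift K' (1 / 4) (by norm_num) hK'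
  have hA : ‖A‖ ≤ 1 / 4 := norm_lift_le _ _ _ _
  have hΦA : Φ = 1 - A := by
    apply ext_single
    intro β e
    rw [sub_apply]
    show lift K 2 zero_le_two hK (lp.single 1 β e) = lp.single 1 β e - lift K' _ _ hK' (lp.single 1 β e)
    rw [lift_single, lift_single]
    show K β e = lp.single 1 β e - (lp.single 1 β e - K β e)
    abel
  let u := Units.oneSub A (lt_of_le_of_lt hA (by norm_num))
  have hu : (u : L1 (Ix n) E →L[ℂ] L1 (Ix n) E) = Φ := by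
    rw [hΦA]
    exact Units.val_oneSub A _
  let Ψ : L1 (Ix n) E →L[ℂ] L1 (Ix n) E := ↑u⁻¹
  have hΦΨ : ∀ b, Φ (Ψ b) = b := by
    intro b
    have h1 : (u : L1 (Ix n) E →L[ℂ] L1 (Ix n) E) * ↑u⁻¹ = 1 := u.mul_inv
    rw [hu] at h1
    exact congrArg (fun T => T b) h1
  have hΨΦ : ∀ b, Ψ (Φ b) = b := by
    intro b
    have h1 : (↑u⁻¹ : L1 (Ix n) E →L[ℂ] L1 (Ix n) E) * u = 1 := u.inv_mul
    rw [hu] at h1
    exact congrArg (fun T => T b) h1
  have hΨn : ∀ b, ‖Ψ b‖ ≤ 2 * ‖b‖ := by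
    intro b
    have h1 : Ψ b = b + A (Ψ b) := by
      have h2 := hΦΨ b
      rw [hΦA, sub_apply] at h2
      have h3 : (1 : L1 (Ix n) E →L[ℂ] L1 (Ix n) E) (Ψ b) = Ψ b := rfl
      rw [h3] at h2
      rw [← sub_eq_iff_eq_add]
      exact h2
    have h2 : ‖Ψ b‖ ≤ ‖b‖ + 1 / 4 * ‖Ψ b‖ := by
      calc ‖Ψ b‖ = ‖b + A (Ψ b)‖ := by rw [← h1]
        _ ≤ ‖b‖ + ‖A (Ψ b)‖ := norm_add_le _ _
        _ ≤ ‖b‖ + 1 / 4 * ‖Ψ b‖ := by
            have := (A.le_opNorm (Ψ b)).trans (mul_le_mul_of_nonneg_right hA (norm_nonneg _))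
            linarith
    have h3 := norm_nonneg b
    linarith
  have hKstd : ∀ β, β ∉ Lead w x0 X → ∀ e, K β e = lp.single 1 β e := by
    intro β hβ e
    obtain ⟨h1, h2⟩ := hstd β hβ
    rw [hsingle β e]
    show sh (β - α β) (ten (k β) e) = _
    rw [h2, h1]
  have hΦstd : ∀ b : L1 (Ix n) E, (∀ β ∈ Lead w x0 X, b β = 0) → Φ b = b := by
    intro b hb
    have h1 : ∀ β, K β (b β) = lp.single 1 β (b β) := by
      intro β
      by_cases hβ : β ∈ Lead w x0 X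
      · rw [hb β hβ, map_zero, lp.single_zero]
      · exact hKstd β hβ _
    show lift K 2 zero_le_two hK b = b
    rw [lift_apply]
    simp only [h1]
    exact (lp.hasSum_single (by simp) b).tsum_eq
  have hev : ∀ (c : L1 (Ix n) E) (y : Fin n → ℂ), ‖y‖ ≤ 1 → x0 + sca w τ y ∈ X →
      evf (Φ c) y = evf (res (Lead w x0 X) c) y := by
    intro c y hy hyX
    show evf (lift K 2 zero_le_two hK c) y = _
    rw [evf_lift hy]
    unfold evf
    congr 1
    funext β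
    by_cases hβ : β ∈ Lead w x0 X
    · rw [res_mem c hβ, smul_zero]
      show evf (sh (β - α β) (ten (k β) (c β))) y = 0
      rw [evf_sh hy, evf_ten hy, hvan β hβ y hy hyX, zero_smul, smul_zero]
    · rw [res_not_mem c hβ]
      show evf (K β (c β)) y = _
      rw [hKstd β hβ, evf_single hy]
  have h4 : ∀ b, Van w x0 X τ (b - res (Lead w x0 X) (Ψ b)) := by
    intro b y hy hyX
    rw [evf_sub hy, ← hev (Ψ b) y hy hyX, hΦΨ b, sub_self]
  refine ⟨(resL (Lead w x0 X)).comp Ψ, ?_, ?_, ?_, ?_, ?_⟩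
  · intro b
    exact (norm_res_le _ _).trans (hΨn b)
  · intro b β hβ
    exact res_mem _ hβ
  · intro b hb
    show res (Lead w x0 X) (Ψ b) = b
    have h1 : Ψ b = b := by
      have := hΨΦ b
      rwa [hΦstd b hb] at this
    rw [h1]
    apply lp.ext
    funext β
    by_cases hβ : β ∈ Lead w x0 X
    · rw [res_mem _ hβ, hb β hβ]
    · rw [res_not_mem _ hβ]
  · exact h4
  · intro b hb
    show res (Lead w x0 X) (Ψ b) = 0
    have hv : Van w x0 X τ (res (Lead w x0 X) (Ψ b)) := by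
      intro y hy hyX
      have h5 := h4 b y hy hyX
      rw [evf_sub hy, hb y hy hyX, zero_sub, neg_eq_zero] at h5
      exact h5
    apply lp.ext
    funext β
    by_contra hne
    have hne' : res (Lead w x0 X) (Ψ b) β ≠ 0 := hne
    obtain ⟨φ, -, hφ⟩ := exists_dual_vector ℂ (res (Lead w x0 X) (Ψ b) β)
      (by rw [norm_ne_zero_iff]; exact hne')
    obtain ⟨c, hc1, hc2⟩ := dual_eval φ (res (Lead w x0 X) (Ψ b))
    have hcv : Van w x0 X τ c := by
      intro y hy hyX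
      rw [hc2 y hy, hv y hy hyX, map_zero]
    have hcβ : c β ≠ 0 := by
      rw [hc1, hφ]
      simpa using hne'
    obtain ⟨γ, hγ, hcγ⟩ := key2 hw hinj hτ0 hcv hcβ
    apply hcγ
    rw [hc1, res_mem _ hγ, map_zero]

end

end Pool.Agent.Helper754.MV
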