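import Pool.Agent.Helper754.MV5

open Set Topology Filter MeasureTheory Metric
open scoped ENNReal

set_option maxHeartbeats 400000
set_option linter.unusedSectionVars false
set_option linter.unusedVariables false

namespace Pool.Agent.Helper754.MV

section

variable {n : ℕ} {w : Fin n → ℝ} {x0 : Fin n → ℂ}

/-- the derivative of a monomial -/
noncomputable def Dm (β : Ix n) (y : Fin n → ℂ) : (Fin n → ℂ) →L[ℂ] ℂ :=
  ∑ i, (∏ j ∈ Finset.univ.erase i, y j ^ β j) •
    (((β i : ℂ) * y i ^ (β i - 1)) • (ContinuousLinearMap.proj i : (Fin n → ℂ) →L[ℂ] ℂ))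

theorem hasFDerivAt_mon (β : Ix n) (y : Fin n → ℂ) :
    HasFDerivAt (fun z => mon z β) (Dm β y) y := by
  classical
  have h1 : ∀ i ∈ (Finset.univ : Finset (Fin n)), HasFDerivAt (fun z : Fin n → ℂ => z i ^ β i)
      (((β i : ℂ) * y i ^ (β i - 1)) • (ContinuousLinearMap.proj i : (Fin n → ℂ) →L[ℂ] ℂ)) y := by
    intro i _
    exact (hasDerivAt_pow (β i) (y i)).comp_hasFDerivAt y (hasFDerivAt_apply i y)
  have h2 := HasFDerivAt.finsetProd h1
  have h3 : (fun z : Fin n → ℂ => mon z β) = fun z => ∏ i, z i ^ β i := rfl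
  rw [h3]
  exact h2

theorem nat_half (k : ℕ) : (k : ℝ) * (1 / 2) ^ (k - 1) ≤ 1 := by
  induction k with
  | zero => simp
  | succ k ih =>
    rcases Nat.eq_zero_or_pos k with h | h
    · subst h; simp
    · have e : k + 1 - 1 = (k - 1) + 1 := by omega
      rw [e, pow_succ]
      have h1 : (1 : ℝ) ≤ k := by exact_mod_cast h
      have h2 : (0 : ℝ) < (1 / 2) ^ (k - 1) := by positivity
      push_cast
      have h3 : ((k : ℝ) + 1) * ((1 / 2) ^ (k - 1) * (1 / 2))
          = ((k : ℝ) + 1) / 2 * (1 / 2) ^ (k - 1) := by ring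
      rw [h3]
      have h4 : ((k : ℝ) + 1) / 2 ≤ k := by linarith
      calc ((k : ℝ) + 1) / 2 * (1 / 2) ^ (k - 1) ≤ k * (1 / 2) ^ (k - 1) :=
            mul_le_mul_of_nonneg_right h4 h2.le
        _ ≤ 1 := ih

theorem norm_Dm_le (β : Ix n) {y : Fin n → ℂ} (hy : ‖y‖ ≤ 1 / 2) : ‖Dm β y‖ ≤ n := by
  unfold Dm
  have hyi : ∀ i, ‖y i‖ ≤ 1 / 2 := fun i => (norm_le_pi_norm y i).trans hy
  refine (norm_sum_le _ _).trans ?_
  have h1 : ∀ i ∈ (Finset.univ : Finset (Fin n)), ‖(∏ j ∈ Finset.univ.erase i, y j ^ β j) •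
      (((β i : ℂ) * y i ^ (β i - 1)) • (ContinuousLinearMap.proj i : (Fin n → ℂ) →L[ℂ] ℂ))‖ ≤ 1 := by
    intro i _
    rw [norm_smul, norm_smul, norm_prod]
    have h2 : ∏ j ∈ Finset.univ.erase i, ‖y j ^ β j‖ ≤ 1 := by
      apply Finset.prod_le_one
      · intro j _
        exact norm_nonneg _
      · intro j _
        rw [norm_pow]
        exact pow_le_one₀ (norm_nonneg _) ((hyi j).trans (by norm_num))
    have h3 : ‖(β i : ℂ) * y i ^ (β i - 1)‖ ≤ 1 := by
      rw [norm_mul, norm_pow, Complex.norm_natCast]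
      refine le_trans ?_ (nat_half (β i))
      apply mul_le_mul_of_nonneg_left _ (by positivity)
      exact pow_le_pow_left₀ (norm_nonneg _) (hyi i) _
    have h4 : ‖(ContinuousLinearMap.proj i : (Fin n → ℂ) →L[ℂ] ℂ)‖ ≤ 1 := by
      apply ContinuousLinearMap.opNorm_le_bound _ zero_le_one
      intro z
      rw [one_mul]
      exact norm_le_pi_norm z i
    calc (∏ j ∈ Finset.univ.erase i, ‖y j ^ β j‖) * (‖(β i : ℂ) * y i ^ (β i - 1)‖ *
          ‖(ContinuousLinearMap.proj i : (Fin n → ℂ) →L[ℂ] ℂ)‖) ≤ 1 * (1 * 1) := by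
          apply mul_le_mul h2 _ (by positivity) zero_le_one
          exact mul_le_mul h3 h4 (norm_nonneg _) zero_le_one
      _ = 1 := by norm_num
  refine (Finset.sum_le_sum h1).trans ?_
  simp

theorem differentiableOn_evf {E : Type*} [NormedAddCommGroup E] [NormedSpace ℂ E] [CompleteSpace E]
    (g : L1 (Ix n) E) : DifferentiableOn ℂ (evf g) (ball (0 : Fin n → ℂ) (1 / 2)) := by
  intro y hy
  have h := hasFDerivAt_tsum_of_isPreconnected (𝕜 := ℂ) (u := fun β : Ix n => (n : ℝ) * ‖g β‖)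
    (f := fun β z => mon z β • g β) (f' := fun β z => (Dm β z).smulRight (g β))
    (s := ball (0 : Fin n → ℂ) (1 / 2)) ((smb g).mul_left _) isOpen_ball
    (convex_ball _ _).isPreconnected ?_ ?_ (mem_ball_self (by norm_num)) ?_ hy
  · exact h.differentiableAt.differentiableWithinAt
  · intro β z _
    exact (hasFDerivAt_mon β z).smul_const (g β)
  · intro β z hz
    rw [ContinuousLinearMap.norm_smulRight_apply]
    apply mul_le_mul_of_nonneg_right _ (norm_nonneg _)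
    apply norm_Dm_le
    rw [mem_ball, dist_zero_right] at hz
    exact hz.le
  · exact (smb_ev g (by simp)).of_norm

/-- representation of a holomorphic function at a small scale -/
theorem exists_rep (hw : ∀ i, 1 ≤ w i) {E : Type*} [NormedAddCommGroup E] [NormedSpace ℂ E]
    [CompleteSpace E] {V : Set (Fin n → ℂ)} (hV : IsOpen V) (hx0 : x0 ∈ V) {φ : (Fin n → ℂ) → E}
    (hφ : DifferentiableOn ℂ φ V) : ∃ τ0 : ℝ, 0 ≤ τ0 ∧ ∃ f0 : L1 (Ix n) E,
      ∀ y : Fin n → ℂ, ‖y‖ ≤ 1 → x0 + sca w τ0 y ∈ V ∧ evf f0 y = φ (x0 + sca w τ0 y) := by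
  obtain ⟨R, hR, hball⟩ := Metric.nhds_basis_closedBall.mem_iff.1 (hV.mem_nhds hx0)
  have hmem : ∀ z ∈ closedBall (0 : Fin n → ℂ) R, x0 + z ∈ V := by
    intro z hz
    apply hball
    rw [mem_closedBall, dist_zero_right] at hz
    rw [mem_closedBall, dist_eq_norm]
    simpa using hz
  have hd : ∀ z ∈ closedBall (0 : Fin n → ℂ) R, DifferentiableAt ℂ (fun z => φ (x0 + z)) z := by
    intro z hz
    have h1 : DifferentiableAt ℂ φ (x0 + z) := hφ.differentiableAt (hV.mem_nhds (hmem z hz))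
    exact h1.comp z (by fun_prop)
  obtain ⟨M, hM⟩ : ∃ M, ∀ z ∈ closedBall (0 : Fin n → ℂ) R, ‖φ (x0 + z)‖ ≤ M := by
    have hc : ContinuousOn (fun z => φ (x0 + z)) (closedBall (0 : Fin n → ℂ) R) :=
      fun z hz => (hd z hz).continuousAt.continuousWithinAt
    exact (isCompact_closedBall _ _).exists_bound_of_continuousOn hc
  obtain ⟨a, ha, hsum⟩ := expansion hR (fun z => φ (x0 + z)) hd hM
  -- choose the scale
  obtain ⟨τ0, hτ0, hτR⟩ : ∃ τ0 : ℝ, 0 ≤ τ0 ∧ Real.exp (-τ0) ≤ R / 2 := by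
    refine ⟨max 0 (2 / R), le_max_left _ _, ?_⟩
    have h1 : 0 < 2 / R := by positivity
    have h2 : Real.exp (-(max 0 (2 / R))) ≤ Real.exp (-(2 / R)) := by
      apply Real.exp_le_exp.2
      have := le_max_right 0 (2 / R)
      linarith
    refine h2.trans ?_
    rw [Real.exp_neg]
    have h3 : R / 2 = (2 / R)⁻¹ := by rw [inv_div]
    rw [h3]
    apply inv_anti₀ h1
    have := Real.add_one_le_exp (2 / R)
    linarith
  have hexp : ∀ β : Ix n, Real.exp (-(τ0 * wtt w β)) ≤ R ^ (∑ i, β i) * (1 / 2) ^ (∑ i, β i) := by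
    intro β
    have h1 : Real.exp (-(τ0 * wtt w β)) ≤ (Real.exp (-τ0)) ^ (∑ i, β i) := by
      rw [← Real.exp_nat_mul]
      apply Real.exp_le_exp.2
      have h2 : ((∑ i, β i : ℕ) : ℝ) ≤ wtt w β := by
        unfold wtt
        push_cast
        apply Finset.sum_le_sum
        intro i _
        have := hw i
        have h3 : (0 : ℝ) ≤ β i := by positivity
        nlinarith
      have h3 := mul_le_mul_of_nonneg_left h2 hτ0
      linarith
    refine h1.trans ?_
    rw [← mul_pow]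
    apply pow_le_pow_left₀ (Real.exp_pos _).le
    linarith
  have hs2 : Summable fun β : Ix n => ((1 : ℝ) / 2) ^ (∑ i, β i) := by
    have h1 := (geom_prod n (fun _ => (1 / 2 : ℂ)) (by intro i; norm_num)).1
    refine h1.congr (fun β => ?_)
    rw [norm_mon, ← Finset.prod_pow_eq_pow_sum]
    simp
  have hsm : Summable fun β => ‖(Real.exp (-(τ0 * wtt w β)) : ℂ) • a β‖ := by
    apply Summable.of_nonneg_of_le (fun _ => norm_nonneg _) _ (hs2.mul_left M)
    intro β
    rw [norm_smul, Complex.norm_real, Real.norm_eq_abs, abs_of_pos (Real.exp_pos _)]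
    calc Real.exp (-(τ0 * wtt w β)) * ‖a β‖ ≤ (R ^ (∑ i, β i) * (1 / 2) ^ (∑ i, β i)) * ‖a β‖ :=
          mul_le_mul_of_nonneg_right (hexp β) (norm_nonneg _)
      _ = (‖a β‖ * R ^ (∑ i, β i)) * (1 / 2) ^ (∑ i, β i) := by ring
      _ ≤ M * (1 / 2) ^ (∑ i, β i) := mul_le_mul_of_nonneg_right (ha β) (by positivity)
  refine ⟨τ0, hτ0, mk _ hsm, fun y hy => ?_⟩
  have hn : ‖sca w τ0 y‖ < R := by
    refine lt_of_le_of_lt (norm_sca_le hw hτ0 y) ?_
    calc Real.exp (-τ0) * ‖y‖ ≤ R / 2 * 1 := mul_le_mul hτR hy (norm_nonneg _) (by positivity)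
      _ < R := by linarith
  refine ⟨hmem _ (by rw [mem_closedBall, dist_zero_right]; exact hn.le), ?_⟩
  rw [← (hsum (sca w τ0 y) hn).tsum_eq]
  unfold evf
  congr 1
  funext β
  rw [mk_apply, mon_sca, smul_smul, mul_comm]

theorem evf_at_zero {E : Type*} [NormedAddCommGroup E] [NormedSpace ℂ E] (f : L1 (Ix n) E) :
    evf f 0 = f 0 := by
  unfold evf
  rw [tsum_eq_single 0]
  · rw [mon_zero, one_smul]
  · intro β hβ
    obtain ⟨i, hi⟩ : ∃ i, β i ≠ 0 := by
      by_contra hcon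
      push Not at hcon
      exact hβ (funext hcon)
    have : mon (0 : Fin n → ℂ) β = 0 := by
      unfold mon
      apply Finset.prod_eq_zero (Finset.mem_univ i)
      simp [hi]
    rw [this, zero_smul]

theorem sca_zero_vec (w : Fin n → ℝ) (τ : ℝ) : sca w τ (0 : Fin n → ℂ) = 0 := by
  funext i
  simp [sca]

/-- uniform version of the representation -/
theorem exists_rep' (hw : ∀ i, 1 ≤ w i) {E : Type*} [NormedAddCommGroup E] [NormedSpace ℂ E]
    [CompleteSpace E] {V : Set (Fin n → ℂ)} (hV : IsOpen V) (hx0 : x0 ∈ V) {φ : (Fin n → ℂ) → E}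
    (hφ : DifferentiableOn ℂ φ V) {ε : ℝ} (hε : 0 < ε) : ∃ τ0 : ℝ, ∀ τ ≥ τ0, ∃ f : L1 (Ix n) E,
      (∀ y : Fin n → ℂ, ‖y‖ ≤ 1 → x0 + sca w τ y ∈ V ∧ evf f y = φ (x0 + sca w τ y)) ∧
      ‖f - lp.single 1 0 (φ x0)‖ ≤ ε := by
  obtain ⟨τ0, hτ0, f0, hf0⟩ := exists_rep hw hV hx0 hφ
  have h00 : f0 0 = φ x0 := by
    have := (hf0 0 (by simp)).2
    rw [evf_at_zero, sca_zero_vec, add_zero] at this
    exact this
  set θ0 : ℝ := ‖f0‖ / ε + 1 with hθ0
  have hθ0p : 1 ≤ θ0 := by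
    have : 0 ≤ ‖f0‖ / ε := by positivity
    linarith
  refine ⟨τ0 + θ0, fun τ hτ => ?_⟩
  have hθ : 0 ≤ τ - τ0 := by linarith
  refine ⟨Dsc hw (τ - τ0) hθ f0, ?_, ?_⟩
  · intro y hy
    have h1 := hf0 (sca w (τ - τ0) y) (norm_sca_le_one hw hθ hy)
    rw [sca_add] at h1
    have h2 : τ0 + (τ - τ0) = τ := by ring
    rw [h2] at h1
    exact ⟨h1.1, by rw [evf_Dsc]; exact h1.2⟩
  · rw [← h00]
    refine (norm_Dsc_sub hw hθ f0).trans ?_
    have hpos : 0 < τ - τ0 := by linarith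
    have h3 : Real.exp (-(τ - τ0)) ≤ (τ - τ0)⁻¹ := by
      rw [Real.exp_neg]
      apply inv_anti₀ hpos
      have := Real.add_one_le_exp (τ - τ0)
      linarith
    calc Real.exp (-(τ - τ0)) * ‖f0‖ ≤ (τ - τ0)⁻¹ * ‖f0‖ :=
          mul_le_mul_of_nonneg_right h3 (norm_nonneg _)
      _ ≤ ε := by
          rw [inv_mul_le_iff₀ hpos]
          have h4 : ‖f0‖ / ε ≤ τ - τ0 := by linarith
          rw [div_le_iff₀ hε] at h4
          exact h4

end

/-- from approximate to exact solutions -/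
theorem iter {B1 B2 : Type*} [NormedAddCommGroup B1] [NormedSpace ℂ B1] [NormedAddCommGroup B2]
    [NormedSpace ℂ B2] [CompleteSpace B2] (T : B2 →L[ℂ] B1) (N : Set B1) {C : ℝ}
    (h : ∀ y ∈ N, ∃ x, ‖x‖ ≤ C * ‖y‖ ∧ ‖y - T x‖ ≤ 1 / 2 * ‖y‖ ∧ y - T x ∈ N) :
    ∀ y ∈ N, ∃ x, T x = y := by
  intro y hy
  choose! s hs1 hs2 hs3 using h
  let Y : ℕ → B1 := fun k => Nat.rec y (fun _ z => z - T (s z)) k
  have hY0 : Y 0 = y := rfl
  have hYs : ∀ k, Y (k + 1) = Y k - T (s (Y k)) := fun k => rfl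
  have hYN : ∀ k, Y k ∈ N := by
    intro k
    induction k with
    | zero => exact hy
    | succ k ih => rw [hYs]; exact hs3 _ ih
  have hYn : ∀ k, ‖Y k‖ ≤ (1 / 2) ^ k * ‖y‖ := by
    intro k
    induction k with
    | zero => simp [hY0]
    | succ k ih =>
      rw [hYs, pow_succ]
      have := hs2 _ (hYN k)
      linarith
  have hC0 : ∀ k, ‖s (Y k)‖ ≤ |C| * ((1 / 2) ^ k * ‖y‖) := by
    intro k
    refine (hs1 _ (hYN k)).trans ?_
    calc C * ‖Y k‖ ≤ |C| * ‖Y k‖ := mul_le_mul_of_nonneg_right (le_abs_self _) (norm_nonneg _)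
      _ ≤ |C| * ((1 / 2) ^ k * ‖y‖) := mul_le_mul_of_nonneg_left (hYn k) (abs_nonneg _)
  have hgeo : Summable fun k : ℕ => |C| * ((1 / 2 : ℝ) ^ k * ‖y‖) := by
    apply Summable.mul_left
    apply Summable.mul_right
    exact summable_geometric_of_lt_one (by norm_num) (by norm_num)
  have hsum : Summable fun k => s (Y k) := by
    apply Summable.of_norm
    exact Summable.of_nonneg_of_le (fun _ => norm_nonneg _) hC0 hgeo
  refine ⟨∑' k, s (Y k), ?_⟩
  have h1 : HasSum (fun k => T (s (Y k))) (T (∑' k, s (Y k))) := hsum.hasSum.mapL T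
  have h2 := h1.tendsto_sum_nat
  have h3 : ∀ m, ∑ k ∈ Finset.range m, T (s (Y k)) = y - Y m := by
    intro m
    induction m with
    | zero => simp [hY0]
    | succ m ih =>
      rw [Finset.sum_range_succ, ih, hYs]
      abel
  have h4 : Tendsto Y atTop (𝓝 0) := by
    apply squeeze_zero_norm hYn
    have : Tendsto (fun k : ℕ => (1 / 2 : ℝ) ^ k * ‖y‖) atTop (𝓝 (0 * ‖y‖)) :=
      (tendsto_pow_atTop_nhds_zero_of_lt_one (by norm_num) (by norm_num)).mul_const _
    simpa using this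
  have h5 : Tendsto (fun m => ∑ k ∈ Finset.range m, T (s (Y k))) atTop (𝓝 (y - 0)) := by
    simp only [h3]
    exact tendsto_const_nhds.sub h4
  rw [sub_zero] at h5
  exact tendsto_nhds_unique h2 h5

end Pool.Agent.Helper754.MV
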