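import Pool.Agent.Helper754.MV6

open Set Topology Filter MeasureTheory Metric
open scoped ENNReal

set_option maxHeartbeats 400000
set_option linter.unusedSectionVars false
set_option linter.unusedVariables false

namespace Pool.Agent.Helper754.MV

section

variable {n : ℕ}

theorem sca_zero (w : Fin n → ℝ) (y : Fin n → ℂ) : sca w 0 y = y := by
  funext i
  simp [sca]

theorem sca_diff (w : Fin n → ℝ) (τ : ℝ) (x0 : Fin n → ℂ) :
    Differentiable ℂ fun x : Fin n → ℂ => sca w τ (x - x0) := by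
  unfold sca
  rw [differentiable_pi]
  intro i
  simp only [Pi.sub_apply]
  fun_prop

variable {E2 E1 E0 : Type} [NormedAddCommGroup E2] [NormedSpace ℂ E2] [CompleteSpace E2]
  [NormedAddCommGroup E1] [NormedSpace ℂ E1] [CompleteSpace E1]
  [NormedAddCommGroup E0] [NormedSpace ℂ E0] [CompleteSpace E0]

theorem stage {X U : Set (Fin n → ℂ)} (hU : IsOpen U) (hXU : X ⊆ U) {x0 : Fin n → ℂ}
    (hx0 : x0 ∈ X) (v : (Fin n → ℂ) → (E2 →L[ℂ] E1)) (u : (Fin n → ℂ) → (E1 →L[ℂ] E0))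
    (hv : DifferentiableOn ℂ v U) (hu : DifferentiableOn ℂ u U)
    (huv : ∀ x ∈ X, (u x).comp (v x) = 0)
    {C1 : ℝ} (hC1 : 0 ≤ C1) (h1 : ∀ e, ∃ e', u x0 e' = u x0 e ∧ ‖e'‖ ≤ C1 * ‖u x0 e‖)
    {C2 : ℝ} (hC2 : 0 ≤ C2) (h2 : ∀ e, u x0 e = 0 → ∃ e2, v x0 e2 = e ∧ ‖e2‖ ≤ C2 * ‖e‖)
    {V : Set (Fin n → ℂ)} (hV : IsOpen V) (hx0V : x0 ∈ V) {f : (Fin n → ℂ) → E1}
    (hf : DifferentiableOn ℂ f V) (huf : ∀ y ∈ V, y ∈ X → u y (f y) = 0) :
    ∃ W : Set (Fin n → ℂ), IsOpen W ∧ x0 ∈ W ∧ ∃ g : (Fin n → ℂ) → E2, DifferentiableOn ℂ g W ∧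
      ∀ y ∈ W, y ∈ X → v y (g y) = f y := by
  obtain ⟨w, hw, hinj⟩ := exists_weights n
  set ε : ℝ := 1 / (16 * (1 + C1) * (1 + C2)) with hε
  have hεpos : 0 < ε := by positivity
  have hεC1 : C1 * ε ≤ 1 / 16 := by
    rw [hε, mul_one_div, div_le_div_iff₀ (by positivity) (by norm_num)]
    nlinarith [mul_nonneg hC1 hC2]
  have hεC2 : C2 * ε ≤ 1 / 16 := by
    rw [hε, mul_one_div, div_le_div_iff₀ (by positivity) (by norm_num)]
    nlinarith [mul_nonneg hC1 hC2]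
  obtain ⟨τ1, hτ1, hproj⟩ := exists_proj hw hinj x0 X
  obtain ⟨τu, hτu⟩ := exists_rep' hw hU (hXU hx0) hu hεpos
  obtain ⟨τv, hτv⟩ := exists_rep' hw hU (hXU hx0) hv hεpos
  obtain ⟨τf, hτf⟩ := exists_rep' hw hV hx0V hf one_pos
  set τ : ℝ := max (max τ1 τu) (max τv τf) with hτ
  have hg1 : τ1 ≤ τ := (le_max_left _ _).trans (le_max_left _ _)
  have hgu : τu ≤ τ := (le_max_right _ _).trans (le_max_left _ _)
  have hgv : τv ≤ τ := (le_max_left _ _).trans (le_max_right _ _)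
  have hgf : τf ≤ τ := (le_max_right _ _).trans (le_max_right _ _)
  obtain ⟨us, hus, husε⟩ := hτu τ hgu
  obtain ⟨vs, hvs, hvsε⟩ := hτv τ hgv
  obtain ⟨fs, hfs, -⟩ := hτf τ hgf
  obtain ⟨π1, π1n, π1L, π1s, π1V, π1z⟩ := hproj τ hg1 E1
  obtain ⟨π0, π0n, π0L, π0s, π0V, π0z⟩ := hproj τ hg1 E0
  let T : L1 (Ix n) E2 →L[ℂ] L1 (Ix n) E1 := π1.comp (mulS vs)
  let N : Set (L1 (Ix n) E1) := {b | (∀ β ∈ Lead w x0 X, b β = 0) ∧ π0 (mulS us b) = 0}
  -- evaluation facts
  have heπ1 : ∀ (b : L1 (Ix n) E1) (y : Fin n → ℂ), ‖y‖ ≤ 1 → x0 + sca w τ y ∈ X →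
      evf (π1 b) y = evf b y := by
    intro b y hy hyX
    have := π1V b y hy hyX
    rw [evf_sub hy, sub_eq_zero] at this
    exact this.symm
  have hvanT : ∀ x : L1 (Ix n) E2, π0 (mulS us (T x)) = 0 := by
    intro x
    apply π0z
    intro y hy hyX
    rw [evf_mulS hy]
    show (evf us y) (evf (π1 (mulS vs x)) y) = 0
    rw [heπ1 _ y hy hyX, evf_mulS hy, (hus y hy).2, (hvs y hy).2]
    have := huv _ hyX
    exact congrArg (fun A => A (evf x y)) this
  have hstep : ∀ y ∈ N, ∃ x, ‖x‖ ≤ (2 * C2) * ‖y‖ ∧ ‖y - T x‖ ≤ 1 / 2 * ‖y‖ ∧ y - T x ∈ N := by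
    intro y hy
    obtain ⟨hyL, hy0⟩ := hy
    set U0 : L1 (Ix n) E1 →L[ℂ] L1 (Ix n) E0 := mulS (lp.single 1 0 (u x0)) with hU0
    have hU0a : ∀ β, U0 y β = u x0 (y β) := fun β => mulS_const _ _ _
    have hU0n : ‖U0 y‖ ≤ 2 * ε * ‖y‖ := by
      have e1 : π0 (U0 y) = U0 y := by
        apply π0s
        intro β hβ
        rw [hU0a, hyL β hβ, map_zero]
      have e2 : U0 y = - π0 (mulS us y - U0 y) := by
        rw [map_sub, hy0, e1]
        simp
      have e3 : mulS us y - U0 y = mulS (us - lp.single 1 0 (u x0)) y := by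
        rw [mulS_sub]
        rfl
      rw [e2, norm_neg, e3]
      refine (π0n _).trans ?_
      have e4 : ‖mulS (us - lp.single 1 0 (u x0)) y‖ ≤ ε * ‖y‖ :=
        (ContinuousLinearMap.le_opNorm _ _).trans
          (mul_le_mul_of_nonneg_right ((norm_mulS_le _).trans husε) (norm_nonneg _))
      linarith
    -- correction
    choose s1 hs1 hs1n using h1
    have hsm1 : Summable fun β => ‖s1 (y β)‖ := by
      apply Summable.of_nonneg_of_le (fun _ => norm_nonneg _) _ ((smb (U0 y)).mul_left C1)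
      intro β
      rw [hU0a]
      exact hs1n _
    set y' : L1 (Ix n) E1 := mk (fun β => s1 (y β)) hsm1 with hy'
    have hy'a : ∀ β, y' β = s1 (y β) := fun β => rfl
    have hy'n : ‖y'‖ ≤ C1 * ‖U0 y‖ := by
      rw [nrm_eq (U0 y), ← tsum_mul_left]
      apply norm_mk_le _ _ ((smb (U0 y)).mul_left C1)
      intro β
      rw [hU0a]
      exact hs1n _
    have hy'L : ∀ β ∈ Lead w x0 X, y' β = 0 := by
      intro β hβ
      have h3 := hs1n (y β)
      rw [hyL β hβ, map_zero, norm_zero, mul_zero] at h3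
      rw [hy'a, hyL β hβ]
      exact norm_eq_zero.1 (le_antisymm h3 (norm_nonneg _))
    have hex : ∀ β, ∃ e2, v x0 e2 = y β - y' β ∧ ‖e2‖ ≤ C2 * ‖y β - y' β‖ := by
      intro β
      apply h2
      rw [map_sub, hy'a, hs1, sub_self]
    choose s2 hs2 hs2n using hex
    have hsub : ∀ β, (y - y' : L1 (Ix n) E1) β = y β - y' β := fun β => by
      rw [lp.coeFn_sub, Pi.sub_apply]
    have hsm2 : Summable fun β => ‖s2 β‖ := by
      apply Summable.of_nonneg_of_le (fun _ => norm_nonneg _) _ ((smb (y - y')).mul_left C2)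
      intro β
      rw [hsub]
      exact hs2n _
    set x : L1 (Ix n) E2 := mk s2 hsm2 with hx
    have hxn : ‖x‖ ≤ C2 * ‖y - y'‖ := by
      rw [nrm_eq (y - y'), ← tsum_mul_left]
      apply norm_mk_le _ _ ((smb (y - y')).mul_left C2)
      intro β
      rw [hsub]
      exact hs2n _
    have hy'n2 : ‖y'‖ ≤ 1 / 8 * ‖y‖ := by
      refine hy'n.trans ?_
      calc C1 * ‖U0 y‖ ≤ C1 * (2 * ε * ‖y‖) := mul_le_mul_of_nonneg_left hU0n hC1
        _ = 2 * (C1 * ε) * ‖y‖ := by ring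
        _ ≤ 1 / 8 * ‖y‖ := by
            apply mul_le_mul_of_nonneg_right _ (norm_nonneg _)
            linarith
    have hyy' : ‖y - y'‖ ≤ 2 * ‖y‖ := by
      have := norm_sub_le y y'
      have h0 := norm_nonneg y
      linarith
    have hxn2 : ‖x‖ ≤ 2 * C2 * ‖y‖ := by
      refine hxn.trans ?_
      calc C2 * ‖y - y'‖ ≤ C2 * (2 * ‖y‖) := mul_le_mul_of_nonneg_left hyy' hC2
        _ = 2 * C2 * ‖y‖ := by ring
    set V0 : L1 (Ix n) E2 →L[ℂ] L1 (Ix n) E1 := mulS (lp.single 1 0 (v x0)) with hV0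
    have hV0x : V0 x = y - y' := by
      apply lp.ext
      funext β
      rw [hV0, mulS_const, hsub]
      exact hs2 β
    have hπV0 : π1 (V0 x) = y - y' := by
      rw [hV0x]
      apply π1s
      intro β hβ
      rw [hsub, hyL β hβ, hy'L β hβ, sub_zero]
    have hTx : y - T x = y' - π1 (mulS (vs - lp.single 1 0 (v x0)) x) := by
      have e1 : mulS (vs - lp.single 1 0 (v x0)) x = mulS vs x - V0 x := by
        rw [mulS_sub]
        rfl
      rw [e1, map_sub, hπV0]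
      show y - π1 (mulS vs x) = y' - (π1 (mulS vs x) - (y - y'))
      abel
    refine ⟨x, hxn2, ?_, ?_, ?_⟩
    · rw [hTx]
      refine (norm_sub_le _ _).trans ?_
      have e4 : ‖mulS (vs - lp.single 1 0 (v x0)) x‖ ≤ ε * ‖x‖ :=
        (ContinuousLinearMap.le_opNorm _ _).trans
          (mul_le_mul_of_nonneg_right ((norm_mulS_le _).trans hvsε) (norm_nonneg _))
      have e5 := π1n (mulS (vs - lp.single 1 0 (v x0)) x)
      have e6 : ε * ‖x‖ ≤ 1 / 8 * ‖y‖ := by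
        calc ε * ‖x‖ ≤ ε * (2 * C2 * ‖y‖) := mul_le_mul_of_nonneg_left hxn2 hεpos.le
          _ = 2 * (C2 * ε) * ‖y‖ := by ring
          _ ≤ 1 / 8 * ‖y‖ := by
              apply mul_le_mul_of_nonneg_right _ (norm_nonneg _)
              linarith
      have h0 := norm_nonneg y
      linarith
    · intro β hβ
      rw [lp.coeFn_sub, Pi.sub_apply, hyL β hβ]
      show 0 - π1 (mulS vs x) β = 0
      rw [π1L _ β hβ, sub_zero]
    · rw [map_sub, map_sub, hy0, hvanT, sub_zero]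
  have hN : π1 fs ∈ N := by
    refine ⟨fun β hβ => π1L _ β hβ, ?_⟩
    apply π0z
    intro y hy hyX
    rw [evf_mulS hy, heπ1 _ y hy hyX, (hus y hy).2, (hfs y hy).2]
    exact huf _ (hfs y hy).1 hyX
  obtain ⟨g, hg⟩ := iter T N hstep _ hN
  refine ⟨(fun x => sca w (-τ) (x - x0)) ⁻¹' ball 0 (1 / 2), ?_, ?_,
    fun x => evf g (sca w (-τ) (x - x0)), ?_, ?_⟩
  · exact isOpen_ball.preimage (sca_diff w (-τ) x0).continuous
  · show sca w (-τ) (x0 - x0) ∈ ball 0 (1 / 2)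
    rw [sub_self, sca_zero_vec]
    exact mem_ball_self (by norm_num)
  · apply (differentiableOn_evf g).comp (sca_diff w (-τ) x0).differentiableOn
    intro x hx
    exact hx
  · intro x hx hxX
    have hb : ‖sca w (-τ) (x - x0)‖ ≤ 1 := by
      have : sca w (-τ) (x - x0) ∈ ball (0 : Fin n → ℂ) (1 / 2) := hx
      rw [mem_ball, dist_zero_right] at this
      linarith
    have hback : x0 + sca w τ (sca w (-τ) (x - x0)) = x := by
      rw [sca_add, add_neg_cancel, sca_zero]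
      abel
    set y := sca w (-τ) (x - x0) with hy
    have hyX : x0 + sca w τ y ∈ X := by rw [hback]; exact hxX
    have e1 : evf (mulS vs g) y = evf fs y := by
      rw [← heπ1 _ y hb hyX, ← heπ1 fs y hb hyX]
      exact congrArg (fun b => evf b y) hg
    rw [evf_mulS hb, (hvs y hb).2, (hfs y hb).2, hback] at e1
    exact e1

end

end Pool.Agent.Helper754.MV
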