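import Pool.Agent.Helper754.MV7

open Set Topology Filter MeasureTheory Metric

set_option maxHeartbeats 400000
set_option linter.unusedSectionVars false
set_option linter.unusedVariables false

namespace Pool.Agent.Helper754.MV

/-- an operator with closed range has bounded preimages -/
theorem closed_range_bound {A B : Type*} [NormedAddCommGroup A] [NormedSpace ℂ A] [CompleteSpace A]
    [NormedAddCommGroup B] [NormedSpace ℂ B] [CompleteSpace B] (T : A →L[ℂ] B)
    (hcl : IsClosed (Set.range T)) :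
    ∃ C : ℝ, 0 ≤ C ∧ ∀ a, ∃ a', T a' = T a ∧ ‖a'‖ ≤ C * ‖T a‖ := by
  have hcl' : IsClosed ((LinearMap.range (T : A →ₗ[ℂ] B) : Submodule ℂ B) : Set B) := by
    have : ((LinearMap.range (T : A →ₗ[ℂ] B) : Submodule ℂ B) : Set B) = Set.range T := by
      ext b; simp
    rw [this]; exact hcl
  haveI : CompleteSpace (LinearMap.range (T : A →ₗ[ℂ] B)) := hcl'.completeSpace_coe
  let S : A →L[ℂ] LinearMap.range (T : A →ₗ[ℂ] B) :=
    T.codRestrict _ (fun a => LinearMap.mem_range_self (T : A →ₗ[ℂ] B) a)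
  have hS : Function.Surjective S := by
    rintro ⟨b, a, ha⟩
    exact ⟨a, Subtype.ext ha⟩
  obtain ⟨C, hC, h⟩ := ContinuousLinearMap.exists_preimage_norm_le S hS
  refine ⟨C, hC.le, fun a => ?_⟩
  obtain ⟨a', h1, h2⟩ := h (S a)
  exact ⟨a', congrArg Subtype.val h1, h2⟩

end Pool.Agent.Helper754.MV
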