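import Pool.Agent.Helper754.Shell

open Set Topology Filter

namespace Pool.Agent.Helper754

/-- Cantor-Bendixson rank at most `n`. -/
def Rk : ℕ → Set ℝ → Prop
  | 0, S => S = ∅
  | n + 1, S => ∀ x ∈ S, ∃ U ∈ 𝓝 x, Rk n ((S ∩ U) \ {x})

def PRk (n : ℕ) (x : ℝ) (S : Set ℝ) : Prop := ∃ U ∈ 𝓝 x, Rk n ((S ∩ U) \ {x})

theorem Rk_succ_iff {n : ℕ} {S : Set ℝ} : Rk (n + 1) S ↔ ∀ x ∈ S, PRk n x S := Iff.rfl

theorem Rk.of_le {n : ℕ} : ∀ {S S' : Set ℝ}, Rk n S' → Le S S' → Rk n S := by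
  induction n with
  | zero =>
    rintro S S' h ⟨f, -, hm⟩
    rw [Rk] at h ⊢
    subst h
    exact eq_empty_of_forall_notMem (fun x hx => hm hx)
  | succ n ih =>
    rintro S S' h ⟨f, hf, hm⟩ x hx
    obtain ⟨V, hV, hr⟩ := h (f x) (hm hx)
    obtain ⟨U, hU, h1⟩ := (hf x hx).1 V hV
    refine ⟨U, hU, ih hr ⟨f, hf.mono (fun y hy => hy.1.1), ?_⟩⟩
    rintro y ⟨⟨hy1, hy2⟩, hy3⟩
    refine ⟨⟨hm hy1, h1 y hy1 hy2⟩, fun h => hy3 (hf.injOn hy1 hx h)⟩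

theorem Rk.mono_set {n : ℕ} {S S' : Set ℝ} (h : Rk n S') (hs : S ⊆ S') : Rk n S :=
  h.of_le (Le.of_subset hs)

theorem Rk.succ {n : ℕ} {S : Set ℝ} (h : Rk n S) : Rk (n + 1) S :=
  fun _ _ => ⟨univ, univ_mem, h.mono_set (fun _ hy => hy.1.1)⟩

theorem Rk.mono_nat {n m : ℕ} {S : Set ℝ} (h : Rk n S) (hnm : n ≤ m) : Rk m S := by
  induction hnm with
  | refl => exact h
  | step _ ih => exact ih.succ

theorem Rk.loc {n : ℕ} {S : Set ℝ} (h : ∀ x ∈ S, ∃ U ∈ 𝓝 x, Rk n (S ∩ U)) : Rk n S := by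
  cases n with
  | zero =>
    refine eq_empty_of_forall_notMem (fun x hx => ?_)
    obtain ⟨U, hU, h1⟩ := h x hx
    have : x ∈ S ∩ U := ⟨hx, mem_of_mem_nhds hU⟩
    rw [Rk] at h1
    rw [h1] at this
    exact this
  | succ n =>
    intro x hx
    obtain ⟨U, hU, h1⟩ := h x hx
    obtain ⟨U', hU', h2⟩ := h1 x ⟨hx, mem_of_mem_nhds hU⟩
    refine ⟨U ∩ U', inter_mem hU hU', h2.mono_set ?_⟩
    rintro y ⟨⟨hy1, hy2, hy3⟩, hy4⟩
    exact ⟨⟨⟨hy1, hy2⟩, hy3⟩, hy4⟩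

theorem Rk.diff_nhds {n : ℕ} {S : Set ℝ} {x : ℝ} (h : ∀ U ∈ 𝓝 x, Rk n (S \ U)) :
    Rk n (S \ {x}) := by
  apply Rk.loc
  rintro y ⟨hy, hyx⟩
  have hyx' : 0 < dist y x := dist_pos.2 hyx
  have h1 := h (Metric.closedBall x (dist y x / 2)) (Metric.closedBall_mem_nhds x (by linarith))
  refine ⟨(Metric.closedBall x (dist y x / 2))ᶜ,
    Metric.isClosed_closedBall.isOpen_compl.mem_nhds ?_, h1.mono_set ?_⟩
  · intro h2
    rw [Metric.mem_closedBall] at h2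
    linarith
  · rintro z ⟨hz1, hz2⟩
    exact ⟨hz1.1, hz2⟩

theorem PRk.mono_nat {n m : ℕ} {x : ℝ} {S : Set ℝ} (h : PRk n x S) (hnm : n ≤ m) :
    PRk m x S := by
  obtain ⟨U, hU, h1⟩ := h
  exact ⟨U, hU, h1.mono_nat hnm⟩

theorem PRk.mono_nhds {n : ℕ} {x : ℝ} {S S' U0 : Set ℝ} (h : PRk n x S) (hU0 : U0 ∈ 𝓝 x)
    (hs : S' ∩ U0 ⊆ S) : PRk n x S' := by
  obtain ⟨U, hU, h1⟩ := h
  refine ⟨U ∩ U0, inter_mem hU hU0, h1.mono_set ?_⟩
  rintro y ⟨⟨hy1, hy2, hy3⟩, hy4⟩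
  exact ⟨⟨hs ⟨hy1, hy3⟩, hy2⟩, hy4⟩

theorem PRk.mono_set {n : ℕ} {x : ℝ} {S S' : Set ℝ} (h : PRk n x S)
    (hs : S' ⊆ S) : PRk n x S' := h.mono_nhds univ_mem (fun _ hy => hs hy.1)

theorem PRk_insert {n : ℕ} {x : ℝ} {S : Set ℝ} : PRk n x (insert x S) ↔ PRk n x S := by
  constructor
  · exact fun h => h.mono_set (subset_insert _ _)
  · rintro ⟨U, hU, h1⟩
    refine ⟨U, hU, h1.mono_set ?_⟩
    rintro y ⟨⟨hy1, hy2⟩, hy3⟩
    exact ⟨⟨hy1.resolve_left hy3, hy2⟩, hy3⟩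

/-- members of the ideal of a point of rank n have rank at most n -/
theorem PRk.idl {n : ℕ} {x : ℝ} {S Q : Set ℝ} (h : PRk n x S) (hQ : Q ∈ Idl x S) : Rk n Q := by
  obtain ⟨U, hU, h1⟩ := h
  obtain ⟨U', hU', hle⟩ := hQ U hU
  refine h1.of_le (hle.trans (Le.of_subset ?_))
  rintro y ⟨hy1, hy2⟩
  exact ⟨hy1, fun h => hy2 (h ▸ mem_of_mem_nhds hU')⟩

theorem infinite_disjoint_nhds {T : Set ℝ} (hT : T.Infinite) :
    ∃ (t : ℕ → ℝ) (G : ℕ → Set ℝ), (∀ n, t n ∈ T ∧ t n ∈ G n ∧ IsOpen (G n)) ∧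
      ∀ i j z, z ∈ G i → z ∈ G j → i = j := by
  have : Infinite T := hT.to_subtype
  obtain ⟨U, hUinf, hUo, hUd⟩ := exists_seq_infinite_isOpen_pairwise_disjoint T
  have hne : ∀ n, (U n).Nonempty := fun n => (hUinf n).nonempty
  choose t ht using hne
  have hb : ∀ n, ∃ δ > 0, ∀ z : T, dist z (t n) < δ → z ∈ U n := by
    intro n
    obtain ⟨δ, hδ, h⟩ := Metric.isOpen_iff.1 (hUo n) (t n) (ht n)
    exact ⟨δ, hδ, fun z hz => h hz⟩
  choose δ hδ hδ2 using hb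
  refine ⟨fun n => (t n : ℝ), fun n => Metric.ball (t n : ℝ) (δ n / 2), fun n =>
    ⟨(t n).2, Metric.mem_ball_self (by linarith [hδ n]), Metric.isOpen_ball⟩, ?_⟩
  intro i j z hi hj
  by_contra hij
  rw [Metric.mem_ball] at hi hj
  have h1 : dist (t i : ℝ) (t j : ℝ) < (δ i + δ j) / 2 := by
    have := dist_triangle (t i : ℝ) z (t j : ℝ)
    rw [dist_comm (t i : ℝ) z] at this
    linarith
  have hd := hUd hij
  simp only [Function.onFun] at hd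
  rcases le_total (δ i) (δ j) with h | h
  · have h2 : t i ∈ U j := hδ2 j (t i) (by rw [Subtype.dist_eq]; linarith)
    exact disjoint_left.1 hd (ht i) h2
  · have h2 : t j ∈ U i := hδ2 i (t j) (by rw [Subtype.dist_eq, dist_comm]; linarith)
    exact disjoint_left.1 hd h2 (ht j)

theorem per_class {x' : ℝ} {K : Set ℝ} (hK : K.Countable) {Pz : ℝ → Prop}
    (h1 : K.Nonempty → ∀ U ∈ 𝓝 x', ∃ z ∈ U, z ≠ x' ∧ Pz z)
    (h2 : K.Infinite → ∀ U ∈ 𝓝 x', ∃ U' ∈ 𝓝 x', {z | z ∈ U ∧ z ∉ U' ∧ Pz z}.Infinite)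
    {ε : ℝ} (hε : 0 < ε) :
    ∃ ε' : ℝ, 0 < ε' ∧ ε' ≤ ε ∧ ∃ (q : ℝ → ℝ) (G : ℝ → Set ℝ),
      (∀ y ∈ K, Pz (q y) ∧ q y ∈ G y ∧ IsOpen (G y) ∧
        G y ⊆ Metric.ball x' ε \ Metric.closedBall x' ε') ∧
      (∀ y ∈ K, ∀ y' ∈ K, ∀ z, z ∈ G y → z ∈ G y' → y = y') := by
  classical
  rcases K.eq_empty_or_nonempty with rfl | hne
  · exact ⟨ε, hε, le_rfl, fun x => x, fun _ => ∅, fun y hy => absurd hy (by simp),
      fun y hy => absurd hy (by simp)⟩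
  obtain ⟨enc, henc⟩ := Set.countable_iff_exists_injOn.1 hK
  -- it suffices to have an infinite supply and a bound
  have main : ∃ T : Set ℝ, T.Infinite ∧ (∀ z ∈ T, Pz z ∧ z ∈ Metric.ball x' ε ∧ z ≠ x') ∧
      ∀ t : ℕ → ℝ, (∀ n, t n ∈ T) → ∃ ε' : ℝ, 0 < ε' ∧ ε' ≤ ε ∧
        ∀ y ∈ K, t (enc y) ∉ Metric.closedBall x' ε' := by
    by_cases hfin : K.Finite
    · refine ⟨{z | z ∈ Metric.ball x' ε ∧ z ≠ x' ∧ Pz z}, ?_, fun z hz => ⟨hz.2.2, hz.1, hz.2.1⟩, ?_⟩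
      · intro hF
        have h3 : (Metric.ball x' ε ∩ {z | z ∈ Metric.ball x' ε ∧ z ≠ x' ∧ Pz z}ᶜ) ∈ 𝓝 x' := by
          refine inter_mem (Metric.ball_mem_nhds x' hε) (hF.isClosed.isOpen_compl.mem_nhds ?_)
          intro h; exact h.2.1 rfl
        obtain ⟨z, hz, hzx, hPz⟩ := h1 hne _ h3
        exact hz.2 ⟨hz.1, hzx, hPz⟩
      · intro t ht
        have hF : ((fun y => t (enc y)) '' K).Finite := hfin.image _
        have h3 : ((fun y => t (enc y)) '' K)ᶜ ∈ 𝓝 x' := by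
          refine hF.isClosed.isOpen_compl.mem_nhds ?_
          rintro ⟨y, hy, hyx⟩
          exact (ht (enc y)).2.1 hyx
        obtain ⟨δ, hδ, hb⟩ := Metric.nhds_basis_closedBall.mem_iff.1 h3
        refine ⟨min δ ε, lt_min hδ hε, min_le_right _ _, fun y hy hcon => ?_⟩
        exact hb (Metric.closedBall_subset_closedBall (min_le_left _ _) hcon) ⟨y, hy, rfl⟩
    · obtain ⟨U', hU', hinf⟩ := h2 hfin (Metric.ball x' ε) (Metric.ball_mem_nhds x' hε)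
      obtain ⟨δ, hδ, hb⟩ := Metric.nhds_basis_closedBall.mem_iff.1 hU'
      refine ⟨_, hinf, fun z hz => ⟨hz.2.2, hz.1, fun h => hz.2.1 (h ▸ mem_of_mem_nhds hU')⟩, ?_⟩
      intro t ht
      refine ⟨min δ ε, lt_min hδ hε, min_le_right _ _, fun y hy hcon => ?_⟩
      exact (ht (enc y)).2.1 (hb (Metric.closedBall_subset_closedBall (min_le_left _ _) hcon))
  obtain ⟨T, hT, hT2, hT3⟩ := main
  obtain ⟨t, G, htG, hGd⟩ := infinite_disjoint_nhds hT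
  obtain ⟨ε', hε', hε'le, hav⟩ := hT3 t (fun n => (htG n).1)
  refine ⟨ε', hε', hε'le, fun y => t (enc y),
    fun y => G (enc y) ∩ (Metric.ball x' ε \ Metric.closedBall x' ε'), ?_, ?_⟩
  · intro y hy
    refine ⟨(hT2 _ (htG _).1).1, ⟨(htG _).2.1, (hT2 _ (htG _).1).2.1, hav y hy⟩, ?_,
      inter_subset_right⟩
    exact (htG _).2.2.inter (Metric.isOpen_ball.sdiff Metric.isClosed_closedBall)
  · intro y hy y' hy' z hz hz'
    exact henc hy hy' (hGd _ _ z hz.1 hz'.1)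

theorem multi_class {x' : ℝ} {K : Set ℝ} (hK : K.Countable) {κ : Type*} (c : ℝ → κ)
    (Pz : κ → ℝ → Prop) {𝒦 : Set κ} (hfin : 𝒦.Finite)
    (h1 : ∀ y ∈ K, ∀ U ∈ 𝓝 x', ∃ z ∈ U, z ≠ x' ∧ Pz (c y) z)
    (h2 : ∀ k, {y | y ∈ K ∧ c y = k}.Infinite → ∀ U ∈ 𝓝 x', ∃ U' ∈ 𝓝 x',
      {z | z ∈ U ∧ z ∉ U' ∧ Pz k z}.Infinite) :
    ∀ ε : ℝ, 0 < ε → ∃ ε' : ℝ, 0 < ε' ∧ ε' ≤ ε ∧ ∃ (q : ℝ → ℝ) (G : ℝ → Set ℝ),
      (∀ y ∈ K, c y ∈ 𝒦 → Pz (c y) (q y) ∧ q y ∈ G y ∧ IsOpen (G y) ∧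
        G y ⊆ Metric.ball x' ε \ Metric.closedBall x' ε') ∧
      (∀ y ∈ K, ∀ y' ∈ K, c y ∈ 𝒦 → c y' ∈ 𝒦 → ∀ z, z ∈ G y → z ∈ G y' → y = y') := by
  classical
  induction 𝒦, hfin using Set.Finite.induction_on with
  | empty =>
    intro ε hε
    exact ⟨ε, hε, le_rfl, fun x => x, fun _ => ∅, fun y _ h => absurd h (by simp),
      fun y _ y' _ h => absurd h (by simp)⟩
  | @insert k 𝒦' hk _ ih =>
    intro ε hε
    obtain ⟨ε1, hε1, hε1le, q1, G1, hq1, hd1⟩ := ih ε hε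
    obtain ⟨ε2, hε2, hε2le, q2, G2, hq2, hd2⟩ :=
      per_class (x' := x') (K := {y | y ∈ K ∧ c y = k}) (hK.mono (fun y hy => hy.1)) (Pz := Pz k)
        (by rintro ⟨y, hy, rfl⟩; exact h1 y hy) (h2 k) hε1
    refine ⟨ε2, hε2, hε2le.trans hε1le, fun y => if c y = k then q2 y else q1 y,
      fun y => if c y = k then G2 y else G1 y, ?_, ?_⟩
    · intro y hy hc
      by_cases hck : c y = k
      · simp only [hck, if_true]
        obtain ⟨a1, a2, a3, a4⟩ := hq2 y ⟨hy, hck⟩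
        exact ⟨a1, a2, a3, fun z hz => ⟨Metric.ball_subset_ball hε1le (a4 hz).1, (a4 hz).2⟩⟩
      · simp only [hck, if_false]
        obtain ⟨a1, a2, a3, a4⟩ := hq1 y hy (hc.resolve_left hck)
        exact ⟨a1, a2, a3, fun z hz => ⟨(a4 hz).1, fun h =>
          (a4 hz).2 (Metric.closedBall_subset_closedBall hε2le h)⟩⟩
    · intro y hy y' hy' hc hc' z hz hz'
      by_cases hck : c y = k <;> by_cases hck' : c y' = k
      · simp only [hck, if_true] at hz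
        simp only [hck', if_true] at hz'
        exact hd2 y ⟨hy, hck⟩ y' ⟨hy', hck'⟩ z hz hz'
      · simp only [hck, if_true] at hz
        simp only [hck', if_false] at hz'
        exfalso
        exact ((hq1 y' hy' (hc'.resolve_left hck')).2.2.2 hz').2
          (Metric.ball_subset_closedBall ((hq2 y ⟨hy, hck⟩).2.2.2 hz).1)
      · simp only [hck, if_false] at hz
        simp only [hck', if_true] at hz'
        exfalso
        exact ((hq1 y hy (hc.resolve_left hck)).2.2.2 hz).2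
          (Metric.ball_subset_closedBall ((hq2 y' ⟨hy', hck'⟩).2.2.2 hz').1)
      · simp only [hck, if_false] at hz
        simp only [hck', if_false] at hz'
        exact hd1 y hy y' hy' (hc.resolve_left hck) (hc'.resolve_left hck') z hz hz'

theorem partition {S O : Set ℝ} (hS : S.Countable) (hO : IsOpen O) {N : ℝ → Set ℝ}
    (hN : ∀ y ∈ S ∩ O, N y ∈ 𝓝 y) :
    ∃ P : ℝ → Set ℝ, (∀ y ∈ S ∩ O, IsOpen (P y) ∧ P y ⊆ N y ∧ P y ⊆ O) ∧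
      (∀ y ∈ S ∩ O, ∀ y' ∈ S ∩ O, ∀ z, z ∈ P y → z ∈ P y' → y = y') ∧
      ∀ s ∈ S ∩ O, ∃ y ∈ S ∩ O, s ∈ P y := by
  classical
  have hr : ∀ y, ∃ r : ℝ, y ∈ S ∩ O → 0 < r ∧ Metric.ball y r ⊆ N y ∩ O ∧
      ∀ s ∈ S, s ∈ Metric.closedBall y r → s ∈ Metric.ball y r := by
    intro y
    by_cases hy : y ∈ S ∩ O
    · obtain ⟨δ, hδ, hb⟩ := Metric.nhds_basis_ball.mem_iff.1
        (inter_mem (hN y hy) (hO.mem_nhds hy.2))
      obtain ⟨a, -, hapos, ha0, hane⟩ := exists_radii y hS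
      obtain ⟨k, hk⟩ := ha0 δ hδ
      refine ⟨a k, fun _ => ⟨hapos k, (Metric.ball_subset_ball hk.le).trans hb, ?_⟩⟩
      intro s hs hsb
      rw [Metric.mem_closedBall, Real.dist_eq] at hsb
      rw [Metric.mem_ball, Real.dist_eq]
      exact lt_of_le_of_ne hsb (hane k s hs)
    · exact ⟨1, fun h => absurd h hy⟩
  choose r hr using hr
  obtain ⟨enc, henc⟩ := Set.countable_iff_exists_injOn.1 (hS.mono (inter_subset_left : S ∩ O ⊆ S))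
  have hfin : ∀ n : ℕ, {z | z ∈ S ∩ O ∧ enc z < n}.Finite := by
    intro n
    apply Set.Finite.of_finite_image (f := enc)
    · exact (Set.finite_lt_nat n).subset (by rintro _ ⟨z, hz, rfl⟩; exact hz.2)
    · exact henc.mono (fun z hz => hz.1)
  refine ⟨fun y => Metric.ball y (r y) \ ⋃ z ∈ {z | z ∈ S ∩ O ∧ enc z < enc y},
    Metric.closedBall z (r z), ?_, ?_, ?_⟩
  · intro y hy
    refine ⟨Metric.isOpen_ball.sdiff ((hfin _).isClosed_biUnion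
      (fun _ _ => Metric.isClosed_closedBall)), ?_, ?_⟩
    · exact fun z hz => ((hr y hy).2.1 hz.1).1
    · exact fun z hz => ((hr y hy).2.1 hz.1).2
  · intro y hy y' hy' z hz hz'
    rcases lt_trichotomy (enc y) (enc y') with h | h | h
    · exfalso
      apply hz'.2
      rw [mem_iUnion₂]
      exact ⟨y, ⟨hy, h⟩, Metric.ball_subset_closedBall hz.1⟩
    · exact henc hy hy' h
    · exfalso
      apply hz.2
      rw [mem_iUnion₂]
      exact ⟨y', ⟨hy', h⟩, Metric.ball_subset_closedBall hz'.1⟩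
  · intro s hs
    have hex : ∃ n, ∃ y ∈ S ∩ O, enc y = n ∧ s ∈ Metric.ball y (r y) :=
      ⟨enc s, s, hs, rfl, Metric.mem_ball_self (hr s hs).1⟩
    obtain ⟨y, hy, hyn, hsy⟩ := Nat.find_spec hex
    refine ⟨y, hy, hsy, ?_⟩
    rw [mem_iUnion₂]
    rintro ⟨z, ⟨hz, hzlt⟩, hsz⟩
    rw [hyn] at hzlt
    exact Nat.find_min hex hzlt ⟨z, hz, rfl, (hr z hz).2.2 s hs.1 hsz⟩

end Pool.Agent.Helper754
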