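import Pool.Agent.Helper754.Step

open Set Topology Filter

namespace Pool.Agent.Helper754

theorem countable_of_le {S S' : Set ℝ} (h : Le S S') (hc : S'.Countable) : S.Countable := by
  obtain ⟨f, hf, hm⟩ := h
  exact hm.countable_of_injOn hf.injOn hc

theorem countable_of_mem {x : ℝ} {S Q : Set ℝ} (hS : S.Countable) (hQ : Q ∈ Idl x S) :
    Q.Countable := by
  obtain ⟨U, -, hle⟩ := hQ univ univ_mem
  exact countable_of_le hle (hS.mono (fun y hy => hy.1.1))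

theorem Good.inter {x : ℝ} {S U : Set ℝ} (h : Good x S) (hU : U ∈ 𝓝 x) : Good x (S ∩ U) := by
  intro V hV
  rw [Idl.inter_nhds hU]
  exact Idl.of_subset (h V hV) (fun y hy => ⟨hy.1.1, hy.2⟩)

/-- a convenient representative of an ideal -/
theorem good_rep {m : ℕ} {I : Set (Set ℝ)} (hI : I ∈ Cls m) :
    ∃ (x : ℝ) (S : Set ℝ), S.Countable ∧ x ∉ S ∧ Rk m S ∧ Good x S ∧ I = Idl x S := by
  obtain ⟨x, S, hS, hr, rfl⟩ := hI
  obtain ⟨U0, hU0, hg⟩ := (finiteness m).2 x S hS hr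
  obtain ⟨U1, hU1, hr1⟩ := hr
  have h1 : Idl x ((S ∩ (U0 ∩ U1)) \ {x}) = Idl x S := by
    rw [← Idl.insert_self, insert_sdiff_singleton, Idl.insert_self,
      Idl.inter_nhds (inter_mem hU0 hU1)]
  refine ⟨x, (S ∩ (U0 ∩ U1)) \ {x}, hS.mono (fun y hy => hy.1.1), fun h => h.2 rfl,
    hr1.mono_set (fun y hy => ⟨⟨hy.1.1, hy.1.2.2⟩, hy.2⟩), ?_, h1.symm⟩
  intro V hV
  rw [h1]
  have := hg V hV
  rw [Idl.inter_nhds hU0] at this
  exact Idl.of_subset this (fun y hy => ⟨⟨hy.1.1.1, hy.1.1.2.1⟩, hy.2⟩)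

/-- transfer of a representative into a given set -/
theorem rep_in {m : ℕ} {I : Set (Set ℝ)} (hI : I ∈ Cls m) {T : Set ℝ}
    (h : I ⊆ Idl 0 T) :
    ∃ S ⊆ T, S.Countable ∧ Rk m S ∧ Good 0 S ∧ Idl 0 S = I := by
  obtain ⟨x, S, hS, hx, hr, hg, rfl⟩ := good_rep hI
  obtain ⟨f, hf, hfx, hfm⟩ := shell_emb hS (fun U hU => h (hg U hU)) univ_mem
  have hm : ∀ y ∈ S, f y ∈ T ∧ f y ≠ 0 := by
    intro y hy
    have hyx : y ≠ x := fun h => hx (h ▸ hy)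
    have := hfm ⟨hy, hyx⟩
    exact ⟨this.1.1, this.2⟩
  have hidl : Idl 0 (f '' S) = Idl x S := by
    rw [← hfx]
    exact Idl.image hf
  refine ⟨f '' S, ?_, hS.image _, hr.of_le (Le.image_left (hf.mono (subset_insert _ _))), ?_, hidl⟩
  · rintro _ ⟨y, hy, rfl⟩
    exact (hm y hy).1
  · intro U hU
    rw [hidl]
    rw [← hfx] at hU
    obtain ⟨W, hW, h1⟩ := (hf x (mem_insert _ _)).1 U hU
    apply Idl.of_le (hg W hW)
    refine Le.trans (Le.of_subset ?_) (Le.image_left (g := f) (S := S \ W)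
      (hf.mono (fun y hy => Or.inr hy.1)))
    rintro _ ⟨⟨y, hy, rfl⟩, hyU⟩
    exact ⟨y, ⟨hy, fun h => hyU (h1 y (Or.inr hy) h)⟩, rfl⟩

end Pool.Agent.Helper754
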