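import Pool.Agent.Helper754.Fan

open Set Topology Filter Cardinal

namespace Pool.Agent.Helper754

theorem transversal {ι : Type} (hι : #ι ≤ 𝔠) (E : ι → Set ℝ) (h : ι → ℝ → ℝ) (Q : Set ℝ)
    (hQ : Q.Countable) (hE : ∀ i, #(E i) = 𝔠) (hinj : ∀ i, InjOn (h i) (E i)) 
    (hne : ∀ i, ∀ x ∈ E i, h i x ≠ x) :
    ∃ x : ι → ℝ, (∀ i, x i ∈ E i) ∧ Function.Injective x ∧ (∀ i j, h i (x i) ≠ x j) ∧
      ∀ i, h i (x i) ∉ Q := by
  classical
  obtain ⟨r, wo, hr⟩ := Cardinal.exists_ord_eq ι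
  have hseg : ∀ i, #{j // r j i} < 𝔠 := by
    intro i
    refine lt_of_lt_of_le ?_ hι
    have := Cardinal.card_typein_lt (r := r) i hr
    rwa [Ordinal.card_typein] at this
  have step : ∀ i (prev : ∀ j, r j i → ℝ), ∃ x ∈ E i, (∀ j (hj : r j i), x ≠ prev j hj ∧
      x ≠ h j (prev j hj) ∧ h i x ≠ prev j hj) ∧ h i x ∉ Q := by
    intro i prev
    by_contra hcon
    push Not at hcon
    set A1 : Set ℝ := range (fun p : {j // r j i} => prev p.1 p.2) with hA1
    set A2 : Set ℝ := range (fun p : {j // r j i} => h p.1 (prev p.1 p.2)) with hA2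
    set A3 : Set ℝ := {x | x ∈ E i ∧ h i x ∈ A1} with hA3
    set A4 : Set ℝ := {x | x ∈ E i ∧ h i x ∈ Q} with hA4
    have h1 : #A1 < 𝔠 := lt_of_le_of_lt Cardinal.mk_range_le (hseg i)
    have h2 : #A2 < 𝔠 := lt_of_le_of_lt Cardinal.mk_range_le (hseg i)
    have h3 : #A3 < 𝔠 := by
      refine lt_of_le_of_lt ?_ h1
      refine Cardinal.mk_le_of_injective (f := fun p : A3 => (⟨h i p.1, p.2.2⟩ : A1)) ?_
      intro p q hpq
      simp only [Subtype.mk.injEq] at hpq
      exact Subtype.ext (hinj i p.2.1 q.2.1 hpq)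
    have h4 : #A4 < 𝔠 := by
      have : #A4 ≤ #Q := by
        refine Cardinal.mk_le_of_injective (f := fun p : A4 => (⟨h i p.1, p.2.2⟩ : Q)) ?_
        intro p q hpq
        simp only [Subtype.mk.injEq] at hpq
        exact Subtype.ext (hinj i p.2.1 q.2.1 hpq)
      refine lt_of_le_of_lt this (lt_of_le_of_lt ?_ Cardinal.aleph0_lt_continuum)
      exact hQ.le_aleph0
    have hsub : E i ⊆ ((A1 ∪ A2) ∪ A3) ∪ A4 := by
      intro x hx
      by_contra hnot
      simp only [mem_union, not_or] at hnot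
      obtain ⟨⟨⟨n1, n2⟩, n3⟩, n4⟩ := hnot
      apply n4
      refine ⟨hx, hcon x hx ?_⟩
      intro j hj
      refine ⟨fun e => n1 ⟨⟨j, hj⟩, e.symm⟩, fun e => n2 ⟨⟨j, hj⟩, e.symm⟩, fun e => n3 ⟨hx, ⟨⟨j, hj⟩, e.symm⟩⟩⟩
    have hle : #(E i) < 𝔠 := by
      have hc := Cardinal.aleph0_le_continuum
      refine lt_of_le_of_lt (Cardinal.mk_le_mk_of_subset hsub) ?_
      refine lt_of_le_of_lt (Cardinal.mk_union_le _ _) (Cardinal.add_lt_of_lt hc ?_ h4)
      refine lt_of_le_of_lt (Cardinal.mk_union_le _ _) (Cardinal.add_lt_of_lt hc ?_ h3)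
      exact lt_of_le_of_lt (Cardinal.mk_union_le _ _) (Cardinal.add_lt_of_lt hc h1 h2)
    rw [hE i] at hle
    exact lt_irrefl _ hle
  choose g hg1 hg2 hg3 using step
  have wf : WellFounded r := wo.wf
  let x : ι → ℝ := wf.fix g
  have hx : ∀ i, x i = g i (fun j _ => x j) := fun i => wf.fix_eq g i
  have key : ∀ i j, r j i → x i ≠ x j ∧ x i ≠ h j (x j) ∧ h i (x i) ≠ x j := by
    intro i j hji
    have := hg2 i (fun j _ => x j) j hji
    rw [← hx i] at this
    exact this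
  have htri : ∀ i j, r i j ∨ i = j ∨ r j i := fun i j => trichotomous_of r i j
  refine ⟨x, fun i => ?_, ?_, ?_, ?_⟩
  · rw [hx i]; exact hg1 i _
  · intro i j hij
    rcases htri i j with h' | h' | h'
    · exact absurd hij.symm (key j i h').1
    · exact h'
    · exact absurd hij (key i j h').1
  · intro i j e
    rcases htri i j with h' | h' | h'
    · exact (key j i h').2.1 e.symm
    · subst h'
      exact hne i (x i) (by rw [hx i]; exact hg1 i _) e
    · exact (key i j h').2.2 e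
  · intro i
    have := hg3 i (fun j _ => x j)
    rw [← hx i] at this
    exact this

/-- limit extension of a sequence of pairs -/
def Lim (φ : ℕ → ℝ × ℝ) (x y : ℝ) : Prop :=
  (∀ U ∈ 𝓝 x, ∃ n, (φ n).1 ∈ U) ∧ ∀ V ∈ 𝓝 y, ∃ U ∈ 𝓝 x, ∀ n, (φ n).1 ∈ U → (φ n).2 ∈ V

theorem Lim.unique {φ : ℕ → ℝ × ℝ} {x y z : ℝ} (h1 : Lim φ x y) (h2 : Lim φ x z) : y = z := by
  by_contra hne
  obtain ⟨V, W, hV, hW, hyV, hzW, hd⟩ := t2_separation hne
  obtain ⟨U1, hU1, h3⟩ := h1.2 V (hV.mem_nhds hyV)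
  obtain ⟨U2, hU2, h4⟩ := h2.2 W (hW.mem_nhds hzW)
  obtain ⟨n, hn⟩ := h1.1 (U1 ∩ U2) (inter_mem hU1 hU2)
  exact disjoint_left.1 hd (h3 n hn.1) (h4 n hn.2)

open Classical in
noncomputable def hh (φ : ℕ → ℝ × ℝ) (x : ℝ) : ℝ := if h : ∃ y, Lim φ x y then h.choose else 0

theorem hh_eq {φ : ℕ → ℝ × ℝ} {x y : ℝ} (h : Lim φ x y) : hh φ x = y := by
  unfold hh
  rw [dif_pos ⟨y, h⟩]
  exact Lim.unique (Exists.choose_spec (⟨y, h⟩ : ∃ y, Lim φ x y)) h

def Act (T : Set ℝ) (φ : ℕ → ℝ × ℝ) : Prop :=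
  ∃ E ⊆ T, #E = 𝔠 ∧ (∀ x ∈ E, Lim φ x (hh φ x)) ∧ (∀ x ∈ E, hh φ x ≠ x) ∧ InjOn (hh φ) E

/-- existence of a rigid set -/
theorem exists_rigid {J Q : Set ℝ} (hJ : IsOpen J) (hQ : Q.Countable) :
    ∃ R : Set ℝ, R ⊆ J \ Q ∧ J ⊆ closure R ∧
      ∀ f : ℝ → ℝ, ContinuousOn f R → InjOn f R → MapsTo f R (R ∪ Q) → ∀ x ∈ R, f x = x := by
  classical
  have hι : #{φ : ℕ → ℝ × ℝ // Act (J \ Q) φ} ≤ 𝔠 := by
    refine le_trans (Cardinal.mk_subtype_le _) ?_
    simp [Cardinal.mk_real]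
  choose E hET hEc hEl hEne hEinj using fun i : {φ : ℕ → ℝ × ℝ // Act (J \ Q) φ} => i.2
  obtain ⟨x, hx1, hx2, hx3, hx4⟩ := transversal hι E (fun i => hh i.1) Q hQ hEc hEinj hEne
  have hcard : ∀ O : Set ℝ, IsOpen O → (O ∩ J).Nonempty → #(↥(range x ∩ O)) = 𝔠 := by
    intro O hO hne
    obtain ⟨p, hp⟩ := hne
    obtain ⟨ε, hε, hb⟩ := Metric.nhds_basis_closedBall.mem_iff.1 ((hO.inter hJ).mem_nhds hp)
    obtain ⟨D, hDc, hDd⟩ := TopologicalSpace.exists_countable_dense (Metric.ball p ε)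
    have hDne : ((Subtype.val '' D : Set ℝ)).Nonempty := by
      have : Nonempty (Metric.ball p ε) := ⟨⟨p, Metric.mem_ball_self hε⟩⟩
      exact hDd.nonempty.image _
    obtain ⟨q, hq⟩ := (hDc.image (Subtype.val : Metric.ball p ε → ℝ)).exists_eq_range hDne
    have hq1 : ∀ n, q n ∈ Metric.ball p ε := by
      intro n
      have : q n ∈ Subtype.val '' D := by rw [hq]; exact mem_range_self n
      obtain ⟨z, -, hz⟩ := this
      rw [← hz]; exact z.2
    have hq2 : ∀ z ∈ Metric.ball p ε, ∀ U ∈ 𝓝 z, ∃ n, q n ∈ U := by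
      intro z hz U hU
      have h1 : (Subtype.val ⁻¹' U : Set (Metric.ball p ε)) ∈ 𝓝 ⟨z, hz⟩ := by
        rw [mem_nhds_subtype]; exact ⟨U, hU, subset_rfl⟩
      obtain ⟨w, hw1, hw2⟩ := hDd.inter_nhds_nonempty h1
      have : (w : ℝ) ∈ range q := by rw [← hq]; exact ⟨w, hw1, rfl⟩
      obtain ⟨n, hn⟩ := this
      exact ⟨n, by rw [hn]; exact hw2⟩
    have hLim : ∀ c : ℝ, ∀ z ∈ Metric.ball p ε, Lim (fun n => (q n, q n + c)) z (z + c) := by
      intro c z hz
      refine ⟨fun U hU => hq2 z hz U hU, fun V hV => ?_⟩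
      have hc : ContinuousAt (fun t : ℝ => t + c) z := by fun_prop
      exact ⟨_, hc hV, fun n hn => hn⟩
    have hact : ∀ c : Ioi (0 : ℝ), Act (J \ Q) (fun n => (q n, q n + c.1)) := by
      rintro ⟨c, hc⟩
      have hc' : (0 : ℝ) < c := hc
      refine ⟨Metric.ball p ε \ Q, ?_, ?_, ?_, ?_, ?_⟩
      · rintro z ⟨hz1, hz2⟩
        exact ⟨(hb (Metric.ball_subset_closedBall hz1)).2, hz2⟩
      · apply le_antisymm
        · exact (Cardinal.mk_set_le _).trans Cardinal.mk_real.le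
        · by_contra hlt
          rw [not_le] at hlt
          have h1 : #(Metric.ball p ε) ≤ #(↥((Metric.ball p ε \ Q) ∪ Q : Set ℝ)) :=
            Cardinal.mk_le_mk_of_subset (by intro z hz; by_cases h : z ∈ Q; exacts [Or.inr h, Or.inl ⟨hz, h⟩])
          have h2 : #(Metric.ball p ε) = 𝔠 := by
            rw [Real.ball_eq_Ioo]
            exact Cardinal.mk_Ioo_real (by linarith)
          have h3 : #(↥((Metric.ball p ε \ Q) ∪ Q : Set ℝ)) < 𝔠 := by
            refine lt_of_le_of_lt (Cardinal.mk_union_le _ _)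
              (Cardinal.add_lt_of_lt Cardinal.aleph0_le_continuum hlt ?_)
            exact lt_of_le_of_lt hQ.le_aleph0 Cardinal.aleph0_lt_continuum
          rw [h2] at h1
          exact absurd h1 (not_le.2 h3)
      · intro z hz
        rw [hh_eq (hLim c z hz.1)]
        exact hLim c z hz.1
      · intro z hz
        rw [hh_eq (hLim c z hz.1)]
        linarith
      · intro z hz w hw e
        rw [hh_eq (hLim c z hz.1), hh_eq (hLim c w hw.1)] at e
        linarith
    apply le_antisymm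
    · exact (Cardinal.mk_set_le _).trans Cardinal.mk_real.le
    · rw [← Cardinal.mk_Ioi_real 0]
      refine Cardinal.mk_le_of_injective
        (f := fun c : Ioi (0 : ℝ) => (⟨x ⟨_, hact c⟩, mem_range_self _, ?_⟩ : ↥(range x ∩ O))) ?_
      · have h1 := hEl ⟨_, hact c⟩ _ (hx1 ⟨_, hact c⟩)
        have h2 : x ⟨_, hact c⟩ ∈ closure (Metric.ball p ε) := by
          rw [mem_closure_iff_nhds]
          intro U hU
          obtain ⟨n, hn⟩ := h1.1 U hU
          exact ⟨q n, hn, hq1 n⟩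
        exact (hb (Metric.closure_ball_subset_closedBall h2)).1
      · intro c c' e
        simp only [Subtype.mk.injEq] at e
        have e2 := hx2 e
        simp only [Subtype.mk.injEq] at e2
        have e3 := congrFun e2 0
        simp only [Prod.mk.injEq, add_right_inj, true_and] at e3
        exact Subtype.ext e3
  have hRsub : range x ⊆ J \ Q := by
    rintro _ ⟨i, rfl⟩
    exact hET i (hx1 i)
  refine ⟨range x, hRsub, ?_, ?_⟩
  · intro p hp
    rw [mem_closure_iff]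
    intro O hO hpO
    have h1 := hcard O hO ⟨p, hpO, hp⟩
    have h2 : #(↥(range x ∩ O)) ≠ 0 := by rw [h1]; exact Cardinal.continuum_ne_zero
    rw [Cardinal.mk_ne_zero_iff] at h2
    obtain ⟨⟨z, hz1, hz2⟩⟩ := h2
    exact ⟨z, hz2, hz1⟩
  · intro f hf hfi hfm x0 hx0
    by_contra hne
    have h1 : ∀ᶠ z in 𝓝[range x] x0, f z ≠ z := by
      have hcont : ContinuousWithinAt (fun z => f z - z) (range x) x0 :=
        (hf x0 hx0).sub continuousWithinAt_id
      have := hcont.eventually_ne (sub_ne_zero.2 hne)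
      filter_upwards [this] with z hz
      exact sub_ne_zero.1 hz
    rw [eventually_nhdsWithin_iff, eventually_nhds_iff] at h1
    obtain ⟨O, hO1, hO, hx0O⟩ := h1
    have hc := hcard O hO ⟨x0, hx0O, (hRsub hx0).1⟩
    obtain ⟨D, hDR, hDc, hDd⟩ :=
      (TopologicalSpace.IsSeparable.of_separableSpace (range x)).exists_countable_dense_subset
    have hDne : D.Nonempty := by
      rw [nonempty_iff_ne_empty]
      rintro rfl
      have := hDd hx0
      rw [closure_empty] at this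
      exact this
    obtain ⟨d, hd⟩ := hDc.exists_eq_range hDne
    have hL : ∀ z ∈ range x, Lim (fun n => (d n, f (d n))) z (f z) := by
      intro z hz
      constructor
      · intro U hU
        obtain ⟨w, hw1, hw2⟩ := mem_closure_iff_nhds.1 (hDd hz) U hU
        rw [hd] at hw2
        obtain ⟨n, rfl⟩ := hw2
        exact ⟨n, hw1⟩
      · intro V hV
        have := hf z hz hV
        rw [mem_map, mem_nhdsWithin_iff_exists_mem_nhds_inter] at this
        obtain ⟨U, hU, h⟩ := this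
        refine ⟨U, hU, fun n hn => h ⟨hn, hDR ?_⟩⟩
        rw [hd]; exact mem_range_self n
    have hact : Act (J \ Q) (fun n => (d n, f (d n))) := by
      refine ⟨range x ∩ O, fun z hz => hRsub hz.1, hc, ?_, ?_, ?_⟩
      · intro z hz
        rw [hh_eq (hL z hz.1)]; exact hL z hz.1
      · intro z hz
        rw [hh_eq (hL z hz.1)]; exact hO1 z hz.2 hz.1
      · intro z hz w hw e
        rw [hh_eq (hL z hz.1), hh_eq (hL w hw.1)] at e
        exact hfi hz.1 hw.1 e
    have hxi := mem_range_self (f := x) ⟨_, hact⟩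
    have h5 := hfm hxi
    have h6 : hh (fun n => (d n, f (d n))) (x ⟨_, hact⟩) = f (x ⟨_, hact⟩) := hh_eq (hL _ hxi)
    rcases h5 with ⟨j, hj⟩ | h5
    · apply hx3 ⟨_, hact⟩ j
      simp only
      rw [h6, hj]
    · apply hx4 ⟨_, hact⟩
      simp only
      rw [h6]
      exact h5

end Pool.Agent.Helper754
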