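import Pool.Agent.Helper754.Geo

open Set Topology Filter

namespace Pool.Agent.Helper754

/-! ### auxiliary maps -/

noncomputable def psi (j : ℕ) (x : ℝ) : ℝ := yy j + (sc j / 4) * x

theorem psi_emb (j : ℕ) (E : Set ℝ) : EmbOn (psi j) E :=
  EmbOn.affine (by have := sc_pos j; positivity) E

theorem psi_zero (j : ℕ) : psi j 0 = yy j := by simp [psi]

theorem psi_mem_gap {j : ℕ} {x : ℝ} (hx : x ∈ Ioo (0 : ℝ) 1) : psi j x ∈ gap j := by
  have := sc_pos j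
  unfold psi yy gap
  constructor <;> nlinarith [hx.1, hx.2]

theorem Idl_psi (j : ℕ) (S : Set ℝ) : Idl (yy j) (psi j '' S) = Idl 0 S := by
  rw [← psi_zero j]
  exact Idl.image (psi_emb j _)

noncomputable def th (x : ℝ) : ℝ := 1 + 1 / x
noncomputable def thi (x : ℝ) : ℝ := 1 / (x - 1)

theorem thi_th {x : ℝ} (_hx : 0 < x) : thi (th x) = x := by
  unfold thi th
  field_simp
  ring

theorem th_thi {x : ℝ} (hx : 1 < x) : th (thi x) = x := by
  unfold thi th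
  have : x - 1 ≠ 0 := by linarith
  field_simp
  ring

theorem th_gt {x : ℝ} (hx : x ∈ Ioo (0 : ℝ) 1) : 2 < th x := by
  unfold th
  have : 1 < 1 / x := by
    rw [lt_div_iff₀ hx.1]
    linarith [hx.2]
  linarith

theorem th_gt_one {x : ℝ} (hx : 0 < x) : 1 < th x := by
  unfold th
  have : 0 < 1 / x := by positivity
  linarith

theorem thi_pos {x : ℝ} (hx : 1 < x) : 0 < thi x := by
  unfold thi
  have : 0 < x - 1 := by linarith
  positivity

theorem th_emb {E : Set ℝ} (hE : E ⊆ Ioi 0) : EmbOn th E := by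
  apply EmbOn.of_leftInv (g := thi)
  · intro x hx
    have hx' : (0 : ℝ) < x := hE hx
    unfold th
    apply ContinuousAt.continuousWithinAt
    fun_prop (disch := positivity)
  · rintro _ ⟨x, hx, rfl⟩
    have hx' : (0 : ℝ) < x := hE hx
    have h1 := th_gt_one hx'
    unfold thi
    apply ContinuousAt.continuousWithinAt
    have : th x - 1 ≠ 0 := by linarith
    fun_prop (disch := assumption)
  · intro x hx
    exact thi_th (hE hx)

theorem thi_emb {E : Set ℝ} (hE : E ⊆ Ioi 1) : EmbOn thi E := by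
  apply EmbOn.of_leftInv (g := th)
  · intro x hx
    have hx' : (1 : ℝ) < x := hE hx
    unfold thi
    apply ContinuousAt.continuousWithinAt
    have : x - 1 ≠ 0 := by linarith
    fun_prop (disch := assumption)
  · rintro _ ⟨x, hx, rfl⟩
    have hx' : (1 : ℝ) < x := hE hx
    have h1 := thi_pos hx'
    unfold th
    apply ContinuousAt.continuousWithinAt
    have : thi x ≠ 0 := by linarith
    fun_prop (disch := assumption)
  · intro x hx
    exact th_thi (hE hx)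

/-- the image rooms -/
def wroom (n : ℕ) : Set ℝ := {z | 1 < z ∧ sc (n + 1) * (z - 1) < 1 ∧ 1 < sc n * (z - 1)}

theorem isOpen_wroom (n : ℕ) : IsOpen (wroom n) := by
  have h1 : IsOpen {z : ℝ | 1 < z} := isOpen_Ioi
  have h2 : IsOpen {z : ℝ | sc (n + 1) * (z - 1) < 1} :=
    isOpen_lt (by fun_prop) continuous_const
  have h3 : IsOpen {z : ℝ | 1 < sc n * (z - 1)} :=
    isOpen_lt continuous_const (by fun_prop)
  exact h1.inter (h2.inter h3)

theorem thi_mem_room {n : ℕ} {z : ℝ} (hz : z ∈ wroom n) : thi z ∈ room n := by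
  obtain ⟨h1, h2, h3⟩ := hz
  unfold thi
  have : 0 < z - 1 := by linarith
  constructor
  · rw [lt_div_iff₀ this]; exact h2
  · rw [div_lt_iff₀ this]; exact h3

theorem th_mem_wroom {n : ℕ} {x : ℝ} (hx : x ∈ room n) : th x ∈ wroom n := by
  have h0 := (room_sub n hx).1
  refine ⟨th_gt_one h0, ?_, ?_⟩
  · unfold th
    have : sc (n + 1) * (1 + 1 / x - 1) = sc (n + 1) / x := by ring
    rw [this, div_lt_one h0]
    exact hx.1
  · unfold th
    have : sc n * (1 + 1 / x - 1) = sc n / x := by ring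
    rw [this, one_lt_div h0]
    exact hx.2

structure Data where
  Sg : Set ℝ → Prop
  V : Set ℝ
  v : ℝ
  F0 : Set ℝ
  F1 : Set ℝ
  sg_countable : ∀ {S : Set ℝ}, Sg S → S.Countable
  sg_le : ∀ {S S' : Set ℝ}, Sg S' → Le S S' → Sg S
  sg_loc : ∀ {S : Set ℝ}, S.Countable → (∀ x ∈ S, ∃ U ∈ 𝓝 x, Sg (S ∩ U)) → Sg S
  v_mem : v ∈ V
  V_countable : V.Countable
  V_sg : Sg (V \ {v})
  V_not : ¬ Sg V
  V_min : ∀ Z ⊆ V, ¬ Sg Z → ∀ U ∈ 𝓝 v, V \ U ∈ Idl v Z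
  F0_sub : F0 ⊆ Ioo 0 1
  F0_sg : Sg F0
  F0_univ : ∀ {Q : Set ℝ}, Sg Q → Q ∈ Idl 0 F0
  F1_sub : F1 ⊆ Ioo 0 1
  F1_sg : Sg F1
  F1_good : Good 0 F1

namespace Data

variable (D : Data)

theorem sg_sub {S S' : Set ℝ} (h : D.Sg S') (hs : S ⊆ S') : D.Sg S :=
  D.sg_le h (Le.of_subset hs)

def Fam : ℕ → Set ℝ
  | 0 => D.F0
  | _ + 1 => D.F1

theorem Fam_sub (j : ℕ) : D.Fam j ⊆ Ioo 0 1 := by
  match j with
  | 0 => exact D.F0_sub
  | j + 1 => exact D.F1_sub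

theorem Fam_sg (j : ℕ) : D.Sg (D.Fam j) := by
  match j with
  | 0 => exact D.F0_sg
  | j + 1 => exact D.F1_sg

theorem Fam_good (j : ℕ) : Good 0 (D.Fam j) := by
  match j with
  | 0 => exact fun U _ => D.F0_univ (D.sg_sub D.F0_sg sdiff_subset)
  | j + 1 => exact D.F1_good

def FF : Set ℝ := ⋃ j, psi j '' D.Fam j
def ST : Set ℝ := fan (fun _ => D.V)
def W : Set ℝ := th '' D.ST
noncomputable def vt (n : ℕ) : ℝ := rho n D.v
noncomputable def wt (n : ℕ) : ℝ := th (rho n D.v)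

theorem ST_sub : D.ST ⊆ Ioo 0 1 := fan_sub _
theorem ST_countable : D.ST.Countable := fan_countable (fun _ => D.V_countable)
theorem W_countable : D.W.Countable := D.ST_countable.image _
theorem FF_countable : D.FF.Countable :=
  countable_iUnion (fun j => (D.sg_countable (D.Fam_sg j)).image _)

theorem W_gt {z : ℝ} (hz : z ∈ D.W) : 2 < z := by
  obtain ⟨x, hx, rfl⟩ := hz
  exact th_gt (D.ST_sub hx)

theorem FF_gap {z : ℝ} (hz : z ∈ D.FF) : ∃ j, z ∈ gap j ∧ z ∈ psi j '' D.Fam j := by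
  obtain ⟨j, x, hx, rfl⟩ := mem_iUnion.1 hz
  exact ⟨j, psi_mem_gap (D.Fam_sub j hx), x, hx, rfl⟩

def Qs : Set ℝ := (YY ∪ {0}) ∪ (D.FF ∪ (D.ST ∪ D.W))

theorem Qs_countable : D.Qs.Countable :=
  ((countable_range yy).union (countable_singleton 0)).union
    (D.FF_countable.union (D.ST_countable.union D.W_countable))

structure Rig (R : Set ℝ) : Prop where
  sub : R ⊆ ⋃ j, JJ j
  dense : (⋃ j, JJ j) ⊆ closure R
  rigid : ∀ f : ℝ → ℝ, ContinuousOn f R → InjOn f R → MapsTo f R (R ∪ D.Qs) → ∀ x ∈ R, f x = x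

theorem exists_rig : ∃ R, D.Rig R := by
  obtain ⟨R, h1, h2, h3⟩ := exists_rigid (isOpen_iUnion isOpen_JJ) D.Qs_countable
  exact ⟨R, fun x hx => (h1 hx).1, h2, h3⟩

def XX (R S : Set ℝ) : Set ℝ := LL R ∪ (D.FF ∪ (S ∪ D.W))
def CC (R : Set ℝ) : Set ℝ := LL R ∪ (D.FF ∪ (D.ST ∪ D.W))
def BB (R : Set ℝ) : Set ℝ := LL R ∪ (D.FF ∪ D.ST)
def AA (R : Set ℝ) : Set ℝ := (R ∪ YY) ∪ (D.FF ∪ D.W)

variable {D}
variable {R : Set ℝ}

theorem CC_sub_Qs : D.CC R ⊆ R ∪ D.Qs := by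
  rintro z ((( h | h) | h) | (h | (h | h)))
  · exact Or.inl h
  · exact Or.inr (Or.inl (Or.inl h))
  · exact Or.inr (Or.inl (Or.inr h))
  · exact Or.inr (Or.inr (Or.inl h))
  · exact Or.inr (Or.inr (Or.inr (Or.inl h)))
  · exact Or.inr (Or.inr (Or.inr (Or.inr h)))

theorem AA_sub : D.AA R ⊆ D.CC R := by
  rintro z (h | (h | h))
  · exact Or.inl (Or.inl h)
  · exact Or.inr (Or.inl h)
  · exact Or.inr (Or.inr (Or.inr h))

theorem BB_sub : D.BB R ⊆ D.CC R := by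
  rintro z (h | (h | h))
  · exact Or.inl h
  · exact Or.inr (Or.inl h)
  · exact Or.inr (Or.inr (Or.inl h))

theorem XX_sub {S : Set ℝ} (hS : S ⊆ D.ST) : D.XX R S ⊆ D.CC R := by
  rintro z (h | (h | (h | h)))
  · exact Or.inl h
  · exact Or.inr (Or.inl h)
  · exact Or.inr (Or.inr (Or.inl (hS h)))
  · exact Or.inr (Or.inr (Or.inr h))

namespace Rig

variable (hR : D.Rig R)
include hR

theorem yy_mem_closure (j : ℕ) : yy j ∈ closure R := by
  have h1 : closure (JJ j) ⊆ closure R :=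
    closure_minimal (fun z hz => hR.dense (mem_iUnion.2 ⟨j, hz⟩)) isClosed_closure
  apply h1
  have hp := sc_pos j
  unfold JJ
  rw [closure_Ioo (by linarith)]
  exact ⟨by unfold yy; linarith, le_refl _⟩

theorem zero_mem_closure : (0 : ℝ) ∈ closure R := by
  have : (0 : ℝ) ∈ closure (closure R) := by
    rw [Metric.mem_closure_iff]
    intro ε hε
    obtain ⟨k, hk⟩ := sc_small hε
    refine ⟨yy k, hR.yy_mem_closure k, ?_⟩
    rw [Real.dist_eq]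
    unfold yy
    have := sc_pos k
    rw [zero_sub, neg_neg, abs_of_pos this]
    exact hk
  rwa [closure_closure] at this

theorem LL_sub_closure : LL R ⊆ closure R := by
  rintro z ((h | ⟨j, rfl⟩) | h)
  · exact subset_closure h
  · exact hR.yy_mem_closure j
  · rw [mem_singleton_iff] at h
    rw [h]
    exact hR.zero_mem_closure

theorem gap_not_closure {j : ℕ} {z : ℝ} (hz : z ∈ gap j) : z ∉ closure R := by
  intro h
  obtain ⟨w, hw1, hw2⟩ := mem_closure_iff.1 h _ (isOpen_gap j) hz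
  obtain ⟨i, hi⟩ := mem_iUnion.1 (hR.sub hw2)
  exact JJ_not_gap hi hw1

theorem pos_not_closure {z : ℝ} (hz : 0 < z) : z ∉ closure R := by
  intro h
  obtain ⟨w, hw1, hw2⟩ := mem_closure_iff.1 h _ isOpen_Ioi hz
  obtain ⟨i, hi⟩ := mem_iUnion.1 (hR.sub hw2)
  exact lt_asymm (mem_Ioi.1 hw1) (JJ_neg hi)

theorem neg_cases {z : ℝ} (hz : z ∈ D.CC R) (h0 : z < 0) : z ∈ R ∨ z ∈ YY ∨ ∃ j, z ∈ gap j := by
  rcases hz with ((h | h) | h) | (h | (h | h))
  · exact Or.inl h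
  · exact Or.inr (Or.inl h)
  · rw [mem_singleton_iff] at h
    linarith
  · obtain ⟨j, hj, -⟩ := D.FF_gap h
    exact Or.inr (Or.inr ⟨j, hj⟩)
  · have := (D.ST_sub h).1
    linarith
  · have := D.W_gt h
    linarith

theorem pos_cases {z : ℝ} (hz : z ∈ D.CC R) (h0 : 0 < z) : z ∈ D.ST ∨ z ∈ D.W := by
  rcases hz with h | (h | (h | h))
  · have := LL_le hR.sub h
    linarith
  · obtain ⟨j, hj, -⟩ := D.FF_gap h
    have := gap_neg hj
    linarith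
  · exact Or.inl h
  · exact Or.inr h

theorem gap_mem {z : ℝ} {j : ℕ} (hz : z ∈ D.CC R) (hj : z ∈ gap j) : z ∈ psi j '' D.Fam j := by
  have h0 := gap_neg hj
  rcases hz with h | (h | (h | h))
  · exact absurd hj (LL_not_gap hR.sub h)
  · obtain ⟨i, hi, h1⟩ := D.FF_gap h
    have : i = j := nn_disj (gap_sub_nn i hi) (gap_sub_nn j hj)
    subst this
    exact h1
  · have := (D.ST_sub h).1
    linarith
  · have := D.W_gt h
    linarith

theorem ST_mem {z : ℝ} (hz : z ∈ D.CC R) (h0 : z ∈ Ioo (0 : ℝ) 1) : z ∈ D.ST := by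
  rcases hR.pos_cases hz h0.1 with h | h
  · exact h
  · have := D.W_gt h
    linarith [h0.2]

theorem W_mem {z : ℝ} (hz : z ∈ D.CC R) (h0 : 1 < z) : z ∈ D.W := by
  rcases hR.pos_cases hz (by linarith) with h | h
  · have := (D.ST_sub h).2
    linarith
  · exact h

theorem gap_eq {X : Set ℝ} (h1 : D.FF ⊆ X) (h2 : X ⊆ D.CC R) (j : ℕ) :
    X ∩ gap j = psi j '' D.Fam j := by
  apply Subset.antisymm
  · rintro z ⟨hz, hj⟩
    exact hR.gap_mem (h2 hz) hj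
  · rintro _ ⟨x, hx, rfl⟩
    exact ⟨h1 (mem_iUnion.2 ⟨j, x, hx, rfl⟩), psi_mem_gap (D.Fam_sub j hx)⟩

theorem not_closure_cases {z : ℝ} (hz : z ∈ D.CC R) (h : z ∉ closure R) :
    (∃ j, z ∈ gap j) ∨ z ∈ D.ST ∨ z ∈ D.W := by
  rcases hz with h1 | (h1 | h1)
  · exact absurd (hR.LL_sub_closure h1) h
  · obtain ⟨j, hj, -⟩ := D.FF_gap h1
    exact Or.inl ⟨j, hj⟩
  · exact Or.inr h1

end Rig

/-! ### embeddings -/

section Emb

variable {X Z : Set ℝ} {f : ℝ → ℝ}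

theorem f_id (hR : D.Rig R) (hRX : R ⊆ X) (hZ : Z ⊆ D.CC R) (hf : EmbOn f X)
    (hm : MapsTo f X Z) {x : ℝ} (hx : x ∈ X) (hxc : x ∈ closure R) : f x = x := by
  have hid : ∀ x ∈ R, f x = x := hR.rigid f (hf.mono hRX).continuousOn (hf.mono hRX).injOn
    (fun y hy => CC_sub_Qs (hZ (hm (hRX hy))))
  by_contra hne
  obtain ⟨V, W, hV, hW, hfV, hxW, hd⟩ := t2_separation hne
  obtain ⟨U, hU, h1⟩ := (hf x hx).1 V (hV.mem_nhds hfV)
  obtain ⟨r, hr1, hr2⟩ := mem_closure_iff_nhds.1 hxc _ (inter_mem hU (hW.mem_nhds hxW))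
  have h2 := h1 r (hRX hr2) hr1.1
  rw [hid r hr2] at h2
  exact disjoint_left.1 hd h2 hr1.2

theorem f_inv (hR : D.Rig R) (hRX : R ⊆ X) (hZ : Z ⊆ D.CC R) (hf : EmbOn f X)
    (hm : MapsTo f X Z) {x : ℝ} (hx : x ∈ X) (hxc : f x ∈ closure R) : f x = x := by
  have hid : ∀ x ∈ R, f x = x := hR.rigid f (hf.mono hRX).continuousOn (hf.mono hRX).injOn
    (fun y hy => CC_sub_Qs (hZ (hm (hRX hy))))
  by_contra hne
  obtain ⟨V, W, hV, hW, hfV, hxW, hd⟩ := t2_separation hne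
  obtain ⟨V', hV', h1⟩ := (hf x hx).2 W (hW.mem_nhds hxW)
  obtain ⟨r, hr1, hr2⟩ := mem_closure_iff_nhds.1 hxc _ (inter_mem hV' (hV.mem_nhds hfV))
  have h2 := h1 r (hRX hr2) (by rw [hid r hr2]; exact hr1.1)
  exact disjoint_left.1 hd hr1.2 h2

theorem f_out (hR : D.Rig R) (hRX : R ⊆ X) (hZ : Z ⊆ D.CC R) (hf : EmbOn f X)
    (hm : MapsTo f X Z) {x : ℝ} (hx : x ∈ X) (hxc : x ∉ closure R) : f x ∉ closure R := by
  intro h
  rw [f_inv hR hRX hZ hf hm hx h] at h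
  exact hxc h

theorem R_sub_of_emb (hR : D.Rig R) (hRX : R ⊆ X) (hZ : Z ⊆ D.CC R) (hf : EmbOn f X)
    (hm : MapsTo f X Z) : R ⊆ Z := by
  intro x hx
  have := f_id hR hRX hZ hf hm (hRX hx) (subset_closure hx)
  rw [← this]
  exact hm (hRX hx)

theorem YY_sub_of_emb (hR : D.Rig R) (hRX : R ⊆ X) (hYX : YY ⊆ X) (hZ : Z ⊆ D.CC R)
    (hf : EmbOn f X) (hm : MapsTo f X Z) : YY ⊆ Z := by
  rintro _ ⟨j, rfl⟩
  have := f_id hR hRX hZ hf hm (hYX ⟨j, rfl⟩) (hR.yy_mem_closure j)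
  rw [← this]
  exact hm (hYX ⟨j, rfl⟩)

theorem zero_mem_of_emb (hR : D.Rig R) (hRX : R ⊆ X) (h0 : (0 : ℝ) ∈ X) (hZ : Z ⊆ D.CC R)
    (hf : EmbOn f X) (hm : MapsTo f X Z) : (0 : ℝ) ∈ Z := by
  have := f_id hR hRX hZ hf hm h0 hR.zero_mem_closure
  rw [← this]
  exact hm h0

theorem full_of_emb (hR : D.Rig R) (hRX : R ⊆ X) (hYX : YY ⊆ X) (hZ : Z ⊆ D.CC R)
    (hf : EmbOn f X) (hm : MapsTo f X Z) (j : ℕ) :
    Idl (yy j) (X ∩ gap j) ⊆ Idl (yy j) (Z ∩ gap j) := by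
  have hfy := f_id hR hRX hZ hf hm (hYX ⟨j, rfl⟩) (hR.yy_mem_closure j)
  obtain ⟨U, hU, h1⟩ := (hf (yy j) (hYX ⟨j, rfl⟩)).1 (nn j)
    (by rw [hfy]; exact (isOpen_nn j).mem_nhds (yy_mem_nn j))
  apply Idl.of_emb (f := f) (U0 := U) hU
  · apply hf.mono
    rintro y (rfl | hy)
    · exact hYX ⟨j, rfl⟩
    · exact hy.1.1
  · exact hfy
  · rintro y ⟨⟨⟨hy1, hy2⟩, hy3⟩, -⟩
    refine ⟨hm hy1, ?_⟩
    have h2 := f_out hR hRX hZ hf hm hy1 (hR.gap_not_closure hy2)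
    rcases nn_cases (h1 y hy1 hy3) with h3 | h3 | h3
    · exact absurd (hR.dense (mem_iUnion.2 ⟨j, h3⟩)) h2
    · rw [h3] at h2
      exact absurd (hR.yy_mem_closure j) h2
    · exact h3

end Emb

/-! ### singular points -/

def nS (D : Data) (Z : Set ℝ) : Set ℝ := {z | z ∈ Z ∧ ∀ U ∈ 𝓝 z, ¬ D.Sg (Z ∩ U)}

theorem nS_map {X Z : Set ℝ} {f : ℝ → ℝ} (hf : EmbOn f X) (hm : MapsTo f X Z) {x : ℝ}
    (hx : x ∈ nS D X) : f x ∈ nS D Z := by
  refine ⟨hm hx.1, fun V hV hs => ?_⟩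
  obtain ⟨U, hU, h1⟩ := (hf x hx.1).1 V hV
  apply hx.2 U hU
  apply D.sg_le hs
  exact ⟨f, hf.mono inter_subset_left, fun y hy => ⟨hm hy.1, h1 y hy.1 hy.2⟩⟩

theorem nS_cases (hR : D.Rig R) {Z : Set ℝ} (hZ : Z ⊆ D.CC R) {z : ℝ} (hz : z ∈ nS D Z)
    (hzc : z ∉ closure R) : (∃ n, z = D.vt n ∧ ¬ D.Sg (Z ∩ room n)) ∨
      (∃ n, z = D.wt n ∧ ¬ D.Sg (Z ∩ wroom n)) := by
  rcases hR.not_closure_cases (hZ hz.1) hzc with ⟨j, hj⟩ | h | h
  · exfalso
    apply hz.2 (gap j) ((isOpen_gap j).mem_nhds hj)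
    apply D.sg_le (D.Fam_sg j)
    refine Le.trans (Le.of_subset ?_) (Le.image_left (psi_emb j (D.Fam j)))
    rintro y ⟨hy1, hy2⟩
    exact hR.gap_mem (hZ hy1) hy2
  · left
    obtain ⟨n, x, hx, rfl⟩ := mem_iUnion.1 h
    by_cases hxv : x = D.v
    · refine ⟨n, by rw [hxv]; rfl, hz.2 _ ((isOpen_room n).mem_nhds (rho_mem_room n x))⟩
    · exfalso
      apply hz.2 (room n ∩ {D.vt n}ᶜ) (inter_mem ((isOpen_room n).mem_nhds (rho_mem_room n x))
        (isOpen_compl_singleton.mem_nhds (fun h => hxv ((rho_strictMono n).injective h))))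
      apply D.sg_le D.V_sg
      refine Le.trans (Le.of_subset ?_) (Le.image_left (rho_emb n (D.V \ {D.v})))
      rintro y ⟨hy1, hy2, hy3⟩
      have h1 := hR.ST_mem (hZ hy1) (room_sub n hy2)
      have h2 : y ∈ fan (fun _ => D.V) ∩ room n := ⟨h1, hy2⟩
      rw [fan_inter_room] at h2
      obtain ⟨x', hx', rfl⟩ := h2
      refine ⟨x', ⟨hx', fun h => hy3 ?_⟩, rfl⟩
      rw [mem_singleton_iff] at h
      rw [h]; rfl
  · right
    obtain ⟨t, ht, rfl⟩ := h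
    obtain ⟨n, x, hx, rfl⟩ := mem_iUnion.1 ht
    by_cases hxv : x = D.v
    · refine ⟨n, by rw [hxv]; rfl, hz.2 _ ((isOpen_wroom n).mem_nhds
        (th_mem_wroom (rho_mem_room n x)))⟩
    · exfalso
      have hne : th (rho n x) ≠ D.wt n := by
        intro h
        unfold wt at h
        have h1 := congrArg thi h
        rw [thi_th (room_sub n (rho_mem_room n x)).1, thi_th (room_sub n (rho_mem_room n D.v)).1] at h1
        exact hxv ((rho_strictMono n).injective h1)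
      apply hz.2 (wroom n ∩ {D.wt n}ᶜ) (inter_mem ((isOpen_wroom n).mem_nhds
        (th_mem_wroom (rho_mem_room n x))) (isOpen_compl_singleton.mem_nhds hne))
      apply D.sg_le D.V_sg
      refine Le.trans (Le.of_subset ?_) ((Le.image_left (th_emb
        (E := rho n '' (D.V \ {D.v})) ?_)).trans (Le.image_left (rho_emb n (D.V \ {D.v}))))
      · rintro y ⟨hy1, hy2, hy3⟩
        obtain ⟨t', ht', rfl⟩ := hR.W_mem (hZ hy1) hy2.1
        have h3 := thi_mem_room hy2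
        rw [thi_th (D.ST_sub ht').1] at h3
        have h2 : t' ∈ fan (fun _ => D.V) ∩ room n := ⟨ht', h3⟩
        rw [fan_inter_room] at h2
        obtain ⟨x', hx', rfl⟩ := h2
        refine ⟨_, ⟨x', ⟨hx', fun h => hy3 ?_⟩, rfl⟩, rfl⟩
        rw [mem_singleton_iff] at h
        rw [h]; rfl
      · rintro _ ⟨x', -, rfl⟩
        exact (room_sub n (rho_mem_room n x')).1

theorem V_loc {U : Set ℝ} (hU : U ∈ 𝓝 D.v) (h : D.Sg (D.V ∩ U)) : False := by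
  apply D.V_not
  apply D.sg_loc D.V_countable
  intro x hx
  by_cases hxv : x = D.v
  · rw [hxv]; exact ⟨U, hU, h⟩
  · exact ⟨{D.v}ᶜ, isOpen_compl_singleton.mem_nhds hxv, D.V_sg⟩

theorem vt_nS {X : Set ℝ} (hX : D.ST ⊆ X) (n : ℕ) : D.vt n ∈ nS D X := by
  refine ⟨hX (mem_iUnion.2 ⟨n, D.v, D.v_mem, rfl⟩), fun U hU hs => ?_⟩
  apply V_loc (D := D) ((rho_continuous n).continuousAt.preimage_mem_nhds hU)
  apply D.sg_le hs
  exact ⟨rho n, rho_emb n _, fun x hx => ⟨hX (mem_iUnion.2 ⟨n, x, hx.1, rfl⟩), hx.2⟩⟩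

theorem wt_nS {X : Set ℝ} (hX : D.W ⊆ X) (n : ℕ) : D.wt n ∈ nS D X := by
  refine ⟨hX ⟨_, mem_iUnion.2 ⟨n, D.v, D.v_mem, rfl⟩, rfl⟩, fun U hU hs => ?_⟩
  have hemb : EmbOn (fun x => th (rho n x)) D.V := by
    apply EmbOn.comp (F := Ioi 0) (th_emb subset_rfl) (rho_emb n _)
    exact fun x _ => (room_sub n (rho_mem_room n x)).1
  obtain ⟨U', hU', h1⟩ := (hemb D.v D.v_mem).1 U hU
  apply V_loc (D := D) hU'
  apply D.sg_le hs
  exact ⟨_, hemb.mono inter_subset_left, fun x hx =>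
    ⟨hX ⟨_, mem_iUnion.2 ⟨n, x, hx.1, rfl⟩, rfl⟩, h1 x hx.1 hx.2⟩⟩

theorem vt_inj : Function.Injective D.vt := by
  intro i j h
  have h1 := rho_mem_room i D.v
  have h2 := rho_mem_room j D.v
  unfold vt at h
  rw [h] at h1
  exact room_disj h1 h2

theorem wt_inj : Function.Injective D.wt := by
  intro i j h
  unfold wt at h
  have h1 := congrArg thi h
  rw [thi_th (room_sub i (rho_mem_room i D.v)).1, thi_th (room_sub j (rho_mem_room j D.v)).1] at h1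
  exact vt_inj h1

/-! ### rooms -/

theorem V_le {Z : Set ℝ} (hZ : Z ⊆ D.V) (hs : ¬ D.Sg Z) : Le D.V Z := by
  have hv : D.v ∈ Z := by
    by_contra hv
    exact hs (D.sg_sub D.V_sg (fun z hz => ⟨hZ hz, fun h => hv (by
      rw [mem_singleton_iff] at h; rw [← h]; exact hz)⟩))
  obtain ⟨f, hf, hfx, hfm⟩ := shell_emb D.V_countable (D.V_min Z hZ hs) univ_mem
  refine ⟨f, hf.mono (subset_insert _ _), fun x hx => ?_⟩
  by_cases hxv : x = D.v
  · rw [hxv, hfx]; exact hv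
  · exact (hfm ⟨hx, hxv⟩).1.1

theorem V_le_room {T : Set ℝ} (hT : T ⊆ D.ST) {k : ℕ} (hs : ¬ D.Sg (T ∩ room k)) :
    Le D.V (T ∩ room k) := by
  have h1 : T ∩ room k = rho k '' {x | x ∈ D.V ∧ rho k x ∈ T} := by
    apply Subset.antisymm
    · rintro z ⟨hz1, hz2⟩
      have h2 : z ∈ fan (fun _ => D.V) ∩ room k := ⟨hT hz1, hz2⟩
      rw [fan_inter_room] at h2
      obtain ⟨x, hx, rfl⟩ := h2
      exact ⟨x, ⟨hx, hz1⟩, rfl⟩
    · rintro _ ⟨x, hx, rfl⟩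
      exact ⟨hx.2, rho_mem_room k x⟩
  rw [h1] at hs ⊢
  refine (V_le (Z := {x | x ∈ D.V ∧ rho k x ∈ T}) (fun x hx => hx.1) ?_).trans
    (Le.image_right (rho_emb k _))
  intro h
  exact hs (D.sg_le h (Le.image_left (rho_emb k _)))

theorem ST_idl {T : Set ℝ} (hT : T ⊆ D.ST) (hinf : {n | ¬ D.Sg (T ∩ room n)}.Infinite) :
    ∀ U ∈ 𝓝 (0 : ℝ), D.ST \ U ∈ Idl 0 T := by
  apply fan_diff_mem
  intro _
  apply mem_idl_rooms
  intro K
  obtain ⟨k, hk, hk2⟩ := hinf.exists_gt K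
  exact ⟨k, hk2.le, V_le_room hT hk⟩

theorem ST_emb {T : Set ℝ} (hT : T ⊆ D.ST) (hinf : {n | ¬ D.Sg (T ∩ room n)}.Infinite) :
    ∃ b : ℝ → ℝ, EmbOn b (insert 0 D.ST) ∧ b 0 = 0 ∧ MapsTo b D.ST T := by
  obtain ⟨f, hf, hfx, hfm⟩ := shell_emb D.ST_countable (ST_idl hT hinf) univ_mem
  refine ⟨f, hf, hfx, fun x hx => ?_⟩
  have : x ≠ 0 := (D.ST_sub hx).1.ne'
  exact (hfm ⟨hx, this⟩).1.1

theorem ST_le_W : Le D.ST D.W := Le.image_right (th_emb (fun _ hx => (D.ST_sub hx).1))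
theorem W_le_ST : Le D.W D.ST := Le.image_left (th_emb (fun _ hx => (D.ST_sub hx).1))

theorem W_le (hR : D.Rig R) {Z : Set ℝ} (hZ : Z ⊆ D.CC R)
    (hinf : {n | ¬ D.Sg (Z ∩ wroom n)}.Infinite) : Le D.W (Z ∩ Ioi 2) := by
  have h1 : {n | ¬ D.Sg ({t | t ∈ D.ST ∧ th t ∈ Z} ∩ room n)}.Infinite := by
    apply hinf.mono
    intro n hn hs
    apply hn
    apply D.sg_le hs
    refine Le.trans (Le.of_subset ?_) (Le.image_left (th_emb
      (E := {t | t ∈ D.ST ∧ th t ∈ Z} ∩ room n) (fun x hx => (D.ST_sub hx.1.1).1)))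
    rintro y ⟨hy1, hy2⟩
    obtain ⟨t', ht', rfl⟩ := hR.W_mem (hZ hy1) hy2.1
    have h3 := thi_mem_room hy2
    rw [thi_th (D.ST_sub ht').1] at h3
    exact ⟨t', ⟨⟨ht', hy1⟩, h3⟩, rfl⟩
  obtain ⟨b, hb, -, hbm⟩ := ST_emb (fun t ht => ht.1) h1
  refine W_le_ST.trans (Le.trans ⟨b, hb.mono (subset_insert _ _), hbm⟩ ?_)
  refine ⟨th, th_emb (fun _ hx => (D.ST_sub hx.1).1), fun t ht => ⟨ht.2, th_gt (D.ST_sub ht.1)⟩⟩

end Data

end Pool.Agent.Helper754
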