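import Pool.Agent.Helper754.Glue

open Set Topology Filter

namespace Pool.Agent.Helper754

theorem exists_radii (x : ℝ) {S : Set ℝ} (hS : S.Countable) :
    ∃ a : ℕ → ℝ, StrictAnti a ∧ (∀ k, 0 < a k) ∧ (∀ ε > 0, ∃ k, a k < ε) ∧
      ∀ k, ∀ s ∈ S, |s - x| ≠ a k := by
  have hc : ((fun s => |s - x|) '' S).Countable := hS.image _
  have hd : Dense ((fun s => |s - x|) '' S)ᶜ := hc.dense_compl ℝ
  have key : ∀ k : ℕ, ∃ b : ℝ, 1 / ((k : ℝ) + 2) < b ∧ b < 1 / ((k : ℝ) + 1) ∧
      b ∉ (fun s => |s - x|) '' S := by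
    intro k
    have hlt : 1 / ((k : ℝ) + 2) < 1 / ((k : ℝ) + 1) := by
      apply one_div_lt_one_div_of_lt <;> (try positivity)
      linarith
    obtain ⟨b, hb, hb2⟩ := hd.inter_open_nonempty (Ioo (1 / ((k : ℝ) + 2)) (1 / ((k : ℝ) + 1)))
      isOpen_Ioo (nonempty_Ioo.2 hlt)
    exact ⟨b, hb.1, hb.2, hb2⟩
  choose a ha1 ha2 ha3 using key
  refine ⟨a, ?_, ?_, ?_, ?_⟩
  · apply strictAnti_nat_of_succ_lt
    intro k
    have h1 := ha2 (k + 1)
    have h2 := ha1 k
    push_cast at h1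
    have h3 : (k : ℝ) + 1 + 1 = k + 2 := by ring
    rw [h3] at h1
    linarith
  · intro k
    have h1 := ha1 k
    have : (0 : ℝ) < 1 / ((k : ℝ) + 2) := by positivity
    linarith
  · intro ε hε
    obtain ⟨k, hk⟩ := exists_nat_one_div_lt hε
    exact ⟨k, lt_trans (ha2 k) hk⟩
  · intro k s hs heq
    exact ha3 k ⟨s, hs, heq⟩

/-- shells around a point -/
def shell (x : ℝ) (a : ℕ → ℝ) : ℕ → Set ℝ
  | 0 => {y | a 0 < |y - x|}
  | k + 1 => {y | a (k + 1) < |y - x| ∧ |y - x| < a k}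

theorem isOpen_shell (x : ℝ) (a : ℕ → ℝ) (k : ℕ) : IsOpen (shell x a k) := by
  have hc : Continuous (fun y : ℝ => |y - x|) := by fun_prop
  cases k with
  | zero => exact isOpen_lt continuous_const hc
  | succ k =>
    have h1 : IsOpen {y : ℝ | a (k + 1) < |y - x|} := isOpen_lt continuous_const hc
    have h2 : IsOpen {y : ℝ | |y - x| < a k} := isOpen_lt hc continuous_const
    exact h1.inter h2

theorem shell_far {x : ℝ} {a : ℕ → ℝ} {k : ℕ} {y : ℝ} (h : y ∈ shell x a k) : a k < |y - x| := by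
  cases k with
  | zero => exact h
  | succ k => exact h.1

theorem shell_near {x : ℝ} {a : ℕ → ℝ} {k : ℕ} {y : ℝ} (h : y ∈ shell x a (k + 1)) :
    |y - x| < a k := h.2

theorem shell_disj {x : ℝ} {a : ℕ → ℝ} (ha : StrictAnti a) {i j : ℕ} {y : ℝ}
    (hi : y ∈ shell x a i) (hj : y ∈ shell x a j) : i = j := by
  have key : ∀ i j, i < j → y ∈ shell x a i → y ∈ shell x a j → False := by
    intro i j hij hi hj
    obtain ⟨j', rfl⟩ : ∃ j', j = j' + 1 := ⟨j - 1, by omega⟩
    have h1 := shell_far hi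
    have h2 := shell_near hj
    have h3 : a j' ≤ a i := ha.antitone (by omega)
    linarith
  rcases lt_trichotomy i j with h | h | h
  · exact (key i j h hi hj).elim
  · exact h
  · exact (key j i h hj hi).elim

theorem shell_cover {x : ℝ} {a : ℕ → ℝ} (ha0 : ∀ ε > 0, ∃ k, a k < ε)
    {y : ℝ} (hy : y ≠ x) (hne : ∀ k, |y - x| ≠ a k) : ∃ k, y ∈ shell x a k := by
  have hpos : 0 < |y - x| := abs_pos.2 (sub_ne_zero.2 hy)
  have hex : ∃ k, a k < |y - x| := ha0 _ hpos
  classical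
  have h1 := Nat.find_spec hex
  set k := Nat.find hex with hk
  cases hk' : k with
  | zero => exact ⟨0, by rw [hk'] at h1; exact h1⟩
  | succ m =>
    refine ⟨m + 1, by rw [hk'] at h1; exact h1, ?_⟩
    have h2 : ¬ a m < |y - x| := Nat.find_min hex (by omega)
    exact lt_of_le_of_ne (not_lt.1 h2) (hne m)

theorem shell_not_mem {x : ℝ} {a : ℕ → ℝ} (hpos : ∀ k, 0 < a k) (k : ℕ) : x ∉ shell x a k := by
  intro h
  have := shell_far h
  have := hpos k
  simp at *
  linarith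

/-- Shell lemma. -/
theorem shell_emb {x x' : ℝ} {S S' : Set ℝ} (hS : S.Countable)
    (h : ∀ U ∈ 𝓝 x, S \ U ∈ Idl x' S') {U' : Set ℝ} (hU' : U' ∈ 𝓝 x') :
    ∃ f : ℝ → ℝ, EmbOn f (insert x S) ∧ f x = x' ∧ MapsTo f (S \ {x}) ((S' ∩ U') \ {x'}) := by
  obtain ⟨a, ha, hapos, ha0, hane⟩ := exists_radii x hS
  have hsh : ∀ k, S ∩ shell x a k ∈ Idl x' S' := by
    intro k
    apply Idl.of_subset (h (Metric.ball x (a k)) (Metric.ball_mem_nhds x (hapos k)))
    rintro y ⟨hy1, hy2⟩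
    refine ⟨hy1, fun h3 => ?_⟩
    have h4 := shell_far hy2
    rw [Metric.mem_ball, Real.dist_eq] at h3
    linarith
  have next : ∀ (k : ℕ) (ε : ℝ), 0 < ε → ∃ ε' : ℝ, 0 < ε' ∧ ε' ≤ ε / 2 ∧
      Le (S ∩ shell x a k) ((S' ∩ Metric.ball x' ε) \ Metric.closedBall x' ε') := by
    intro k ε hε
    obtain ⟨U'', hU'', hle⟩ := hsh k (Metric.ball x' ε) (Metric.ball_mem_nhds x' hε)
    obtain ⟨δ, hδ, hb⟩ := Metric.nhds_basis_closedBall.mem_iff.1 hU''
    refine ⟨min δ (ε / 2), lt_min hδ (by linarith), min_le_right _ _, hle.trans (Le.of_subset ?_)⟩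
    rintro y ⟨hy1, hy2⟩
    exact ⟨hy1, fun h3 => hy2 (hb (Metric.closedBall_subset_closedBall (min_le_left _ _) h3))⟩
  choose nx hnx1 hnx2 hnx3 using next
  obtain ⟨ε0, hε0, hb0⟩ := Metric.nhds_basis_ball.mem_iff.1 hU'
  let e : ℕ → {ε : ℝ // 0 < ε} := fun n =>
    Nat.rec ⟨ε0, hε0⟩ (fun k p => ⟨nx k p.1 p.2, hnx1 k p.1 p.2⟩) n
  have he : ∀ k, (e (k + 1)).1 = nx k (e k).1 (e k).2 := fun k => rfl
  have hehalf : ∀ k, (e (k + 1)).1 ≤ (e k).1 / 2 := fun k => by rw [he]; exact hnx2 _ _ _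
  have heanti : Antitone (fun k => (e k).1) := by
    apply antitone_nat_of_succ_le
    intro k
    have := hehalf k
    have := (e k).2
    linarith
  have hele0 : ∀ k, (e k).1 ≤ ε0 := fun k => heanti (Nat.zero_le k)
  have hesmall : ∀ ε > 0, ∃ k, (e k).1 < ε := by
    have hpow : ∀ k, (e k).1 ≤ ε0 * (1 / 2) ^ k := by
      intro k
      induction k with
      | zero => simp [e]
      | succ k ih =>
        have := hehalf k
        rw [pow_succ]
        linarith
    intro ε hε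
    obtain ⟨k, hk⟩ := exists_pow_lt_of_lt_one (div_pos hε hε0) (by norm_num : (1 / 2 : ℝ) < 1)
    refine ⟨k, lt_of_le_of_lt (hpow k) ?_⟩
    rw [lt_div_iff₀ hε0] at hk
    linarith
  have hle : ∀ k, Le (S ∩ shell x a k)
      ((S' ∩ Metric.ball x' (e k).1) \ Metric.closedBall x' (e (k + 1)).1) := fun k => by
    rw [he]; exact hnx3 k _ _
  choose f hf hfm using hle
  set F := pieceFn (fun k => (S ∩ shell x a k)) f (fun _ => x') with hF
  have hdisj : ∀ i j y, y ∈ S ∩ shell x a i → y ∈ S ∩ shell x a j → i = j :=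
    fun i j y h1 h2 => shell_disj ha h1.2 h2.2
  have hFe : ∀ k y, y ∈ S ∩ shell x a k → F y = f k y := fun k y hy => pieceFn_eq hdisj hy
  have hFx : F x = x' := pieceFn_base (fun i hi => shell_not_mem hapos i hi.2)
  have hcov : ∀ y ∈ S, y ≠ x → ∃ k, y ∈ S ∩ shell x a k := by
    intro y hy hyx
    obtain ⟨k, hk⟩ := shell_cover ha0 hyx (fun k => hane k y hy)
    exact ⟨k, hy, hk⟩
  set G : ℕ → Set ℝ := fun k => Metric.ball x' (e k).1 \ Metric.closedBall x' (e (k + 1)).1 with hG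
  have hGopen : ∀ k, IsOpen (G k) := fun k => Metric.isOpen_ball.sdiff Metric.isClosed_closedBall
  have hGdisj : ∀ i j y, y ∈ G i → y ∈ G j → i = j := by
    have key : ∀ i j y, i < j → y ∈ G i → y ∈ G j → False := by
      intro i j y hij hi hj
      apply hi.2
      apply Metric.ball_subset_closedBall
      exact Metric.ball_subset_ball (heanti (by omega : i + 1 ≤ j)) hj.1
    intro i j y hi hj
    rcases lt_trichotomy i j with h | h | h
    · exact (key i j y h hi hj).elim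
    · exact h
    · exact (key j i y h hj hi).elim
  have hFG : ∀ k y, y ∈ S ∩ shell x a k → F y ∈ G k := fun k y hy => by
    rw [hFe k y hy]; exact ⟨(hfm k hy).1.2, (hfm k hy).2⟩
  refine ⟨F, ?_, hFx, ?_⟩
  · apply EmbOn.glue (L := {x}) (P := fun k => S ∩ shell x a k)
    · intro y hy
      by_cases hyx : y = x
      · exact Or.inl hyx
      · exact Or.inr (hcov y (hy.resolve_left hyx) hyx)
    · intro k
      exact (hf k).congr (hFe k)
    · intro k y hy
      refine ⟨shell x a k, (isOpen_shell x a k).mem_nhds hy.2, fun z hz hzs => ⟨?_, hzs⟩⟩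
      rcases hz with rfl | hz
      · exact absurd hzs (shell_not_mem hapos k)
      · exact hz
    · intro k y hy
      refine ⟨G k, (hGopen k).mem_nhds (hFG k y hy), fun z hz hzs => ?_⟩
      by_cases hzx : z = x
      · rw [hzx, hFx] at hzs
        exact absurd (Metric.mem_closedBall_self (e (k+1)).2.le) hzs.2
      · obtain ⟨j, hj⟩ := hcov z (hz.resolve_left hzx) hzx
        rw [hGdisj k j _ hzs (hFG j z hj)]
        exact hj
    · rintro y - rfl
      rw [hFx]
      refine ⟨fun V hV => ?_, fun U hU => ?_⟩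
      · obtain ⟨ε, hε, hb⟩ := Metric.nhds_basis_ball.mem_iff.1 hV
        obtain ⟨K, hK⟩ := hesmall ε hε
        refine ⟨Metric.ball y (a K), Metric.ball_mem_nhds y (hapos K), fun z hz hzU => ?_⟩
        apply hb
        by_cases hzx : z = y
        · rw [hzx, hFx]; exact Metric.mem_ball_self hε
        · obtain ⟨j, hj⟩ := hcov z (hz.resolve_left hzx) hzx
          have h1 := (hFG j z hj).1
          have h2 := shell_far hj.2
          rw [Metric.mem_ball, Real.dist_eq] at hzU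
          have h3 : K < j := by
            by_contra hcon
            have := ha.antitone (not_lt.1 hcon)
            linarith
          exact Metric.ball_subset_ball (le_trans (heanti h3.le) hK.le) h1
      · obtain ⟨ε, hε, hb⟩ := Metric.nhds_basis_ball.mem_iff.1 hU
        obtain ⟨K, hK⟩ := ha0 ε hε
        refine ⟨Metric.ball x' (e (K + 1)).1, Metric.ball_mem_nhds x' (e (K + 1)).2,
          fun z hz hzV => ?_⟩
        apply hb
        by_cases hzx : z = y
        · rw [hzx]; exact Metric.mem_ball_self hε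
        · obtain ⟨j, hj⟩ := hcov z (hz.resolve_left hzx) hzx
          have h1 := (hFG j z hj).2
          have h3 : K < j := by
            by_contra hcon
            apply h1
            apply Metric.ball_subset_closedBall
            exact Metric.ball_subset_ball (heanti (by omega : j + 1 ≤ K + 1)) hzV
          obtain ⟨j', rfl⟩ : ∃ j', j = j' + 1 := ⟨j - 1, by omega⟩
          have h4 := shell_near hj.2
          have h5 : a j' ≤ a K := ha.antitone (by omega)
          rw [Metric.mem_ball, Real.dist_eq]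
          linarith
  · rintro y ⟨hy, hyx⟩
    obtain ⟨k, hk⟩ := hcov y hy hyx
    have h1 := hFG k y hk
    rw [hFe k y hk] at h1 ⊢
    have h2 := hfm k hk
    refine ⟨⟨h2.1.1, hb0 (Metric.ball_subset_ball (hele0 k) h1.1)⟩, ?_⟩
    intro h3
    rw [mem_singleton_iff] at h3
    rw [h3] at h1
    exact h1.2 (Metric.mem_closedBall_self (e (k+1)).2.le)

/-- pointed embeddings increase the ideal -/
theorem Idl.of_emb {x x' : ℝ} {S S' : Set ℝ} {f : ℝ → ℝ} {U0 : Set ℝ} (hU0 : U0 ∈ 𝓝 x)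
    (hf : EmbOn f (insert x (S ∩ U0))) (hfx : f x = x') (hm : MapsTo f ((S ∩ U0) \ {x}) S') :
    Idl x S ⊆ Idl x' S' := by
  intro Q hQ V hV
  subst hfx
  obtain ⟨h1, h2⟩ := hf x (mem_insert _ _)
  obtain ⟨U, hU, h3⟩ := h1 V hV
  obtain ⟨U1, hU1, hle⟩ := hQ (U ∩ U0) (inter_mem hU hU0)
  obtain ⟨V1, hV1, h4⟩ := h2 U1 hU1
  refine ⟨V1, hV1, hle.trans ⟨f, hf.mono ?_, ?_⟩⟩
  · rintro y ⟨⟨hy1, hy2, hy3⟩, hy4⟩
    exact Or.inr ⟨hy1, hy3⟩
  · rintro y ⟨⟨hy1, hy2, hy3⟩, hy4⟩
    have hyx : y ≠ x := fun h => hy4 (h ▸ mem_of_mem_nhds hU1)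
    exact ⟨⟨hm ⟨⟨hy1, hy3⟩, hyx⟩, h3 y (Or.inr ⟨hy1, hy3⟩) hy2⟩,
      fun h => hy4 (h4 y (Or.inr ⟨hy1, hy3⟩) h)⟩

end Pool.Agent.Helper754
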