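import Pool.Agent.Helper754.Compare

open Set Topology Filter

namespace Pool.Agent.Helper754

namespace Data

variable {D : Data} {R : Set ℝ}

def KK (D : Data) (S : Set ℝ) : Set (Set ℝ) := Idl 0 (((fun x => -x) '' D.F1) ∪ S)

theorem F1_KK {S : Set ℝ} : Idl 0 D.F1 ⊆ KK D S := by
  have h1 : Idl 0 ((fun x : ℝ => -x) '' D.F1) = Idl 0 D.F1 := by
    have := Idl.image (g := fun x : ℝ => -x) (x := 0) (S := D.F1) (EmbOn.neg _)
    simpa using this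
  rw [← h1]
  exact Idl.mono subset_union_left

theorem KK_empty : KK D ∅ = Idl 0 D.F1 := by
  have h1 : Idl 0 ((fun x : ℝ => -x) '' D.F1) = Idl 0 D.F1 := by
    have := Idl.image (g := fun x : ℝ => -x) (x := 0) (S := D.F1) (EmbOn.neg _)
    simpa using this
  unfold KK
  rw [union_empty, h1]

theorem KK_bot {S : Set ℝ} : KK D ∅ ⊆ KK D S := by
  rw [KK_empty]; exact F1_KK

theorem neg_F1_diff {U : Set ℝ} (hU : U ∈ 𝓝 (0 : ℝ)) :
    ((fun x : ℝ => -x) '' D.F1) \ U ∈ Idl 0 D.F1 := by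
  have h1 : (fun x : ℝ => -x) ⁻¹' U ∈ 𝓝 (0 : ℝ) := by
    apply ContinuousAt.preimage_mem_nhds
    · fun_prop
    · simpa using hU
  apply Idl.of_le (D.F1_good _ h1)
  refine Le.trans (Le.of_subset ?_) (Le.image_left
    (EmbOn.neg (D.F1 \ (fun x : ℝ => -x) ⁻¹' U)))
  rintro _ ⟨⟨x, hx, rfl⟩, hxU⟩
  exact ⟨x, ⟨hx, hxU⟩, rfl⟩

theorem near_zero (hR : D.Rig R) {X Z : Set ℝ} {f : ℝ → ℝ} (hRX : R ⊆ X) (hYX : YY ⊆ X)
    (h0X : (0 : ℝ) ∈ X) (hZ : Z ⊆ D.CC R) (hf : EmbOn f X) (hm : MapsTo f X Z) :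
    KK D (X ∩ Ioo 0 1) ⊆ KK D (Z ∩ Ioo 0 1) := by
  intro Q hQ V hV
  have hf0 := f_id hR hRX hZ hf hm h0X hR.zero_mem_closure
  obtain ⟨U, hU, hU1⟩ := (hf 0 h0X).1 (V ∩ Metric.ball 0 (1 / 2))
    (by rw [hf0]; exact inter_mem hV (Metric.ball_mem_nhds _ (by norm_num)))
  obtain ⟨U1, hU1', g, hg, hgm⟩ := hQ U hU
  obtain ⟨V1, hV1, hV1'⟩ := (hf 0 h0X).2 U1 hU1'
  rw [hf0] at hV1
  set P : Set ℝ := ((X ∩ Ioo 0 1) ∩ U) \ U1 with hP
  have hPX : P ⊆ X := fun x hx => hx.1.1.1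
  have hP' : ∀ z ∈ f '' P, z ∈ Z ∧ z ∈ V ∧ z ∈ Metric.ball (0 : ℝ) (1 / 2) ∧ z ∉ V1 ∧
      z ∉ closure R := by
    rintro _ ⟨x, hx, rfl⟩
    have h1 := hU1 x (hPX hx) hx.1.2
    refine ⟨hm (hPX hx), h1.1, h1.2, fun h => hx.2 (hV1' x (hPX hx) h), ?_⟩
    exact f_out hR hRX hZ hf hm (hPX hx) (hR.pos_not_closure hx.1.1.2.1)
  have hneg0 : f '' P ∩ Iio 0 ∈ Idl 0 D.F1 := by
    apply gaps_mem (U := V1) _ _ hV1 (fun z hz => (hP' z hz.1).2.2.2.1)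
    · rintro z ⟨hz, hz0⟩
      obtain ⟨h1, h2, h3, h4, h5⟩ := hP' z hz
      rcases hR.not_closure_cases (hZ h1) h5 with h6 | h6 | h6
      · exact h6
      · exact absurd (D.ST_sub h6).1 (not_lt.2 (mem_Iio.1 hz0).le)
      · have := D.W_gt h6
        rw [mem_Iio] at hz0
        linarith
    · intro j
      match j with
      | 0 =>
        apply Idl.of_subset (Idl.empty_mem _ _)
        rintro z ⟨⟨hz, -⟩, hz2⟩
        exfalso
        have h3 := (hP' z hz).2.2.1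
        rw [Metric.mem_ball, Real.dist_eq, sub_zero, abs_lt] at h3
        have h4 : z < -(3/4) * sc 0 := hz2.2
        rw [sc_zero] at h4
        linarith
      | j + 1 =>
        obtain ⟨V2, hV2, h6⟩ := (hf (yy (j + 1)) (hYX ⟨_, rfl⟩)).2 (Iio 0)
          (isOpen_Iio.mem_nhds (yy_neg _))
        rw [f_id hR hRX hZ hf hm (hYX ⟨_, rfl⟩) (hR.yy_mem_closure _)] at hV2
        apply Idl.of_subset (fam_diff (D := D) (j := j + 1) hV2)
        rintro z ⟨⟨hz, -⟩, hz2⟩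
        refine ⟨hR.gap_mem (hZ (hP' z hz).1) hz2, fun h => ?_⟩
        obtain ⟨x, hx, rfl⟩ := hz
        have h7 := h6 x (hPX hx) h
        exact lt_asymm h7 hx.1.1.2.1
  have hPev : ∃ V' ∈ 𝓝 (0 : ℝ), Le P (((((fun x => -x) '' D.F1) ∪ (Z ∩ Ioo 0 1)) ∩ V) \ V') := by
    have h1 : ∃ V' ∈ 𝓝 (0 : ℝ),
        Le (f '' P) (((((fun x => -x) '' D.F1) ∪ (Z ∩ Ioo 0 1)) ∩ V) \ V') := by
      apply ev_union (O1 := Iio 0) (O2 := Ioi 0) isOpen_Iio isOpen_Ioi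
        (by rw [disjoint_left]; intro z h1 h2; exact lt_asymm (mem_Iio.1 h1) (mem_Ioi.1 h2))
        _ (F1_KK hneg0) hV
      · refine ⟨V1, hV1, Le.of_subset ?_⟩
        rintro z ⟨hz, hz0⟩
        obtain ⟨h1, h2, h3, h4, h5⟩ := hP' z hz
        rw [Metric.mem_ball, Real.dist_eq, sub_zero, abs_lt] at h3
        exact ⟨⟨Or.inr ⟨h1, hz0, by linarith⟩, h2⟩, h4⟩
      · intro z hz
        have h5 := (hP' z hz).2.2.2.2
        rcases lt_trichotomy z 0 with h | h | h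
        · exact Or.inl h
        · rw [h] at h5
          exact absurd hR.zero_mem_closure h5
        · exact Or.inr h
    obtain ⟨V', hV', hle⟩ := h1
    exact ⟨V', hV', (Le.image_right (hf.mono hPX)).trans hle⟩
  have hgQ : ∃ V' ∈ 𝓝 (0 : ℝ),
      Le (g '' Q) (((((fun x => -x) '' D.F1) ∪ (Z ∩ Ioo 0 1)) ∩ V) \ V') := by
    apply ev_union (O1 := Iio 0) (O2 := Ioi 0) isOpen_Iio isOpen_Ioi
      (by rw [disjoint_left]; intro z h1 h2; exact lt_asymm (mem_Iio.1 h1) (mem_Ioi.1 h2))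
      _ _ hV
    · obtain ⟨V', hV', hle⟩ := hPev
      refine ⟨V', hV', Le.trans (Le.of_subset ?_) hle⟩
      rintro _ ⟨⟨x, hx, rfl⟩, h0⟩
      obtain ⟨⟨h1 | h1, h2⟩, h3⟩ := hgm hx
      · exfalso
        obtain ⟨y, hy, hyx⟩ := h1
        have h4 := (D.F1_sub hy).1
        rw [mem_Ioi, ← hyx] at h0
        simp only at h0
        linarith
      · exact ⟨⟨h1, h2⟩, h3⟩
    · rintro _ ⟨x, hx, rfl⟩
      obtain ⟨⟨h1 | h1, h2⟩, h3⟩ := hgm hx
      · left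
        obtain ⟨y, hy, hyx⟩ := h1
        have h4 := (D.F1_sub hy).1
        rw [mem_Iio, ← hyx]
        simp only
        linarith
      · exact Or.inr h1.2.1
    · apply F1_KK
      apply Idl.of_subset (neg_F1_diff hU1')
      rintro _ ⟨⟨x, hx, rfl⟩, h0⟩
      obtain ⟨⟨h1 | h1, h2⟩, h3⟩ := hgm hx
      · exact ⟨h1, h3⟩
      · exact absurd h1.2.1 (not_lt.2 (mem_Iio.1 h0).le)
  obtain ⟨V', hV', hle⟩ := hgQ
  exact ⟨V', hV', (Le.image_right hg).trans hle⟩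

/-- the main comparison -/
theorem le_of_KK (hR : D.Rig R) {X X' : Set ℝ} (hX : X ⊆ D.CC R) (hX' : X' ⊆ D.CC R)
    (hRX' : R ⊆ X') (hYX' : YY ⊆ X') (h0 : (0 : ℝ) ∈ X') (hfull : Full D X')
    (hinf : {n | ¬ D.Sg (X' ∩ wroom n)}.Infinite)
    (hK : ∃ U0 ∈ 𝓝 (0 : ℝ), ∀ U ∈ 𝓝 (0 : ℝ), ((X ∩ Ioo 0 1) ∩ U0) \ U ∈ KK D (X' ∩ Ioo 0 1)) :
    Le X X' := by
  obtain ⟨U0, hU0, hK⟩ := hK
  obtain ⟨ε, hε, hb⟩ := Metric.nhds_basis_ball.mem_iff.1 hU0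
  obtain ⟨N, hN⟩ := sc_small hε
  have hN1 := sc_le_one N
  have hN0 := sc_pos N
  set S0 : Set ℝ := X ∩ Ioo 0 (sc N) with hS0
  have hS0ST : S0 ⊆ D.ST := fun x hx => hR.ST_mem (hX hx.1) ⟨hx.2.1, lt_of_lt_of_le hx.2.2 hN1⟩
  have hK' : ∀ U ∈ 𝓝 (0 : ℝ), S0 \ U ∈ Idl 0 (((fun x => -x) '' D.F1) ∪ (X' ∩ Ioo 0 1)) := by
    intro U hU
    apply Idl.of_subset (hK U hU)
    rintro x ⟨⟨h1, h2, h3⟩, h4⟩
    refine ⟨⟨⟨h1, h2, lt_of_lt_of_le h3 hN1⟩, hb ?_⟩, h4⟩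
    rw [Metric.mem_ball, Real.dist_eq, sub_zero, abs_of_pos h2]
    linarith
  obtain ⟨φ, hφ, hφ0, hφm⟩ := shell_emb (D.ST_countable.mono hS0ST) hK' univ_mem
  have hφS : ∀ x ∈ S0, φ x ≠ 0 ∧ (φ x < 0 → φ x ∈ (fun x => -x) '' D.F1) ∧
      (0 < φ x → φ x ∈ X' ∩ Ioo 0 1) := by
    intro x hx
    have hx0 : x ≠ 0 := hx.2.1.ne'
    obtain ⟨⟨h1, -⟩, h2⟩ := hφm ⟨hx, hx0⟩
    refine ⟨h2, fun h3 => ?_, fun h3 => ?_⟩
    · rcases h1 with h1 | h1
      · exact h1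
      · exact absurd h1.2.1 (not_lt.2 h3.le)
    · rcases h1 with ⟨y, hy, hyx⟩ | h1
      · have h4 := (D.F1_sub hy).1
        simp only at hyx
        linarith
      · exact h1
  let P : ℕ → Set ℝ := fun i => match i with
    | 0 => {x | x ∈ S0 ∧ 0 < φ x}
    | 1 => X ∩ Ioi (sc N)
    | 2 => ∅
    | k + 3 => {x | (x ∈ S0 ∧ x ∈ room k) ∧ φ x < 0}
  have hopen : ∀ x ∈ S0, ∀ O : Set ℝ, IsOpen O → φ x ∈ O →
      ∃ U ∈ 𝓝 x, ∀ y ∈ X, y ∈ U → y ∈ S0 ∧ φ y ∈ O := by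
    intro x hx O hO hxO
    obtain ⟨U, hU, h1⟩ := (hφ x (Or.inr hx)).1 O (hO.mem_nhds hxO)
    refine ⟨U ∩ Ioo 0 (sc N), inter_mem hU (isOpen_Ioo.mem_nhds hx.2), fun y hy hyU => ?_⟩
    have h2 : y ∈ S0 := ⟨hy, hyU.2⟩
    exact ⟨h2, h1 y (Or.inr h2) hyU.1⟩
  refine cmp hR hX hRX' hYX' (fun _ => h0) hfull (P := P) ?_ ?_ ?_ ?_ ?_ ?_ ?_ ?_ ?_
  · intro x hx hx0
    rcases hR.pos_cases (hX hx) hx0 with h1 | h1
    · rcases lt_trichotomy x (sc N) with h2 | h2 | h2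
      · have h3 : x ∈ S0 := ⟨hx, hx0, h2⟩
        rcases lt_trichotomy (φ x) 0 with h4 | h4 | h4
        · obtain ⟨k, hk⟩ := mem_fan_room h1
          exact ⟨k + 3, ⟨h3, hk⟩, h4⟩
        · exact absurd h4 (hφS x h3).1
        · exact ⟨0, h3, h4⟩
      · exact absurd h2 (ST_ne_sc h1 N)
      · exact ⟨1, hx, h2⟩
    · refine ⟨1, hx, ?_⟩
      rw [mem_Ioi]
      linarith [D.W_gt h1]
  · intro i x hx
    match i with
    | 0 => exact ⟨hx.1.1, hx.1.2.1⟩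
    | 1 => exact ⟨hx.1, lt_trans hN0 hx.2⟩
    | 2 => exact absurd hx (by simp [P])
    | k + 3 => exact ⟨hx.1.1.1, hx.1.1.2.1⟩
  · intro i x hx
    match i with
    | 0 => 
      obtain ⟨U, hU, h1⟩ := hopen x hx.1 (Ioi 0) isOpen_Ioi hx.2
      exact ⟨U, hU, fun y hy hyU => h1 y hy hyU⟩
    | 1 => exact ⟨_, isOpen_Ioi.mem_nhds hx.2, fun y hy hyU => ⟨hy, hyU⟩⟩
    | 2 => exact absurd hx (by simp [P])
    | k + 3 =>
      obtain ⟨U, hU, h1⟩ := hopen x hx.1.1 (Iio 0) isOpen_Iio hx.2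
      refine ⟨U ∩ room k, inter_mem hU ((isOpen_room k).mem_nhds hx.1.2), fun y hy hyU => ?_⟩
      obtain ⟨h2, h3⟩ := h1 y hy hyU.1
      exact ⟨⟨h2, hyU.2⟩, h3⟩
  · have h01 : ∀ x, x ∈ P 0 → x ∈ P 1 → False := by
      rintro x ⟨h1, -⟩ ⟨-, h2⟩
      exact lt_asymm h1.2.2 h2
    have h13 : ∀ x k, x ∈ P 1 → x ∈ P (k + 3) → False := by
      rintro x k ⟨-, h2⟩ ⟨⟨h1, -⟩, -⟩
      exact lt_asymm h1.2.2 h2
    have h03 : ∀ x k, x ∈ P 0 → x ∈ P (k + 3) → False := by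
      rintro x k ⟨-, h2⟩ ⟨-, h1⟩
      exact lt_asymm h1 h2
    intro i j x hx hy
    match i, j with
    | 0, 0 => rfl
    | 0, 1 => exact (h01 x hx hy).elim
    | 1, 0 => exact (h01 x hy hx).elim
    | 1, 1 => rfl
    | 2, _ => exact absurd hx (by simp [P])
    | _, 2 => exact absurd hy (by simp [P])
    | 0, k + 3 => exact (h03 x k hx hy).elim
    | k + 3, 0 => exact (h03 x k hy hx).elim
    | 1, k + 3 => exact (h13 x k hx hy).elim
    | k + 3, 1 => exact (h13 x k hy hx).elim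
    | k + 3, l + 3 =>
      have := room_disj hx.1.2 hy.1.2
      omega
  · intro _ i
    match i with
    | 0 => exact ⟨sc N, hN0, fun x hx => (mem_Ioi.1 hx.2).le⟩
    | 1 => exact ⟨1, one_pos, fun x hx => absurd hx (by simp [P])⟩
    | k + 2 => exact ⟨sc (k + 1), sc_pos _, fun x hx => hx.1.2.1.le⟩
  · intro _ ε' hε'
    obtain ⟨K, hK⟩ := sc_small hε'
    refine ⟨K + 1, fun j hj x hx => ?_⟩
    obtain ⟨k, rfl⟩ : ∃ k, j = k + 1 := ⟨j - 1, by omega⟩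
    have h1 : x < sc k := hx.1.2.2
    have h2 : sc k ≤ sc K := sc_anti.antitone (by omega)
    linarith
  · intro j
    match j with
    | 0 => exact Idl.empty_mem _ _
    | k + 1 =>
      obtain ⟨V, hV, h1⟩ := (hφ 0 (Or.inl rfl)).2 (Metric.ball 0 (sc (k + 1)))
        (Metric.ball_mem_nhds _ (sc_pos _))
      rw [hφ0] at hV
      apply Idl.of_le (neg_F1_diff hV)
      refine ⟨φ, hφ.mono (fun x hx => Or.inr hx.1.1), fun x hx => ?_⟩
      refine ⟨(hφS x hx.1.1).2.1 hx.2, fun h => ?_⟩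
      have h2 := h1 x (Or.inr hx.1.1) h
      have h3 : sc (k + 1) < x := hx.1.2.1
      rw [Metric.mem_ball, Real.dist_eq, sub_zero, abs_lt] at h2
      linarith
  · refine ⟨φ, hφ.mono ?_, fun _ => hφ0, fun x hx => (hφS x hx.1).2.2 hx.2⟩
    rintro x (hx | ⟨-, hx⟩)
    · exact Or.inr hx.1
    · exact Or.inl hx
  · refine Le.trans ?_ (W_le hR hX' hinf)
    -- the far part
    have hth : 0 < 1 / sc N := by positivity
    obtain ⟨e, he, he1, he2⟩ := EmbOn.two (f1 := th) (f2 := fun x => (1 - 1 / sc N) + (1 / sc N) * x)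
      (E1 := X ∩ Ioo (sc N) 1) (E2 := X ∩ Ioi 1) (O1 := Iio 1) (O2 := Ioi 1)
      (G1 := Iio (th (sc N))) (G2 := Ioi (th (sc N))) isOpen_Iio isOpen_Ioi
      (by rw [disjoint_left]; intro z h1 h2; exact lt_asymm (mem_Iio.1 h1) (mem_Ioi.1 h2))
      isOpen_Iio isOpen_Ioi
      (by rw [disjoint_left]; intro z h1 h2; exact lt_asymm (mem_Iio.1 h1) (mem_Ioi.1 h2))
      (th_emb (fun x hx => lt_trans hN0 hx.2.1)) (EmbOn.affine hth _)
      (fun x hx => hx.2.2) (fun x hx => hx.2)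
      (fun x hx => th_sc_lt hx.2.1)
      (by
        rintro x ⟨h1, h2⟩
        rw [mem_Ioi] at h2
        have h3 := D.W_gt (hR.W_mem (hX h1) h2)
        rw [mem_Ioi]
        unfold th
        have h4 : 1 / sc N * 2 < 1 / sc N * x := mul_lt_mul_of_pos_left h3 hth
        linarith)
    refine ⟨e, he.mono ?_, ?_⟩
    · rintro x ⟨h1, h2⟩
      rw [mem_Ioi] at h2
      rcases hR.pos_cases (hX h1) (lt_trans hN0 h2) with h3 | h3
      · exact Or.inl ⟨h1, h2, (D.ST_sub h3).2⟩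
      · exact Or.inr ⟨h1, by have := D.W_gt h3; rw [mem_Ioi]; linarith⟩
    · rintro x ⟨h1, h2⟩
      rw [mem_Ioi] at h2
      rcases hR.pos_cases (hX h1) (lt_trans hN0 h2) with h3 | h3
      · rw [he1 x ⟨h1, h2, (D.ST_sub h3).2⟩]
        exact ⟨x, h3, rfl⟩
      · rw [he2 x ⟨h1, by have := D.W_gt h3; rw [mem_Ioi]; linarith⟩]
        obtain ⟨t, ht, rfl⟩ := h3
        refine ⟨sc N * t, ST_scale ht N, ?_⟩
        have ht0 := (D.ST_sub ht).1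
        unfold th
        field_simp
        ring

theorem tops_right (hR : D.Rig R) {X Z : Set ℝ} {f : ℝ → ℝ} (hRX : R ⊆ X)
    (h0X : (0 : ℝ) ∈ X) (hWX : D.W ⊆ X) (hZ : Z ⊆ D.CC R) (hf : EmbOn f X) (hm : MapsTo f X Z) :
    {n | ¬ D.Sg (Z ∩ wroom n)}.Infinite := by
  have hf0 := f_id hR hRX hZ hf hm h0X hR.zero_mem_closure
  obtain ⟨V, hV, h1⟩ := (hf 0 h0X).2 (Iio 1) (isOpen_Iio.mem_nhds (by simp))
  rw [hf0] at hV
  obtain ⟨ε, hε, hb⟩ := Metric.nhds_basis_ball.mem_iff.1 hV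
  obtain ⟨K, hK⟩ := sc_small hε
  have hwX : ∀ n, D.wt n ∈ X := fun n => hWX (wt_nS subset_rfl n).1
  have hcase : ∀ n, (∃ m ∈ Iio K, f (D.wt n) = D.vt m) ∨
      (∃ m ∈ {m | ¬ D.Sg (Z ∩ wroom m)}, f (D.wt n) = D.wt m) := by
    intro n
    have h3 := nS_map hf hm (wt_nS hWX n)
    have h4 := f_out hR hRX hZ hf hm (hwX n) (hR.pos_not_closure (by linarith [wt_pos (D := D) n]))
    rcases nS_cases hR hZ h3 h4 with ⟨m, h5, h6⟩ | ⟨m, h5, h6⟩
    · left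
      refine ⟨m, ?_, h5⟩
      by_contra hcon
      have h7 : f (D.wt n) ∈ V := by
        rw [h5]
        apply hb
        have h8 := vt_room (D := D) m
        have h9 : sc m ≤ sc K := sc_anti.antitone (not_lt.1 hcon)
        have h10 := vt_Ioo (D := D) m
        rw [Metric.mem_ball, Real.dist_eq, sub_zero, abs_of_pos h10.1]
        linarith [h8.2]
      have h11 := h1 _ (hwX n) h7
      rw [mem_Iio] at h11
      linarith [wt_pos (D := D) n]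
    · exact Or.inr ⟨m, h6, h5⟩
  by_cases hI : {n | ∃ m ∈ Iio K, f (D.wt n) = D.vt m}.Infinite
  · exfalso
    exact infinite_of_maps hf wt_inj hwX hI (u := D.vt) (K := Iio K) (fun n hn => hn) (finite_Iio K)
  · rw [Set.not_infinite] at hI
    have hI' : {n | ∃ m ∈ Iio K, f (D.wt n) = D.vt m}ᶜ.Infinite := hI.infinite_compl
    apply infinite_of_maps hf wt_inj hwX hI' (u := D.wt)
    intro n hn
    exact (hcase n).resolve_left hn

theorem Pr_AX (hR : D.Rig R) : Pr (D.AA R) (D.XX R ∅) := by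
  have hRA : R ⊆ D.AA R := fun x hx => Or.inl (Or.inl hx)
  have hYA : YY ⊆ D.AA R := fun x hx => Or.inl (Or.inr hx)
  have hWA : D.W ⊆ D.AA R := fun x hx => Or.inr (Or.inr hx)
  have hXC : D.XX R ∅ ⊆ D.CC R := XX_sub (empty_subset _)
  have hAX : D.AA R ⊆ D.XX R ∅ := by
    rintro x (h | h | h)
    · exact Or.inl (Or.inl h)
    · exact Or.inr (Or.inl h)
    · exact Or.inr (Or.inr (Or.inr h))
  have hXA : ∀ Z ⊆ D.XX R ∅, (0 : ℝ) ∉ Z → Z ⊆ D.AA R := by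
    intro Z hZ h0 x hx
    rcases hZ hx with (h | h) | (h | (h | h))
    · exact Or.inl h
    · rw [mem_singleton_iff] at h
      rw [h] at hx
      exact absurd hx h0
    · exact Or.inr (Or.inl h)
    · exact absurd h (by simp)
    · exact Or.inr (Or.inr h)
  have hpos : ∀ x ∈ D.XX R ∅, x ∉ Ioo (0 : ℝ) 1 := by
    rintro x h ⟨h1, h2⟩
    rcases h with h | (h | (h | h))
    · exact absurd h1 (not_lt.2 (LL_le hR.sub h))
    · obtain ⟨j, hj, -⟩ := D.FF_gap h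
      exact absurd h1 (not_lt.2 (gap_neg hj).le)
    · exact absurd h (by simp)
    · linarith [D.W_gt h]
  apply pr_of (Le.of_subset hAX)
  · rintro ⟨f, hf, hm⟩
    apply zero_not_AA hR
    exact zero_mem_of_emb hR (X := D.XX R ∅) (fun x hx => Or.inl (Or.inl (Or.inl hx)))
      (Or.inl (Or.inr rfl)) AA_sub hf hm
  · rintro Z hZ ⟨f, hf, hm⟩
    by_cases h0 : (0 : ℝ) ∈ Z
    · right
      have hZC := hZ.trans hXC
      refine le_of_KK hR hXC hZC (R_sub_of_emb hR hRA hZC hf hm)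
        (YY_sub_of_emb hR hRA hYA hZC hf hm) h0
        (Full.of_emb hR hRA hYA hZC hf hm (full_of hR (fun x hx => Or.inr (Or.inl hx)) AA_sub))
        ?_ ?_
      · apply infinite_of_maps hf (t := D.wt) wt_inj (fun n => hWA (wt_nS subset_rfl n).1)
          (I := univ) infinite_univ (u := D.wt)
        intro n _
        have h1 := nS_map hf hm (wt_nS hWA n)
        have h2 := f_out hR hRA hZC hf hm (hWA (wt_nS subset_rfl n).1)
          (hR.pos_not_closure (by linarith [wt_pos (D := D) n]))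
        rcases nS_cases hR hZC h1 h2 with ⟨m, h3, h4⟩ | ⟨m, h3, h4⟩
        · exfalso
          have h5 := h1.1
          rw [h3] at h5
          exact hpos _ (hZ h5) (vt_Ioo m)
        · exact ⟨m, h4, h3⟩
      · refine ⟨univ, univ_mem, fun U _ => ?_⟩
        apply Idl.of_subset (Idl.empty_mem _ _)
        rintro x ⟨⟨⟨h1, h2⟩, -⟩, -⟩
        exact absurd h2 (hpos x h1)
    · left
      exact Le.of_subset (hXA Z hZ h0)

def GoodK (D : Data) (T : Set ℝ) : Prop :=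
  ∃ U0 ∈ 𝓝 (0 : ℝ), ∀ U ∈ 𝓝 (0 : ℝ), (T ∩ U0) \ U ∈ KK D T

theorem XX_Ioo (hR : D.Rig R) {S : Set ℝ} (hS : S ⊆ D.ST) : D.XX R S ∩ Ioo 0 1 = S := by
  apply Subset.antisymm
  · rintro x ⟨h, h1, h2⟩
    rcases h with h | (h | (h | h))
    · exact absurd h1 (not_lt.2 (LL_le hR.sub h))
    · obtain ⟨j, hj, -⟩ := D.FF_gap h
      exact absurd h1 (not_lt.2 (gap_neg hj).le)
    · exact h
    · linarith [D.W_gt h]
  · intro x hx
    exact ⟨Or.inr (Or.inr (Or.inl hx)), D.ST_sub (hS hx)⟩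

theorem Pr_step (hR : D.Rig R) {S S' : Set ℝ} (hS : S ⊆ D.ST) (hS' : S' ⊆ D.ST)
    (hle : KK D S ⊆ KK D S') (hne : ¬ KK D S' ⊆ KK D S)
    (hcov : ∀ T ⊆ S', KK D S ⊆ KK D T → KK D T ⊆ KK D S ∨ KK D S' ⊆ KK D T)
    (hgS : GoodK D S) (hgS' : ∀ T ⊆ S', GoodK D T) : Pr (D.XX R S) (D.XX R S') := by
  have hXC : D.XX R S ⊆ D.CC R := XX_sub hS
  have hXC' : D.XX R S' ⊆ D.CC R := XX_sub hS'
  have hRX : ∀ S, R ⊆ D.XX R S := fun S x hx => Or.inl (Or.inl (Or.inl hx))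
  have hYX : ∀ S, YY ⊆ D.XX R S := fun S x hx => Or.inl (Or.inl (Or.inr hx))
  have h0X : ∀ S, (0 : ℝ) ∈ D.XX R S := fun S => Or.inl (Or.inr rfl)
  have hWX : ∀ S, D.W ⊆ D.XX R S := fun S x hx => Or.inr (Or.inr (Or.inr hx))
  have hFX : ∀ S, D.FF ⊆ D.XX R S := fun S x hx => Or.inr (Or.inl hx)
  have htop : ∀ S, S ⊆ D.ST → {n | ¬ D.Sg (D.XX R S ∩ wroom n)}.Infinite := fun S hS =>
    tops_right hR (hRX S) (h0X S) (hWX S) (XX_sub hS) (EmbOn.id _) (fun x hx => hx)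
  apply pr_of
  · apply le_of_KK hR hXC hXC' (hRX _) (hYX _) (h0X _) (full_of hR (hFX _) hXC') (htop S' hS')
    obtain ⟨U0, hU0, h1⟩ := hgS
    refine ⟨U0, hU0, fun U hU => ?_⟩
    rw [XX_Ioo hR hS, XX_Ioo hR hS']
    exact hle (h1 U hU)
  · rintro ⟨f, hf, hm⟩
    apply hne
    have := near_zero hR (hRX _) (hYX _) (h0X _) hXC hf hm
    rwa [XX_Ioo hR hS, XX_Ioo hR hS'] at this
  · rintro Z hZ ⟨f, hf, hm⟩
    have hZC := hZ.trans hXC'
    set T := Z ∩ Ioo 0 1 with hT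
    have hTS' : T ⊆ S' := by
      intro x hx
      rw [← XX_Ioo hR hS']
      exact ⟨hZ hx.1, hx.2⟩
    have h1 := near_zero hR (hRX _) (hYX _) (h0X _) hZC hf hm
    rw [XX_Ioo hR hS] at h1
    rcases hcov T hTS' h1 with h2 | h2
    · left
      apply le_of_KK hR hZC hXC (hRX _) (hYX _) (h0X _) (full_of hR (hFX _) hXC) (htop S hS)
      obtain ⟨U0, hU0, h3⟩ := hgS' T hTS'
      refine ⟨U0, hU0, fun U hU => ?_⟩
      rw [XX_Ioo hR hS]
      exact h2 (h3 U hU)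
    · right
      apply le_of_KK hR hXC' hZC (R_sub_of_emb hR (hRX _) hZC hf hm)
        (YY_sub_of_emb hR (hRX _) (hYX _) hZC hf hm) (zero_mem_of_emb hR (hRX _) (h0X _) hZC hf hm)
        (Full.of_emb hR (hRX _) (hYX _) hZC hf hm (full_of hR (hFX _) hXC))
        (tops_right hR (hRX _) (h0X _) (hWX _) hZC hf hm)
      obtain ⟨U0, hU0, h3⟩ := hgS' S' subset_rfl
      refine ⟨U0, hU0, fun U hU => ?_⟩
      rw [XX_Ioo hR hS']
      exact h2 (h3 U hU)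

end Data

end Pool.Agent.Helper754
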